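import Pool.Agent.MP_fcbc9a_lc.Mg.Main

/-!
Abstract definability systems and the elementary theory of the rank.
-/

open Set

namespace Pool.Agent.MP_fcbc9a_lc.H58

universe u

/-- A system of definable predicates on a type. -/
class DS (M : Type u) where
  P : ∀ {α : Type}, ((α → M) → Prop) → Prop
  top : ∀ {α : Type}, P fun _ : α → M => True
  and : ∀ {α : Type} {p q : (α → M) → Prop}, P p → P q → P fun v => p v ∧ q v
  not : ∀ {α : Type} {p : (α → M) → Prop}, P p → P fun v => ¬p v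
  comp : ∀ {α β : Type} (f : α → β) {p : (α → M) → Prop}, P p → P fun v : β → M => p (v ∘ f)
  ex : ∀ {α β : Type} [Finite β] {p : (α ⊕ β → M) → Prop}, P p →
    P fun v : α → M => ∃ u : β → M, p (Sum.elim v u)
  eq : ∀ {α : Type} (i j : α), P fun v : α → M => v i = v j
  const : ∀ {α : Type} (i : α) (a : M), P fun v : α → M => v i = a

variable {M : Type u} [DS M]

/-- definable predicate on tuples -/
def Dp {α : Type} (p : (α → M) → Prop) : Prop := DS.P p

/-- definable map on tuples -/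
def Dm {α : Type} (f : (α → M) → M) : Prop :=
  Dp fun w : Option α → M => w none = f fun i => w (some i)

/-- definable unary map -/
def Dm1 (h : M → M) : Prop := Dm fun v : Fin 1 → M => h (v 0)

/-- definable binary map -/
def Dm2 (h : M → M → M) : Prop := Dm fun v : Fin 2 → M => h (v 0) (v 1)

/-- definable set -/
def Ds (X : Set M) : Prop := Dp fun v : Fin 1 → M => v 0 ∈ X

/-- definable binary relation -/
def Dr2 (R : M → M → Prop) : Prop := Dp fun v : Fin 2 → M => R (v 0) (v 1)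

/-- definable ternary relation -/
def Dr3 (R : M → M → M → Prop) : Prop := Dp fun v : Fin 3 → M => R (v 0) (v 1) (v 2)

/-- the clause: rank at least n -/
def Rk : ℕ → Set M → Prop
  | 0, X => X.Nonempty
  | n + 1, X => ∃ Y : ℕ → Set M, (∀ i, Ds (Y i) ∧ Y i ⊆ X ∧ Rk n (Y i)) ∧
      Pairwise fun i j => Disjoint (Y i) (Y j)

/-- no order property -/
def Nop (M : Type u) [DS M] : Prop :=
  ∀ R : M → M → M → Prop, Dr3 R → ¬∃ a b c : ℕ → M, ∀ i j, R (a i) (b j) (c j) ↔ i < j

section toolkit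

variable {α : Type} {p q : (α → M) → Prop} {f g k : (α → M) → M}

theorem Dp.congr (hp : Dp p) (h : ∀ v, p v ↔ q v) : Dp q := by
  rwa [show q = p from funext fun v => propext (h v).symm]

theorem Dm.congr (hf : Dm f) (h : ∀ v, f v = g v) : Dm g := by
  rwa [show g = f from funext fun v => (h v).symm]

theorem Dp.top : Dp fun _ : α → M => True := DS.top

theorem Dp.and (hp : Dp p) (hq : Dp q) : Dp fun v => p v ∧ q v := DS.and hp hq

theorem Dp.not (hp : Dp p) : Dp fun v => ¬p v := DS.not hp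

theorem Dp.prop (c : Prop) : Dp fun _ : α → M => c := by
  by_cases h : c
  · exact Dp.top.congr fun _ => by simp [h]
  · exact Dp.top.not.congr fun _ => by simp [h]

theorem Dp.or (hp : Dp p) (hq : Dp q) : Dp fun v => p v ∨ q v :=
  (hp.not.and hq.not).not.congr fun v => by tauto

theorem Dp.imp (hp : Dp p) (hq : Dp q) : Dp fun v => p v → q v :=
  (hp.and hq.not).not.congr fun v => by tauto

theorem Dp.iff (hp : Dp p) (hq : Dp q) : Dp fun v => p v ↔ q v :=
  ((hp.imp hq).and (hq.imp hp)).congr fun v => by tauto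

theorem Dp.comp {β : Type} (e : α → β) (hp : Dp p) : Dp fun v : β → M => p fun i => v (e i) :=
  DS.comp e hp

theorem Dp.forall_mem {ι : Type*} {s : Set ι} (hs : s.Finite) {r : ι → (α → M) → Prop}
    (h : ∀ i ∈ s, Dp (r i)) : Dp fun v => ∀ i ∈ s, r i v := by
  induction s, hs using Set.Finite.induction_on with
  | empty => exact Dp.top.congr fun v => by simp
  | insert _ _ ih =>
    exact ((h _ (mem_insert _ _)).and (ih fun i hi => h i (mem_insert_of_mem _ hi))).congr
      fun v => by simp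

theorem Dp.forall_fin {ι : Type*} [Finite ι] {r : ι → (α → M) → Prop} (h : ∀ i, Dp (r i)) :
    Dp fun v => ∀ i, r i v :=
  (Dp.forall_mem finite_univ fun i _ => h i).congr fun v => by simp

theorem Dp.exists_mem {ι : Type*} {s : Set ι} (hs : s.Finite) {r : ι → (α → M) → Prop}
    (h : ∀ i ∈ s, Dp (r i)) : Dp fun v => ∃ i ∈ s, r i v :=
  (Dp.forall_mem hs fun i hi => (h i hi).not).not.congr fun v => by simp

/-- existential quantifier over finite tuples -/
theorem Dp.exs {β : Type} [Finite β] {r : (α → M) → (β → M) → Prop}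
    (h : Dp fun w : α ⊕ β → M => r (fun i => w (Sum.inl i)) fun j => w (Sum.inr j)) :
    Dp fun v => ∃ u, r v u := DS.ex h

theorem Dp.ex {r : (α → M) → M → Prop}
    (h : Dp fun w : Option α → M => r (fun i => w (some i)) (w none)) :
    Dp fun v => ∃ y, r v y :=
  (Dp.exs (β := Unit) (r := fun v u => r v (u ()))
    (h.comp fun o : Option α => o.elim (Sum.inr ()) Sum.inl)).congr fun _ =>
      ⟨fun ⟨u, hu⟩ => ⟨u (), hu⟩, fun ⟨y, hy⟩ => ⟨fun _ => y, hy⟩⟩

theorem Dp.all {r : (α → M) → M → Prop}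
    (h : Dp fun w : Option α → M => r (fun i => w (some i)) (w none)) :
    Dp fun v => ∀ y, r v y :=
  (Dp.ex (r := fun v y => ¬r v y) h.not).not.congr fun v => by simp

theorem Dm.var (i : α) : Dm fun v : α → M => v i := DS.eq none (some i)

theorem Dm.const (a : M) : Dm fun _ : α → M => a := DS.const none a

theorem Dm.reindex {β : Type} (e : α → β) (hf : Dm f) : Dm fun v : β → M => f fun i => v (e i) :=
  Dp.comp (Option.map e) hf

/-- substitution of definable maps in a definable predicate -/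
theorem Dp.subst {β : Type} [Finite β] {r : (β → M) → Prop} (hr : Dp r) {F : (α → M) → β → M}
    (hF : ∀ b, Dm fun v => F v b) : Dp fun v => r (F v) :=
  (Dp.exs (r := fun v u => (∀ b, u b = F v b) ∧ r u)
    ((Dp.forall_fin fun b => Dp.comp (fun o : Option α => o.elim (Sum.inr b) Sum.inl) (hF b)).and
      (hr.comp Sum.inr))).congr fun v =>
    ⟨fun ⟨u, h1, h2⟩ => (funext h1 : u = F v) ▸ h2, fun h => ⟨F v, fun _ => rfl, h⟩⟩

theorem Dp.eq (hf : Dm f) (hg : Dm g) : Dp fun v => f v = g v :=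
  Dp.subst (β := Bool) (r := fun u => u true = u false) (DS.eq true false)
    (F := fun v b => cond b (f v) (g v)) fun b => by cases b <;> assumption

theorem Dm.subst {β : Type} [Finite β] {h : (β → M) → M} (hh : Dm h) {F : (α → M) → β → M}
    (hF : ∀ b, Dm fun v => F v b) : Dm fun v => h (F v) :=
  Dp.subst hh (F := fun (w : Option α → M) o => o.elim (w none) (F fun i => w (some i)))
    fun o => by
      cases o with
      | none => exact Dm.var none
      | some b => exact (hF b).reindex some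

theorem Dm1.comp {h : M → M} (hh : Dm1 h) (hf : Dm f) : Dm fun v => h (f v) :=
  Dm.subst hh (F := fun v _ => f v) fun _ => hf

theorem Dm2.comp {h : M → M → M} (hh : Dm2 h) (hf : Dm f) (hg : Dm g) :
    Dm fun v => h (f v) (g v) :=
  Dm.subst hh (F := fun v => ![f v, g v]) (Fin.forall_fin_two.2 ⟨hf, hg⟩)

theorem Ds.mem {X : Set M} (hX : Ds X) (hf : Dm f) : Dp fun v => f v ∈ X :=
  Dp.subst hX (F := fun v _ => f v) fun _ => hf

theorem Dr2.comp {R : M → M → Prop} (hR : Dr2 R) (hf : Dm f) (hg : Dm g) :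
    Dp fun v => R (f v) (g v) :=
  Dp.subst hR (F := fun v => ![f v, g v]) (Fin.forall_fin_two.2 ⟨hf, hg⟩)

theorem Dr3.comp {R : M → M → M → Prop} (hR : Dr3 R) (hf : Dm f) (hg : Dm g) (hk : Dm k) :
    Dp fun v => R (f v) (g v) (k v) :=
  Dp.subst hR (F := fun v => ![f v, g v, k v])
    (Fin.forall_fin_succ.2 ⟨hf, Fin.forall_fin_two.2 ⟨hg, hk⟩⟩)

/-- a map with definable graph is definable -/
theorem Dm.of_graph {r : (α → M) → M → Prop} (hr : ∀ v y, r v y ↔ y = f v)
    (H : Dp fun w : Option α → M => r (fun i => w (some i)) (w none)) : Dm f :=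
  H.congr fun _ => hr _ _

theorem Dm1.of_graph {h : M → M} {r : M → M → Prop} (hr : ∀ x y, r x y ↔ h x = y)
    (H : Dr2 r) : Dm1 h :=
  Dm.of_graph (r := fun v y => r (v 0) y) (fun _ _ => (hr _ _).trans eq_comm)
    (H.comp (Dm.var _) (Dm.var _))

theorem Dm1.id : Dm1 fun x : M => x := Dm.var _

theorem Dm1.trans {h h' : M → M} (hh : Dm1 h) (hh' : Dm1 h') : Dm1 fun x => h (h' x) :=
  hh.comp hh'

theorem Ds.inter {X Y : Set M} (hX : Ds X) (hY : Ds Y) : Ds (X ∩ Y) := Dp.and hX hY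

theorem Ds.union {X Y : Set M} (hX : Ds X) (hY : Ds Y) : Ds (X ∪ Y) := Dp.or hX hY

theorem Ds.diff {X Y : Set M} (hX : Ds X) (hY : Ds Y) : Ds (X \ Y) := Dp.and hX (Dp.not hY)

theorem Ds.compl {X : Set M} (hX : Ds X) : Ds Xᶜ := Dp.not hX

theorem Ds.univ : Ds (univ : Set M) := Dp.top

theorem Ds.empty : Ds (∅ : Set M) := Dp.prop False

theorem Ds.image {X : Set M} {h : M → M} (hX : Ds X) (hh : Dm1 h) : Ds (h '' X) :=
  Dp.ex (r := fun (v : Fin 1 → M) y => y ∈ X ∧ h y = v 0)
    ((hX.mem (Dm.var _)).and (Dp.eq (hh.comp (Dm.var _)) (Dm.var _)))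

theorem Ds.preimage {X : Set M} {h : M → M} (hX : Ds X) (hh : Dm1 h) : Ds (h ⁻¹' X) :=
  hX.mem hh

theorem Ds.biUnion {ι : Type*} {s : Set ι} (hs : s.Finite) {Y : ι → Set M}
    (hY : ∀ i ∈ s, Ds (Y i)) : Ds (⋃ i ∈ s, Y i) :=
  (Dp.exists_mem hs hY).congr fun v => by simp

theorem Ds.biInter {ι : Type*} {s : Set ι} (hs : s.Finite) {Y : ι → Set M}
    (hY : ∀ i ∈ s, Ds (Y i)) : Ds (⋂ i ∈ s, Y i) :=
  (Dp.forall_mem hs hY).congr fun v => by simp

theorem Ds.singleton (a : M) : Ds ({a} : Set M) := Dp.eq (Dm.var _) (Dm.const a)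

theorem Ds.finite {s : Set M} (hs : s.Finite) : Ds s := by
  rw [← biUnion_of_singleton s]
  exact Ds.biUnion hs fun a _ => Ds.singleton a

end toolkit

section rank

variable {X Y : Set M} {n : ℕ}

theorem Rk.mono (h : Rk n X) (hXY : X ⊆ Y) : Rk n Y := by
  cases n with
  | zero => exact Set.Nonempty.mono hXY h
  | succ n =>
    obtain ⟨Z, hZ, hd⟩ := h
    exact ⟨Z, fun i => ⟨(hZ i).1, (hZ i).2.1.trans hXY, (hZ i).2.2⟩, hd⟩

theorem Rk.of_succ (h : Rk (n + 1) X) : Rk n X := by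
  obtain ⟨Z, hZ, -⟩ := h
  exact (hZ 0).2.2.mono (hZ 0).2.1

theorem Rk.of_le {m : ℕ} (hm : m ≤ n) (h : Rk n X) : Rk m X := by
  induction hm with
  | refl => exact h
  | step _ ih => exact ih h.of_succ

theorem Rk.nonempty (h : Rk n X) : X.Nonempty := h.of_le (Nat.zero_le n)

theorem rk_succ_of_infinite {ι : Type*} {I : Set ι} (hI : I.Infinite) {Z : ι → Set M}
    (hZ : ∀ i ∈ I, Ds (Z i) ∧ Z i ⊆ X ∧ Rk n (Z i))
    (hd : ∀ i ∈ I, ∀ j ∈ I, i ≠ j → Disjoint (Z i) (Z j)) : Rk (n + 1) X :=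
  ⟨fun k => Z (hI.natEmbedding I k), fun k => hZ _ (hI.natEmbedding I k).2, fun k l hkl =>
    hd _ (hI.natEmbedding I k).2 _ (hI.natEmbedding I l).2 fun e =>
      hkl ((hI.natEmbedding I).injective (Subtype.ext e))⟩

theorem Rk.union (hX : Ds X) (h : Rk n (X ∪ Y)) :
    Rk n X ∨ Rk n Y := by
  induction n generalizing X Y with
  | zero => exact union_nonempty.1 h
  | succ n ih =>
    obtain ⟨Z, hZ, hd⟩ := h
    have key : ∀ i, Rk n (Z i ∩ X) ∨ Rk n (Z i \ X) := fun i =>
      ih (Ds.inter (hZ i).1 hX) (by rw [inter_union_sdiff]; exact (hZ i).2.2)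
    have hu : ({i | Rk n (Z i ∩ X)} ∪ {i | Rk n (Z i \ X)}).Infinite := by
      exact infinite_univ.mono fun i _ => key i
    rcases infinite_union.1 hu with h1 | h1
    · exact Or.inl (rk_succ_of_infinite h1
        (fun i hi => ⟨Ds.inter (hZ i).1 hX, inter_subset_right, hi⟩)
        fun i _ j _ hij => (hd hij).mono inter_subset_left inter_subset_left)
    · exact Or.inr (rk_succ_of_infinite h1
        (fun i hi => ⟨Ds.diff (hZ i).1 hX, fun x hx => ((hZ i).2.1 hx.1).resolve_left hx.2, hi⟩)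
        fun i _ j _ hij => (hd hij).mono sdiff_subset sdiff_subset)

theorem Rk.diff (hY : Ds Y) (h : Rk n X) (hs : ¬Rk n (X ∩ Y)) (hX : Ds X) :
    Rk n (X \ Y) :=
  (Rk.union (hX.inter hY) (by rw [inter_union_sdiff]; exact h)).resolve_left hs

theorem Rk.biUnion {ι : Type*} {s : Set ι} (hs : s.Finite) {Z : ι → Set M}
    (hZ : ∀ i ∈ s, Ds (Z i)) (h : Rk n (⋃ i ∈ s, Z i)) : ∃ i ∈ s, Rk n (Z i) := by
  induction s, hs using Set.Finite.induction_on with
  | empty => simpa using h.nonempty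
  | insert _ _ ih =>
    rw [biUnion_insert] at h
    rcases h.union (hZ _ (mem_insert _ _)) with h | h
    · exact ⟨_, mem_insert _ _, h⟩
    · obtain ⟨i, hi, h⟩ := ih (fun i hi => hZ i (mem_insert_of_mem _ hi)) h
      exact ⟨i, mem_insert_of_mem _ hi, h⟩

theorem Rk.image {h : M → M} (hh : Dm1 h) (hi : InjOn h X) (H : Rk n X) :
    Rk n (h '' X) := by
  induction n generalizing X with
  | zero => exact Set.Nonempty.image h H
  | succ n ih =>
    obtain ⟨Z, hZ, hd⟩ := H
    exact ⟨fun i => h '' Z i, fun i => ⟨Ds.image (hZ i).1 hh, image_mono (hZ i).2.1,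
      ih (hi.mono (hZ i).2.1) (hZ i).2.2⟩,
      fun i j hij => disjoint_image_image fun a ha b hb e =>
        disjoint_left.1 (hd hij) ha (hi ((hZ i).2.1 ha) ((hZ j).2.1 hb) e ▸ hb)⟩

theorem Rk.maps {h : M → M} (hh : Dm1 h) (hi : InjOn h X) (hm : MapsTo h X Y)
    (H : Rk n X) : Rk n Y :=
  (H.image hh hi).mono hm.image_subset

/-- Every nonempty set has an exact rank. -/
theorem exists_rank (hfin : ∃ n, ¬Rk n (univ : Set M)) (hX : X.Nonempty) :
    ∃ r, Rk r X ∧ ¬Rk (r + 1) X := by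
  classical
  obtain ⟨n, hn⟩ := hfin
  have hex : ∃ k, ¬Rk k X := ⟨n, fun h => hn (h.mono (subset_univ X))⟩
  have h0 : Nat.find hex ≠ 0 := fun e => by
    have := Nat.find_spec hex
    rw [e] at this
    exact this hX
  obtain ⟨r, hr⟩ := Nat.exists_eq_succ_of_ne_zero h0
  refine ⟨r, not_not.1 (Nat.find_min hex (by omega)), ?_⟩
  have := Nat.find_spec hex
  rwa [hr] at this

/-- No paradoxical decomposition. -/
theorem paradox {X' : Set M} {f : M → M} (hf : Dm1 f) (hX' : Ds X') (hY : Ds Y)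
    (hi : InjOn f X') (hm : MapsTo f X' X) (hYX : Y ⊆ X) (hd : Disjoint Y (f '' X'))
    (hr : Rk n Y) (hs : ¬Rk n (X \ X')) : Rk (n + 1) X := by
  let Z : ℕ → Set M := fun k => Nat.rec Y (fun _ W => f '' (W ∩ X')) k
  have hZ0 : Z 0 = Y := rfl
  have hZs : ∀ k, Z (k + 1) = f '' (Z k ∩ X') := fun _ => rfl
  have h1 : ∀ k, Ds (Z k) ∧ Z k ⊆ X ∧ Rk n (Z k) := by
    intro k
    induction k with
    | zero => exact ⟨hY, hYX, hr⟩
    | succ k ih =>
      rw [hZs]
      refine ⟨(ih.1.inter hX').image hf, (hm.mono_left inter_subset_right).image_subset,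
        Rk.image hf (hi.mono inter_subset_right) ?_⟩
      refine (Rk.union (Y := Z k \ X') (ih.1.inter hX') ?_).resolve_right fun h =>
        hs (h.mono (sdiff_subset_sdiff_left ih.2.1))
      rw [inter_union_sdiff]
      exact ih.2.2
  have h2 : ∀ k l, k < l → Disjoint (Z k) (Z l) := by
    intro k
    induction k with
    | zero =>
      intro l hl
      obtain ⟨l, rfl⟩ := Nat.exists_eq_succ_of_ne_zero hl.ne'
      rw [hZ0, hZs]
      exact hd.mono_right (image_mono inter_subset_right)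
    | succ k ih =>
      intro l hl
      obtain ⟨l, rfl⟩ := Nat.exists_eq_succ_of_ne_zero (Nat.ne_zero_of_lt hl)
      rw [hZs, hZs]
      exact disjoint_image_image fun a ha b hb e =>
        disjoint_left.1 (ih l (by omega)) ha.1 (hi ha.2 hb.2 e ▸ hb.1)
  exact ⟨Z, h1, fun k l hkl => (lt_or_gt_of_ne hkl).elim (h2 k l) fun h => (h2 l k h).symm⟩

/-- A sequence of sets of rank ≥ n with pairwise small intersections raises the rank. -/
theorem rk_succ_of_almost_disjoint {Z : ℕ → Set M}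
    (hZ : ∀ i, Ds (Z i) ∧ Z i ⊆ X ∧ Rk n (Z i))
    (hd : ∀ i j, j < i → ¬Rk n (Z i ∩ Z j)) : Rk (n + 1) X := by
  have hU : ∀ i, Ds (⋃ j ∈ Iio i, Z j) := fun i => Ds.biUnion (finite_Iio i) fun j _ => (hZ j).1
  refine ⟨fun i => Z i \ ⋃ j ∈ Iio i, Z j, fun i => ⟨(hZ i).1.diff (hU i),
    sdiff_subset.trans (hZ i).2.1, Rk.diff (hU i) (hZ i).2.2 (fun h => ?_) (hZ i).1⟩, ?_⟩
  · rw [inter_iUnion₂] at h
    obtain ⟨j, hj, h⟩ := Rk.biUnion (finite_Iio i) (fun j _ => (hZ i).1.inter (hZ j).1) h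
    exact hd i j hj h
  · have key : ∀ i j, j < i → Disjoint (Z i \ ⋃ j ∈ Iio i, Z j) (Z j \ ⋃ k ∈ Iio j, Z k) :=
      fun i j hj => disjoint_left.2 fun x hx hx' => hx.2 (mem_biUnion hj hx'.1)
    exact fun i j hij => (lt_or_gt_of_ne hij).elim (fun h => (key j i h).symm) (key i j)

/-- a definable set of rank ≥ n which cannot be split into two such sets -/
def Ir (n : ℕ) (A : Set M) : Prop :=
  Ds A ∧ Rk n A ∧ ∀ Z, Ds Z → Rk n (A ∩ Z) → ¬Rk n (A \ Z)

theorem exists_ir (hX : Ds X) (hr : Rk n X) (hn : ¬Rk (n + 1) X) :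
    ∃ A ⊆ X, Ir n A := by
  by_contra hc
  push Not at hc
  have step : ∀ A : {A : Set M // Ds A ∧ A ⊆ X ∧ Rk n A},
      ∃ B : {A : Set M // Ds A ∧ A ⊆ X ∧ Rk n A},
        B.1 ⊆ A.1 ∧ Rk n (A.1 \ B.1) := by
    rintro ⟨A, h1, h2, h3⟩
    have := hc A h2
    unfold Ir at this
    push Not at this
    obtain ⟨Z, hZ, h4, h5⟩ := this h1 h3
    exact ⟨⟨A ∩ Z, h1.inter hZ, inter_subset_left.trans h2, h4⟩, inter_subset_left,
      by simpa using h5⟩
  choose F hF using step
  let A : ℕ → {A : Set M // Ds A ∧ A ⊆ X ∧ Rk n A} := fun k => F^[k] ⟨X, hX, Subset.rfl, hr⟩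
  have hA : ∀ k, A (k + 1) = F (A k) := fun k => Function.iterate_succ_apply' F k _
  have anti : Antitone fun k => (A k).1 := antitone_nat_of_succ_le fun k => by
    rw [hA]; exact (hF _).1
  refine hn ⟨fun k => (A k).1 \ (A (k + 1)).1, fun k => ⟨(A k).2.1.diff (A (k + 1)).2.1,
    sdiff_subset.trans (A k).2.2.1, by simpa only [hA] using (hF (A k)).2⟩, ?_⟩
  have key : ∀ k l, k < l → Disjoint ((A k).1 \ (A (k + 1)).1) ((A l).1 \ (A (l + 1)).1) :=
    fun k l hkl => disjoint_left.2 fun x hx hx' => hx.2 (anti (Nat.succ_le_of_lt hkl) hx'.1)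
  exact fun k l hkl => (lt_or_gt_of_ne hkl).elim (key k l) fun h => (key l k h).symm

theorem Ir.inter {A Z W : Set M} (hA : Ir n A) (hZ : Ds Z) (hW : Ds W)
    (h1 : Rk n (A ∩ Z)) (h2 : Rk n (A ∩ W)) : Rk n (A ∩ Z ∩ W) := by
  refine (Rk.union (Y := (A ∩ Z) \ W) ((hA.1.inter hZ).inter hW) ?_).resolve_right fun h =>
    hA.2.2 W hW h2 (h.mono (sdiff_subset_sdiff_left inter_subset_left))
  rw [inter_union_sdiff]
  exact h1


theorem Rk.infinite (h : Rk (n + 1) X) : X.Infinite := by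
  obtain ⟨Z, hZ, hd⟩ := h
  choose a ha using fun i => (hZ i).2.2.nonempty
  exact infinite_of_injective_forall_mem (f := a)
    (fun i j e => by_contra fun hij => disjoint_left.1 (hd hij) (ha i) (e ▸ ha j))
    fun i => (hZ i).2.1 (ha i)

theorem rk_one_of_infinite (h : X.Infinite) : Rk 1 X :=
  rk_succ_of_infinite h (Z := fun a => {a})
    (fun a ha => ⟨Ds.singleton a, singleton_subset_iff.2 ha, singleton_nonempty a⟩)
    fun _ _ _ _ e => disjoint_singleton.2 e

/-- The rank of an image is at most the rank of the source. -/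
theorem Rk.of_image {h : M → M} (hh : Dm1 h) (hX : Ds X) (H : Rk n (h '' X)) : Rk n X := by
  have key : ∀ (n : ℕ) (Y : Set M), Y ⊆ h '' X → Rk n Y → Rk n (X ∩ h ⁻¹' Y) := by
    intro n
    induction n with
    | zero =>
      rintro Y hY ⟨y, hy⟩
      obtain ⟨x, hx, rfl⟩ := hY hy
      exact ⟨x, hx, hy⟩
    | succ n ih =>
      rintro Y hY ⟨Z, hZ, hd⟩
      exact ⟨fun i => X ∩ h ⁻¹' Z i, fun i => ⟨hX.inter ((hZ i).1.preimage hh),
        inter_subset_inter_right _ (preimage_mono (hZ i).2.1),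
        ih _ ((hZ i).2.1.trans hY) (hZ i).2.2⟩, fun i j hij =>
          ((hd hij).preimage h).mono inter_subset_right inter_subset_right⟩
  exact (key n _ Subset.rfl H).mono inter_subset_left

theorem Ir.biInter {ι : Type*} {s : Set ι} (hs : s.Finite) {A : Set M} (hA : Ir n A)
    {Z : ι → Set M} (hZ : ∀ i ∈ s, Ds (Z i) ∧ Rk n (A ∩ Z i)) : Rk n (A ∩ ⋂ i ∈ s, Z i) := by
  induction s, hs using Set.Finite.induction_on with
  | empty => simpa using hA.2.1
  | @insert a s _ hs ih =>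
    rw [biInter_insert, ← inter_assoc]
    exact hA.inter (hZ _ (mem_insert _ _)).1
      (Ds.biInter hs fun i hi => (hZ i (mem_insert_of_mem _ hi)).1) (hZ _ (mem_insert _ _)).2
      (ih fun i hi => hZ i (mem_insert_of_mem _ hi))

/-- degree one: two definable subsets of full rank are not disjoint -/
def Deg1 (X : Set M) : Prop :=
  ∀ (n : ℕ) (Y Z : Set M), Ds Y → Ds Z → Y ⊆ X → Z ⊆ X → Rk n Y → Rk n Z → ¬Rk (n + 1) X →
    (Y ∩ Z).Nonempty

theorem rk_succ_of_bounded {N : ℕ} {W : ℕ → Set M}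
    (hW : ∀ i, Ds (W i) ∧ W i ⊆ X ∧ Rk n (W i))
    (hN : ∀ (s : Finset ℕ) (y : M), (∀ i ∈ s, y ∈ W i) → s.card ≤ N) : Rk (n + 1) X := by
  classical
  induction N generalizing W with
  | zero =>
    obtain ⟨y, hy⟩ := (hW 0).2.2.nonempty
    simpa using hN {0} y (by simpa using hy)
  | succ N ih =>
    by_cases h : ∃ i, {j | Rk n (W i ∩ W j)}.Infinite
    · obtain ⟨i, hi⟩ := h
      have hi' := hi.sdiff (finite_singleton i)
      let e := hi'.natEmbedding _
      refine ih (W := fun k => W i ∩ W (e k)) (fun k => ⟨(hW i).1.inter (hW _).1,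
        inter_subset_left.trans (hW i).2.1, (e k).2.1⟩) fun s y hy => ?_
      rcases s.eq_empty_or_nonempty with rfl | ⟨k₀, hk₀⟩
      · simp
      have h1 := hN (insert i (s.image fun k => (e k : ℕ))) y (by
        intro j hj
        rcases Finset.mem_insert.1 hj with rfl | hj
        · exact (hy k₀ hk₀).1
        · obtain ⟨k, hk, rfl⟩ := Finset.mem_image.1 hj
          exact (hy k hk).2)
      rw [Finset.card_insert_of_notMem (by
        intro hj
        obtain ⟨k, -, hk⟩ := Finset.mem_image.1 hj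
        exact (e k).2.2 hk), Finset.card_image_of_injective _
          fun a b hab => e.injective (Subtype.ext hab)] at h1
      omega
    · push Not at h
      obtain ⟨f, -, hf⟩ := exists_seq_of_forall_finset_exists (fun _ : ℕ => True)
        (fun i j => ¬Rk n (W i ∩ W j)) fun s _ => by
          obtain ⟨j, hj⟩ := (s.finite_toSet.biUnion fun i _ => h i).infinite_compl.nonempty
          exact ⟨j, trivial, fun i hi hr => hj (mem_biUnion hi hr)⟩
      exact rk_succ_of_almost_disjoint (Z := fun k => W (f k)) (fun k => hW _)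
        fun i j hj hr => hf j i hj (inter_comm _ _ ▸ hr)

/-- Maps with fibres of bounded size keep the rank. -/
theorem Rk.image_bounded {h : M → M} (hh : Dm1 h) {N : ℕ}
    (hN : ∀ (s : Finset M) (y : M), (∀ x ∈ s, x ∈ X ∧ h x = y) → s.card ≤ N) (H : Rk n X) :
    Rk n (h '' X) := by
  classical
  induction n generalizing X with
  | zero => exact Set.Nonempty.image h H
  | succ n ih =>
    obtain ⟨Z, hZ, hd⟩ := H
    refine rk_succ_of_bounded (N := N) (W := fun i => h '' Z i) (fun i => ⟨(hZ i).1.image hh,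
      image_mono (hZ i).2.1, ih (fun s y hs => hN s y fun x hx =>
        ⟨(hZ i).2.1 (hs x hx).1, (hs x hx).2⟩) (hZ i).2.2⟩) fun s y hy => ?_
    have : Nonempty M := ⟨y⟩
    choose! a ha ha' using hy
    rw [← Finset.card_image_of_injOn (f := a) fun i hi j hj e => by_contra fun hij =>
      disjoint_left.1 (hd hij) (ha i hi) (e ▸ ha j hj)]
    refine hN _ y fun x hx => ?_
    obtain ⟨i, hi, rfl⟩ := Finset.mem_image.1 hx
    exact ⟨(hZ i).2.1 (ha i hi), ha' i hi⟩

/-- Definability of types. -/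
theorem def_type (hn : Nop M) {A : Set M} (hA : Ir n A) {R : M → M → Prop} (hR : Dr2 R) :
    Ds {b | Rk n (A ∩ {x | R x b})} := by
  classical
  by_contra hc
  have hD : ∀ b, Ds {x | R x b} := fun b => hR.comp (Dm.var _) (Dm.const b)
  have step1 : ∀ s : Finset M, ∃ b b', (∀ c ∈ s, R c b ↔ R c b') ∧ Rk n (A ∩ {x | R x b}) ∧
      ¬Rk n (A ∩ {x | R x b'}) := by
    intro s
    by_contra h
    push Not at h
    refine hc (Dp.congr (p := fun v : Fin 1 → M => ∃ t ∈ {t : Finset M | t ⊆ s ∧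
      ∃ b, Rk n (A ∩ {x | R x b}) ∧ ∀ c ∈ s, R c b ↔ c ∈ t}, ∀ c ∈ (s : Set M), (R c (v 0) ↔ c ∈ t))
      (Dp.exists_mem (s.powerset.finite_toSet.subset fun t ht => by simpa using ht.1) fun t _ =>
        Dp.forall_mem s.finite_toSet fun c _ =>
          (hR.comp (Dm.const c) (Dm.var _)).iff (Dp.prop _)) fun v => ⟨?_, fun hv => ?_⟩)
    · rintro ⟨t, ⟨-, b, hb, hbt⟩, hv⟩
      exact h b (v 0) (fun c hc => (hbt c hc).trans (hv c hc).symm) hb
    · exact ⟨s.filter fun c => R c (v 0), ⟨Finset.filter_subset _ _, v 0, hv, fun c hc => by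
        simp [hc]⟩, fun c hc => by simp [show c ∈ s from hc]⟩
  choose b b' h1 h2 h3 using step1
  obtain ⟨f, -, hf⟩ := exists_seq_of_forall_finset_exists (fun _ : Finset M × M => True)
    (fun x y => insert x.2 x.1 ⊆ y.1 ∧ R y.2 (b x.1) ∧ ¬R y.2 (b' x.1)) fun s _ => by
      obtain ⟨c, -, hc⟩ := (hA.biInter s.finite_toSet
        (Z := fun x => {y | R y (b x.1)} ∩ {y | R y (b' x.1)}ᶜ) fun x _ =>
          ⟨(hD _).inter (hD _).compl, inter_assoc A _ _ ▸ hA.inter (hD _) (hD _).compl (h2 _)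
            (hA.2.1.diff (hD _) (h3 _) hA.1)⟩).nonempty
      refine ⟨(s.biUnion fun x => insert x.2 x.1, c), trivial, fun x hx =>
        ⟨Finset.subset_biUnion_of_mem (fun x : Finset M × M => insert x.2 x.1) hx, ?_⟩⟩
      exact mem_iInter₂.1 hc x hx
  refine hn (fun x y z => R x y ↔ R x z) ((hR.comp (Dm.var _) (Dm.var _)).iff
    (hR.comp (Dm.var _) (Dm.var _))) ⟨fun i => (f (2 * i + 1)).2, fun j => b (f (2 * j)).1,
      fun j => b' (f (2 * j)).1, fun i j => ⟨fun h => ?_, fun h => ?_⟩⟩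
  · by_contra hij
    have := hf (2 * j) (2 * i + 1) (by omega)
    exact this.2.2 (h.1 this.2.1)
  · exact h1 _ _ ((hf (2 * i + 1) (2 * j) (by omega)).1 (Finset.mem_insert_self _ _))

end rank

end Pool.Agent.MP_fcbc9a_lc.H58
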