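import Pool.Agent.MP_fcbc9a_lc.H58.ZilB

/-!
The connected Fitting subgroup.
-/

open Set
open scoped commutatorElement

namespace Pool.Agent.MP_fcbc9a_lc.H58

universe u

variable {G : Type u} [Group G] [DS G]

/-- connected Fitting subgroup -/
def Fit (B : Subgroup G) : Subgroup G := sSup {N | Conn N ∧ Nil N ∧ N ≤ B ∧ B ≤ Nm N}

variable [RG G] {σ : MulAut G} {B K L N W X : Subgroup G} {g : G}

theorem fit_conn : Conn (Fit B) := conn_sSup fun _ h => h.1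

omit [RG G] in
theorem fit_le : Fit B ≤ B := sSup_le fun _ h => h.2.2.1

omit [RG G] in
theorem le_fit (h1 : Conn N) (h2 : Nil N) (h3 : N ≤ B) (h4 : B ≤ Nm N) : N ≤ Fit B :=
  le_sSup (s := {N | Conn N ∧ Nil N ∧ N ≤ B ∧ B ≤ Nm N}) ⟨h1, h2, h3, h4⟩

theorem map_mem_fam_Fit (h : Stb σ B) (hσ : Dm1 σ)
    (hN : N ∈ {N : Subgroup G | Conn N ∧ Nil N ∧ N ≤ B ∧ B ≤ Nm N}) :
    N.map σ.toMonoidHom ∈ {N : Subgroup G | Conn N ∧ Nil N ∧ N ≤ B ∧ B ≤ Nm N} := by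
  obtain ⟨h1, h2, h3, h4⟩ := hN
  refine ⟨h1.map hσ, h2.map _, ?_, fun b hb => ?_⟩
  · rintro _ ⟨x, hx, rfl⟩
    exact h.mem (h3 hx)
  · have h5 := nm_map σ.toMonoidHom (h4 (h.symm.mem hb))
    have e : σ.toMonoidHom (σ⁻¹ b) = b := by simp
    rwa [e] at h5

theorem Stb.fit (h : Stb σ B) (hσ : Dm1 σ) : Stb σ (Fit B) :=
  stb_sSup (fun _ hN => map_mem_fam_Fit h hσ hN) fun _ hN => map_mem_fam_Fit h.symm hσ.symm hN

theorem nm_fit (h : g ∈ Nm B) : g ∈ Nm (Fit B) :=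
  mem_Nm_iff_stb.2 ((mem_Nm_iff_stb.1 h).fit (dm1_conj g))

theorem le_Nm_fit : B ≤ Nm (Fit B) := fun _ hg => nm_fit (nm_of_mem hg)

omit [DS G] [RG G] in
theorem le_Nm_bot_Fit : B ≤ Nm ⊥ := fun _ _ => mem_Nm_iff_stb.2 stb_bot

theorem fit_nil : Nil (Fit B) := by
  obtain ⟨H, ⟨h1, h2, h3, h4⟩, hm⟩ :=
    exists_maximal (s := {N : Subgroup G | Conn N ∧ Nil N ∧ N ≤ B ∧ B ≤ Nm N})
      (fun _ h => h.1) ⟨⊥, conn_bot, ⟨0, rfl⟩, bot_le, le_Nm_bot_Fit⟩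
  refine h2.mono (sSup_le fun N hN => ?_)
  obtain ⟨k1, k2, k3, k4⟩ := hN
  have e := hm (H ⊔ N) ⟨h1.sup k1, h2.sup k2 (h3.trans k4) (k3.trans h4), sup_le h3 k3,
    fun _ hb => nm_sup (h4 hb) (k4 hb)⟩ le_sup_left
  exact le_sup_right.trans e.le

theorem nil_comm (hB : Conn B) (hs : Sol B) : Nil ⁅B, B⁆ := by
  obtain ⟨N, ⟨h1, h2, h3, h4⟩, hm⟩ :=
    exists_maximal (s := {N : Subgroup G | Conn N ∧ N ≤ ⁅B, B⁆ ∧ B ≤ Nm N ∧ Unip N ⁅B, B⁆})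
      (fun _ h => h.1) ⟨⊥, conn_bot, bot_le, le_Nm_bot_Fit, ⟨0, rfl⟩⟩
  suffices hle : ⁅B, B⁆ ≤ N from h4.mono hle le_rfl
  by_contra hne
  have hBB : ⁅B, B⁆ ≤ B := comm_le_self
  obtain ⟨Q, _, _, _, π, hS⟩ := exists_sec hB.df h1.df (h2.trans hBB) h3
  have cB : Conn (dn π B) := hS.conn_dn hB le_rfl
  have sB : Sol (dn π B) := hs.dn le_rfl
  have e : dn π ⁅B, B⁆ = ⁅dn π B, dn π B⁆ := dn_comm le_rfl le_rfl
  obtain ⟨n, hn⟩ : Sol ⁅dn π B, dn π B⁆ := sB.mono comm_le_self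
  have h0 : ¬der ⁅dn π B, dn π B⁆ 0 ≤ ⊥ := fun h => hne <|
    (hS.dn_eq_bot hBB).1 (e.trans (le_bot_iff.1 h))
  obtain ⟨i, hi1, hi2⟩ := exists_last (s := der ⁅dn π B, dn π B⁆) h0 hn
  have cA : Conn (der ⁅dn π B, dn π B⁆ i) := (cB.comm_left _).der i
  have aA : Ab (der ⁅dn π B, dn π B⁆ i) := ab_iff_comm.2 (le_bot_iff.1 hi2)
  obtain ⟨Y, y1, y2, y3, y4, y5⟩ := exists_min_inv (X := dn π B) cA (fun h => hi1 h.le)
    fun _ hb => nm_der (nm_comm (nm_of_mem hb) (nm_of_mem hb)) i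
  have hc := comm_le_Cn_of_min cB sB y1 (aA.mono y2) y4 y5
  have dY : Df (up π Y) := hS.df_up y1.df
  have eZ : dn π (cc (up π Y)) = Y := hS.dn_cc_up y1
  have zB : cc (up π Y) ≤ ⁅B, B⁆ := by
    refine dY.cc_le.trans ((up_mono (y2.trans (der_le i))).trans ?_)
    rw [← e, hS.up_dn hBB]
    exact sup_le le_rfl h2
  have hZ := hm (cc (up π Y)) ⟨dY.cc_conn, zB, fun _ hb => nm_cc (le_Nm_up le_rfl y4 hb) dY,
    h4.of_comm_le ((hS.dn_le_Cn (zB.trans hBB) hBB).1 (by rw [e, eZ]; exact hc))⟩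
    (h1.le_cc dY hS.le_up)
  exact y3 (eZ.symm.trans ((hS.dn_eq_bot (zB.trans hBB)).2 hZ.le))

theorem comm_le_fit (hB : Conn B) (hs : Sol B) : ⁅B, B⁆ ≤ Fit B :=
  le_fit (hB.comm_left B) (nil_comm hB hs) comm_le_self
    fun _ hb => nm_comm (nm_of_mem hb) (nm_of_mem hb)

theorem le_fit_of_unip (hB : Conn B) (hs : Sol B) (hK : Conn K) (hle : K ≤ B)
    (h : Unip (Fit B) K) : K ≤ Fit B := by
  have hS : Fit B ⊔ K ≤ B := sup_le fit_le hle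
  have hN : B ≤ Nm (Fit B ⊔ K) := le_Nm_of_der_le ((comm_le_fit hB hs).trans le_sup_left) hS
  refine le_sup_right.trans (le_fit (fit_conn.sup hK) ?_ hS hN)
  exact Unip.sup (fit_le.trans hN) (hle.trans hN) (hle.trans le_Nm_fit)
    (fit_nil.unip (hS.trans le_Nm_fit))
    (h.of_comm_le ((Subgroup.commutator_mono hS hle).trans (comm_le_fit hB hs)))

theorem unip_of_le_fit (hX : X ≤ Fit B) (hK : K ≤ B) : Unip K X :=
  (fit_nil.unip le_Nm_fit).mono hK hX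

theorem le_fit_of_cn (hL : Conn L) (hs : Sol L) (hX : Conn X) (hXL : X ≤ L) (hW : Conn W)
    (hWL : W ≤ Fit L) (hXW : X ≤ Cn W)
    (h : ∀ H, Conn H → H ≤ Cn W → H ≤ ⁅H, X⁆ → H = ⊥) : X ≤ Fit L := by
  obtain ⟨K, ⟨h1, h2, h3, h4, h5⟩, hm⟩ :=
    exists_maximal (s := {K : Subgroup G | Conn K ∧ W ≤ K ∧ K ≤ Fit L ∧ X ≤ Nm K ∧ Unip K X})
      (fun _ h => h.1) ⟨W, hW, le_rfl, hWL, hXW.trans cn_le_nm, unip_of_le_Cn hXW⟩
  have hD : Df (Fit L ⊓ Nm K) := fit_conn.df.inf h1.df.nm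
  have kN : K ≤ cc (Fit L ⊓ Nm K) := h1.le_cc hD (le_inf h3 fun _ hx => nm_of_mem hx)
  have nF : cc (Fit L ⊓ Nm K) ≤ Fit L := hD.cc_le.trans inf_le_left
  have nK : cc (Fit L ⊓ Nm K) ≤ Nm K := hD.cc_le.trans inf_le_right
  have xN : X ≤ Nm (cc (Fit L ⊓ Nm K)) := fun _ hx =>
    nm_cc (nm_inf (le_Nm_fit (hXL hx)) (nm_nm (h4 hx))) hD
  have hU : Unip (cc (Fit L ⊓ Nm K)) X := by
    by_contra hU
    obtain ⟨n, hn1, hn2⟩ := exists_stable hD.cc_conn xN hU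
    have hc := le_Cn_of_unip (S := cc (Fit L ⊓ Nm K) ⊔ X) ((itc_le xN n).trans le_sup_left)
      le_sup_right (kN.trans le_sup_left) (sup_le nK h4)
      (Unip.sup nK h4 xN (Unip.mono fit_nil h3 nF) h5) hn2.ge
    exact hn1 (h _ (hD.cc_conn.itc X n) (hc.trans (cn_anti h2)) hn2.ge)
  have e := hm _ ⟨hD.cc_conn, h2.trans kN, nF, xN, hU⟩ kN
  exact le_fit_of_unip hL hs hX hXL
    (h5.mono (le_of_cc_nm_le fit_conn fit_nil h1.df h3 e.le) le_rfl)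

end Pool.Agent.MP_fcbc9a_lc.H58
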