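import Pool.Agent.MP_fcbc9a_lc.H58.Basic

/-!
Fields of finite rank and degree one.
-/

open Set

namespace Pool.Agent.MP_fcbc9a_lc.H58

universe u

/-- a definable field of finite rank and degree one -/
structure DFld (K : Type u) [Field K] [DS K] : Prop where
  add : Dm2 fun a b : K => a + b
  mul : Dm2 fun a b : K => a * b
  fin : ∃ n, ¬Rk n (univ : Set K)
  deg : Deg1 (univ : Set K)

variable {K : Type u} [Field K] [DS K]

theorem DFld.neg_fld (h : DFld K) : Dm1 fun a : K => -a :=
  Dm.congr (h.mul.comp (Dm.const (-1)) (Dm.var (0 : Fin 1))) fun v => by simp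

theorem DFld.sub_fld (h : DFld K) {α : Type} {f g : (α → K) → K} (hf : Dm f) (hg : Dm g) :
    Dm fun v => f v - g v :=
  (h.add.comp hf (h.neg_fld.comp hg)).congr fun _ => (sub_eq_add_neg _ _).symm

theorem DFld.sum_fld (h : DFld K) {α ι : Type} (s : Finset ι) {f : ι → (α → K) → K}
    (hf : ∀ i, Dm (f i)) : Dm fun v => ∑ i ∈ s, f i v := by
  classical
  induction s using Finset.induction_on with
  | empty => exact (Dm.const 0).congr fun v => by simp
  | insert a s ha ih => exact (h.add.comp (hf a) ih).congr fun v => by rw [Finset.sum_insert ha]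

theorem DFld.prod_fld (h : DFld K) {α ι : Type} (s : Finset ι) {f : ι → (α → K) → K}
    (hf : ∀ i, Dm (f i)) : Dm fun v => ∏ i ∈ s, f i v := by
  classical
  induction s using Finset.induction_on with
  | empty => exact (Dm.const 1).congr fun v => by simp
  | insert a s ha ih => exact (h.mul.comp (hf a) ih).congr fun v => by rw [Finset.prod_insert ha]

theorem DFld.det_fld (h : DFld K) {α : Type} {n : ℕ} {A : (α → K) → Matrix (Fin n) (Fin n) K}
    (hA : ∀ i j, Dm fun v => A v i j) : Dm fun v => (A v).det :=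
  (h.sum_fld Finset.univ (f := fun (σ : Equiv.Perm (Fin n)) v =>
      ((Equiv.Perm.sign σ : ℤ) : K) * ∏ i, A v (σ i) i) fun σ =>
    h.mul.comp (Dm.const _) (h.prod_fld Finset.univ fun i => hA (σ i) i)).congr fun _ =>
      (Matrix.det_apply' _).symm

theorem DFld.sq (h : DFld K) [Infinite K] (x : K) : ∃ y, y * y = x := by
  classical
  by_cases hx : x = 0
  · exact ⟨0, by simp [hx]⟩
  obtain ⟨r, hr, hr'⟩ := exists_rank h.fin (univ_nonempty (α := K))
  have h0 : Rk r ({0}ᶜ : Set K) := by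
    refine (Rk.union (Ds.singleton (0 : K)) (by rwa [union_compl_self])).resolve_left fun h1 => ?_
    cases r with
    | zero => exact hr' (rk_one_of_infinite infinite_univ)
    | succ r => exact h1.infinite (finite_singleton _)
  have hm : ∀ c : K, Dm1 fun y : K => c * (y * y) := fun c =>
    h.mul.comp (Dm.const c) (h.mul.comp (Dm.var (0 : Fin 1)) (Dm.var 0))
  have key : ∀ c : K, c ≠ 0 → Rk r ((fun y : K => c * (y * y)) '' {0}ᶜ) := by
    intro c hc
    refine Rk.image_bounded (hm c) (N := 2) (fun s y hs => ?_) h0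
    rcases s.eq_empty_or_nonempty with rfl | ⟨a, ha⟩
    · simp
    refine le_trans (Finset.card_le_card (t := {a, -a}) fun z hz => ?_) Finset.card_le_two
    have h1 : z * z = a * a := mul_left_cancel₀ hc ((hs z hz).2.trans (hs a ha).2.symm)
    simpa using mul_self_eq_mul_self_iff.1 h1
  obtain ⟨_, ⟨a, -, rfl⟩, b, hb, hab⟩ := h.deg r _ _
    ((Ds.singleton (0 : K)).compl.image (hm 1)) ((Ds.singleton (0 : K)).compl.image (hm x))
    (subset_univ _) (subset_univ _) (key 1 one_ne_zero) (key x hx) hr'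
  have hb' : b ≠ 0 := hb
  refine ⟨a / b, ?_⟩
  simp only [one_mul] at hab
  field_simp
  linear_combination -hab

/-- the translates `c * x + W`, `c ∈ K₀`, are disjoint -/
theorem DFld.step_fld (h : DFld K) (K₀ : Subfield K) (hi : (K₀ : Set K).Infinite) {W X : Set K}
    (hW : Ds W) (hs : ∀ a ∈ W, ∀ b ∈ W, a - b ∈ W) (hm : ∀ c ∈ K₀, ∀ a ∈ W, c * a ∈ W) {x : K}
    (hx : x ∉ W) (hX : ∀ c ∈ K₀, ∀ a ∈ W, c * x + a ∈ X) {n : ℕ} (hn : Rk n W) :
    Rk (n + 1) X := by
  have hd : ∀ c : K, Dm1 fun a : K => c * x + a := fun c =>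
    h.add.comp (Dm.const _) (Dm.var (0 : Fin 1))
  refine rk_succ_of_infinite hi (Z := fun c => (fun a => c * x + a) '' W) (fun c hc =>
    ⟨hW.image (hd c), ?_, hn.image (hd c) fun a _ b _ e => add_left_cancel e⟩) ?_
  · rintro _ ⟨a, ha, rfl⟩
    exact hX c hc a ha
  · intro c hc c' hc' hne
    rw [disjoint_left]
    rintro _ ⟨a, ha, rfl⟩ ⟨b, hb, e⟩
    have h1 : c - c' ≠ 0 := sub_ne_zero.2 hne
    have h2 : x = (c - c')⁻¹ * (b - a) := by
      field_simp
      simp only at e
      linear_combination -e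
    exact hx (h2 ▸ hm _ (K₀.inv_mem (K₀.sub_mem hc hc')) _ (hs b hb a ha))

theorem DFld.span_fld (h : DFld K) (K₀ : Subfield K) (hD : Ds (K₀ : Set K)) (s : Finset K) :
    Ds (Submodule.span K₀ (s : Set K) : Set K) := by
  classical
  induction s using Finset.induction_on with
  | empty => simpa using Ds.singleton (0 : K)
  | insert x s _ ih =>
    refine Dp.congr (p := fun v : Fin 1 → K => ∃ c, c ∈ (K₀ : Set K) ∧
      v 0 - c * x ∈ (Submodule.span K₀ (s : Set K) : Set K))
      (Dp.ex (r := fun (v : Fin 1 → K) c => c ∈ (K₀ : Set K) ∧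
        v 0 - c * x ∈ (Submodule.span K₀ (s : Set K) : Set K))
        ((hD.mem (Dm.var _)).and (ih.mem (h.sub_fld (Dm.var _)
          (h.mul.comp (Dm.var _) (Dm.const x)))))) fun v => ?_
    rw [Finset.coe_insert, SetLike.mem_coe, Submodule.mem_span_insert]
    constructor
    · rintro ⟨c, hc, h1⟩
      exact ⟨⟨c, hc⟩, _, h1, by simp [Subfield.smul_def]⟩
    · rintro ⟨c, z, hz, e⟩
      exact ⟨c, c.2, by simpa [e, Subfield.smul_def] using hz⟩

theorem DFld.finite_fld (h : DFld K) (K₀ : Subfield K) (hD : Ds (K₀ : Set K))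
    (hi : (K₀ : Set K).Infinite) : Module.Finite K₀ K := by
  classical
  by_contra hf
  obtain ⟨n, hn⟩ := h.fin
  have key : ∀ m, ∃ s : Finset K, Rk m (Submodule.span K₀ (s : Set K) : Set K) := by
    intro m
    induction m with
    | zero => exact ⟨∅, 0, Submodule.zero_mem _⟩
    | succ m ih =>
      obtain ⟨s, hs⟩ := ih
      obtain ⟨x, hx⟩ : ∃ x, x ∉ Submodule.span K₀ (s : Set K) := by
        by_contra hx
        push Not at hx
        exact hf ⟨⟨s, eq_top_iff.2 fun x _ => hx x⟩⟩
      refine ⟨insert x s, h.step_fld K₀ hi (h.span_fld K₀ hD s)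
        (fun a ha b hb => Submodule.sub_mem _ ha hb)
        (fun c hc a ha => Submodule.smul_mem _ (⟨c, hc⟩ : K₀) ha) hx (fun c hc a ha => ?_) hs⟩
      rw [Finset.coe_insert, SetLike.mem_coe, Submodule.mem_span_insert]
      exact ⟨⟨c, hc⟩, a, ha, rfl⟩
  obtain ⟨s, hs⟩ := key n
  exact hn (hs.mono (subset_univ _))

theorem DFld.repr_fld (h : DFld K) (K₀ : Subfield K) (hD : Ds (K₀ : Set K)) {n : ℕ}
    (b : Module.Basis (Fin n) K₀ K) (i : Fin n) : Dm1 fun x : K => (b.repr x i : K) := by
  refine Dm1.of_graph (r := fun x y => ∃ u : Fin n → K, (∀ j, u j ∈ (K₀ : Set K)) ∧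
    x = ∑ j, u j * b j ∧ y = u i) (fun x y => ?_) ?_
  · constructor
    · rintro ⟨u, hu, rfl, rfl⟩
      have : ∑ j, u j * b j = ∑ j, (⟨u j, hu j⟩ : K₀) • b j := rfl
      rw [this, b.repr_sum_self]
    · rintro rfl
      exact ⟨fun j => b.repr x j, fun j => (b.repr x j).2, (b.sum_repr x).symm, rfl⟩
  · exact Dp.exs (r := fun (v : Fin 2 → K) (u : Fin n → K) => (∀ j, u j ∈ (K₀ : Set K)) ∧
      v 0 = ∑ j, u j * b j ∧ v 1 = u i)
      ((Dp.forall_fin fun j => hD.mem (Dm.var _)).and
        ((Dp.eq (Dm.var _) (h.sum_fld Finset.univ fun j =>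
          h.mul.comp (Dm.var (Sum.inr j)) (Dm.const _))).and (Dp.eq (Dm.var _) (Dm.var _))))

omit [DS K] in
open Polynomial in
/-- a monic polynomial of degree `n` is determined by its code -/
theorem enc_inj_fld {K₀ : Subfield K} {n : ℕ} (b : Module.Basis (Fin n) K₀ K) {t : Fin n → K₀}
    (ht : Function.Injective t) {p q : K₀[X]} (hp : p.Monic) (hq : q.Monic)
    (hp' : p.natDegree = n) (hq' : q.natDegree = n)
    (e : ∑ j, ((p.eval (t j) : K₀) : K) * b j = ∑ j, ((q.eval (t j) : K₀) : K) * b j) : p = q := by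
  have e1 : ∑ j, p.eval (t j) • b j = ∑ j, q.eval (t j) • b j := e
  have e2 := congrArg (fun x => (b.repr x : Fin n → K₀)) e1
  simp only [b.repr_sum_self] at e2
  have d1 : p.degree = n := by rw [degree_eq_natDegree hp.ne_zero, hp']
  have d2 : q.degree = n := by rw [degree_eq_natDegree hq.ne_zero, hq']
  refine eq_of_degree_sub_lt_of_eval_index_eq Finset.univ (v := t) ht.injOn ?_
    fun j _ => congrFun e2 j
  rw [Finset.card_univ, Fintype.card_fin, ← d1]
  exact degree_sub_lt_left (d1.trans d2.symm) hp.ne_zero (hp.leadingCoeff.trans hq.leadingCoeff.symm)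

open Polynomial in
theorem DFld.enc_fld (h : DFld K) {K₀ : Subfield K} {n : ℕ} (b : Module.Basis (Fin n) K₀ K)
    {t : Fin n → K₀} (ht : Function.Injective t) {P : K → K₀[X]} (hP : ∀ y, (P y).Monic)
    (hP' : ∀ y, (P y).natDegree = n) (hd : ∀ c : K₀, Dm1 fun y => (((P y).eval c : K₀) : K)) {N : ℕ}
    (hN : ∀ (s : Finset K) (a : K), (∀ y ∈ s, P y = P a) → s.card ≤ N) {X : Set K} (hX : Ds X)
    {r : ℕ} (hr : Rk r X) :
    Ds ((fun y => ∑ j, (((P y).eval (t j) : K₀) : K) * b j) '' X) ∧
      Rk r ((fun y => ∑ j, (((P y).eval (t j) : K₀) : K) * b j) '' X) := by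
  have hE : Dm1 fun y => ∑ j, (((P y).eval (t j) : K₀) : K) * b j :=
    h.sum_fld Finset.univ fun j => h.mul.comp (hd (t j)) (Dm.const _)
  refine ⟨hX.image hE, Rk.image_bounded hE (N := N) (fun s z hs => ?_) hr⟩
  rcases s.eq_empty_or_nonempty with rfl | ⟨a, ha⟩
  · simp
  exact hN s a fun y hy => enc_inj_fld b ht (hP y) (hP a) (hP' y) (hP' a)
    ((hs y hy).2.trans (hs a ha).2.symm)

open Polynomial in
theorem DFld.subfield (h : DFld K) (K₀ : Subfield K) (hD : Ds (K₀ : Set K))
    (hi : (K₀ : Set K).Infinite) : K₀ = ⊤ := by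
  classical
  by_contra hne
  obtain ⟨x₀, hx₀⟩ : ∃ x, x ∉ K₀ := by
    by_contra hx
    push Not at hx
    exact hne (eq_top_iff.2 fun x _ => hx x)
  obtain ⟨r, hr, hr'⟩ := exists_rank h.fin (univ_nonempty (α := K))
  have hc : Rk r (K₀ : Set K)ᶜ :=
    (Rk.union hD (by rwa [union_compl_self])).resolve_left fun h1 =>
      hr' (h.step_fld K₀ hi hD (fun a ha b hb => K₀.sub_mem ha hb)
        (fun c hc a ha => K₀.mul_mem hc ha) hx₀ (fun _ _ _ _ => mem_univ _) h1)
  have := h.finite_fld K₀ hD hi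
  have : Infinite K₀ := hi.to_subtype
  obtain ⟨n, b⟩ : Σ n : ℕ, Module.Basis (Fin n) K₀ K := ⟨_, Module.finBasis K₀ K⟩
  obtain ⟨t, ht⟩ : ∃ t : Fin n → K₀, Function.Injective t :=
    ⟨fun j => Infinite.natEmbedding K₀ j, (Infinite.natEmbedding K₀).injective.comp Fin.val_injective⟩
  have hroot : ∀ y : K, aeval y (Algebra.leftMulMatrix b y).charpoly = 0 := by
    intro y
    apply Algebra.leftMulMatrix_injective b
    rw [← aeval_algHom_apply, Matrix.aeval_self_charpoly, map_zero]
  have hdeg : ∀ y : K, (Algebra.leftMulMatrix b y).charpoly.natDegree = n := fun y => by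
    rw [Matrix.charpoly_natDegree_eq_dim, Fintype.card_fin]
  have hQm : ∀ x : K, (∏ i, (X - C (b.repr x i))).Monic := fun x =>
    monic_prod_of_monic _ _ fun i _ => monic_X_sub_C _
  have hQd : ∀ x : K, (∏ i, (X - C (b.repr x i))).natDegree = n := fun x => by
    rw [natDegree_finsetProd_X_sub_C_eq_card, Finset.card_univ, Fintype.card_fin]
  obtain ⟨h1, h2⟩ := h.enc_fld b ht (P := fun y => (Algebra.leftMulMatrix b y).charpoly)
    (fun y => Matrix.charpoly_monic _) hdeg (fun c => by
      refine (h.det_fld (A := fun (v : Fin 1 → K) (i j : Fin n) =>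
        ((Matrix.scalar (Fin n) c i j : K₀) : K) - (b.repr (v 0 * b j) i : K)) fun i j =>
          h.sub_fld (Dm.const _) ((h.repr_fld K₀ hD b i).comp
            (h.mul.comp (Dm.var _) (Dm.const _)))).congr fun v => ?_
      beta_reduce
      rw [Matrix.eval_charpoly]
      refine Eq.trans ?_ (K₀.subtype.map_det _).symm
      congr 1
      ext i j
      simp [Algebra.leftMulMatrix_eq_repr_mul]) (N := n) (fun s a hs => by
      have hm : ((Algebra.leftMulMatrix b a).charpoly.map (algebraMap K₀ K)) ≠ 0 :=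
        ((Matrix.charpoly_monic _).map _).ne_zero
      refine (card_le_degree_of_subset_roots (p := (Algebra.leftMulMatrix b a).charpoly.map
        (algebraMap K₀ K)) fun y hy => ?_).trans ?_
      · rw [mem_roots hm, IsRoot.def, eval_map_algebraMap, ← hs y hy]
        exact hroot y
      · rw [natDegree_map, hdeg]) hD.compl hc
  obtain ⟨h3, h4⟩ := h.enc_fld b ht (P := fun x => ∏ i, (X - C (b.repr x i))) hQm hQd
    (fun c => by
      refine (h.prod_fld Finset.univ (f := fun i (v : Fin 1 → K) =>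
        (c : K) - (b.repr (v 0) i : K)) fun i =>
          h.sub_fld (Dm.const _) (h.repr_fld K₀ hD b i)).congr fun v => ?_
      simp [eval_prod]) (N := n ^ n) (fun s a hs => by
      have h5 : s.card ≤ (Fintype.piFinset fun _ : Fin n =>
          (∏ i, (X - C (b.repr a i))).roots.toFinset).card := by
        refine Finset.card_le_card_of_injOn (fun x => (b.repr x : Fin n → K₀)) (fun x hx => ?_)
          fun x _ y _ e => b.repr.injective (Finsupp.ext fun i => congrFun e i)
        rw [Finset.mem_coe, Fintype.mem_piFinset]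
        intro i
        rw [Multiset.mem_toFinset, mem_roots (hQm a).ne_zero, ← hs x hx, IsRoot.def, eval_prod]
        exact Finset.prod_eq_zero (Finset.mem_univ i) (by simp)
      refine h5.trans ?_
      rw [Fintype.card_piFinset, Finset.prod_const, Finset.card_univ, Fintype.card_fin]
      exact Nat.pow_le_pow_left ((Multiset.toFinset_card_le _).trans
        ((card_roots' _).trans (hQd a).le)) n) Ds.univ hr
  obtain ⟨_, ⟨y, hy, rfl⟩, x, -, e⟩ := h.deg r _ _ h1 h3 (subset_univ _) (subset_univ _) h2 h4 hr'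
  have e1 := enc_inj_fld b ht (hQm x) (Matrix.charpoly_monic _) (hQd x) (hdeg y) e
  have e2 := hroot y
  rw [← e1, map_prod, Finset.prod_eq_zero_iff] at e2
  obtain ⟨i, -, hi'⟩ := e2
  rw [map_sub, aeval_X, aeval_C, sub_eq_zero] at hi'
  exact hy (hi' ▸ (b.repr x i).2)

end Pool.Agent.MP_fcbc9a_lc.H58
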