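import Pool.Agent.MP_fcbc9a_lc.H58.Pure

/-!
Ranked groups without involutions: chain conditions, connected components, degree.
-/

open Set
open scoped commutatorElement

namespace Pool.Agent.MP_fcbc9a_lc.H58

universe u

/-- a stable group of finite rank without involutions -/
class RG (G : Type u) [Group G] [DS G] : Prop where
  mul : Dm2 fun a b : G => a * b
  fin : ∃ n, ¬Rk n (univ : Set G)
  nop : Nop G
  inv2 : ∀ x : G, x * x = 1 → x = 1

variable {G : Type u} [Group G] [DS G]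

/-- definable subgroup -/
def Df (H : Subgroup G) : Prop := Ds (H : Set G)

/-- definable connected subgroup -/
def Conn (H : Subgroup G) : Prop := Df H ∧ ∀ K, Df K → K.relIndex H ≠ 0 → H ≤ K

/-- connected component -/
def cc (H : Subgroup G) : Subgroup G := sInf {K | Df K ∧ K ≤ H ∧ K.relIndex H ≠ 0}

/-- minimal infinite definable subgroup -/
def MinS (A : Subgroup G) : Prop :=
  Df A ∧ (A : Set G).Infinite ∧ ∀ K, Df K → K ≤ A → (K : Set G).Infinite → A ≤ K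

variable [RG G]

section definable

variable {α : Type} {f g : (α → G) → G} {σ : MulAut G} {H K : Subgroup G}

theorem Dm.mul (hf : Dm f) (hg : Dm g) : Dm fun v => f v * g v := RG.mul.comp hf hg

theorem Dm.inv (hf : Dm f) : Dm fun v => (f v)⁻¹ :=
  Dm1.comp (h := fun x : G => x⁻¹) (Dm1.of_graph (r := fun x y => y * x = 1)
    (fun _ _ => by rw [mul_eq_one_iff_eq_inv, eq_comm])
    (Dp.eq ((Dm.var _).mul (Dm.var _)) (Dm.const 1))) hf

theorem Dm.pow (hf : Dm f) (n : ℕ) : Dm fun v => f v ^ n := by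
  induction n with
  | zero => exact (Dm.const 1).congr fun _ => (pow_zero _).symm
  | succ n ih => exact (ih.mul hf).congr fun _ => (pow_succ _ _).symm

theorem Dm.comm (hf : Dm f) (hg : Dm g) : Dm fun v => ⁅f v, g v⁆ :=
  ((hf.mul hg).mul hf.inv).mul hg.inv

theorem Dp.commute (hf : Dm f) (hg : Dm g) : Dp fun v => Commute (f v) (g v) :=
  Dp.eq (hf.mul hg) (hg.mul hf)

theorem dm1_conj (a : G) : Dm1 (MulAut.conj a) :=
  ((Dm.const a).mul (Dm.var _)).mul (Dm.const a⁻¹)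

omit [RG G] in
theorem Dm1.symm (h : Dm1 σ) : Dm1 (σ⁻¹ : MulAut G) :=
  Dm1.of_graph (r := fun x y => σ y = x)
    (fun _ _ => ⟨fun e => by rw [← e]; simp, fun e => by rw [← e]; simp⟩)
    (Dp.eq (h.comp (Dm.var _)) (Dm.var _))

omit [RG G] in
theorem Df.mem (hH : Df H) (hf : Dm f) : Dp fun v => f v ∈ H := Ds.mem hH hf

omit [RG G] in
theorem Df.of_iff {X : Set G} (hX : Ds X) (h : ∀ x, x ∈ H ↔ x ∈ X) : Df H :=
  Dp.congr hX fun _ => (h _).symm

omit [RG G] in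
theorem df_top : Df (⊤ : Subgroup G) := Ds.univ

omit [RG G] in
theorem df_bot : Df (⊥ : Subgroup G) := Ds.singleton 1

omit [RG G] in
theorem Df.inf (hH : Df H) (hK : Df K) : Df (H ⊓ K) := Ds.inter hH hK

omit [RG G] in
theorem df_fix (h : Dm1 σ) : Df (Fix σ) := Dp.eq h (Dm.var _)

omit [RG G] in
theorem Df.map (hH : Df H) (h : Dm1 σ) : Df (H.map σ.toMonoidHom) := Ds.image hH h

omit [RG G] in
theorem Df.comap (hH : Df H) (h : Dm1 σ) : Df (H.comap σ.toMonoidHom) :=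
  Ds.preimage (X := (H : Set G)) hH h

theorem Df.nm (hH : Df H) : Df (Nm H) :=
  (Dp.all (r := fun (v : Fin 1 → G) y => y ∈ H ↔ v 0 * y * (v 0)⁻¹ ∈ H)
    ((hH.mem (Dm.var _)).iff
      (hH.mem (((Dm.var _).mul (Dm.var _)).mul (Dm.var _).inv)))).congr
    fun _ => Subgroup.mem_normalizer_iff.symm

theorem Df.cn (hH : Df H) : Df (Cn H) :=
  (Dp.all (r := fun (v : Fin 1 → G) y => y ∈ H → Commute y (v 0))
    ((hH.mem (Dm.var _)).imp (Dp.commute (Dm.var _) (Dm.var _)))).congr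
    fun _ => mem_Cn.symm

theorem df_centralizer_singleton (a : G) : Df (Subgroup.centralizer {a}) :=
  (Dp.commute (Dm.var (0 : Fin 1)) (Dm.const a)).congr
    fun _ => Subgroup.mem_centralizer_singleton_iff.symm

theorem Df.core (hH : Df H) (hK : Df K) : Df (core H K) :=
  Dp.all (r := fun (v : Fin 1 → G) y => y ∈ H → y * v 0 * y⁻¹ ∈ K)
    ((hH.mem (Dm.var _)).imp (hK.mem (((Dm.var _).mul (Dm.var _)).mul (Dm.var _).inv)))

theorem Df.cm (hH : Df H) (hK : Df K) : Df (CM H K) :=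
  Dp.and hK.nm (Dp.all (r := fun (v : Fin 1 → G) y => y ∈ H → ⁅y, v 0⁆ ∈ K)
    ((hH.mem (Dm.var _)).imp (hK.mem ((Dm.var _).comm (Dm.var _)))))

theorem Df.sup (hH : Df H) (hK : Df K) (h : K ≤ Nm H) : Df (H ⊔ K) :=
  (Dp.ex (r := fun (v : Fin 1 → G) y => y ∈ K ∧ v 0 * y⁻¹ ∈ H)
    ((hK.mem (Dm.var _)).and (hH.mem ((Dm.var _).mul (Dm.var _).inv)))).congr
    fun v => ⟨fun ⟨_, hy, hv⟩ => by
        simpa using (H ⊔ K).mul_mem (Subgroup.mem_sup_left hv) (Subgroup.mem_sup_right hy),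
      fun hv => by
        obtain ⟨a, ha, b, hb, e⟩ := (mem_sup_iff h).1 hv
        exact ⟨b, hb, by rw [e]; simpa using ha⟩⟩

theorem Ds.tr {X : Set G} (hX : Ds X) (a : G) : Ds (MP_fcbc9a_lc.tr a X) :=
  hX.mem ((Dm.const _).mul (Dm.var _))

end definable

variable {σ : MulAut G} {A B H K L N S T X Y : Subgroup G} {f : G → G} {g x : G} {n : ℕ}

theorem Rk.tr {U : Set G} (h : Rk n U) (a : G) : Rk n (MP_fcbc9a_lc.tr a U) :=
  h.maps (h := fun x => a * x) ((Dm.const _).mul (Dm.var _)) (mul_right_injective a).injOn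
    fun x hx => by simpa [MP_fcbc9a_lc.tr] using hx

theorem Rk.of_tr {U : Set G} {a : G} (h : Rk n (MP_fcbc9a_lc.tr a U)) : Rk n U :=
  (h.tr a⁻¹).mono fun x hx => by simpa [MP_fcbc9a_lc.tr] using hx

theorem Ir.tr {U : Set G} (h : Ir n U) (a : G) : Ir n (MP_fcbc9a_lc.tr a U) :=
  ⟨h.1.tr a, h.2.1.tr a, fun Z hZ h1 h2 => h.2.2 (MP_fcbc9a_lc.tr a⁻¹ Z) (hZ.tr _)
    ((h1.tr a⁻¹).mono fun x hx => by simpa [MP_fcbc9a_lc.tr] using hx)
    ((h2.tr a⁻¹).mono fun x hx => by simpa [MP_fcbc9a_lc.tr] using hx)⟩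

theorem exists_rk {U : Set G} (h : U.Nonempty) : ∃ r, Rk r U ∧ ¬Rk (r + 1) U :=
  exists_rank RG.fin h

theorem rk_of_relIndex (hK : Df K) (hi : K.relIndex H ≠ 0) (h : Rk n (H : Set G)) :
    Rk n (K : Set G) := by
  obtain ⟨F, hF, -, hc⟩ := cover_of_relIndex hi
  obtain ⟨t, -, ht⟩ := Rk.biUnion hF (fun t _ => Ds.tr hK t)
    (h.mono fun g hg => mem_iUnion₂.2 ((hc g hg).imp fun t ht => ⟨ht.1, ht.2⟩))
  exact ht.of_tr

theorem relIndex_of_rk (hK : Df K) (hle : K ≤ H) (h : Rk n (K : Set G))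
    (hn : ¬Rk (n + 1) (H : Set G)) : K.relIndex H ≠ 0 := by
  intro h0
  obtain ⟨g, hg, hd⟩ := seq_of_relIndex_zero h0
  refine hn ⟨fun k => MP_fcbc9a_lc.tr (g k) K, fun k => ⟨Ds.tr hK _, fun x hx => ?_, h.tr _⟩,
    fun k l hkl => disjoint_left.2 fun x hx hx' => hd k l hkl ?_⟩
  · simpa using H.mul_mem (hg k) (hle hx)
  · simpa using K.mul_mem hx (K.inv_mem hx')

/-- descending chain condition -/
theorem exists_minimal {s : Set (Subgroup G)} (hs : ∀ H ∈ s, Df H) (hne : s.Nonempty) :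
    ∃ H ∈ s, ∀ K ∈ s, K ≤ H → K = H := by
  by_contra hc
  push Not at hc
  choose! F hF using hc
  have key : ∀ n, ∀ H ∈ s, Rk n (H : Set G) := by
    intro n
    induction n with
    | zero => exact fun H _ => ⟨1, H.one_mem⟩
    | succ n ih =>
      intro H hH
      let A : ℕ → Subgroup G := fun k => F^[k] H
      have hA : ∀ k, A (k + 1) = F (A k) := fun k => Function.iterate_succ_apply' F k _
      have hAs : ∀ k, A k ∈ s := fun k => by
        induction k with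
        | zero => exact hH
        | succ k ihk => rw [hA]; exact (hF _ ihk).1
      have anti : Antitone A := antitone_nat_of_succ_le fun k => by
        rw [hA]; exact (hF _ (hAs k)).2.1
      have hd : ∀ k l, k < l →
          Disjoint ((A k : Set G) \ A (k + 1)) ((A l : Set G) \ A (l + 1)) :=
        fun k l hkl => disjoint_left.2 fun x hx hx' => hx.2 (anti (Nat.succ_le_of_lt hkl) hx'.1)
      refine ⟨fun k => (A k : Set G) \ A (k + 1), fun k =>
        ⟨Ds.diff (hs _ (hAs k)) (hs _ (hAs (k + 1))), fun x hx => anti (Nat.zero_le k) hx.1, ?_⟩,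
        fun k l hkl => (lt_or_gt_of_ne hkl).elim (hd k l) fun h => (hd l k h).symm⟩
      have h1 : ¬A k ≤ A (k + 1) := fun e =>
        (hF _ (hAs k)).2.2 (hA k ▸ le_antisymm (anti (Nat.le_succ k)) e)
      obtain ⟨g, hg, hg'⟩ := SetLike.not_le_iff_exists.1 h1
      refine ((ih _ (hAs (k + 1))).tr g).mono fun x hx => ⟨?_, fun hx' => hg' ?_⟩
      · simpa using (A k).mul_mem hg (anti (Nat.le_succ k) hx)
      · simpa using (A (k + 1)).mul_mem hx' ((A (k + 1)).inv_mem hx)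
  obtain ⟨n, hn⟩ := RG.fin (G := G)
  obtain ⟨H, hH⟩ := hne
  exact hn ((key n H hH).mono (subset_univ _))

/-- ascending chain condition for connected subgroups -/
theorem exists_maximal {s : Set (Subgroup G)} (hs : ∀ H ∈ s, Conn H) (hne : s.Nonempty) :
    ∃ H ∈ s, ∀ K ∈ s, H ≤ K → K = H := by
  by_contra hc
  push Not at hc
  have key : ∀ n, ∃ H ∈ s, Rk n (H : Set G) := by
    intro n
    induction n with
    | zero => exact hne.imp fun H hH => ⟨hH, 1, H.one_mem⟩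
    | succ n ih =>
      obtain ⟨H, hH, hr⟩ := ih
      obtain ⟨K, hK, hle, hne⟩ := hc H hH
      exact ⟨K, hK, by_contra fun hn => hne (le_antisymm
        ((hs K hK).2 H (hs H hH).1 (relIndex_of_rk (hs H hH).1 hle hr hn)) hle)⟩
  obtain ⟨n, hn⟩ := RG.fin (G := G)
  obtain ⟨H, -, hH⟩ := key n
  exact hn (hH.mono (subset_univ _))

/-- an intersection of definable subgroups is a finite intersection -/
theorem exists_finite_inter {ι : Type*} {s : Set ι} {F : ι → Subgroup G} (hF : ∀ i ∈ s, Df (F i)) :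
    ∃ t : Set ι, t.Finite ∧ t ⊆ s ∧ ∀ x, (∀ i ∈ t, x ∈ F i) → ∀ i ∈ s, x ∈ F i := by
  obtain ⟨_, ⟨t, ht, hts, rfl⟩, hmin⟩ := exists_minimal
    (s := {K | ∃ t : Set ι, t.Finite ∧ t ⊆ s ∧ K = ⨅ i ∈ t, F i})
    (by
      rintro _ ⟨t, ht, hts, rfl⟩
      exact Df.of_iff (Ds.biInter ht (Y := fun i => (F i : Set G)) fun i hi => hF i (hts hi))
        fun x => by simp [Subgroup.mem_iInf])
    ⟨_, ∅, finite_empty, empty_subset _, rfl⟩
  refine ⟨t, ht, hts, fun x hx i hi => ?_⟩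
  have e := hmin _ ⟨insert i t, ht.insert i, insert_subset hi hts, rfl⟩
    (biInf_mono fun j hj => mem_insert_of_mem i hj)
  have hx' : x ∈ ⨅ j ∈ t, F j := by simpa [Subgroup.mem_iInf] using hx
  rw [← e] at hx'
  simp only [Subgroup.mem_iInf] at hx'
  exact hx' i (mem_insert _ _)

theorem df_of_inter {ι : Type*} {s : Set ι} {F : ι → Subgroup G} (hF : ∀ i ∈ s, Df (F i))
    (h : ∀ x, x ∈ H ↔ ∀ i ∈ s, x ∈ F i) : Df H := by
  obtain ⟨t, ht, hts, hx⟩ := exists_finite_inter hF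
  exact Df.of_iff (Ds.biInter ht (Y := fun i => (F i : Set G)) fun i hi => hF i (hts hi))
    fun x => (h x).trans ⟨fun h1 => mem_iInter₂.2 fun i hi => h1 i (hts hi),
      fun h1 => hx x (mem_iInter₂.1 h1)⟩

theorem df_centralizer (s : Set G) : Df (Subgroup.centralizer s) :=
  df_of_inter (s := s) (F := fun a => Subgroup.centralizer {a})
    (fun a _ => df_centralizer_singleton a) fun _ => Subgroup.mem_centralizer_iff.trans
      (forall₂_congr fun _ _ => eq_comm.trans Subgroup.mem_centralizer_singleton_iff.symm)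

omit [RG G] in
theorem Conn.df (h : Conn H) : Df H := h.1

omit [RG G] in
theorem conn_bot : Conn (⊥ : Subgroup G) := ⟨df_bot, fun _ _ _ => bot_le⟩

omit [RG G] in
theorem Df.cc_le (h : Df H) : cc H ≤ H := sInf_le ⟨h, le_rfl, by simp⟩

theorem Df.cc_mem_grp (h : Df H) : Df (cc H) ∧ cc H ≤ H ∧ (cc H).relIndex H ≠ 0 := by
  obtain ⟨K, hK, hmin⟩ := exists_minimal (s := {K | Df K ∧ K ≤ H ∧ K.relIndex H ≠ 0})
    (fun _ hK => hK.1) ⟨H, h, le_rfl, by simp⟩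
  have e : cc H = K := le_antisymm (sInf_le hK) (le_sInf fun L hL => inf_eq_left.1
    (hmin _ ⟨hK.1.inf hL.1, inf_le_left.trans hK.2.1,
      Subgroup.relIndex_inf_ne_zero hK.2.2 hL.2.2⟩ inf_le_left))
  rw [e]
  exact hK

theorem Df.cc_relIndex (h : Df H) : (cc H).relIndex H ≠ 0 := h.cc_mem_grp.2.2

theorem Df.cc_conn (h : Df H) : Conn (cc H) :=
  ⟨h.cc_mem_grp.1, fun K hK hi => (sInf_le (show K ⊓ H ∈ {K | Df K ∧ K ≤ H ∧ K.relIndex H ≠ 0} from
    ⟨hK.inf h, inf_le_right, by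
      rw [Subgroup.inf_relIndex_right]
      exact Subgroup.relIndex_ne_zero_trans hi h.cc_relIndex⟩)).trans inf_le_left⟩

theorem Conn.le_cc (hK : Conn K) (hH : Df H) (h : K ≤ H) : K ≤ cc H :=
  hK.2 _ hH.cc_conn.1 fun e => hH.cc_relIndex (Subgroup.relIndex_eq_zero_of_le_right h e)

theorem Conn.cc_eq (h : Conn H) : cc H = H := le_antisymm h.1.cc_le (h.le_cc h.1 le_rfl)

theorem Df.cc_mono (hH : Df H) (hK : Df K) (h : H ≤ K) : cc H ≤ cc K :=
  hH.cc_conn.le_cc hK (hH.cc_le.trans h)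

omit [RG G] in
theorem Conn.infinite (h : Conn H) (hne : H ≠ ⊥) : (H : Set G).Infinite := fun hf =>
  hne (le_bot_iff.1 (h.2 ⊥ df_bot (relIndex_ne_zero_of_cover hf fun a ha => ⟨a, ha, by simp⟩)))

omit [RG G] in
theorem Conn.eq_bot_of_finite (h : Conn H) (hf : (H : Set G).Finite) : H = ⊥ :=
  by_contra fun hne => h.infinite hne hf

theorem Df.cc_ne_bot (h : Df H) (hi : (H : Set G).Infinite) : cc H ≠ ⊥ := fun e => by
  have := (rk_of_relIndex h.cc_conn.1 h.cc_relIndex (rk_one_of_infinite hi)).infinite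
  rw [e] at this
  exact this (finite_singleton 1)

theorem Df.exists_pow_mem_cc (h : Df H) (hg : g ∈ H) : ∃ n, n ≠ 0 ∧ g ^ n ∈ cc H :=
  exists_pow_mem h.cc_relIndex hg

omit [RG G] in
/-- the image of a connected group is connected -/
theorem Conn.img (h : Conn A) (hf : Dm1 f) (hh : HomOn f A) (hY : (Y : Set G) = f '' A) :
    Conn Y := by
  refine ⟨by rw [Df, hY]; exact Ds.image h.1 hf, fun K hK hi y hy => ?_⟩
  obtain ⟨P, hP⟩ := hh.exists_pre K
  obtain ⟨F, hF, -, hc⟩ := cover_of_relIndex hi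
  have hc' : ∀ a ∈ A, ∃ t ∈ F, t⁻¹ * f a ∈ K := fun a ha =>
    hc _ (show f a ∈ (Y : Set G) from hY ▸ mem_image_of_mem f ha)
  choose! c hc1 hc2 using hc'
  have hle : A ≤ P := h.2 P (Df.of_iff (Ds.inter h.1 (Ds.preimage hK hf)) hP)
    (relIndex_ne_zero_of_color hF hc1 fun a ha b hb e => (hP _).2
      ⟨A.mul_mem (A.inv_mem ha) hb, by
        rw [hh _ (A.inv_mem ha) _ hb, hh.inv ha]
        have h3 := K.mul_mem (K.inv_mem (hc2 a ha)) (hc2 b hb)
        rw [e] at h3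
        convert h3 using 1
        group⟩)
  obtain ⟨a, ha, rfl⟩ : y ∈ f '' A := hY ▸ (show y ∈ (Y : Set G) from hy)
  exact ((hP a).1 (hle ha)).2

omit [RG G] in
theorem Conn.map (h : Conn H) (hσ : Dm1 σ) : Conn (H.map σ.toMonoidHom) :=
  h.img hσ (fun a _ b _ => map_mul σ a b) rfl

theorem Stb.cc (h : Stb σ H) (hσ : Dm1 σ) (hH : Df H) : Stb σ (cc H) := by
  have key : ∀ τ : MulAut G, Stb τ H → Dm1 τ → ∀ x ∈ H58.cc H, τ x ∈ H58.cc H :=
    fun τ h1 h2 x hx => (hH.cc_conn.map h2).le_cc hH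
      (by rintro _ ⟨y, hy, rfl⟩; exact h1.mem (hH.cc_le hy)) ⟨x, hx, rfl⟩
  exact stb_of_maps (key σ h hσ) (key σ⁻¹ h.symm hσ.symm)

theorem nm_cc (h : g ∈ Nm H) (hH : Df H) : g ∈ Nm (cc H) :=
  mem_Nm_iff_stb.2 ((mem_Nm_iff_stb.1 h).cc (dm1_conj g) hH)

theorem surj_of_inj (hA : Df A) (hf : Dm1 f) (hh : HomOn f A) (hm : MapsTo f A A)
    (hi : InjOn f A) : SurjOn f A A := by
  intro y hy
  by_contra hc
  obtain ⟨Y, hY⟩ := hh.exists_img
  obtain ⟨r, hr, hr'⟩ := exists_rk (U := (A : Set G)) ⟨1, A.one_mem⟩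
  refine hr' (paradox hf hA ((Ds.image hA hf).tr y) hi hm (fun x hx => ?_)
    (disjoint_left.2 fun x hx hx' => hc ?_) ((hr.image hf hi).tr y)
    fun h => by simpa using h.nonempty)
  · simpa using A.mul_mem hy (hm.image_subset hx)
  · rw [← hY] at hx hx' ⊢
    simpa using Y.mul_mem hx' (Y.inv_mem hx)

theorem Df.stb_of_maps (hH : Df H) (hσ : Dm1 σ) (h : ∀ x ∈ H, σ x ∈ H) : Stb σ H := fun x =>
  ⟨fun hx => by
    obtain ⟨y, hy, e⟩ := surj_of_inj hH hσ (fun a _ b _ => map_mul σ a b) h σ.injective.injOn hx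
    exact σ.injective e ▸ hy, h x⟩

theorem Df.nm_of_conj (hH : Df H) (h : ∀ x ∈ H, g * x * g⁻¹ ∈ H) : g ∈ Nm H :=
  mem_Nm_iff_stb.2 (hH.stb_of_maps (dm1_conj g) h)

omit [DS G] [RG G] in
theorem sq_mul_grp {a b : G} (h : Commute a b) : a * b * (a * b) = a * a * (b * b) := by
  calc a * b * (a * b) = a * (b * a) * b := by group
    _ = _ := by rw [← h.eq]; group

theorem Df.exists_sqrt (hH : Df H) (hx : x ∈ H) :
    ∃ y ∈ H, y * y = x ∧ ∀ w, Commute w x → Commute w y := by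
  let C : Subgroup G := Subgroup.centralizer {x}
  have hC : Df C := df_centralizer_singleton x
  have hh : HomOn (fun z : G => z * z) (H ⊓ (C ⊓ Cn C)) := fun a ha b hb =>
    sq_mul_grp (mem_Cn.1 hb.2.2 a ha.2.1)
  have hf : Dm1 fun z : G => z * z := (Dm.var _).mul (Dm.var _)
  obtain ⟨y, hy, e⟩ := surj_of_inj (hH.inf (hC.inf hC.cn)) hf hh
    (fun a ha => (H ⊓ (C ⊓ Cn C)).mul_mem ha ha) (hh.injOn fun a _ ha => RG.inv2 a ha)
    (show x ∈ H ⊓ (C ⊓ Cn C) from ⟨hx, Subgroup.mem_centralizer_singleton_iff.2 rfl,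
      mem_Cn.2 fun _ hw => Subgroup.mem_centralizer_singleton_iff.1 hw⟩)
  exact ⟨y, hy.1, e, fun w hw =>
    mem_Cn.1 hy.2.2 w (Subgroup.mem_centralizer_singleton_iff.2 hw)⟩

variable (G) in
theorem u2 : U2 G := by
  refine ⟨fun x y e => ?_, fun x => ?_⟩
  · obtain ⟨ρ, -, hρ, hc⟩ := df_top.exists_sqrt (Subgroup.mem_top (y * y))
    have aux : ∀ z : G, z * z = y * y → z = ρ := fun z hz => by
      have c : Commute z ρ := hc z (hz ▸ (Commute.refl z).mul_right (Commute.refl z))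
      refine mul_inv_eq_one.1 (RG.inv2 _ ?_)
      rw [sq_mul_grp c.inv_right, hz, ← hρ]
      group
    rw [aux x e, aux y rfl]
  · obtain ⟨y, -, hy, -⟩ := df_top.exists_sqrt (Subgroup.mem_top x)
    exact ⟨y, hy⟩

theorem Df.rc (hH : Df H) : RC H := fun x hx => by
  obtain ⟨y, hy, e, -⟩ := hH.exists_sqrt hx
  exact (u2 G).inj _ _ e ▸ hy

theorem Dm.rt {α : Type} {f : (α → G) → G} (hf : Dm f) : Dm fun v => rt (f v) :=
  Dm1.comp (h := fun x : G => MP_fcbc9a_lc.rt x) (Dm1.of_graph (r := fun x y => y * y = x)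
    (fun x _ => ⟨(u2 G).rt_eq, fun e => e ▸ (u2 G).rt_sq x⟩)
    (Dp.eq ((Dm.var _).mul (Dm.var _)) (Dm.var _))) hf

theorem Dm.pp {α : Type} {f : (α → G) → G} (hσ : Dm1 σ) (hf : Dm f) : Dm fun v => pp σ (f v) :=
  (((hσ.comp hf).mul hf.inv).rt.mul hf).rt

theorem Dm.qq {α : Type} {f : (α → G) → G} (hσ : Dm1 σ) (hf : Dm f) : Dm fun v => qq σ (f v) :=
  ((Dm.pp hσ hf).inv.mul hf).mul (Dm.pp hσ hf).inv

/-- a definable action of the subgroup T on the set Ω -/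
structure Act (T : Subgroup G) (Ω : Set G) (act : G → G → G) : Prop where
  dm : Dm2 act
  maps : ∀ t ∈ T, ∀ x ∈ Ω, act t x ∈ Ω
  one : ∀ x ∈ Ω, act 1 x = x
  mul : ∀ s ∈ T, ∀ t ∈ T, ∀ x ∈ Ω, act (s * t) x = act s (act t x)

omit [RG G] in
theorem Act.dm1_grp {Ω : Set G} {act : G → G → G} (h : Act T Ω act) (t : G) : Dm1 (act t) :=
  h.dm.comp (Dm.const t) (Dm.var _)

omit [RG G] in
theorem Act.inv_grp {Ω : Set G} {act : G → G → G} (h : Act T Ω act) {t : G} (ht : t ∈ T)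
    (hx : x ∈ Ω) : act t⁻¹ (act t x) = x := by
  rw [← h.mul _ (T.inv_mem ht) _ ht _ hx, inv_mul_cancel, h.one _ hx]

omit [RG G] in
theorem Act.rk_grp {Ω U V : Set G} {act : G → G → G} (h : Act T Ω act) {t : G} (ht : t ∈ T)
    (hU : U ⊆ Ω) (hm : MapsTo (act t) U V) (hr : Rk n U) : Rk n V :=
  hr.maps (h.dm1_grp t) (fun a ha b hb e => by
    rw [← h.inv_grp ht (hU ha), e, h.inv_grp ht (hU hb)]) hm

theorem Act.stab {Ω U : Set G} {act : G → G → G} (h : Act T Ω act) (hT : Conn T)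
    (hU : Ir n U) (hUΩ : U ⊆ Ω) (hn : ¬Rk (n + 1) Ω) {t : G} (ht : t ∈ T) :
    Rk n (U ∩ {x | act t x ∈ U}) := by
  have hD : ∀ t, Ds {x | act t x ∈ U} := fun t => hU.1.preimage (h.dm1_grp t)
  have hinv : ∀ s ∈ T, Rk n (U ∩ {x | act s x ∈ U}) → Rk n (U ∩ {x | act s⁻¹ x ∈ U}) :=
    fun s hs hr => h.rk_grp hs (inter_subset_left.trans hUΩ)
      (fun x hx => ⟨hx.2, by rw [mem_ofPred_eq, h.inv_grp hs (hUΩ hx.1)]; exact hx.1⟩) hr
  let P : Subgroup G :=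
    { carrier := {s | s ∈ T ∧ Rk n (U ∩ {x | act s x ∈ U})}
      one_mem' := ⟨T.one_mem, hU.2.1.mono fun x hx =>
        ⟨hx, by rw [mem_ofPred_eq, h.one _ (hUΩ hx)]; exact hx⟩⟩
      inv_mem' := fun {s} hs => ⟨T.inv_mem hs.1, hinv s hs.1 hs.2⟩
      mul_mem' := fun {a b} ha hb => ⟨T.mul_mem ha.1 hb.1,
        h.rk_grp (T.inv_mem hb.1) (fun _ hx => hUΩ hx.1.1) (fun x hx => ⟨hx.2, by
          rw [mem_ofPred_eq, ← h.mul _ (T.mul_mem ha.1 hb.1) _ (T.inv_mem hb.1) _ (hUΩ hx.1.1),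
            mul_inv_cancel_right]
          exact hx.1.2⟩) (hU.inter (hD a) (hD b⁻¹) ha.2 (hinv b hb.1 hb.2))⟩ }
  have hP : Df P := Ds.inter hT.1 (def_type RG.nop hU (R := fun x b => act b x ∈ U)
    (hU.1.mem (h.dm.comp (Dm.var _) (Dm.var _))))
  refine (hT.2 P hP (fun h0 => ?_) ht).2
  obtain ⟨g, hg, hd⟩ := seq_of_relIndex_zero h0
  have hZ : ∀ k, act (g k) '' U ⊆ Ω := fun k => by
    rintro _ ⟨x, hx, rfl⟩
    exact h.maps _ (hg k) _ (hUΩ hx)
  refine hn (rk_succ_of_almost_disjoint (Z := fun k => act (g k) '' U)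
    (fun k => ⟨hU.1.image (h.dm1_grp _), hZ k,
      h.rk_grp (hg k) hUΩ (mapsTo_image _ _) hU.2.1⟩) fun k l hkl hr =>
      hd k l hkl.ne' ⟨T.mul_mem (T.inv_mem (hg k)) (hg l), ?_⟩)
  refine h.rk_grp (T.inv_mem (hg l)) (inter_subset_left.trans (hZ k)) ?_ hr
  rintro _ ⟨⟨a, ha, e⟩, b, hb, rfl⟩
  rw [h.inv_grp (hg l) (hUΩ hb)]
  refine ⟨hb, ?_⟩
  rw [mem_ofPred_eq, h.mul _ (T.inv_mem (hg k)) _ (hg l) _ (hUΩ hb), ← e,
    h.inv_grp (hg k) (hUΩ ha)]
  exact ha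

/-- the left stabiliser of an irreducible set is a definable subgroup -/
theorem Ir.exists_stab {U : Set G} (hU : Ir n U) :
    ∃ S : Subgroup G, Df S ∧ ∀ g, g ∈ S ↔ Rk n (U ∩ MP_fcbc9a_lc.tr g U) :=
  ⟨{ carrier := {g | Rk n (U ∩ MP_fcbc9a_lc.tr g U)}
     one_mem' := hU.2.1.mono fun x hx => ⟨hx, by simpa [MP_fcbc9a_lc.tr] using hx⟩
     inv_mem' := fun {g} hg => (Rk.tr hg g⁻¹).mono fun x hx => by
       simpa [MP_fcbc9a_lc.tr, and_comm] using hx
     mul_mem' := fun {g h} hg hh =>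
       ((hU.tr g).inter hU.1 (hU.1.tr (g * h)) (inter_comm _ _ ▸ hg)
         ((Rk.tr hh g).mono fun x hx => by simpa [MP_fcbc9a_lc.tr, mul_assoc] using hx)).mono
         fun x hx => ⟨hx.1.2, hx.2⟩ },
    def_type RG.nop hU (R := fun x b => b⁻¹ * x ∈ U) (hU.1.mem ((Dm.var _).inv.mul (Dm.var _))),
    fun _ => Iff.rfl⟩

theorem Act.pick_grp {Ω U : Set G} {act : G → G → G} (h : Act T Ω act) (hT : Conn T)
    (hU : Ir n U) (hUΩ : U ⊆ Ω) (hn : ¬Rk (n + 1) Ω) {s : Set G} (hs : s.Finite) (hsT : s ⊆ T) :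
    ∃ x ∈ U, ∀ t ∈ s, act t x ∈ U := by
  obtain ⟨x, hx, hx'⟩ := (hU.biInter hs (Z := fun t => {x | act t x ∈ U}) fun t ht =>
    ⟨hU.1.preimage (h.dm1_grp t), h.stab hT hU hUΩ hn (hsT ht)⟩).nonempty
  exact ⟨x, hx, mem_iInter₂.1 hx'⟩

theorem Conn.deg1 (h : Conn H) : Deg1 (H : Set G) := by
  classical
  intro n Y Z hY hZ hYH hZH rY rZ hn
  by_contra hc
  obtain ⟨U, hUY, hU⟩ := exists_ir hY rY fun h1 => hn (h1.mono hYH)
  obtain ⟨V, hVZ, hV⟩ := exists_ir hZ rZ fun h1 => hn (h1.mono hZH)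
  have a1 : Act H H fun t x => t * x :=
    ⟨RG.mul, fun t ht x hx => H.mul_mem ht hx, fun x _ => one_mul x,
      fun s _ t _ x _ => mul_assoc s t x⟩
  have a2 : Act H H fun t x => x * t⁻¹ :=
    ⟨(Dm.var _).mul (Dm.var _).inv, fun t ht x hx => H.mul_mem hx (H.inv_mem ht),
      fun x _ => by simp, fun s _ t _ x _ => by simp [mul_assoc]⟩
  have p1 : ∀ s : Finset G, ∃ x ∈ U, ∀ t ∈ s, t ∈ H → t * x ∈ U := fun s => by
    obtain ⟨x, hx, hx'⟩ := a1.pick_grp h hU (hUY.trans hYH) hn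
      (s.finite_toSet.inter_of_left H) inter_subset_right
    exact ⟨x, hx, fun t ht ht' => hx' t ⟨ht, ht'⟩⟩
  have p2 : ∀ s : Finset G, ∃ x ∈ V, ∀ t ∈ s, t ∈ H → x * t ∈ V := fun s => by
    obtain ⟨x, hx, hx'⟩ := a2.pick_grp h hV (hVZ.trans hZH) hn
      (s := (fun t => t⁻¹) '' ((s : Set G) ∩ H)) ((s.finite_toSet.inter_of_left H).image _)
      (by rintro _ ⟨t, ht, rfl⟩; exact H.inv_mem ht.2)
    exact ⟨x, hx, fun t ht ht' => by simpa using hx' t⁻¹ ⟨t, ⟨ht, ht'⟩, rfl⟩⟩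
  choose fa ha1 ha2 using p1
  choose fb hb1 hb2 using p2
  let s : ℕ → Finset G := fun k =>
    Nat.rec ∅ (fun _ w => insert (fb (insert (fa w) w)) (insert (fa w) w)) k
  have hs : ∀ k, s (k + 1) = insert (fb (insert (fa (s k)) (s k))) (insert (fa (s k)) (s k)) :=
    fun _ => rfl
  have mono : Monotone s := monotone_nat_of_le_succ fun k => by
    rw [hs]
    exact (Finset.subset_insert _ _).trans (Finset.subset_insert _ _)
  refine RG.nop (G := G) (fun x y _ => x * y ∈ U) (hU.1.mem ((Dm.var _).mul (Dm.var _)))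
    ⟨fun i => fb (insert (fa (s i)) (s i)), fun j => fa (s j), fun _ => 1, fun i j =>
      ⟨fun h1 => by_contra fun hij => hc ⟨_, hUY h1, hVZ (hb2 _ _ ?_ (hYH (hUY (ha1 _))))⟩,
        fun hij => ha2 _ _ (mono (Nat.succ_le_of_lt hij) ?_) (hZH (hVZ (hb1 _)))⟩⟩
  · rcases (not_lt.1 hij).eq_or_lt with rfl | hji
    · exact Finset.mem_insert_self _ _
    · refine Finset.mem_insert_of_mem (mono (Nat.succ_le_of_lt hji) ?_)
      rw [hs]
      exact Finset.mem_insert_of_mem (Finset.mem_insert_self _ _)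
  · rw [hs]
    exact Finset.mem_insert_self _ _

theorem Act.gen {Ω W : Set G} {act : G → G → G} (h : Act T Ω act) (hT : Conn T) (hK : Df K)
    {F : G → Set G} (hF : ∀ t ∈ T, ∀ x ∈ Ω, ∀ y ∈ F x, t * y * t⁻¹ ∈ F (act t x))
    (hW : Ds W) (hWΩ : W ⊆ Ω) (hne : Ω.Nonempty) (hr : ∀ n, Rk n Ω → Rk n W)
    (hWK : ∀ x ∈ W, F x ⊆ K) : ∃ x ∈ Ω, F x ⊆ core T K := by
  obtain ⟨r, h1, h2⟩ := exists_rk hne
  obtain ⟨U, hUW, hU⟩ := exists_ir hW (hr r h1) fun h3 => h2 (h3.mono hWΩ)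
  obtain ⟨s, hs, hsT, hx⟩ := exists_finite_inter (s := (T : Set G))
    (F := fun t => K.comap (MulAut.conj t).toMonoidHom) fun t _ => hK.comap (dm1_conj t)
  obtain ⟨x, hxU, hx'⟩ := h.pick_grp hT hU (hUW.trans hWΩ) h2 hs hsT
  exact ⟨x, hWΩ (hUW hxU), fun y hy => hx y fun t ht =>
    hWK _ (hUW (hx' t ht)) (hF t (hsT ht) x (hWΩ (hUW hxU)) y hy)⟩

theorem MinS.conn (h : MinS A) : Conn A :=
  ⟨h.1, fun K hK hi => (h.2.2 (K ⊓ A) (hK.inf h.1) inf_le_right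
    (rk_of_relIndex (hK.inf h.1) (by rwa [Subgroup.inf_relIndex_right])
      (rk_one_of_infinite h.2.1)).infinite).trans inf_le_left⟩

omit [RG G] in
theorem MinS.ne_bot (h : MinS A) : A ≠ ⊥ := fun e => by
  have := h.2.1
  rw [e] at this
  exact this (finite_singleton 1)

theorem Df.exists_minS (h : Df H) (hi : (H : Set G).Infinite) : ∃ A ≤ H, MinS A := by
  obtain ⟨A, hA, hmin⟩ := exists_minimal (s := {K | Df K ∧ K ≤ H ∧ (K : Set G).Infinite})
    (fun _ hK => hK.1) ⟨H, h, le_rfl, hi⟩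
  exact ⟨A, hA.2.1, hA.1, hA.2.2, fun K hK hle hinf =>
    (hmin K ⟨hK, hle.trans hA.2.1, hinf⟩ hle).ge⟩

end Pool.Agent.MP_fcbc9a_lc.H58
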