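import Pool.Agent.MP_fcbc9a_lc.H58.Grp

/-!
A first-order structure of finite Morley rank gives a ranked group.
-/

open Set

namespace Pool.Agent.MP_fcbc9a_lc.H58

universe u

/-- the definability system of a first-order structure -/
@[reducible] def dsOf (L : FirstOrder.Language.{u, u}) (M : Type u) [L.Structure M] : DS M where
  P := fun p => (univ : Set M).Definable L {v | p v}
  top := definable_univ
  and := fun hp hq => hp.inter hq
  not := fun hp => hp.compl
  comp := fun f _ hp => hp.preimage_comp f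
  ex := fun hp => hp.exists_of_finite
  eq := fun i j => (DefinableFun.proj L (i := i)).ofPred_eq (DefinableFun.proj L (i := j))
  const := fun i a => (DefinableFun.proj L (i := i)).ofPred_eq_const (mem_univ a)

variable {L : FirstOrder.Language.{u, u}} {M : Type u} [L.Structure M]

theorem dm_of_definableFun {α : Type} {f : (α → M) → M} (h : (univ : Set M).DefinableFun L f) :
    @Dm M (dsOf L M) α f :=
  @Dp.congr M (dsOf L M) _ (fun w => w ∈ f.tupleGraph) _ h fun _ => eq_comm

theorem rk_iff_rankGe (n : ℕ) (X : Set M) : @Rk M (dsOf L M) n X ↔ RankGe L M n X := by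
  induction n generalizing X with
  | zero => exact Iff.rfl
  | succ n ih =>
    exact exists_congr fun Y => and_congr_left' (forall_congr' fun i =>
      and_congr Iff.rfl (and_congr_right' (ih (Y i))))

/-- A ladder indexed by the ultrapower of the naturals gives sets of every finite rank. -/
theorem rk_of_ladder_link {N : Type u} [DS N] {R : N → N → N → Prop} (hR : Dr3 R)
    {A B C : (ℕ → ℕ) → N}
    (h : ∀ f g, R (A f) (B g) (C g) ↔ ∀ᶠ n in Filter.hyperfilter ℕ, f n < g n) (k : ℕ) :
    ∀ (X : Set N) (f g : ℕ → ℕ), Ds X → (∀ᶠ n in Filter.hyperfilter ℕ, f n + n ^ k ≤ g n) →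
      (∀ e : ℕ → ℕ, (∀ᶠ n in Filter.hyperfilter ℕ, f n ≤ e n ∧ e n < g n) → A e ∈ X) →
        Rk k X := by
  induction k with
  | zero =>
    intro X f g _ hfg hA
    exact ⟨A f, hA f (hfg.mono fun n hn => ⟨le_rfl, by simpa using hn⟩)⟩
  | succ k ih =>
    intro X f g hX hfg hA
    let F : ℕ → ℕ → ℕ := fun m n => f n + m * n ^ k
    let W : ℕ → Set N := fun m => {x | R x (B (F m)) (C (F m))}
    have hW : ∀ m, Ds (W m) := fun m => hR.comp (Dm.var _) (Dm.const _) (Dm.const _)
    have hD : ∀ m, Ds ((X ∩ W (m + 1)) \ ⋃ l ∈ Iic m, W l) := fun m =>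
      (hX.inter (hW _)).diff (Ds.biUnion (finite_Iic m) fun l _ => hW l)
    have hbig : ∀ m : ℕ, ∀ᶠ n in Filter.hyperfilter ℕ, m ≤ n := fun m =>
      Filter.hyperfilter_le_cofinite
        (by rw [Nat.cofinite_eq_atTop]; exact Filter.eventually_ge_atTop m)
    refine ⟨fun m => (X ∩ W (m + 1)) \ ⋃ l ∈ Iic m, W l, fun m => ⟨hD m,
      sdiff_subset.trans inter_subset_left, ih _ (F m) (F (m + 1)) (hD m)
        (Filter.Eventually.of_forall fun n => by simp only [F]; rw [add_mul]; omega)
        fun e he => ⟨⟨hA e ?_, (h _ _).2 (he.mono fun n hn => hn.2)⟩, fun hx => ?_⟩⟩, ?_⟩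
    · filter_upwards [he, hfg, hbig (m + 1)] with n h1 h2 h3
      have h4 : (m + 1) * n ^ k ≤ n ^ (k + 1) := by
        rw [pow_succ']; exact Nat.mul_le_mul_right _ h3
      simp only [F] at h1
      omega
    · obtain ⟨l, hl, hx⟩ := mem_iUnion₂.1 hx
      obtain ⟨n, h1, h2⟩ := (he.and ((h _ _).1 hx)).exists
      have h4 : l * n ^ k ≤ m * n ^ k := Nat.mul_le_mul_right _ hl
      simp only [F] at h1 h2
      omega
    · have key : ∀ i j, i < j → Disjoint ((X ∩ W (i + 1)) \ ⋃ l ∈ Iic i, W l)
          ((X ∩ W (j + 1)) \ ⋃ l ∈ Iic j, W l) := fun i j hij =>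
        disjoint_left.2 fun x hx hx' => hx'.2 (mem_biUnion (show i + 1 ∈ Iic j from hij) hx.1.2)
      exact fun i j hij => (lt_or_gt_of_ne hij).elim (key i j) fun h => (key j i h).symm

theorem nop_of_fmr (h : FiniteMorleyRank L M) : @Nop M (dsOf L M) := by
  rintro R hR ⟨a, b, c, habc⟩
  obtain ⟨k, hk⟩ := h
  obtain ⟨φ, hφ⟩ := definable_iff_exists_formula_sum.1 hR
  have hφ' : ∀ v : Fin 3 → M, R (v 0) (v 1) (v 2) ↔ φ.Realize (Sum.elim (↑) v) := fun v =>
    Set.ext_iff.1 hφ v
  have : Nonempty M := ⟨a 0⟩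
  let N : Type u := (Filter.hyperfilter ℕ : Filter ℕ).Product fun _ : ℕ => M
  let π : (ℕ → M) → N := fun x => (x : (Filter.hyperfilter ℕ : Filter ℕ).Product fun _ : ℕ => M)
  have los : ∀ {β : Type u} (ψ : L.Formula β) (x : β → ℕ → M),
      (ψ.Realize fun i => π (x i)) ↔ ∀ᶠ n in Filter.hyperfilter ℕ, ψ.Realize fun i => x i n :=
    fun ψ x => FirstOrder.Language.Ultraproduct.realize_formula_cast ψ x
  have emb : Nonempty (FirstOrder.Language.ElementaryEmbedding L M N) :=
    ⟨⟨fun x => π fun _ => x, fun n ψ x =>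
      (FirstOrder.Language.Ultraproduct.realize_formula_cast (u := Filter.hyperfilter ℕ) ψ
        fun i (_ : ℕ) => x i).trans Filter.eventually_const⟩⟩
  let _ : DS N := dsOf L N
  have hR' : Dr3 fun x y z : N =>
      φ.Realize (Sum.elim (fun p : (univ : Set M) => π fun _ => p) ![x, y, z]) := by
    refine definable_iff_exists_formula_sum.2 ⟨φ.relabel (Sum.map
      (fun p : (univ : Set M) => (⟨π fun _ => p, mem_univ _⟩ : (univ : Set N))) id), ?_⟩
    ext v
    simp only [mem_ofPred_eq, FirstOrder.Language.Formula.realize_relabel]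
    refine iff_of_eq (congrArg _ (funext ?_))
    rintro (p | i)
    · rfl
    · fin_cases i <;> rfl
  refine hk N emb ((rk_iff_rankGe k univ).1 (rk_of_ladder_link hR'
    (A := fun f => π fun n => a (f n)) (B := fun f => π fun n => b (f n))
    (C := fun f => π fun n => c (f n)) (fun f g => ?_) k univ (fun _ => 0) (fun n => n ^ k)
    Ds.univ (Filter.Eventually.of_forall fun n => by simp) fun _ _ => mem_univ _))
  have := los φ (Sum.elim (fun (p : (univ : Set M)) (_ : ℕ) => (p : M))
    ![fun n => a (f n), fun n => b (g n), fun n => c (g n)])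
  refine Iff.trans (iff_of_eq (congrArg _ (funext ?_))) (this.trans
    (Filter.eventually_congr (Filter.Eventually.of_forall fun n => ?_)))
  · rintro (p | i)
    · rfl
    · fin_cases i <;> rfl
  · refine Iff.trans (iff_of_eq (congrArg _ (funext ?_)))
      ((hφ' ![a (f n), b (g n), c (g n)]).symm.trans (habc (f n) (g n)))
    rintro (p | i)
    · rfl
    · fin_cases i <;> rfl

theorem rg_of_fmr {G : Type u} [Group G] [L.Structure G]
    (hmul : (univ : Set G).DefinableFun L fun v : Fin 2 → G => v 0 * v 1)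
    (hrk : FiniteMorleyRank L G) (hinv : ∀ x : G, x ^ 2 = 1 → x = 1) : @RG G _ (dsOf L G) :=
  @RG.mk G _ (dsOf L G) (dm_of_definableFun hmul)
    (hrk.imp fun n hn h => hn G ⟨FirstOrder.Language.ElementaryEmbedding.refl L G⟩
      ((rk_iff_rankGe n univ).1 h))
    (nop_of_fmr hrk) fun x hx => hinv x (by rw [pow_two, hx])

end Pool.Agent.MP_fcbc9a_lc.H58
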