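import Pool.Agent.MP_fcbc9a_lc.H58.Vb

/-!
Rank comparison of the sets of inverted elements.
-/

open Set
open scoped commutatorElement

namespace Pool.Agent.MP_fcbc9a_lc.H58

universe u

variable {G : Type u} [Group G] [DS G]

/-- generic elements of J j commute with no nontrivial element of J i -/
def EE (T : Tri G) (i j : Fin 3) : Prop :=
  ∃ K, Df K ∧ Dx T ≤ K ∧ ¬Cx T j ≤ K ∧ ∀ y ∈ T.J j, y ∉ K → ∀ x ∈ T.J i, Commute x y → x = 1

/-- x y x ↦ x⁻¹ y x -/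
noncomputable def mx (σ : MulAut G) (s : G) : G := (pp σ s)⁻¹ * qq σ s * pp σ s

variable [RG G] {T : Tri G} {i j k : Fin 3}

theorem dm1_mx {σ : MulAut G} (hσ : Dm1 σ) : Dm1 (mx σ) :=
  ((Dm.pp hσ (Dm.var _)).inv.mul (Dm.qq hσ (Dm.var _))).mul (Dm.pp hσ (Dm.var _))

theorem mx_mem (hij : i ≠ j) (hjk : j ≠ k) (hik : i ≠ k) {s : G} (hs : s ∈ T.Sg k) :
    mx (T.φ i) s ∈ T.Sg i :=
  Tri.conj_mem_Sg (Tri.J_sub hij.symm (Tri.qq_mem_J (u2 G) hij hjk hik hs))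
    (Tri.pp_mem_J (u2 G) hik hs).1

theorem eq_one_par {w y : G} (e : w * y * w⁻¹ = y⁻¹) : y = 1 := by
  have e1 : Commute (w * w) y := by
    calc w * w * y = w * (w * y * w⁻¹) * w := by group
      _ = w * y⁻¹ * w := by rw [e]
      _ = (w * y * w⁻¹)⁻¹ * (w * w) := by group
      _ = y * (w * w) := by rw [e, inv_inv]
  have e2 := ((u2 G).comm_of_sq e1).eq
  rw [e2, mul_inv_cancel_right] at e
  exact (u2 G).eq_one_of_eq_inv e

/-- the inverted component of an element -/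
noncomputable def thPar (σ : MulAut G) (c : G) : G := rt (c * (σ c)⁻¹)

theorem thPar_eq {σ : MulAut G} {x d : G} (hx : σ x = x⁻¹) (hd : σ d = d) :
    thPar σ (x * d) = x :=
  (u2 G).rt_eq (by rw [map_mul, hx, hd]; group)

theorem thPar_spec (hij : i ≠ j) {c : G} (hc : c ∈ Cx T j) :
    thPar (T.φ i) c ∈ T.J j ∧ ∃ d ∈ Dx T, c = thPar (T.φ i) c * d := by
  obtain ⟨x, hx, d, h1, h2, rfl⟩ := dec_fixed (u2 G) hij.symm hc
  rw [thPar_eq (hx.2 i hij) h2]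
  exact ⟨hx, d, mem_Dx_of hij h2 h1, rfl⟩

theorem gen_par {X S : Set G} (hS : Ds S) (h : ∀ n, Rk n (X \ S) → Rk (n + 1) X) {n : ℕ}
    (hn : Rk n X) : Rk n S := by
  obtain ⟨r, hr, hr'⟩ := exists_rk hn.nonempty
  have hnr : n ≤ r := by
    by_contra hlt
    exact hr' (hn.of_le (by omega))
  exact ((Rk.union (Y := X \ S) hS
    (hr.mono fun x hx => (em (x ∈ S)).imp_right fun e => ⟨hx, e⟩)).resolve_right
    fun h1 => hr' (h r h1)).of_le hnr

theorem mx_ne (hij : i ≠ j) (hjk : j ≠ k) (hik : i ≠ k) {s s' : G} (hs : s ∈ T.Sg k)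
    (hs' : s' ∈ T.Sg j) (h1 : qq (T.φ i) s ≠ 1) : mx (T.φ i) s ≠ mx (T.φ i) s' := by
  intro e
  have hx := Tri.pp_mem_J (u2 G) hik hs
  have hy := Tri.qq_mem_J (u2 G) hij hjk hik hs
  have hx' := Tri.pp_mem_J (u2 G) hij hs'
  have hz := Tri.qq_mem_J (u2 G) hik hjk.symm hij hs'
  rw [mx, mx] at e
  generalize pp (T.φ i) s = x, pp (T.φ i) s' = x', qq (T.φ i) s = y, qq (T.φ i) s' = z at *
  have e2 := congrArg (T.φ j) e
  simp only [map_mul, map_inv, hx.2 j hij.symm, hx'.2 j hij.symm, hy.1, hz.2 j hjk,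
    inv_inv] at e2
  refine h1 (eq_one_par (w := x * x'⁻¹ * x'⁻¹ * x) ?_)
  calc x * x'⁻¹ * x'⁻¹ * x * y * (x * x'⁻¹ * x'⁻¹ * x)⁻¹
      = x * x'⁻¹ * x'⁻¹ * (x * y * x⁻¹) * x' * x' * x⁻¹ := by simp [mul_assoc]
    _ = x * (x'⁻¹ * z * x')⁻¹ * x⁻¹ := by rw [e2]; group
    _ = y⁻¹ := by rw [← e]; group

namespace MC

variable (h : MC T)
include h

theorem exists_gen (hij : i ≠ j) (hjk : j ≠ k) (hik : i ≠ k) (hE : EE T i j) :
    ∃ S ⊆ T.Sg k, Ds S ∧ (∀ n, Rk n (T.Sg k \ S) → Rk (n + 1) (T.Sg k)) ∧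
      InjOn (mx (T.φ i)) S ∧ ∀ s ∈ S, qq (T.φ i) s ≠ 1 := by
  obtain ⟨K, hK, hDK, hCK, hE⟩ := hE
  have dq : Dm1 (qq (T.φ i)) := Dm.qq (h.dm i) (Dm.var _)
  have dp : Dm1 (pp (T.φ i)) := Dm.pp (h.dm i) (Dm.var _)
  refine ⟨T.Sg k \ qq (T.φ i) ⁻¹' K, sdiff_subset, h.ds_Sg.diff (Ds.preimage hK dq),
    fun n hn => ?_, fun s hs s' hs' e => ?_, fun s hs e => hs.2 ?_⟩
  · obtain ⟨g, hg, hd⟩ := seq_of_relIndex_zero (P := K) (N := Cx T j)
      (by_contra fun h0 => hCK (h.vc_Cx.1.2 K hK h0))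
    refine ⟨fun m => T.Sg k ∩ qq (T.φ i) ⁻¹' MP_fcbc9a_lc.tr (g m) K, fun m =>
      ⟨h.ds_Sg.inter (Ds.preimage (Ds.tr hK _) dq), inter_subset_left, ?_⟩,
      fun m l hml => disjoint_left.2 fun s hs hs' => hd m l hml ?_⟩
    · have sp : ∀ s ∈ T.Sg k, thPar (T.φ i) (g m * qq (T.φ i) s) ∈ T.J j ∧
          ∃ d ∈ Dx T, g m * qq (T.φ i) s = thPar (T.φ i) (g m * qq (T.φ i) s) * d := fun s hs =>
        thPar_spec hij ((Cx T j).mul_mem (hg m) (Tri.qq_mem_J (u2 G) hij hjk hik hs).1)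
      have hq : Dm1 fun s => g m * qq (T.φ i) s := (Dm.const _).mul dq
      have hf : Dm1 fun s => pp (T.φ i) s * thPar (T.φ i) (g m * qq (T.φ i) s) * pp (T.φ i) s :=
        (Dm.mul dp (Dm.mul hq ((h.dm i).comp hq).inv).rt).mul dp
      refine hn.maps hf (fun s hs s' hs' e => ?_) fun s hs => ⟨?_, ?_⟩
      · have hx := Tri.pp_mem_J (u2 G) hik hs.1
        have hx' := Tri.pp_mem_J (u2 G) hik hs'.1
        obtain ⟨h1, d, hd, e1⟩ := sp s hs.1
        obtain ⟨h1', d', hd', e1'⟩ := sp s' hs'.1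
        have e2 : pp (T.φ i) s = pp (T.φ i) s' := by
          have := congrArg (pp (T.φ i)) e
          rwa [(u2 G).pp_eq hx.1 (h1.2 i hij), (u2 G).pp_eq hx'.1 (h1'.2 i hij)] at this
        have e3 : thPar (T.φ i) (g m * qq (T.φ i) s) = thPar (T.φ i) (g m * qq (T.φ i) s') := by
          have := congrArg (qq (T.φ i)) e
          rwa [(u2 G).qq_eq hx.1 (h1.2 i hij), (u2 G).qq_eq hx'.1 (h1'.2 i hij)] at this
        have e4 : qq (T.φ i) s * d⁻¹ = qq (T.φ i) s' * d'⁻¹ := by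
          refine mul_left_cancel (a := g m) ?_
          rw [← mul_assoc, ← mul_assoc, ← eq_mul_inv_of_mul_eq e1.symm,
            ← eq_mul_inv_of_mul_eq e1'.symm, e3]
        have e5 := congrArg (thPar (T.φ i)) e4
        rw [thPar_eq ((Tri.qq_mem_J (u2 G) hij hjk hik hs.1).2 i hij)
            (mem_Dx.1 ((Dx T).inv_mem hd) i),
          thPar_eq ((Tri.qq_mem_J (u2 G) hij hjk hik hs'.1).2 i hij)
            (mem_Dx.1 ((Dx T).inv_mem hd') i)] at e5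
        rw [← pp_qq (T.φ i) s, ← pp_qq (T.φ i) s', e2, e5]
      · exact Tri.sandwich_mem_Sg (Tri.J_sub hik (Tri.pp_mem_J (u2 G) hik hs.1))
          (Tri.J_sub hjk (sp s hs.1).1)
      · obtain ⟨h1, d, hd, e1⟩ := sp s hs.1
        have hq' : qq (T.φ i) s ∈ K := not_not.1 fun e => hs.2 ⟨hs.1, e⟩
        rw [mem_preimage, (u2 G).qq_eq (Tri.pp_mem_J (u2 G) hik hs.1).1 (h1.2 i hij),
          eq_mul_inv_of_mul_eq e1.symm]
        simpa [MP_fcbc9a_lc.tr, mul_assoc] using K.mul_mem hq' (K.inv_mem (hDK hd))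
    · simpa using K.mul_mem hs.2 (K.inv_mem hs'.2)
  · have hx := Tri.pp_mem_J (u2 G) hik hs.1
    have hy := Tri.qq_mem_J (u2 G) hij hjk hik hs.1
    have hx' := Tri.pp_mem_J (u2 G) hik hs'.1
    have hy' := Tri.qq_mem_J (u2 G) hij hjk hik hs'.1
    have hyK : qq (T.φ i) s ∉ K := hs.2
    rw [← pp_qq (T.φ i) s, ← pp_qq (T.φ i) s']
    rw [mx, mx] at e
    generalize pp (T.φ i) s = x, pp (T.φ i) s' = x', qq (T.φ i) s = y, qq (T.φ i) s' = z at *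
    have e2 := congrArg (T.φ j) e
    simp only [map_mul, map_inv, hx.2 j hij.symm, hx'.2 j hij.symm, hy.1, hy'.1, inv_inv] at e2
    have hw : x * x'⁻¹ * x'⁻¹ * x ∈ T.J i := Tri.mem_J hij
      (by simp only [map_mul, map_inv, hx.1, hx'.1])
      (by simp [hx.2 j hij.symm, hx'.2 j hij.symm, mul_assoc])
    have e3 := hE y hy hyK _ hw (by
      calc x * x'⁻¹ * x'⁻¹ * x * y = x * x'⁻¹ * x'⁻¹ * (x * y * x⁻¹) * x := by group
        _ = x * (x'⁻¹ * z * x') * x'⁻¹ * x'⁻¹ * x := by rw [e2]; group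
        _ = y * (x * x'⁻¹ * x'⁻¹ * x) := by rw [← e]; group)
    have e4 : x = x' := (u2 G).inj _ _ (by
      calc x * x = x' * x' * x⁻¹ * (x * x'⁻¹ * x'⁻¹ * x) * x := by group
        _ = x' * x' := by rw [e3]; group)
    subst e4
    rw [mul_left_cancel (mul_right_cancel e)]
  · rw [mem_preimage, e]
    exact K.one_mem

theorem exists_gen' (hij : i ≠ j) (hjk : j ≠ k) (hik : i ≠ k) (hE : EE T i j) :
    ∃ S ⊆ T.Sg k, Ds S ∧ (∀ n, Rk n (T.Sg k) → Rk n S) ∧ InjOn (mx (T.φ i)) S := by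
  obtain ⟨S, h1, h2, h3, h4, -⟩ := h.exists_gen hij hjk hik hE
  exact ⟨S, h1, h2, fun _ hn => gen_par h2 h3 hn, h4⟩

theorem rk_Sg_le (hij : i ≠ j) (hjk : j ≠ k) (hik : i ≠ k) (hE : EE T i j) {n : ℕ}
    (hn : Rk n (T.Sg k)) : Rk n (T.Sg i) := by
  obtain ⟨S, h1, -, h3, h4⟩ := h.exists_gen' hij hjk hik hE
  exact (h3 n hn).maps (dm1_mx (h.dm i)) h4 fun s hs => mx_mem hij hjk hik (h1 hs)

theorem par1 (hij : i ≠ j) (hjk : j ≠ k) (hik : i ≠ k) (h1 : EE T i j) (h2 : EE T i k)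
    (h3 : EE T j k) (h4 : EE T k j) : False := by
  obtain ⟨S1, a1, a2, a3, a4, -⟩ := h.exists_gen hjk hik.symm hij.symm h3
  obtain ⟨S2, b1, b2, b3, b4, -⟩ := h.exists_gen hik hjk.symm hij h2
  obtain ⟨S3, c1, c2, c3, c4, c5⟩ := h.exists_gen hij hjk hik h1
  obtain ⟨r, hr, hr'⟩ := exists_rk (U := T.Sg i) ⟨1, Tri.J_sub hij.symm Tri.one_mem_J⟩
  have di := dm1_mx (h.dm i)
  have dj := dm1_mx (h.dm j)
  refine hr' (paradox (f := fun s => mx (T.φ i) (mx (T.φ j) s))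
    (X' := S1 ∩ mx (T.φ j) ⁻¹' S2) (Y := mx (T.φ i) '' S3) (di.trans dj)
    (a2.inter (b2.preimage dj)) (c2.image di)
    (fun s hs s' hs' e => a4 hs.1 hs'.1 (b4 hs.2 hs'.2 e))
    (fun s hs => mx_mem hik hjk.symm hij (b1 hs.2)) ?_
    (disjoint_image_image fun a ha b hb =>
      (mx_ne hij hjk hik (c1 hb) (b1 ha.2) (c5 b hb)).symm).symm
    ((gen_par c2 c3 (h.rk_Sg_le hjk.symm hij.symm hik.symm h4 hr)).image di c4) fun h5 => ?_)
  · rintro _ ⟨s, hs, rfl⟩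
    exact mx_mem hij hjk hik (c1 hs)
  · rcases Rk.union (Y := S1 \ mx (T.φ j) ⁻¹' S2) (h.ds_Sg.diff a2) (h5.mono fun s hs => by
      by_cases e : s ∈ S1
      · exact Or.inr ⟨e, fun e' => hs.2 ⟨e, e'⟩⟩
      · exact Or.inl ⟨hs.1, e⟩) with h6 | h6
    · exact hr' (a3 r h6)
    · exact hr' (h.rk_Sg_le hik hjk.symm hij h2 (b3 r (h6.maps dj (a4.mono sdiff_subset)
        fun s hs => ⟨mx_mem hjk hik.symm hij.symm (a1 hs.1), hs.2⟩)))

theorem not_all_ab (hjk : j ≠ k)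
    (hab : ∀ B, VB T B → (Cx T j ≤ B ∨ Cx T k ≤ B) → Ab B) : False := by
  have hab' : ∀ m, m = j ∨ m = k → ∀ B, VB T B → Cx T m ≤ B → Ab B := fun m hm B hB hle =>
    hab B hB (by rcases hm with rfl | rfl; exacts [Or.inl hle, Or.inr hle])
  have hJD : ∀ m, m = j ∨ m = k → T.J m ⊆ Cn (Dx T) := fun m hm x hx => by
    obtain ⟨B, hB, hle⟩ := h.exists_vb (h.vc_Cx (i := m)) h.Cx_ne_top
    exact mem_Cn.2 fun d hd => hab' m hm B hB hle d (hle (Dx_le hd)) x (hle (J_sub_Cx hx))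
  have hD : Dx T = ⊥ := by_contra fun hne => h.cn_ne_top hne
    (h.eq_top_of_J hjk h.df_Dx.cn vi_Dx.cn (hJD j (Or.inl rfl)) (hJD k (Or.inr rfl)))
  have hC : ∀ l, Ab (Cx T l) := fun l => ab_of_sub_J (T := T) (i := l) fun g hg => by
    obtain ⟨d, -, x, -, hd, hx, rfl⟩ := dec_Cx (u2 G) df_top.rc vi_top (Subgroup.mem_top g) hg
    rw [hD, Subgroup.mem_bot] at hd
    rw [hd, one_mul]
    exact hx
  have one : ∀ l m, l ≠ m → ∀ w ∈ T.J l, (∀ z ∈ T.J m, Commute z w) → w = 1 :=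
    fun l m hlm w hw hc => by_contra fun hne => h.centralizer_ne_top hne
      (h.eq_top_of_J hlm (df_centralizer_singleton w) (vi_centralizer fun a => Tri.φ_J a hw)
        (fun z hz => Subgroup.mem_centralizer_singleton_iff.2
          (hC l z (J_sub_Cx hz) w (J_sub_Cx hw)))
        fun z hz => Subgroup.mem_centralizer_singleton_iff.2 (hc z hz))
  have ee : ∀ l m, m = j ∨ m = k → l ≠ m → EE T l m := by
    intro l m hm hlm
    refine ⟨⊥, df_bot, hD.le, fun hle => ?_, fun y hy hy1 x hx hxy => ?_⟩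
    · obtain ⟨x, hx, hx1⟩ := h.exists_J_ne m
      exact hx1 (Subgroup.mem_bot.1 (hle (J_sub_Cx hx)))
    have dC := df_centralizer_singleton y
    have h1 : Cx T m ≤ cc (Subgroup.centralizer {y}) := h.vc_Cx.1.le_cc dC fun g hg =>
      Subgroup.mem_centralizer_singleton_iff.2 (hC m g hg y (J_sub_Cx hy))
    obtain ⟨B, hB, hle⟩ := h.exists_vb (h.vc_cc dC (vi_centralizer fun a => Tri.φ_J a hy))
      (h.cc_ne_top dC (h.centralizer_ne_top fun e => hy1 (Subgroup.mem_bot.2 e)))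
    have hA := hab' m hm B hB (h1.trans hle)
    have h2 : B ≤ Cx T m := le_of_components (u2 G) hB.1.1.1.rc hB.1.2
      (inf_le_right.trans Dx_le) fun a w hwB hw => by
        rcases eq_or_ne a m with rfl | ham
        · exact J_sub_Cx hw
        · rw [one a m ham w hw fun z hz => hA z (hle (h1 (J_sub_Cx hz))) w hwB]
          exact Subgroup.one_mem _
    have h3 : x ∈ Nm (Cx T m) := le_antisymm (hle.trans h2) h1 ▸
      nm_cc (nm_centralizer_singleton hxy.symm) dC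
    have h4 := mem_Cn_of_fix (u2 G) (σ := T.φ m) (fun _ ha => ha) (hx.2 m hlm.symm) h3
    exact one l m hlm x hx fun z hz => mem_Cn.1 h4 z (J_sub_Cx hz)
  obtain ⟨i, hki, hji⟩ := Tri.third hjk
  exact h.par1 hji.symm hjk hki.symm (ee i j (Or.inl rfl) hji.symm) (ee i k (Or.inr rfl) hki.symm)
    (ee j k (Or.inr rfl) hjk) (ee k j (Or.inl rfl) hjk.symm)

end MC

end Pool.Agent.MP_fcbc9a_lc.H58
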