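import Pool.Agent.MP_fcbc9a_lc.H58.Basic

/-!
Pure group theory: invariant subgroups, iterated commutators.
-/

open Set
open scoped commutatorElement

namespace Pool.Agent.MP_fcbc9a_lc.H58

variable {G : Type*} [Group G]

/-- the subgroup is invariant under the automorphism -/
def Stb (σ : MulAut G) (H : Subgroup G) : Prop := ∀ x, σ x ∈ H ↔ x ∈ H

/-- fixed points -/
def Fix (σ : MulAut G) : Subgroup G := MonoidHom.eqLocus σ.toMonoidHom (MonoidHom.id G)

/-- normaliser -/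
abbrev Nm (H : Subgroup G) : Subgroup G := Subgroup.normalizer (H : Set G)

/-- centraliser -/
abbrev Cn (H : Subgroup G) : Subgroup G := Subgroup.centralizer (H : Set G)

/-- abelian -/
def Ab (A : Subgroup G) : Prop := ∀ a ∈ A, ∀ b ∈ A, Commute a b

/-- torsion free -/
def TF (A : Subgroup G) : Prop := ∀ a ∈ A, ∀ n : ℕ, n ≠ 0 → a ^ n = 1 → a = 1

/-- iterated commutator -/
def itc (K X : Subgroup G) : ℕ → Subgroup G
  | 0 => K
  | n + 1 => ⁅itc K X n, X⁆

/-- derived series -/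
def der (H : Subgroup G) : ℕ → Subgroup G
  | 0 => H
  | n + 1 => ⁅der H n, der H n⁆

/-- unipotent action -/
def Unip (K X : Subgroup G) : Prop := ∃ n, itc K X n = ⊥

/-- nilpotent -/
def Nil (H : Subgroup G) : Prop := Unip H H

/-- soluble -/
def Sol (H : Subgroup G) : Prop := ∃ n, der H n = ⊥

/-- centraliser of W modulo W' -/
def CM (W W' : Subgroup G) : Subgroup G where
  carrier := {g | g ∈ Nm W' ∧ ∀ w ∈ W, ⁅w, g⁆ ∈ W'}
  one_mem' := ⟨Subgroup.one_mem _, fun w _ => by simp⟩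
  mul_mem' := fun {g h} hg hh => ⟨Subgroup.mul_mem _ hg.1 hh.1, fun w hw => by
    have := W'.mul_mem (hg.2 w hw) ((Subgroup.mem_normalizer_iff.1 hg.1 _).1 (hh.2 w hw))
    convert this using 1
    simp only [commutatorElement_def]
    group⟩
  inv_mem' := fun {g} hg => ⟨Subgroup.inv_mem _ hg.1, fun w hw => by
    have := (Subgroup.mem_normalizer_iff''.1 hg.1 _).1 (W'.inv_mem (hg.2 w hw))
    convert this using 1
    simp only [commutatorElement_def]
    group⟩

/-- intersection of the conjugates of M under T -/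
def core (T M : Subgroup G) : Subgroup G where
  carrier := {y | ∀ t ∈ T, t * y * t⁻¹ ∈ M}
  one_mem' := fun t _ => by simp
  mul_mem' := fun {a b} ha hb t ht => by
    convert M.mul_mem (ha t ht) (hb t ht) using 1
    group
  inv_mem' := fun {a} ha t ht => by
    convert M.inv_mem (ha t ht) using 1
    group

/-- a map which is multiplicative on a subgroup -/
def HomOn (f : G → G) (A : Subgroup G) : Prop := ∀ a ∈ A, ∀ b ∈ A, f (a * b) = f a * f b

variable {σ τ : MulAut G} {A B H K L N S W X Y : Subgroup G} {g x : G} {f : G → G} {m n : ℕ}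

theorem mem_Fix : x ∈ Fix σ ↔ σ x = x := Iff.rfl

theorem mem_CM {W' : Subgroup G} : g ∈ CM W W' ↔ g ∈ Nm W' ∧ ∀ w ∈ W, ⁅w, g⁆ ∈ W' := Iff.rfl

theorem mem_core : x ∈ core S K ↔ ∀ t ∈ S, t * x * t⁻¹ ∈ K := Iff.rfl

theorem mem_Cn : g ∈ Cn H ↔ ∀ h ∈ H, Commute h g := Subgroup.mem_centralizer_iff

theorem mem_Nm_iff_stb : g ∈ Nm H ↔ Stb (MulAut.conj g) H :=
  Subgroup.mem_normalizer_iff.trans (forall_congr' fun _ => Iff.comm)

theorem conj_mem (hg : g ∈ Nm H) (hx : x ∈ H) : g * x * g⁻¹ ∈ H :=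
  (Subgroup.mem_normalizer_iff.1 hg x).1 hx

theorem conj_mem' (hg : g ∈ Nm H) (hx : x ∈ H) : g⁻¹ * x * g ∈ H :=
  (Subgroup.mem_normalizer_iff''.1 hg x).1 hx

theorem le_Nm_of_conj (h : ∀ g ∈ X, ∀ x ∈ H, g * x * g⁻¹ ∈ H) : X ≤ Nm H := fun g hg =>
  Subgroup.mem_normalizer_iff.2 fun x => ⟨h g hg x, fun hx => by
    simpa [mul_assoc] using h g⁻¹ (X.inv_mem hg) _ hx⟩

theorem stb_of_maps (h1 : ∀ x ∈ H, σ x ∈ H) (h2 : ∀ x ∈ H, σ⁻¹ x ∈ H) : Stb σ H :=
  fun x => ⟨fun hx => by simpa using h2 _ hx, h1 x⟩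

theorem stb_of_sq (hσ : ∀ x, σ (σ x) = x) (h : ∀ x ∈ H, σ x ∈ H) : Stb σ H :=
  fun x => ⟨fun hx => hσ x ▸ h _ hx, h x⟩

theorem Stb.mem (h : Stb σ H) (hx : x ∈ H) : σ x ∈ H := (h x).2 hx

theorem Stb.symm (h : Stb σ H) : Stb σ⁻¹ H := fun x => by
  rw [← h (σ⁻¹ x)]
  simp

theorem Stb.map_eq (h : Stb σ H) : H.map σ.toMonoidHom = H := by
  ext x
  constructor
  · rintro ⟨y, hy, rfl⟩
    exact h.mem hy
  · exact fun hx => ⟨σ⁻¹ x, h.symm.mem hx, by simp⟩

theorem stb_of_map_eq_pure (h : H.map σ.toMonoidHom = H) : Stb σ H := fun x => by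
  conv_lhs => rw [← h]
  exact Subgroup.mem_map_iff_mem (f := σ.toMonoidHom) σ.injective

theorem stb_top : Stb σ ⊤ := fun _ => Iff.rfl

theorem stb_bot : Stb σ ⊥ := fun x => by simp

theorem Stb.inf (h : Stb σ H) (h' : Stb σ K) : Stb σ (H ⊓ K) := fun x => and_congr (h x) (h' x)

theorem Stb.sup (h : Stb σ H) (h' : Stb σ K) : Stb σ (H ⊔ K) :=
  stb_of_map_eq_pure (by rw [Subgroup.map_sup, h.map_eq, h'.map_eq])

theorem Stb.comm (h : Stb σ H) (h' : Stb σ K) : Stb σ ⁅H, K⁆ :=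
  stb_of_map_eq_pure (by rw [Subgroup.map_commutator, h.map_eq, h'.map_eq])

theorem Stb.itc (h : Stb σ H) (h' : Stb σ K) (n : ℕ) : Stb σ (itc H K n) := by
  induction n with
  | zero => exact h
  | succ n ih => exact ih.comm h'

theorem Stb.der (h : Stb σ H) (n : ℕ) : Stb σ (der H n) := by
  induction n with
  | zero => exact h
  | succ n ih => exact ih.comm ih

theorem Stb.nm (h : Stb σ H) : Stb σ (Nm H) := by
  have key : ∀ σ : MulAut G, Stb σ H → ∀ x ∈ Nm H, σ x ∈ Nm H := fun σ h x hx =>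
    Subgroup.mem_normalizer_iff.2 fun y => by
      rw [← h.symm y, ← h.symm (σ x * y * (σ x)⁻¹), Subgroup.mem_normalizer_iff.1 hx]
      simp
  exact stb_of_maps (key σ h) (key _ h.symm)

theorem stb_centralizer_pure {s : Set G} (h : ∀ x, σ x ∈ s ↔ x ∈ s) :
    Stb σ (Subgroup.centralizer s) := fun x => by
  simp only [Subgroup.mem_centralizer_iff]
  constructor
  · intro hx y hy
    apply σ.injective
    rw [map_mul, map_mul, hx _ ((h y).2 hy)]
  · intro hx y hy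
    obtain ⟨z, rfl⟩ := σ.surjective y
    rw [← map_mul, ← map_mul, hx z ((h z).1 hy)]

theorem Stb.cn (h : Stb σ H) : Stb σ (Cn H) := stb_centralizer_pure h

theorem Stb.core (h : Stb σ H) (h' : Stb σ K) : Stb σ (core H K) := by
  have key : ∀ σ : MulAut G, Stb σ H → Stb σ K → ∀ x ∈ H58.core H K, σ x ∈ H58.core H K :=
    fun σ h h' x hx t ht => by
      simpa using h'.mem (hx _ (h.symm.mem ht))
  exact stb_of_maps (key σ h h') (key _ h.symm h'.symm)

theorem Stb.cm (h : Stb σ H) (h' : Stb σ K) : Stb σ (CM H K) := by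
  have key : ∀ σ : MulAut G, Stb σ H → Stb σ K → ∀ x ∈ CM H K, σ x ∈ CM H K :=
    fun σ h h' x hx => ⟨h'.nm.mem hx.1, fun w hw => by
      simpa [map_commutatorElement] using h'.mem (hx.2 _ (h.symm.mem hw))⟩
  exact stb_of_maps (key σ h h') (key _ h.symm h'.symm)

theorem stb_closure {s : Set G} (h : ∀ x, σ x ∈ s ↔ x ∈ s) : Stb σ (Subgroup.closure s) := by
  refine stb_of_map_eq_pure ?_
  rw [MonoidHom.map_closure]
  congr 1
  ext x
  constructor
  · rintro ⟨y, hy, rfl⟩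
    exact (h y).2 hy
  · intro hx
    obtain ⟨z, rfl⟩ := σ.surjective x
    exact ⟨z, (h z).1 hx, rfl⟩

theorem stb_centralizer {s : Set G} (h : ∀ x, σ x ∈ s ↔ x ∈ s) :
    Stb σ (Subgroup.centralizer s) := stb_centralizer_pure h

theorem stb_centralizer_singleton (h : σ x = x ∨ σ x = x⁻¹) :
    Stb σ (Subgroup.centralizer {x}) := fun y => by
  simp only [Subgroup.mem_centralizer_singleton_iff]
  have h1 : Commute (σ y) (σ x) ↔ Commute y x :=
    ⟨fun hc => σ.injective (by rw [map_mul, map_mul]; exact hc), fun hc => hc.map σ⟩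
  rcases h with h | h
  · rwa [h] at h1
  · rwa [h, Commute.inv_right_iff] at h1

theorem stb_sSup {s : Set (Subgroup G)} (h : ∀ H ∈ s, H.map σ.toMonoidHom ∈ s)
    (h' : ∀ H ∈ s, H.map σ⁻¹.toMonoidHom ∈ s) : Stb σ (sSup s) := by
  have key : ∀ σ : MulAut G, (∀ H ∈ s, H.map σ.toMonoidHom ∈ s) → ∀ x ∈ sSup s, σ x ∈ sSup s :=
    fun σ h => (sSup_le fun H hH => Subgroup.map_le_iff_le_comap.1 (le_sSup (h H hH)) :
      sSup s ≤ (sSup s).comap σ.toMonoidHom)
  exact stb_of_maps (key σ h) (key _ h')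

theorem stb_fix (h : ∀ x, σ (τ x) = τ (σ x)) : Stb σ (Fix τ) := fun x => by
  rw [mem_Fix, mem_Fix, ← h, σ.injective.eq_iff]

theorem stb_of_pm (h : ∀ x ∈ H, σ x = x ∨ σ x = x⁻¹) : Stb σ H := by
  refine stb_of_maps (fun x hx => ?_) fun x hx => ?_
  · rcases h x hx with e | e <;> rw [e]
    exacts [hx, H.inv_mem hx]
  · rcases h x hx with e | e
    · have : σ⁻¹ x = x := by
        conv_lhs => rw [← e]
        simp
      rwa [this]
    · have : σ⁻¹ x = x⁻¹ := by
        conv_lhs => rw [← inv_inv x, ← e]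
        simp
      rw [this]
      exact H.inv_mem hx

theorem nm_inf (h : g ∈ Nm H) (h' : g ∈ Nm K) : g ∈ Nm (H ⊓ K) :=
  mem_Nm_iff_stb.2 ((mem_Nm_iff_stb.1 h).inf (mem_Nm_iff_stb.1 h'))

theorem nm_sup (h : g ∈ Nm H) (h' : g ∈ Nm K) : g ∈ Nm (H ⊔ K) :=
  mem_Nm_iff_stb.2 ((mem_Nm_iff_stb.1 h).sup (mem_Nm_iff_stb.1 h'))

theorem nm_comm (h : g ∈ Nm H) (h' : g ∈ Nm K) : g ∈ Nm ⁅H, K⁆ :=
  mem_Nm_iff_stb.2 ((mem_Nm_iff_stb.1 h).comm (mem_Nm_iff_stb.1 h'))

theorem nm_itc (h : g ∈ Nm H) (h' : g ∈ Nm K) (n : ℕ) : g ∈ Nm (itc H K n) :=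
  mem_Nm_iff_stb.2 ((mem_Nm_iff_stb.1 h).itc (mem_Nm_iff_stb.1 h') n)

theorem nm_der (h : g ∈ Nm H) (n : ℕ) : g ∈ Nm (der H n) :=
  mem_Nm_iff_stb.2 ((mem_Nm_iff_stb.1 h).der n)

theorem nm_nm (h : g ∈ Nm H) : g ∈ Nm (Nm H) := mem_Nm_iff_stb.2 (mem_Nm_iff_stb.1 h).nm

theorem nm_cn (h : g ∈ Nm H) : g ∈ Nm (Cn H) := mem_Nm_iff_stb.2 (mem_Nm_iff_stb.1 h).cn

theorem nm_cm (h : g ∈ Nm H) (h' : g ∈ Nm K) : g ∈ Nm (CM H K) :=
  mem_Nm_iff_stb.2 ((mem_Nm_iff_stb.1 h).cm (mem_Nm_iff_stb.1 h'))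

theorem nm_of_mem (h : g ∈ H) : g ∈ Nm H := Subgroup.le_normalizer h

theorem nm_centralizer_singleton (h : Commute x g) : g ∈ Nm (Subgroup.centralizer {x}) :=
  nm_of_mem (Subgroup.mem_centralizer_singleton_iff.2 h.symm)

theorem cn_le_nm : Cn H ≤ Nm H := Subgroup.centralizer_le_normalizer _

theorem le_Cn_comm : H ≤ Cn K ↔ K ≤ Cn H := Subgroup.le_centralizer_iff

theorem cn_anti (h : H ≤ K) : Cn K ≤ Cn H := Subgroup.centralizer_le h

theorem ab_iff_le_Cn : Ab A ↔ A ≤ Cn A :=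
  ⟨fun h a ha => mem_Cn.2 fun b hb => h b hb a ha, fun h a ha _ hb => mem_Cn.1 (h hb) a ha⟩

theorem ab_iff_comm : Ab A ↔ ⁅A, A⁆ = ⊥ :=
  ab_iff_le_Cn.trans Subgroup.commutator_eq_bot_iff_le_centralizer.symm

theorem Ab.mono (h : Ab A) (hB : B ≤ A) : Ab B := fun a ha b hb => h a (hB ha) b (hB hb)

theorem ab_inf_Cn : Ab (H ⊓ Cn H) := fun a ha _ hb => mem_Cn.1 hb.2 a ha.1

theorem ab_of_inv (h : ∀ x ∈ A, σ x = x⁻¹) : Ab A := fun a ha b hb => by
  have h1 := h _ (A.mul_mem ha hb)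
  rw [map_mul, h a ha, h b hb, ← mul_inv_rev, inv_inj] at h1
  exact h1.symm

theorem comm_le_left (h : K ≤ Nm H) : ⁅H, K⁆ ≤ H :=
  Subgroup.commutator_le.2 fun a ha b hb => by
    have := H.mul_mem ha (conj_mem (h hb) (H.inv_mem ha))
    rwa [← mul_assoc, ← mul_assoc] at this

theorem comm_le_right (h : H ≤ Nm K) : ⁅H, K⁆ ≤ K := by
  rw [Subgroup.commutator_comm]
  exact comm_le_left h

theorem comm_le_self : ⁅H, H⁆ ≤ H := comm_le_left Subgroup.le_normalizer

theorem left_le_Nm_comm : H ≤ Nm ⁅H, K⁆ := by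
  refine le_Nm_of_conj fun g hg => ?_
  have : ⁅H, K⁆ ≤ (⁅H, K⁆ : Subgroup G).comap (MulAut.conj g).toMonoidHom := by
    refine Subgroup.commutator_le.2 fun a ha b hb => ?_
    have h1 := (⁅H, K⁆ : Subgroup G).mul_mem
      (Subgroup.commutator_mem_commutator (H.mul_mem hg ha) hb)
      ((⁅H, K⁆ : Subgroup G).inv_mem (Subgroup.commutator_mem_commutator hg hb))
    show g * ⁅a, b⁆ * g⁻¹ ∈ (⁅H, K⁆ : Subgroup G)
    convert h1 using 1
    simp only [commutatorElement_def]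
    group
  exact fun x hx => this hx

theorem right_le_Nm_comm : K ≤ Nm ⁅H, K⁆ := by
  rw [Subgroup.commutator_comm]
  exact left_le_Nm_comm

theorem le_Nm_of_comm_le (h : ⁅H, K⁆ ≤ H) : K ≤ Nm H := by
  refine le_Nm_of_conj fun g hg x hx => ?_
  have := H.mul_mem (H.inv_mem (h (Subgroup.commutator_mem_commutator hx hg))) hx
  convert this using 1
  simp only [commutatorElement_def]
  group

/-- a subgroup between the derived subgroup and the group is normal -/
theorem le_Nm_of_der_le (h1 : ⁅B, B⁆ ≤ K) (h2 : K ≤ B) : B ≤ Nm K :=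
  le_Nm_of_comm_le ((Subgroup.commutator_mono h2 le_rfl).trans h1)

theorem le_CM_iff {W' : Subgroup G} : X ≤ CM W W' ↔ X ≤ Nm W' ∧ ⁅W, X⁆ ≤ W' :=
  ⟨fun h => ⟨fun _ hg => (h hg).1, Subgroup.commutator_le.2 fun w hw _ hg => (h hg).2 w hw⟩,
    fun h _ hg => ⟨h.1 hg, fun _ hw => h.2 (Subgroup.commutator_mem_commutator hw hg)⟩⟩

theorem comm_sup_le (hX : X ≤ Nm N) (hY : Y ≤ Nm N) (h1 : ⁅W, X⁆ ≤ N) (h2 : ⁅W, Y⁆ ≤ N) :
    ⁅W, X ⊔ Y⁆ ≤ N :=
  (le_CM_iff.1 (sup_le (le_CM_iff.2 ⟨hX, h1⟩) (le_CM_iff.2 ⟨hY, h2⟩))).2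

theorem sup_comm_le (hX : X ≤ Nm N) (hY : Y ≤ Nm N) (h1 : ⁅X, W⁆ ≤ N) (h2 : ⁅Y, W⁆ ≤ N) :
    ⁅X ⊔ Y, W⁆ ≤ N := by
  rw [Subgroup.commutator_comm] at h1 h2 ⊢
  exact comm_sup_le hX hY h1 h2

theorem mem_sup_iff (h : K ≤ Nm H) : g ∈ H ⊔ K ↔ ∃ a ∈ H, ∃ b ∈ K, g = a * b := by
  constructor
  · intro hg
    have := Subgroup.coe_mul_of_right_le_normalizer_left H K h
    rw [← SetLike.mem_coe, this] at hg
    obtain ⟨a, ha, b, hb, e⟩ := hg
    exact ⟨a, ha, b, hb, e.symm⟩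
  · rintro ⟨a, ha, b, hb, rfl⟩
    exact Subgroup.mul_mem_sup ha hb

theorem core_le : core S K ≤ K := fun x hx => by simpa using hx 1 S.one_mem

theorem le_Nm_core : S ≤ Nm (core S K) := by
  refine le_Nm_of_conj fun g hg x hx t ht => ?_
  convert hx (t * g) (S.mul_mem ht hg) using 1
  group

theorem le_core (h1 : S ≤ Nm H) (h2 : H ≤ K) : H ≤ core S K := fun _ hx _ ht => h2 (conj_mem (h1 ht) hx)

theorem itc_succ : itc K X (n + 1) = ⁅itc K X n, X⁆ := rfl

theorem itc_succ' : itc K X (n + 1) = itc ⁅K, X⁆ X n := by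
  induction n with
  | zero => rfl
  | succ n ih => rw [itc_succ, ih, itc_succ]

theorem itc_add : itc K X (m + n) = itc (itc K X m) X n := by
  induction n with
  | zero => rfl
  | succ n ih => rw [← Nat.add_assoc, itc_succ, ih, itc_succ]

theorem itc_mono (h : H ≤ K) (h' : X ≤ Y) (n : ℕ) : itc H X n ≤ itc K Y n := by
  induction n with
  | zero => exact h
  | succ n ih => exact Subgroup.commutator_mono ih h'

theorem itc_succ_le (h : X ≤ Nm K) (n : ℕ) : itc K X (n + 1) ≤ itc K X n :=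
  comm_le_left fun _ hg => nm_itc (h hg) (nm_of_mem hg) n

theorem itc_anti (h : X ≤ Nm K) (hmn : m ≤ n) : itc K X n ≤ itc K X m :=
  antitone_nat_of_succ_le (itc_succ_le h) hmn

theorem itc_le (h : X ≤ Nm K) (n : ℕ) : itc K X n ≤ K :=
  itc_anti h (Nat.zero_le n)

theorem le_Nm_itc (h : X ≤ Nm K) (n : ℕ) : X ≤ Nm (itc K X n) :=
  fun _ hg => nm_itc (h hg) (nm_of_mem hg) n

theorem der_succ : der H (n + 1) = ⁅der H n, der H n⁆ := rfl

theorem der_succ' : der H (n + 1) = der ⁅H, H⁆ n := by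
  induction n with
  | zero => rfl
  | succ n ih => rw [der_succ, ih, der_succ]

theorem der_le (n : ℕ) : der H n ≤ H := by
  induction n with
  | zero => exact le_rfl
  | succ n ih => exact comm_le_self.trans ih

theorem der_succ_le (n : ℕ) : der H (n + 1) ≤ ⁅H, H⁆ :=
  Subgroup.commutator_mono (der_le n) (der_le n)

theorem der_mono (h : H ≤ K) (n : ℕ) : der H n ≤ der K n := by
  induction n with
  | zero => exact h
  | succ n ih => exact Subgroup.commutator_mono ih ih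

theorem Unip.mono (h : Unip K Y) (h1 : H ≤ K) (h2 : X ≤ Y) : Unip H X := by
  obtain ⟨n, hn⟩ := h
  exact ⟨n, le_bot_iff.1 (hn ▸ itc_mono h1 h2 n)⟩

theorem Unip.eq_bot (h : Unip K X) (h1 : H ≤ K) (h2 : H ≤ ⁅H, X⁆) : H = ⊥ := by
  obtain ⟨n, hn⟩ := h
  have h3 : ∀ m, H ≤ itc K X m := by
    intro m
    induction m with
    | zero => exact h1
    | succ m ih => exact h2.trans (Subgroup.commutator_mono ih le_rfl)
  exact le_bot_iff.1 (hn ▸ h3 n)

theorem Unip.of_itc_le (h : Unip K X) (h1 : itc H X n ≤ K) : Unip H X := by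
  obtain ⟨m, hm⟩ := h
  refine ⟨n + m, le_bot_iff.1 ?_⟩
  rw [itc_add, ← hm]
  exact itc_mono h1 le_rfl m

theorem Unip.of_comm_le (h : Unip K X) (h1 : ⁅H, X⁆ ≤ K) : Unip H X :=
  h.of_itc_le (n := 1) h1

theorem unip_of_le_Cn (h : X ≤ Cn K) : Unip K X :=
  ⟨1, Subgroup.commutator_eq_bot_iff_le_centralizer.2 (le_Cn_comm.1 h)⟩

/-- If K is normalised by H and X, both unipotent, then X is unipotent on the join. -/
theorem Unip.sup_left (hH : X ≤ Nm H) (hK : X ≤ Nm K) (hHK : H ≤ Nm K) (h1 : Unip H X)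
    (h2 : Unip K X) : Unip (H ⊔ K) X := by
  obtain ⟨n, hn⟩ := h1
  have h3 : ∀ m, itc (H ⊔ K) X m ≤ itc H X m ⊔ K := by
    intro m
    induction m with
    | zero => exact le_rfl
    | succ m ih =>
      refine (Subgroup.commutator_mono ih le_rfl).trans (sup_comm_le ?_ ?_ le_sup_left ?_)
      · exact fun g hg => nm_sup (left_le_Nm_comm hg) (hHK (itc_le hH m hg))
      · exact le_sup_right.trans Subgroup.le_normalizer
      · exact (comm_le_left hK).trans le_sup_right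
  refine h2.of_itc_le (n := n) ?_
  simpa [hn] using h3 n

theorem Unip.sup (hX : X ≤ Nm S) (hY : Y ≤ Nm S) (hYX : Y ≤ Nm X) (h1 : Unip S X)
    (h2 : Unip S Y) : Unip S (X ⊔ Y) := by
  obtain ⟨n, hn⟩ := h1
  obtain ⟨m, hm⟩ := h2
  have hYi : ∀ i, Y ≤ Nm (itc S X i) := fun i g hg => nm_itc (hY hg) (hYX hg) i
  have key : ∀ i j, itc (itc S X i) (X ⊔ Y) j ≤ itc (itc S X i) Y j ⊔ itc S X (i + 1) := by
    intro i j
    have hW : ∀ j, ⁅itc (itc S X i) Y j ⊔ itc S X (i + 1), X⁆ ≤ itc S X (i + 1) := fun j =>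
      Subgroup.commutator_mono (sup_le (itc_le (hYi i) j) (itc_succ_le hX i)) le_rfl
    induction j with
    | zero => exact le_sup_left
    | succ j ih =>
      refine (Subgroup.commutator_mono ih le_rfl).trans (comm_sup_le ?_ ?_ ?_ ?_)
      · exact le_Nm_of_comm_le ((hW _).trans le_sup_right)
      · exact fun g hg => nm_sup (le_Nm_itc (hYi i) _ hg) (hYi _ hg)
      · exact (hW j).trans le_sup_right
      · refine sup_comm_le ?_ ?_ le_sup_left ?_
        · exact fun g hg => nm_sup (left_le_Nm_comm hg) (left_le_Nm_comm (itc_le (hYi i) j hg))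
        · exact le_sup_right.trans Subgroup.le_normalizer
        · exact (comm_le_left (hYi _)).trans le_sup_right
  have down : ∀ d i, itc S X (i + d) = ⊥ → Unip (itc S X i) (X ⊔ Y) := by
    intro d
    induction d with
    | zero => exact fun i hi => ⟨0, hi⟩
    | succ d ih =>
      intro i hi
      refine (ih (i + 1) (by rw [← hi]; congr 1; omega)).of_itc_le (n := m)
        ((key i m).trans (sup_le ?_ le_rfl))
      exact ((itc_mono (itc_le hX i) le_rfl m).trans hm.le).trans bot_le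
  exact down n 0 (by rw [Nat.zero_add, hn])

/-- relative three subgroups lemma -/
theorem three_sub (hH : H ≤ Nm N) (hX : X ≤ Nm N) (hK : K ≤ Nm N) (h1 : ⁅⁅X, K⁆, H⁆ ≤ N)
    (h2 : ⁅⁅K, H⁆, X⁆ ≤ N) : ⁅⁅H, X⁆, K⁆ ≤ N := by
  rw [Subgroup.commutator_comm] at h1 h2 ⊢
  refine (le_CM_iff.1 (Subgroup.commutator_le.2 fun x hx y hy => ?_)).2
  refine ⟨?_, fun z hz => ?_⟩
  · rw [commutatorElement_def]
    exact mul_mem (mul_mem (mul_mem (hH hx) (hX hy)) (inv_mem (hH hx))) (inv_mem (hX hy))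
  · have a := h2 (Subgroup.commutator_mem_commutator hy
      (Subgroup.commutator_mem_commutator (inv_mem hz) (inv_mem hx)))
    have b := h1 (Subgroup.commutator_mem_commutator (inv_mem hx)
      (Subgroup.commutator_mem_commutator (inv_mem hy) hz))
    have := mul_mem (conj_mem (mul_mem (hH hx) (hK hz)) (inv_mem a))
      (conj_mem (mul_mem (hH hx) (hX hy)) (inv_mem b))
    convert this using 1
    simp only [commutatorElement_def]
    group

theorem le_Cn_of_unip (hH : H ≤ S) (hX : X ≤ S) (hK : K ≤ S) (hS : S ≤ Nm K) (h : Unip K S)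
    (hHX : H ≤ ⁅H, X⁆) : H ≤ Cn K := by
  obtain ⟨n, hn⟩ := h
  have key : ∀ d j, ⁅H, itc K S j⁆ ≤ itc K S (j + d) := by
    intro d
    induction d with
    | zero => exact fun j => comm_le_right (hH.trans (le_Nm_itc hS j))
    | succ d ih =>
      intro j
      have hN := le_Nm_itc hS (j + (d + 1))
      refine (Subgroup.commutator_mono hHX le_rfl).trans
        (three_sub (hH.trans hN) (hX.trans hN) (((itc_le hS j).trans hK).trans hN) ?_ ?_)
      · have h1 : ⁅X, itc K S j⁆ ≤ itc K S (j + 1) := by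
          rw [Subgroup.commutator_comm]
          exact Subgroup.commutator_mono le_rfl hX
        rw [Subgroup.commutator_comm, show j + (d + 1) = j + 1 + d by omega]
        exact (Subgroup.commutator_mono le_rfl h1).trans (ih (j + 1))
      · rw [Subgroup.commutator_comm (itc K S j) H]
        exact Subgroup.commutator_mono (ih j) hX
  have h1 := key n 0
  rw [Nat.zero_add, hn] at h1
  exact Subgroup.commutator_eq_bot_iff_le_centralizer.1 (le_bot_iff.1 h1)

theorem Nil.mono (h : Nil K) (h1 : H ≤ K) : Nil H := Unip.mono h h1 h1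

theorem Ab.nil (h : Ab A) : Nil A := ⟨1, ab_iff_comm.1 h⟩

theorem Nil.sol (h : Nil H) : Sol H := by
  obtain ⟨n, hn⟩ := h
  have h1 : ∀ m, der H m ≤ itc H H m := by
    intro m
    induction m with
    | zero => exact le_rfl
    | succ m ih => exact Subgroup.commutator_mono ih (der_le m)
  exact ⟨n, le_bot_iff.1 (hn ▸ h1 n)⟩

theorem Ab.sol (h : Ab A) : Sol A := h.nil.sol

/-- a nilpotent normal subgroup acts unipotently -/
theorem Nil.unip (h : Nil N) (hS : S ≤ Nm N) : Unip S N :=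
  Unip.of_comm_le h (comm_le_right hS)

theorem Nil.sup (h1 : Nil H) (h2 : Nil K) (hH : H ≤ Nm K) (hK : K ≤ Nm H) : Nil (H ⊔ K) :=
  Unip.sup (le_sup_left.trans Subgroup.le_normalizer) (le_sup_right.trans Subgroup.le_normalizer)
    hK (h1.unip (sup_le Subgroup.le_normalizer hK)) (h2.unip (sup_le hH Subgroup.le_normalizer))

theorem Sol.mono (h : Sol K) (h1 : H ≤ K) : Sol H := by
  obtain ⟨n, hn⟩ := h
  exact ⟨n, le_bot_iff.1 (hn ▸ der_mono h1 n)⟩

theorem Sol.of_der_le (h : Sol K) (h1 : der H n ≤ K) : Sol H := by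
  induction n generalizing H with
  | zero => exact h.mono h1
  | succ n ih =>
    rw [der_succ'] at h1
    obtain ⟨m, hm⟩ := ih h1
    exact ⟨m + 1, by rw [der_succ', hm]⟩

theorem Sol.eq_bot (h : Sol H) (h1 : H ≤ ⁅H, H⁆) : H = ⊥ := by
  obtain ⟨n, hn⟩ := h
  have h3 : ∀ m, H ≤ der H m := by
    intro m
    induction m with
    | zero => exact le_rfl
    | succ m ih => exact h1.trans (Subgroup.commutator_mono ih ih)
  exact le_bot_iff.1 (hn ▸ h3 n)

theorem sol_iff : Sol H ↔ Group.IsSolvable H := by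
  have h : ∀ n, (derivedSeries H n).map H.subtype = der H n := by
    intro n
    induction n with
    | zero => rw [derivedSeries_zero, ← MonoidHom.range_eq_map, Subgroup.range_subtype]; rfl
    | succ n ih => rw [derivedSeries_succ, Subgroup.map_commutator, ih, der_succ]
  rw [Group.isSolvable_def]
  refine exists_congr fun n => ?_
  rw [← h, Subgroup.map_eq_bot_iff_of_injective _ H.subtype_injective]

/-- the last term of a series which is not inside a given subgroup -/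
theorem exists_last {s : ℕ → Subgroup G} (h0 : ¬s 0 ≤ K) (hn : s n = ⊥) :
    ∃ i, ¬s i ≤ K ∧ s (i + 1) ≤ K := by
  by_contra h
  push Not at h
  have h1 : ∀ i, ¬s i ≤ K := by
    intro i
    induction i with
    | zero => exact h0
    | succ i ih => exact h i ih
  exact h1 n (hn ▸ bot_le)

section map

variable {Q : Type*} [Group Q] (π : G →* Q)

theorem map_itc (n : ℕ) : (itc K X n).map π = itc (K.map π) (X.map π) n := by
  induction n with
  | zero => rfl
  | succ n ih => rw [itc_succ, Subgroup.map_commutator, ih, itc_succ]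

theorem map_der (n : ℕ) : (der H n).map π = der (H.map π) n := by
  induction n with
  | zero => rfl
  | succ n ih => rw [der_succ, Subgroup.map_commutator, ih, der_succ]

theorem Unip.map (h : Unip K X) : Unip (K.map π) (X.map π) := by
  obtain ⟨n, hn⟩ := h
  exact ⟨n, by rw [← map_itc, hn, Subgroup.map_bot]⟩

theorem Nil.map (h : Nil H) : Nil (H.map π) := Unip.map π h

theorem Sol.map (h : Sol H) : Sol (H.map π) := by
  obtain ⟨n, hn⟩ := h
  exact ⟨n, by rw [← map_der, hn, Subgroup.map_bot]⟩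

theorem Ab.map (h : Ab H) : Ab (H.map π) := by
  rintro _ ⟨a, ha, rfl⟩ _ ⟨b, hb, rfl⟩
  exact (h a ha b hb).map π

theorem nm_map (h : g ∈ Nm H) : π g ∈ Nm (H.map π) :=
  Subgroup.le_normalizer_map π (Subgroup.mem_map_of_mem π h)

end map

theorem HomOn.mono (h : HomOn f A) (hB : B ≤ A) : HomOn f B :=
  fun a ha b hb => h a (hB ha) b (hB hb)

theorem HomOn.one (h : HomOn f A) : f 1 = 1 := by
  have := h 1 A.one_mem 1 A.one_mem
  rw [one_mul] at this
  exact left_eq_mul.1 this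

theorem HomOn.inv (h : HomOn f A) (hx : x ∈ A) : f x⁻¹ = (f x)⁻¹ := by
  have := h x hx x⁻¹ (A.inv_mem hx)
  rw [mul_inv_cancel, h.one] at this
  exact eq_inv_of_mul_eq_one_right this.symm

theorem HomOn.pow (h : HomOn f A) (hx : x ∈ A) (n : ℕ) : f (x ^ n) = f x ^ n := by
  induction n with
  | zero => rw [pow_zero, pow_zero, h.one]
  | succ n ih => rw [pow_succ, h _ (A.pow_mem hx n) x hx, ih, pow_succ]

theorem HomOn.exists_img (h : HomOn f A) : ∃ Y : Subgroup G, (Y : Set G) = f '' A :=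
  ⟨{ carrier := f '' A
     one_mem' := ⟨1, A.one_mem, h.one⟩
     mul_mem' := by
       rintro _ _ ⟨a, ha, rfl⟩ ⟨b, hb, rfl⟩
       exact ⟨a * b, A.mul_mem ha hb, h a ha b hb⟩
     inv_mem' := by
       rintro _ ⟨a, ha, rfl⟩
       exact ⟨a⁻¹, A.inv_mem ha, h.inv ha⟩ }, rfl⟩

theorem HomOn.exists_pre (h : HomOn f A) (W : Subgroup G) :
    ∃ K : Subgroup G, ∀ x, x ∈ K ↔ x ∈ A ∧ f x ∈ W :=
  ⟨{ carrier := {x | x ∈ A ∧ f x ∈ W}
     one_mem' := ⟨A.one_mem, by rw [h.one]; exact W.one_mem⟩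
     mul_mem' := fun {a b} ha hb =>
       ⟨A.mul_mem ha.1 hb.1, by rw [h a ha.1 b hb.1]; exact W.mul_mem ha.2 hb.2⟩
     inv_mem' := fun {a} ha => ⟨A.inv_mem ha.1, by rw [h.inv ha.1]; exact W.inv_mem ha.2⟩ },
    fun _ => Iff.rfl⟩

theorem HomOn.injOn (h : HomOn f A) (hk : ∀ x ∈ A, f x = 1 → x = 1) : InjOn f A := by
  intro a ha b hb hab
  have h1 := hk _ (A.mul_mem (A.inv_mem ha) hb)
    (by rw [h _ (A.inv_mem ha) b hb, h.inv ha, hab, inv_mul_cancel])
  exact inv_mul_eq_one.1 h1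

/-- finitely many colours give finite index -/
theorem relIndex_ne_zero_of_color {ι : Type*} {c : G → ι} {s : Set ι} (hs : s.Finite)
    (hc : ∀ h ∈ H, c h ∈ s) (hK : ∀ h ∈ H, ∀ h' ∈ H, c h = c h' → h⁻¹ * h' ∈ K) :
    K.relIndex H ≠ 0 := by
  classical
  have := hs.to_subtype
  let r : s → H ⧸ K.subgroupOf H := fun i =>
    if h : ∃ y : H, c y = i then (h.choose : H ⧸ K.subgroupOf H) else ((1 : H) : H ⧸ K.subgroupOf H)
  have hr : Function.Surjective r := by
    intro q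
    obtain ⟨y, rfl⟩ := QuotientGroup.mk_surjective q
    have h1 : ∃ y' : H, c y' = (⟨c y, hc y y.2⟩ : s) := ⟨y, rfl⟩
    refine ⟨⟨c y, hc y y.2⟩, ?_⟩
    simp only [r]
    rw [dif_pos h1, QuotientGroup.eq, Subgroup.mem_subgroupOf]
    exact hK _ h1.choose.2 _ y.2 h1.choose_spec
  have := Finite.of_surjective r hr
  exact Subgroup.index_ne_zero_of_finite

theorem relIndex_ne_zero_of_cover {F : Set G} (hF : F.Finite)
    (hc : ∀ h ∈ H, ∃ t ∈ F, t⁻¹ * h ∈ K) : K.relIndex H ≠ 0 := by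
  choose! c h1 h2 using hc
  refine relIndex_ne_zero_of_color hF h1 fun a ha b hb hab => ?_
  have := K.mul_mem (K.inv_mem (h2 a ha)) (h2 b hb)
  rw [hab] at this
  convert this using 1
  group

theorem exists_pow_mem (h : K.relIndex H ≠ 0) (hg : g ∈ H) : ∃ n, n ≠ 0 ∧ g ^ n ∈ K := by
  obtain ⟨n, h0, -, h1⟩ := Subgroup.exists_pow_mem_of_relIndex_ne_zero h hg
  exact ⟨n, h0.ne', h1.1⟩

end Pool.Agent.MP_fcbc9a_lc.H58
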