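import Pool.Agent.MP_fcbc9a_lc.H58.Uniq

/-!
The residual configuration.
-/

open Set
open scoped commutatorElement

namespace Pool.Agent.MP_fcbc9a_lc.H58

universe u

variable {G : Type u} [Group G] [DS G]

/-- structure of the centraliser of the j-th involution in the residual configuration -/
structure RS (T : Tri G) (j : Fin 3) (B : Subgroup G) : Prop where
  vb : VB T (Cx T j)
  ab : Ab (Fit (Cx T j))
  dle : Dx T ≤ Fit (Cx T j)
  le : Fit (Cx T j) ≤ B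
  ex : ∃ y ∈ T.J j, y ∈ Fit (Cx T j) ∧ y ≠ 1

variable [RG G] {T : Tri G} {a b c j k : Fin 3} {B : Subgroup G} {y z : G} {s t : ℕ × ℕ}

theorem FU.res_ty (h : MC T) (f : FU T a t B) {B₀ : Subgroup G} (h0 : VB T B₀) (hne : B₀ ≠ B)
    (h1 : Oz s B₀ ≠ ⊥) (h2 : Oz s B₀ ≤ B) : ∃ A ≤ Dx T, Ty s A := by
  by_contra hc
  have h3 : Oz s B₀ ≤ Cn (Oz t B) := by
    refine h.oz_le_of_components h0.vc.2 (oz_conn.df.cn.rc) fun A hA hle hA' => ?_
    rcases hA' with hD | ⟨l, hl⟩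
    · exact absurd ⟨A, hD, hA⟩ hc
    · exact fun x hx => f.mem_Cn_of_J h (hl hx) (le_Nm_oz (h2 (hle hx)))
  have h4 : B₀ ≤ B := f.le_of_nm h oz_conn.df (h.vi_oz h0.vc.2) h1 h3 h0.vc.1 le_Nm_oz
  exact hne (h.vb_eq h0 f.vb h4).symm

/-- a subgroup of the centraliser of P normalised by Cx j is trivial -/
theorem FU.eq_bot_resA (h : MC T) (f : FU T a t B) (haj : a ≠ j) {Y : Subgroup G} (hY : Df Y)
    (hs : VI T Y) (h2 : Y ≤ Cn (Oz t B)) (h3 : Cx T j ≤ Nm Y) : Y = ⊥ := by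
  by_contra h1
  exact f.ne_of_le h haj (f.le_of_nm h hY hs h1 h2 h.vc_Cx.1 h3) rfl

theorem FU.res (h : MC T) (f : FU T a t B) (haj : a ≠ j) (hjk : j ≠ k) (hak : a ≠ k)
    (hs : ∀ B', VB T B' → B' ≠ B → Top s B') (hle : ∀ B', VB T B' → B' ≠ B → Oz s B' ≤ B)
    {A : Subgroup G} (hA : Ty s A) (hAD : A ≤ Dx T) : RS T j B := by
  have hu := u2 G
  obtain ⟨L, hL, hjL⟩ := h.exists_vb (h.vc_Cx (i := j)) h.Cx_ne_top
  obtain ⟨L', hL', hkL⟩ := h.exists_vb (h.vc_Cx (i := k)) h.Cx_ne_top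
  have hLB : L ≠ B := f.ne_of_le h haj hjL
  have hLB' : L' ≠ B := f.ne_of_le h hak hkL
  have hsol := h.sol_vb hL
  have hne : Oz s L ≠ ⊥ :=
    oz_ne_bot hA (hA.le_fit hL.vc.1 hsol (hs L hL hLB) (hAD.trans (Dx_le.trans hjL)))
  have hnD : ¬Oz s L ≤ Dx T := fun hD => by
    have := h.uniq (f.uh h hs) hL hL' hLB hLB' hne (hD.trans (Dx_le.trans hkL))
    exact h.not_J_J hL hjk hjL (this ▸ hkL)
  obtain ⟨A', hA', hA'L, l, hl⟩ : ∃ A', Ty s A' ∧ A' ≤ Oz s L ∧ ∃ l, (A' : Set G) ⊆ T.J l := by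
    by_contra hc
    refine hnD (h.oz_le_of_components hL.vc.2 h.df_Dx.rc fun A' h1 h2 h3 => ?_)
    exact h3.resolve_right fun h4 => hc ⟨A', h1, h2, h4⟩
  have hFB : Fit L ≤ B :=
    f.le_of_nm h hA'.conn.df (vi_of_sub_J hl) hA'.ne_bot
      (fun x hx => f.mem_Cn_of_J h (hl hx) (le_Nm_oz (hle L hL hLB (hA'L hx)))) fit_conn
      (fit_le_Cn_oz.trans ((cn_anti hA'L).trans cn_le_nm))
  have hab : Ab (Fit L) := by
    have := f.ab_fit_inf h hL hLB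
    rwa [inf_eq_left.2 hFB, fit_conn.cc_eq] at this
  have hviF : VI T (Fit L) := h.vi_fit hL.vc.2
  have hE : ∀ x ∈ Fit L, T.φ j x = x⁻¹ → x = 1 := by
    obtain ⟨E, hE⟩ := hab.exists_inv (T.φ j)
    have : E = ⊥ := by
      refine f.eq_bot_resA h haj (Df.of_iff (Ds.inter fit_conn.df (h.ds_Sg (i := j))) hE)
        (fun l => stb_of_sq (T.sq l) fun x hx => ?_) (fun x hx => ?_)
        (le_Nm_of_conj fun g hg x hx => ?_)
      · obtain ⟨h1, h2⟩ := (hE x).1 hx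
        exact (hE _).2 ⟨(hviF l).mem h1, by rw [Tri.comm, h2, map_inv]⟩
      · obtain ⟨h1, h2⟩ := (hE x).1 hx
        exact f.mem_Cn h (l := j) h2 (le_Nm_oz (hFB h1))
      · obtain ⟨h1, h2⟩ := (hE x).1 hx
        refine (hE _).2 ⟨conj_mem (le_Nm_fit (hjL hg)) h1, ?_⟩
        rw [map_mul, map_mul, map_inv, mem_Cx.1 hg, h2]
        group
    intro x h1 h2
    have h3 := (hE x).2 ⟨h1, h2⟩
    rwa [this, Subgroup.mem_bot] at h3
  have hFC : Fit L ≤ Cx T j := fun g hg => by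
    obtain ⟨c, -, w, hw, h1, h2, rfl⟩ := dec_in hu (T.sq j) fit_conn.df.rc (hviF j) hg
    rw [hE w hw h2, mul_one]
    exact h1
  have hLC : L ≤ Cx T j := by
    have hZ := hL.vc.1.closure_inv (h.dm j) (T.sq j) (hL.vc.2 j)
    have hZF := le_fit_of_unip hL.vc.1 hsol hZ
      ((Subgroup.closure_le _).2 fun x hx => hx.1)
      (unip_of_le_Cn ((Subgroup.closure_le _).2 fun x hx =>
        mem_Cn_of_fix hu (σ := T.φ j) (fun w hw => hFC hw) hx.2 (le_Nm_fit hx.1)))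
    intro g hg
    obtain ⟨c, -, w, hw, h1, h2, rfl⟩ := dec_in hu (T.sq j) hL.vc.1.df.rc (hL.vc.2 j) hg
    rw [hE w (hZF (Subgroup.subset_closure ⟨hw, h2⟩)) h2, mul_one]
    exact h1
  obtain rfl : L = Cx T j := le_antisymm hLC hjL
  refine ⟨hL, hab, ?_, hFB, ?_⟩
  · have hW : ⁅Fit (Cx T j), Fit (Cx T j) ⊔ Dx T⁆ = ⊥ := by
      refine f.eq_bot_resA h haj (fit_conn.comm_left _).df (hviF.comm (hviF.sup vi_Dx)) ?_
        fun g hg => nm_comm (le_Nm_fit hg) ?_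
      · exact (Subgroup.commutator_mono hFB (sup_le hFB (Dx_le.trans f.le))).trans
          (f.comm_le_Cn h)
      · exact le_Nm_of_der_le ((comm_le_fit hL.vc.1 hsol).trans le_sup_left)
          (sup_le fit_le Dx_le) hg
    have h1 : Fit (Cx T j) ≤ Cn (Fit (Cx T j) ⊔ Dx T) :=
      Subgroup.commutator_eq_bot_iff_le_centralizer.1 hW
    exact le_fit_of_unip hL.vc.1 hsol h.vc_Dx.1 Dx_le
      (unip_of_le_Cn (le_Cn_comm.1 (h1.trans (cn_anti le_sup_right))))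
  · obtain ⟨y, hy, hy1⟩ := (Subgroup.bot_or_exists_ne_one A').resolve_left hA'.ne_bot
    have hyF : y ∈ Fit (Cx T j) := oz_le_fit (hA'L hy)
    refine ⟨y, ?_, hyF, hy1⟩
    by_contra hc
    exact hy1 (eq_one_of_J_Cx hu (fun e : l = j => hc (e ▸ hl hy)) (hl hy) (hFC hyF))

theorem RS.eq_one (h : MC T) (hjk : j ≠ k) (r : RS T j B) (r' : RS T k B) {d : G} (hd : d ∈ Dx T)
    (hc : ∀ x ∈ T.J j, Commute d x) : d = 1 := by
  have hu := u2 G
  by_contra hd1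
  have h1 : Cx T j ≤ Subgroup.centralizer {d} := fun g hg => by
    obtain ⟨e, -, x, -, he, hx, rfl⟩ := dec_Cx hu df_top.rc vi_top (Subgroup.mem_top g) hg
    exact Subgroup.mem_centralizer_singleton_iff.2
      ((r.ab d (r.dle hd) e (r.dle he)).mul_right (hc x hx)).symm.eq
  have h2 : Fit (Cx T k) ≤ Cx T j :=
    h.le_vb r.vb (df_centralizer_singleton d) (vi_centralizer fun l => Or.inl (mem_Dx.1 hd l))
      (h.centralizer_ne_top hd1) h1 fit_conn fun g hg =>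
        Subgroup.mem_centralizer_singleton_iff.2 (r'.ab g hg d (r'.dle hd)).eq
  obtain ⟨y, hy, hyF, hy1⟩ := r'.ex
  exact hy1 (eq_one_of_J_Cx hu hjk.symm hy (h2 hyF))

/-- an element of J j outside the normaliser of P acts without fixed points on Fit (Cx j) -/
theorem FU.free_resA (h : MC T) (f : FU T a t B) (haj : a ≠ j) (hjk : j ≠ k) (r : RS T j B)
    (r' : RS T k B) (hy : y ∈ T.J j) (hy' : y ∉ Nm (Oz t B)) {w : G} (hw : w ∈ Fit (Cx T j))
    (hc : Commute w y) : w = 1 := by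
  have hu := u2 G
  have hUD : Fit (Cx T j) ⊓ Subgroup.centralizer {y} ≤ Dx T := fun g hg => by
    obtain ⟨d, -, x, hx, hd, hxJ, rfl⟩ := dec_Cx hu
      (fit_conn.df.inf (df_centralizer_singleton y)).rc
      ((h.vi_fit vi_Cx).inf (vi_centralizer fun l => Tri.φ_J l hy)) hg (fit_le hg.1)
    have hx1 : x = 1 := by
      by_contra hx1
      exact hy' (cn_le_nm (f.mem_Cn_of_commute h hx1 (fun l => Tri.φ_J l hxJ)
        (f.mem_Cn_of_J h hxJ (le_Nm_oz (r.le hx.1)))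
        (Subgroup.mem_centralizer_singleton_iff.1 hx.2) hy))
    rwa [hx1, mul_one]
  have hN : Cx T j ≤ Nm (Fit (Cx T j) ⊓ Subgroup.centralizer {y}) :=
    le_Nm_of_conj fun g hg u hu' => by
      refine ⟨conj_mem (le_Nm_fit hg) hu'.1, Subgroup.mem_centralizer_singleton_iff.2 ?_⟩
      have h1 : ⁅y⁻¹, g⁻¹⁆ ∈ Fit (Cx T j) := comm_le_fit h.vc_Cx.1 h.sol_Cx
        (Subgroup.commutator_mem_commutator (inv_mem (J_sub_Cx hy)) (inv_mem hg))
      have h2 : Commute u y := Subgroup.mem_centralizer_singleton_iff.1 hu'.2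
      have h3 := (h2.mul_right (r.ab u hu'.1 _ h1)).eq
      rw [commutatorElement_def] at h3
      calc g * u * g⁻¹ * y = g * (u * (y * (y⁻¹ * g⁻¹ * y⁻¹⁻¹ * g⁻¹⁻¹))) * g⁻¹ := by group
        _ = y * (g * u * g⁻¹) := by rw [h3]; group
  have hwU : w ∈ Fit (Cx T j) ⊓ Subgroup.centralizer {y} :=
    ⟨hw, Subgroup.mem_centralizer_singleton_iff.2 hc.eq⟩
  refine r.eq_one h hjk r' (hUD hwU) fun x hx => ?_
  exact H58.mem_Cn.1 (mem_Cn_of_fix hu (σ := T.φ a) (fun u hu' => mem_Dx.1 (hUD hu') a)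
    (hx.2 a haj) (hN (J_sub_Cx hx))) w hwU

theorem FU.res_torus (h : MC T) (f : FU T a t B) (haj : a ≠ j) (hjk : j ≠ k) (r : RS T j B)
    (r' : RS T k B) (hy : y ∈ T.J j) (hy' : y ∉ Nm (Oz t B)) :
    Conn (Cx T j ⊓ Subgroup.centralizer {y}) ∧
      ((Cx T j ⊓ Subgroup.centralizer {y} : Subgroup G) : Set G) ⊆ T.J j ∧
      Cx T j ≤ Fit (Cx T j) ⊔ (Cx T j ⊓ Subgroup.centralizer {y}) ∧
      ∀ W : Subgroup G, Dx T ≤ W → y ∈ Nm W → Fit (Cx T j) ≤ W := by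
  have hu := u2 G
  have free : ∀ w ∈ Fit (Cx T j), Commute w y → w = 1 := fun w hw hc =>
    f.free_resA h haj hjk r r' hy hy' hw hc
  have hyC : y ∈ Cx T j := J_sub_Cx hy
  have hyN : y ∈ Nm (Fit (Cx T j)) := le_Nm_fit hyC
  have hdS : Df (Cx T j ⊓ Subgroup.centralizer {y}) := h.df_Cx.inf (df_centralizer_singleton y)
  have hvS : VI T (Cx T j ⊓ Subgroup.centralizer {y}) :=
    vi_Cx.inf (vi_centralizer fun l => Tri.φ_J l hy)
  have hdec : ∀ g ∈ Cx T j, ∃ w ∈ Fit (Cx T j), w⁻¹ * g ∈ Cx T j ⊓ Subgroup.centralizer {y} := by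
    have hm : MapsTo (fun w : G => ⁅w, y⁆) (Fit (Cx T j) : Set G) (Fit (Cx T j) : Set G) :=
      fun w hw => by
      have := mul_mem hw (conj_mem hyN (inv_mem hw))
      simpa only [commutatorElement_def, mul_assoc, SetLike.mem_coe] using this
    have hh : HomOn (fun w => ⁅w, y⁆) (Fit (Cx T j)) := fun w hw w' hw' => by
      have h1 := (r.ab _ (hm hw') _ (conj_mem hyN (inv_mem hw))).eq
      simp only [commutatorElement_def] at h1 ⊢
      calc w * w' * y * (w * w')⁻¹ * y⁻¹ = w * (w' * y * w'⁻¹ * y⁻¹ * (y * w⁻¹ * y⁻¹)) := by group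
        _ = _ := by rw [h1]; group
    have hsurj := surj_of_inj (f := fun w : G => ⁅w, y⁆) fit_conn.df
      ((Dm.var _).comm (Dm.const y)) hh hm
      (hh.injOn fun w hw e => free w hw (commutatorElement_eq_one_iff_commute.1 e))
    intro g hg
    obtain ⟨w, hw, e⟩ := hsurj (comm_le_fit h.vc_Cx.1 h.sol_Cx
      (Subgroup.commutator_mem_commutator hg hyC))
    refine ⟨w, hw, (Cx T j).mul_mem ((Cx T j).inv_mem (fit_le hw)) hg,
      Subgroup.mem_centralizer_singleton_iff.2 ?_⟩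
    simp only [commutatorElement_def, mul_left_inj] at e
    calc w⁻¹ * g * y = w⁻¹ * (g * y * g⁻¹) * g := by group
      _ = y * (w⁻¹ * g) := by rw [← e]; group
  refine ⟨?_, fun g hg => ?_, fun g hg => ?_, fun W hW hyW => ?_⟩
  · have hcN : cc (Cx T j ⊓ Subgroup.centralizer {y}) ≤ Nm (Fit (Cx T j)) :=
      hdS.cc_le.trans (inf_le_left.trans le_Nm_fit)
    obtain ⟨R, hR, hRS, hc⟩ := cover_of_relIndex hdS.cc_relIndex
    have hle : Cx T j ≤ Fit (Cx T j) ⊔ cc (Cx T j ⊓ Subgroup.centralizer {y}) := by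
      refine h.vc_Cx.1.2 _ (fit_conn.df.sup hdS.cc_conn.df hcN)
        (relIndex_ne_zero_of_cover hR fun g hg => ?_)
      obtain ⟨w, hw, hs⟩ := hdec g hg
      obtain ⟨p, hp, hp'⟩ := hc _ hs
      refine ⟨p, hp, ?_⟩
      have e : p⁻¹ * g = p⁻¹ * w * p * (p⁻¹ * (w⁻¹ * g)) := by group
      rw [e]
      exact mul_mem (Subgroup.mem_sup_left (conj_mem' (le_Nm_fit (hRS hp).1) hw))
        (Subgroup.mem_sup_right hp')
    have he : cc (Cx T j ⊓ Subgroup.centralizer {y}) = Cx T j ⊓ Subgroup.centralizer {y} := by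
      refine le_antisymm hdS.cc_le fun g hg => ?_
      obtain ⟨w, hw, c, hc, rfl⟩ := (mem_sup_iff hcN).1 (hle hg.1)
      have h1 : w ∈ Cx T j ⊓ Subgroup.centralizer {y} := by
        simpa using mul_mem hg (inv_mem (hdS.cc_le hc))
      rwa [free w hw (Subgroup.mem_centralizer_singleton_iff.1 h1.2), one_mul]
    exact he ▸ hdS.cc_conn
  · obtain ⟨d, hd, x, -, hdD, hx, rfl⟩ := dec_Cx hu hdS.rc hvS hg hg.1
    rwa [free d (r.dle hdD) (Subgroup.mem_centralizer_singleton_iff.1 hd.2), one_mul]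
  · obtain ⟨w, hw, hs⟩ := hdec g hg
    simpa using mul_mem (Subgroup.mem_sup_left hw) (Subgroup.mem_sup_right hs)
  · have hm : MapsTo (fun w => y * w * y⁻¹ * (y⁻¹ * w * y)⁻¹) (Fit (Cx T j)) (Fit (Cx T j)) :=
      fun w hw => mul_mem (conj_mem hyN hw) (inv_mem (conj_mem' hyN hw))
    have hh : HomOn (fun w => y * w * y⁻¹ * (y⁻¹ * w * y)⁻¹) (Fit (Cx T j)) := fun w hw w' hw' => by
      have h1 := (r.ab _ (hm hw') _ (inv_mem (conj_mem' hyN hw))).eq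
      simp only at h1 ⊢
      calc y * (w * w') * y⁻¹ * (y⁻¹ * (w * w') * y)⁻¹
          = y * w * y⁻¹ * (y * w' * y⁻¹ * (y⁻¹ * w' * y)⁻¹ * (y⁻¹ * w * y)⁻¹) := by group
        _ = _ := by rw [h1]; group
    have hsurj := surj_of_inj (f := fun w => y * w * y⁻¹ * (y⁻¹ * w * y)⁻¹) fit_conn.df
      ((((Dm.const y).mul (Dm.var _)).mul (Dm.const y⁻¹)).mul
        (((Dm.const y⁻¹).mul (Dm.var _)).mul (Dm.const y)).inv) hh hm
      (hh.injOn fun w hw e => free w hw (hu.comm_of_sq (by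
        have e' := mul_inv_eq_one.1 e
        calc y * y * w = y * (y * w * y⁻¹) * y := by group
          _ = w * (y * y) := by rw [e']; group)).symm)
    intro w hw
    obtain ⟨v, hv, rfl⟩ := hsurj hw
    obtain ⟨d, hd, x, hx, hdD, hxJ, rfl⟩ := dec_Cx hu fit_conn.df.rc (h.vi_fit vi_Cx) hv (fit_le hv)
    rw [hh d hd x hx]
    refine mul_mem (mul_mem (conj_mem hyW (hW hdD)) (inv_mem (conj_mem' hyW (hW hdD))))
      (hW (mem_Dx_of haj ?_ (fit_le (hm hx))))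
    have h1 := (r.ab _ (conj_mem hyN hx) _ (inv_mem (conj_mem' hyN hx))).eq
    simp only [map_mul, map_inv, hy.2 a haj, hxJ.2 a haj]
    rw [h1]
    group

omit [DS G] [RG G] in
theorem resB_comm {w w' e e' : G} (h1 : Commute e w') (h2 : Commute e e') (h3 : Commute e w)
    (h4 : Commute e' w) (h5 : Commute e' w') : ⁅w * e, w' * e'⁆ = ⁅w, w'⁆ := by
  have a1 : e * (w' * e') * e⁻¹ = w' * e' := by
    rw [(h1.mul_right h2).eq, mul_inv_cancel_right]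
  have a2 : e' * w⁻¹ * e'⁻¹ = w⁻¹ := by
    rw [h4.inv_right.eq, mul_inv_cancel_right]
  have _ := h3
  have _ := h5
  calc ⁅w * e, w' * e'⁆ = w * (e * (w' * e') * e⁻¹) * w⁻¹ * e'⁻¹ * w'⁻¹ := by
        rw [commutatorElement_def]
        group
    _ = w * w' * (e' * w⁻¹ * e'⁻¹) * w'⁻¹ := by
        rw [a1]
        group
    _ = ⁅w, w'⁆ := by rw [a2, commutatorElement_def]

theorem RS.resB_conj (r : RS T j B) {u d : G} (hu : u ∈ T.J j) (hd : d ∈ Dx T) :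
    u * d * u⁻¹ ∈ Fit (Cx T j) ∧ u⁻¹ * d * u ∈ Fit (Cx T j) :=
  ⟨conj_mem (le_Nm_fit (J_sub_Cx hu)) (r.dle hd), conj_mem' (le_Nm_fit (J_sub_Cx hu)) (r.dle hd)⟩

theorem RS.resB_φ (h : MC T) (r : RS T j B) {u d : G} (hu : u ∈ T.J j) (hd : d ∈ Dx T)
    (l : Fin 3) : ∃ d' ∈ Dx T, ∃ e ∈ Dx T, T.φ l (u * d * u⁻¹) = u * d' * u⁻¹ * e := by
  have hw := (r.resB_conj hu hd).1
  rcases eq_or_ne l j with rfl | hl
  · exact ⟨d, hd, 1, one_mem _, by rw [mul_one]; exact mem_Cx.1 (fit_le hw)⟩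
  · have hw' : T.φ l (u * d * u⁻¹) ∈ Fit (Cx T j) := (h.vi_fit vi_Cx l).mem hw
    refine ⟨d⁻¹, inv_mem hd, u * d * u⁻¹ * T.φ l (u * d * u⁻¹), ?_, by group⟩
    refine mem_Dx_of hl ?_ (mem_Cx.1 (fit_le (mul_mem hw hw')))
    rw [map_mul (T.φ l) (u * d * u⁻¹), T.sq]
    exact (r.ab _ hw' _ hw).eq

theorem FU.res_dich (h : MC T) (f : FU T a t B) (hab : a ≠ b) (hbc : b ≠ c) (hac : a ≠ c)
    (r : RS T b B) (r' : RS T c B) {u v : G} (hu : u ∈ T.J b) (hv : v ∈ T.J c)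
    (huv : Commute u v) : (∀ p ∈ Oz t B, u * v * p * (u * v)⁻¹ ∈ B) ∨
      ∀ d ∈ Dx T, u * v * d * (u * v)⁻¹ ∈ Cn (Dx T) := by
  have _ := hab
  have _ := hac
  obtain ⟨Q, hQ⟩ : ∃ Q : Set G, ∀ q, q ∈ Q ↔
      ∃ d ∈ Dx T, ∃ d' ∈ Dx T, q = ⁅u * d * u⁻¹, v * d' * v⁻¹⁆ := ⟨{q | _}, fun _ => Iff.rfl⟩
  have hφ : ∀ l, ∀ q ∈ Q, T.φ l q ∈ Q := by
    intro l q hq
    obtain ⟨d, hd, d', hd', rfl⟩ := (hQ q).1 hq
    obtain ⟨d₁, hd₁, e, he, e1⟩ := r.resB_φ h hu hd l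
    obtain ⟨d₂, hd₂, e', he', e2⟩ := r'.resB_φ h hv hd' l
    have w1 := (r.resB_conj hu hd₁).1
    have w2 := (r'.resB_conj hv hd₂).1
    refine (hQ _).2 ⟨d₁, hd₁, d₂, hd₂, ?_⟩
    rw [map_commutatorElement, e1, e2]
    exact resB_comm (r'.ab _ (r'.dle he) _ w2) (r.ab _ (r.dle he) _ (r.dle he'))
      (r.ab _ (r.dle he) _ w1) (r.ab _ (r.dle he') _ w1) (r'.ab _ (r'.dle he') _ w2)
  have hvi : VI T (Subgroup.centralizer Q) := fun l => stb_centralizer fun x =>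
    ⟨fun hx => T.sq l x ▸ hφ l _ hx, hφ l x⟩
  have hC : ∀ x ∈ B, ∀ y ∈ B, ∀ p ∈ Oz t B, Commute p ⁅x, y⁆ := fun x hx y hy =>
    H58.mem_Cn.1 (f.comm_le_Cn h (Subgroup.commutator_mem_commutator hx hy))
  by_cases htop : Subgroup.centralizer Q = ⊤
  · right
    intro d hd
    refine H58.mem_Cn.2 fun d' hd' => ?_
    have h1 : ⁅u * d' * u⁻¹, v * d * v⁻¹⁆ = 1 := h.eq_one_of_central fun g => by
      have : g ∈ Subgroup.centralizer Q := htop ▸ Subgroup.mem_top g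
      exact (Subgroup.mem_centralizer_iff.1 this _ ((hQ _).2 ⟨d', hd', d, hd, rfl⟩)).symm
    have h2 := (commutatorElement_eq_one_iff_commute.1 h1).map (T.φ c)
    simp only [map_mul, map_inv, hu.2 c hbc.symm, hv.1, mem_Dx.1 hd c, mem_Dx.1 hd' c,
      inv_inv] at h2
    have h3 := h2.map (MulAut.conj u)
    simp only [MulAut.conj_apply] at h3
    convert h3 using 1 <;> group
  · left
    intro p hp
    have hP : Oz t B ≤ Subgroup.centralizer Q := fun p hp =>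
      Subgroup.mem_centralizer_iff.2 fun q hq => by
        obtain ⟨d, hd, d', hd', rfl⟩ := (hQ q).1 hq
        exact (hC _ (r.le (r.resB_conj hu hd).1) _ (r'.le (r'.resB_conj hv hd').1) p hp).eq.symm
    have hL : (Oz t B).map (MulAut.conj (u * v)).toMonoidHom ≤ Subgroup.centralizer Q := by
      rintro _ ⟨p, hp, rfl⟩
      refine Subgroup.mem_centralizer_iff.2 fun q hq => ?_
      obtain ⟨d, hd, d', hd', rfl⟩ := (hQ q).1 hq
      have h1 := (hC _ (r'.le (r'.resB_conj hv hd).2) _ (r.le (r.resB_conj hu hd').2) p hp).map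
        (MulAut.conj (u * v))
      rw [map_commutatorElement] at h1
      have e1 : MulAut.conj (u * v) (v⁻¹ * d * v) = u * d * u⁻¹ := by
        rw [MulAut.conj_apply]
        group
      have e2 : MulAut.conj (u * v) (u⁻¹ * d' * u) = v * d' * v⁻¹ := by
        rw [MulAut.conj_apply, huv.eq]
        group
      rw [e1, e2] at h1
      exact h1.eq.symm
    exact f.le_of_le h (df_centralizer Q) hvi htop hP (oz_conn.map (dm1_conj (u * v))) hL
      ⟨p, hp, rfl⟩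

theorem resB_ds {S P K : Subgroup G} (hS : Df S) (hP : Df P) (hK : Df K) :
    Ds {g : G | g ∈ S ∧ ∀ p, p ∈ P → g * p * g⁻¹ ∈ K} :=
  Dp.and (hS.mem (Dm.var 0)) (Dp.all (r := fun (v : Fin 1 → G) p => p ∈ P → v 0 * p * (v 0)⁻¹ ∈ K)
    ((hP.mem (Dm.var none)).imp
      (hK.mem (((Dm.var (some 0)).mul (Dm.var none)).mul (Dm.var (some 0)).inv))))

theorem resB_core {S P K : Subgroup G} (hS : Conn S) (hP : Df P) (hK : Df K) {n : ℕ}
    (h1 : ¬Rk (n + 1) (S : Set G)) (h2 : Rk n {g : G | g ∈ S ∧ ∀ p, p ∈ P → g * p * g⁻¹ ∈ K}) :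
    P ≤ core S K := by
  have hact : Act S (S : Set G) fun s x : G => s * x :=
    ⟨RG.mul, fun s hs x hx => S.mul_mem hs hx, fun x _ => one_mul x,
      fun s _ s' _ x _ => mul_assoc s s' x⟩
  obtain ⟨x, hx, hF⟩ := hact.gen hS hK (F := fun x => {y | ∃ p ∈ P, y = x * p * x⁻¹})
    (by
      rintro s - x - _ ⟨p, hp, rfl⟩
      exact ⟨p, hp, by group⟩)
    (resB_ds hS.df hP hK) (fun g hg => hg.1) ⟨1, S.one_mem⟩
    (fun m hm => h2.of_le (by
      by_contra hmn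
      exact h1 (hm.of_le (by omega))))
    (by
      rintro x hx _ ⟨p, hp, rfl⟩
      exact hx.2 p hp)
  intro p hp
  have := conj_mem' (le_Nm_core hx) (hF ⟨p, hp, rfl⟩)
  convert this using 1
  group

theorem FU.resB_pair (h : MC T) (f : FU T a t B) (hak : a ≠ k) (hD : Dx T ≤ B)
    (hE : ¬EE T j k) : ∃ x ∈ T.J j, ∃ z ∈ T.J k, x ∉ Nm (Oz t B) ∧ z ∉ Nm (Oz t B) ∧
      Commute x z := by
  by_contra hc
  refine hE ⟨Nm (Oz t B), oz_conn.df.nm, hD.trans le_Nm_oz,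
    fun hle => f.not_J_sub h hak fun x hx => hle (J_sub_Cx hx), fun z hz hz' x hx hxz => ?_⟩
  by_contra hx1
  refine hc ⟨x, hx, z, hz, fun hxN => hz' (cn_le_nm ?_), hz', hxz⟩
  exact f.mem_Cn_of_commute h hx1 (fun l => Tri.φ_J l hx) (f.mem_Cn_of_J h hx hxN) hxz hz

theorem FU.resB_commute (h : MC T) (f : FU T a t B) (hab : a ≠ b) (hbc : b ≠ c) (hac : a ≠ c)
    (hy : y ∈ T.J j) (hy' : y ∉ Nm (Oz t B)) {u v : G} (hu : u ∈ T.J b) (hv : v ∈ T.J c)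
    (h1 : Commute u y) (h2 : Commute v y) : Commute u v := by
  refine commute_of_J (u2 G) hab hbc hac ((u2 G).rc_centralizer {y})
    (vi_centralizer fun l => Tri.φ_J l hy) (fun x hx hxa => ?_)
    (Subgroup.mem_centralizer_singleton_iff.2 h1) hu
    (Subgroup.mem_centralizer_singleton_iff.2 h2) hv
  by_contra hx1
  exact hy' (cn_le_nm (f.mem_Cn_of_commute h hx1 (fun l => Tri.φ_J l hxa) (f.J_sub_Cn h hxa)
    (Subgroup.mem_centralizer_singleton_iff.1 hx) hy))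

theorem FU.not_res (h : MC T) (f : FU T a t B) (hab : a ≠ b) (hbc : b ≠ c) (hac : a ≠ c)
    (r : RS T b B) (r' : RS T c B) (hD : Dx T ≠ ⊥) : False := by
  have hDB : Dx T ≤ B := r.dle.trans r.le
  obtain ⟨y, hy, z, hz, hy', hz', hyz⟩ : ∃ y ∈ T.J b, ∃ z ∈ T.J c, y ∉ Nm (Oz t B) ∧
      z ∉ Nm (Oz t B) ∧ Commute y z := by
    by_cases h1 : EE T b c
    · by_cases h2 : EE T c b
      · exact (h.par1 hab hbc hac (f.ee h hab) (f.ee h hac) h1 h2).elim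
      · obtain ⟨z, hz, y, hy, hz', hy', hzy⟩ := f.resB_pair h hab hDB h2
        exact ⟨y, hy, z, hz, hy', hz', hzy.symm⟩
    · exact f.resB_pair h hac hDB h1
  obtain ⟨b1, b2, b3, b4⟩ := f.res_torus h hab hbc r r' hy hy'
  obtain ⟨c1, c2, c3, c4⟩ := f.res_torus h hac hbc.symm r' r hz hz'
  have hyS : y ∈ Cx T b ⊓ Subgroup.centralizer {y} :=
    ⟨J_sub_Cx hy, Subgroup.mem_centralizer_singleton_iff.2 rfl⟩
  have hzS : z ∈ Cx T c ⊓ Subgroup.centralizer {z} :=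
    ⟨J_sub_Cx hz, Subgroup.mem_centralizer_singleton_iff.2 rfl⟩
  have hcomm : ∀ u ∈ Cx T b ⊓ Subgroup.centralizer {y}, ∀ v ∈ Cx T c ⊓ Subgroup.centralizer {z},
      Commute u v := fun u hu v hv =>
    f.resB_commute h hab hbc hac hz hz' (b2 hu) (c2 hv)
      (f.resB_commute h hab hbc hac hy hy' (b2 hu) hz
        (Subgroup.mem_centralizer_singleton_iff.1 hu.2) hyz.symm)
      (Subgroup.mem_centralizer_singleton_iff.1 hv.2)
  generalize Cx T b ⊓ Subgroup.centralizer {y} = Sb at *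
  generalize Cx T c ⊓ Subgroup.centralizer {z} = Sc at *
  have hN : Sc ≤ Nm Sb := fun v hv => cn_le_nm (H58.mem_Cn.2 fun u hu => hcomm u hu v hv)
  have hS : Conn (Sb ⊔ Sc) := b1.sup c1
  have hvS : VI T (Sb ⊔ Sc) := (vi_of_sub_J b2).sup (vi_of_sub_J c2)
  obtain ⟨n, hn, hn'⟩ := exists_rk (U := ((Sb ⊔ Sc : Subgroup G) : Set G)) ⟨1, one_mem _⟩
  have hcov : ((Sb ⊔ Sc : Subgroup G) : Set G) ⊆
      {g : G | g ∈ Sb ⊔ Sc ∧ ∀ p, p ∈ Oz t B → g * p * g⁻¹ ∈ B} ∪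
        {g : G | g ∈ Sb ⊔ Sc ∧ ∀ p, p ∈ Dx T → g * p * g⁻¹ ∈ Cn (Dx T)} := by
    intro g hg
    obtain ⟨u, hu, v, hv, rfl⟩ := (mem_sup_iff hN).1 hg
    exact (f.res_dich h hab hbc hac r r' (b2 hu) (c2 hv) (hcomm u hu v hv)).imp
      (fun h1 => ⟨hg, h1⟩) fun h1 => ⟨hg, h1⟩
  have hB : Df B := f.vb.vc.1.df
  rcases (hn.mono hcov).union (resB_ds hS.df oz_conn.df hB) with h1 | h1
  · have hP := resB_core hS oz_conn.df hB hn' h1
    have hdf : Df (core (Sb ⊔ Sc) B) := hS.df.core hB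
    have hvi : VI T (core (Sb ⊔ Sc) B) := hvS.core f.vb.vc.2
    have hle : Sb ⊔ Sc ≤ B := f.le_of_le h hdf.nm hvi.nm
      (h.nm_ne_top hdf hvi (fun e => f.ne (eq_bot_iff.2 (e ▸ hP)))
        fun e => f.vb.2.1 (eq_top_iff.2 (e ▸ core_le)))
      (fun p hp => nm_of_mem (hP hp)) hS le_Nm_core
    exact hy' (le_Nm_oz (hle (Subgroup.mem_sup_left hyS)))
  · have hP := resB_core hS h.df_Dx h.df_Dx.cn hn' h1
    have hdf : Df (core (Sb ⊔ Sc) (Cn (Dx T))) := hS.df.core h.df_Dx.cn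
    have hvi : VI T (core (Sb ⊔ Sc) (Cn (Dx T))) := hvS.core vi_Dx.cn
    have hNb : Sb ≤ Nm (core (Sb ⊔ Sc) (Cn (Dx T))) := le_sup_left.trans le_Nm_core
    have hNc : Sc ≤ Nm (core (Sb ⊔ Sc) (Cn (Dx T))) := le_sup_right.trans le_Nm_core
    have k1 := b3.trans (sup_le (fun x hx => nm_of_mem (b4 _ hP (hNb hyS) hx)) hNb)
    have k2 := c3.trans (sup_le (fun x hx => nm_of_mem (c4 _ hP (hNc hzS) hx)) hNc)
    exact h.nm_ne_top hdf hvi (fun e => hD (eq_bot_iff.2 (e ▸ hP)))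
      (fun e => h.cn_ne_top hD (eq_top_iff.2 (e ▸ core_le)))
      (h.eq_top_of_J hbc hdf.nm hvi.nm (fun x hx => k1 (J_sub_Cx hx))
        fun x hx => k2 (J_sub_Cx hx))

end Pool.Agent.MP_fcbc9a_lc.H58
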