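import Pool.Agent.MP_fcbc9a_lc.H58.Two
import Pool.Agent.MP_fcbc9a_lc.H58.Res

/-!
The minimal configuration is contradictory; reduction to it.
-/

open Set
open scoped commutatorElement

namespace Pool.Agent.MP_fcbc9a_lc.H58

universe u

variable {G : Type u} [Group G] [DS G] [RG G] {T : Tri G}

theorem MC.false (h : MC T) : False := by
  by_cases h1 : ∀ B, VB T B → Ab B
  · exact h.not_all_ab (j := 0) (k := 1) (by decide) fun B hB _ => h1 B hB
  push Not at h1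
  obtain ⟨B₀, hB₀, hab₀⟩ := h1
  obtain ⟨a, t, B, f⟩ := h.exists_fu hB₀ hab₀
  obtain ⟨b, hba⟩ := exists_ne a
  have hab := hba.symm
  obtain ⟨c, hbc, hac⟩ := Tri.third hab
  by_cases h2 : ∀ B', VB T B' → B' ≠ B → Ab B'
  · exact h.not_all_ab hbc fun B' hB' hle =>
      h2 B' hB' (hle.elim (f.ne_of_le h hab) (f.ne_of_le h hac))
  push Not at h2
  obtain ⟨B₁, hB₁, hne, hab'⟩ := h2
  obtain ⟨s, ⟨B₂, hB₂, A, hA, hs⟩, htop⟩ := exists_top (s := {B' | VB T B' ∧ B' ≠ B})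
    ⟨B₁, ⟨hB₁, hne⟩, exists_ty_of_not_ab hB₁.1.1 (h.sol_vb hB₁) hab'⟩
  have htop' : ∀ B', VB T B' → B' ≠ B → Top s B' := fun B' h1 h2 => htop B' ⟨h1, h2⟩
  by_cases h3 : ∀ B', VB T B' → B' ≠ B → Oz s B' ≤ B
  · have hoz : Oz s B₂ ≠ ⊥ :=
      oz_ne_bot hs (hs.le_fit hB₂.1.1.1 (h.sol_vb hB₂.1) (htop _ hB₂) hA)
    obtain ⟨A', hD, hA'⟩ := f.res_ty h hB₂.1 hB₂.2 hoz (h3 _ hB₂.1 hB₂.2)
    exact f.not_res h hab hbc hac (f.res h hab hbc hac htop' h3 hA' hD)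
      (f.res h hac hbc.symm hab htop' h3 hA' hD) fun e => hA'.ne_bot (le_bot_iff.1 (e ▸ hD))
  · push Not at h3
    obtain ⟨B', hB', hne', hle⟩ := h3
    obtain ⟨k, hk, f'⟩ := f.exists_second h htop' hB' hne' hle
    exact h.not_two hk f f'

theorem sol_of_tri (hT : ∀ i, Dm1 (T.φ i)) {L : Subgroup G} (hL : VC T L)
    (hs : ∀ i, Sol (L ⊓ Cx T i)) : Sol L := by
  by_contra hns
  obtain ⟨H, ⟨hH, hHL, hHs⟩, hmin⟩ := exists_minimal (s := {H | VC T H ∧ H ≤ L ∧ ¬Sol H})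
    (fun H hH => hH.1.1.1) ⟨L, hL, le_rfl, hns⟩
  have hsol : ∀ K, VC T K → K ≤ H → K ≠ H → Sol K := fun K h1 h2 h3 =>
    by_contra fun h4 => h3 (hmin K ⟨h1, h2.trans hHL, h4⟩ h2)
  have hHb : (⊥ : Subgroup G) ≠ H := fun e => hHs ⟨0, e.symm⟩
  obtain ⟨N₀, ⟨hN₀, hN₀H, hHN₀, hne⟩, hmax⟩ := exists_maximal
    (s := {N | VC T N ∧ N ≤ H ∧ H ≤ Nm N ∧ N ≠ H}) (fun N hN => hN.1.1)
    ⟨⊥, ⟨conn_bot, vi_bot⟩, bot_le, fun g _ => mem_Nm_iff_stb.2 stb_bot, hHb⟩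
  set N := H ⊓ CM H N₀ with hN
  have dN : Df N := hH.1.1.inf (hH.1.1.cm hN₀.1.1)
  have vN : VI T N := hH.2.inf fun i => (hH.2 i).cm (hN₀.2 i)
  have hHN : H ≤ Nm N := fun g hg => nm_inf (nm_of_mem hg) (nm_cm (nm_of_mem hg) (hHN₀ hg))
  have hN₀N : N₀ ≤ N := le_inf hN₀H
    (le_CM_iff.2 ⟨Subgroup.le_normalizer, comm_le_right hHN₀⟩)
  have hHNN : ⁅H, N⁆ ≤ N₀ := (le_CM_iff.1 inf_le_right).2
  have sN : Sol N := (hsol N₀ hN₀ hN₀H hne).of_der_le (n := 1)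
    ((Subgroup.commutator_mono inf_le_left le_rfl).trans hHNN)
  obtain ⟨Q, _, _, _, π, S⟩ := exists_sec hH.1.1 dN inf_le_left hHN
  choose τ hτ hτπ using fun i => S.exists_aut (hT i) (hH.2 i) (vN i)
  have nsol : ¬Sol (⊤ : Subgroup Q) := fun h => hHs (S.sol_of_dn le_rfl sN (S.dn_top ▸ h))
  have hfix : ∀ i, ∀ x : H, τ i (π x) = π x → π x ∈ dn π (H ⊓ Cx T i) := by
    intro i x hx
    obtain ⟨c, hc, s, hs, h1, h2, e⟩ := dec_in (u2 G) (T.sq i) hH.1.1.rc (hH.2 i) x.2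
    have e1 : x = ⟨c, hc⟩ * ⟨s, hs⟩ := Subtype.ext e
    have e2 : τ i (π ⟨c, hc⟩) = π ⟨c, hc⟩ := by rw [hτπ]; exact congrArg π (Subtype.ext h1)
    have e3 : τ i (π ⟨s, hs⟩) = (π ⟨s, hs⟩)⁻¹ := by
      rw [hτπ, ← map_inv]; exact congrArg π (Subtype.ext h2)
    rw [e1, map_mul, map_mul, e2, mul_right_inj] at hx
    rw [e1, map_mul, eq_one_of_fix_inv (u2 Q) hx e3, mul_one]
    exact mem_dn_of_mem ⟨hc, h1⟩
  let T' : Tri Q :=
    { φ := τ
      sq := fun i y => by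
        obtain ⟨x, rfl⟩ := S.span.surj y
        rw [hτπ, hτπ]
        exact congrArg π (Subtype.ext (T.sq i x))
      mul := fun i j k h1 h2 h3 y => by
        obtain ⟨x, rfl⟩ := S.span.surj y
        rw [hτπ, hτπ, hτπ]
        exact congrArg π (Subtype.ext (T.mul i j k h1 h2 h3 x))
      ne := fun i => by
        by_contra hc
        push Not at hc
        refine nsol ((((hs i).mono (inf_le_inf_right _ hHL)).dn (π := π) inf_le_left).mono
          fun y _ => ?_)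
        obtain ⟨x, rfl⟩ := S.span.surj y
        exact hfix i x (hc _) }
  have vup : ∀ Y : Subgroup Q, VI T' Y → VC T (cc (up π Y)) ∨ ¬Df Y := fun Y hY => by
    refine or_iff_not_imp_right.2 fun hd => ?_
    have hd' := S.df_up (not_not.1 hd)
    refine ⟨hd'.cc_conn, fun i => Stb.cc (stb_of_sq (T.sq i) fun x hx => ?_) (hT i) hd'⟩
    obtain ⟨hx', hx⟩ := mem_up.1 hx
    exact mem_up.2 ⟨(hH.2 i).mem hx', hτπ i ⟨x, hx'⟩ ▸ (hY i).mem hx⟩
  have hup : ∀ Y : Subgroup Q, Df Y → cc (up π Y) = H → Y = ⊤ := fun Y hY e => by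
    rw [eq_top_iff, ← S.dn_top, dn_le_iff le_rfl]
    exact e.ge.trans (S.df_up hY).cc_le
  refine MC.false (T := T') ⟨hτ, S.dn_top ▸ S.conn_dn hH.1 le_rfl, nsol, fun Y h1 h2 h3 => ?_,
    fun Y h1 h2 => ?_⟩
  · refine or_iff_not_imp_right.2 fun h4 => ?_
    have d := S.df_up h1
    have n : H ≤ Nm (up π Y) := le_Nm_up le_rfl (le_top.trans h3)
    have e : cc (up π Y) = N₀ := hmax _ ⟨(vup Y h2).resolve_right (not_not.2 h1),
      d.cc_le.trans up_le, fun g hg => nm_cc (n hg) d, fun e => h4 (hup Y h1 e)⟩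
      (hN₀.1.le_cc d (hN₀N.trans S.le_up))
    rw [← S.dn_up (Y := Y), S.dn_eq_bot up_le]
    exact le_inf up_le (le_CM_iff.2 ⟨up_le.trans hHN₀,
      e ▸ (hH.1.comm_left _).le_cc d (comm_le_right n)⟩)
  · have d := S.df_up h1.1.1
    rw [← S.dn_cc_up h1.1]
    exact (hsol _ ((vup Y h1.2).resolve_right (not_not.2 h1.1.1)) (d.cc_le.trans up_le)
      fun e => h2 (hup Y h1.1.1 e)).dn (d.cc_le.trans up_le)

/-- a connected group with a soluble subgroup of finite index is soluble -/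
theorem Conn.sol_of_relIndex {H K : Subgroup G} (hH : Conn H) (hK : Sol K)
    (hi : K.relIndex H ≠ 0) : Sol H := by
  have h1 : (core H K).relIndex H ≠ 0 := by
    have : (K.subgroupOf H).FiniteIndex := ⟨hi⟩
    refine fun e => (K.subgroupOf H).finiteIndex_normalCore.index_ne_zero
      (Nat.eq_zero_of_zero_dvd (e ▸ Subgroup.index_dvd_of_le fun x hx => ?_))
    exact fun t ht => hx ⟨t, ht⟩
  have h2 : H ≤ CM H ⁅H, H ⊓ core H K⁆ := hH.2 _ (hH.1.cm (hH.comm_left _).1) fun e => h1 (by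
    rw [← Subgroup.inf_relIndex_left]
    exact Subgroup.relIndex_eq_zero_of_le_left
      (le_CM_iff.2 ⟨right_le_Nm_comm, le_rfl⟩) e)
  refine hK.of_der_le (n := 1) ((le_CM_iff.1 h2).2.trans ((comm_le_right fun g hg =>
    nm_inf (nm_of_mem hg) (le_Nm_core hg)).trans (inf_le_right.trans core_le)))

/-- common fixed points of a group of automorphisms -/
def FixS (A : Subgroup (MulAut G)) : Subgroup G := FixedPoints.subgroup A G

omit [DS G] [RG G] in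
theorem mem_FixS {A : Subgroup (MulAut G)} {x : G} : x ∈ FixS A ↔ ∀ σ ∈ A, σ x = x :=
  (FixedPoints.mem_subgroup _ _ _).trans ⟨fun h σ hσ => h ⟨σ, hσ⟩, fun h σ => h σ σ.2⟩

theorem sol_cc_top (E : Subgroup (MulAut G)) [Finite E] (hE : ∀ σ ∈ E, σ * σ = 1) (hne : E ≠ ⊥)
    (hdef : ∀ σ ∈ E, Dm1 σ) (hs : ∀ A ≤ E, A.relIndex E = 2 → Sol (cc (FixS A))) :
    Sol (cc (⊤ : Subgroup G)) := by
  have hinv : ∀ σ ∈ E, σ⁻¹ = σ := fun σ hσ => inv_eq_of_mul_eq_one_right (hE σ hσ)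
  have hc : ∀ σ ∈ E, ∀ τ ∈ E, σ * τ = τ * σ := fun σ hσ τ hτ => by
    rw [← hinv _ (E.mul_mem hσ hτ), mul_inv_rev, hinv σ hσ, hinv τ hτ]
  have hsq : ∀ σ ∈ E, ∀ x, σ (σ x) = x := fun σ hσ x => by
    rw [← MulAut.mul_apply, hE σ hσ, MulAut.one_apply]
  have hD : ∀ A ≤ E, Df (FixS A) := fun A hA =>
    df_of_inter (s := (A : Set (MulAut G))) (F := Fix) (fun σ hσ => df_fix (hdef σ (hA hσ)))
      fun _ => mem_FixS
  have ext : ∀ A ≤ E, ∀ e ∈ E, ∃ A' ≤ E, ∀ σ, σ ∈ A' ↔ σ ∈ A ∨ σ * e ∈ A := fun A hA e he => by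
    have hm : ∀ σ, σ ∈ A ∨ σ * e ∈ A → σ ∈ E := fun σ h =>
      h.elim (fun h => hA h) fun h => (E.mul_mem_cancel_right he).1 (hA h)
    refine ⟨{ carrier := {σ | σ ∈ A ∨ σ * e ∈ A}
              one_mem' := Or.inl A.one_mem
              inv_mem' := fun {σ} h => by rwa [hinv σ (hm σ h)]
              mul_mem' := fun {σ τ} h h' => ?_ }, hm, fun _ => Iff.rfl⟩
    have h0 := hc τ (hm τ h') e he
    rcases h with h | h <;> rcases h' with h' | h'
    · exact Or.inl (A.mul_mem h h')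
    · exact Or.inr (by rw [mul_assoc]; exact A.mul_mem h h')
    · exact Or.inr (by rw [mul_assoc, h0, ← mul_assoc]; exact A.mul_mem h h')
    · refine Or.inl ?_
      have := A.mul_mem h h'
      rwa [h0, mul_assoc, ← mul_assoc e, hE e he, one_mul] at this
  have key : ∀ A ≤ E, A ≠ E → Sol (cc (FixS A)) := by
    by_contra hk
    push Not at hk
    have hfin : {A : Subgroup (MulAut G) | A ≤ E ∧ A ≠ E ∧ ¬Sol (cc (FixS A))}.Finite :=
      ((toFinite (E : Set (MulAut G))).finite_subsets.preimage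
        SetLike.coe_injective.injOn).subset fun A hA => hA.1
    obtain ⟨A, ⟨hA, hAE, hns⟩, hmax⟩ := hfin.exists_maximal hk
    have step : ∀ e ∈ E, e ∉ A → (∃ e' ∈ E, e' ∉ A ∧ e' * e ∉ A) ∧
        Sol (cc (FixS A) ⊓ Fix e) := by
      intro e he heA
      obtain ⟨A', hA', hm⟩ := ext A hA e he
      have h1 : A' ≠ E := fun h => hns (hs A hA (Subgroup.relIndex_eq_two_iff.2
        ⟨e, he, fun σ hσ => by
          rcases (hm σ).1 (h ▸ hσ) with h2 | h2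
          · exact Or.inr ⟨h2, fun h3 => heA ((A.mul_mem_cancel_left h2).1 h3)⟩
          · exact Or.inl ⟨h2, fun h3 => heA ((A.mul_mem_cancel_left h3).1 h2)⟩⟩))
      have he' : e ∈ A' := (hm e).2 (Or.inr (hE e he ▸ A.one_mem))
      have h2 : Sol (cc (FixS A')) := by_contra fun h3 =>
        heA (hmax ⟨hA', h1, h3⟩ (fun σ hσ => (hm σ).2 (Or.inl hσ)) he')
      obtain ⟨e', h3, h4⟩ := SetLike.exists_of_lt (lt_of_le_of_ne hA' h1)
      refine ⟨⟨e', h3, fun h => h4 ((hm _).2 (Or.inl h)), fun h => h4 ((hm _).2 (Or.inr h))⟩,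
        h2.mono (((hD A hA).cc_conn.fix (hdef e he) (hsq e he) (Stb.cc ?_ (hdef e he)
          (hD A hA))).le_cc (hD A' hA') fun x hx => mem_FixS.2 fun σ hσ => ?_)⟩
      · refine stb_of_sq (hsq e he) fun x hx => mem_FixS.2 fun σ hσ => ?_
        rw [← MulAut.mul_apply, hc σ (hA hσ) e he, MulAut.mul_apply, mem_FixS.1 hx σ hσ]
      · have h5 := mem_FixS.1 ((hD A hA).cc_le hx.1)
        rcases (hm σ).1 hσ with h | h
        · exact h5 σ h
        · have := h5 _ h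
          rwa [MulAut.mul_apply, mem_Fix.1 hx.2] at this
    obtain ⟨a, ha, haA⟩ := SetLike.exists_of_lt (lt_of_le_of_ne hA hAE)
    obtain ⟨b, hb, hbA, hba⟩ := (step a ha haA).1
    let ψ : Fin 3 → MulAut G := ![a, b, b * a]
    have hψ : ∀ i, ψ i ∈ E ∧ ψ i ∉ A :=
      Fin.forall_fin_succ.2 ⟨⟨ha, haA⟩, Fin.forall_fin_two.2 ⟨⟨hb, hbA⟩, E.mul_mem hb ha, hba⟩⟩
    have e0 := hc a ha b hb
    have e1 : a * (b * a) = b := by rw [← e0, ← mul_assoc, hE a ha, one_mul]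
    have e2 : b * (b * a) = a := by rw [← mul_assoc, hE b hb, one_mul]
    have e3 : b * a * a = b := by rw [mul_assoc, hE a ha, mul_one]
    have e4 : b * a * b = a := by rw [← e0, mul_assoc, hE b hb, mul_one]
    have hψ2 : ∀ i j k, i ≠ j → j ≠ k → i ≠ k → ψ i * ψ j = ψ k := by
      intro i j k h1 h2 h3
      fin_cases i <;> fin_cases j <;> fin_cases k <;>
        first | exact absurd rfl h1 | exact absurd rfl h2 | exact absurd rfl h3 | rfl | assumption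
    let T : Tri G :=
      { φ := ψ
        sq := fun i => hsq _ (hψ i).1
        mul := fun i j k h1 h2 h3 x => by rw [← MulAut.mul_apply, hψ2 i j k h1 h2 h3]
        ne := fun i => by
          by_contra hn
          push Not at hn
          exact (hψ i).2 ((MulEquiv.ext hn : ψ i = 1) ▸ A.one_mem) }
    refine hns (sol_of_tri (T := T) (fun i => hdef _ (hψ i).1) ⟨(hD A hA).cc_conn, fun i =>
      Stb.cc (stb_of_sq (hsq _ (hψ i).1) fun x hx => mem_FixS.2 fun σ hσ => ?_) (hdef _ (hψ i).1)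
        (hD A hA)⟩ fun i => (step _ (hψ i).1 (hψ i).2).2)
    change σ (ψ i x) = ψ i x
    rw [← MulAut.mul_apply, hc σ (hA hσ) _ (hψ i).1, MulAut.mul_apply, mem_FixS.1 hx σ hσ]
  have e : FixS (⊥ : Subgroup (MulAut G)) = ⊤ :=
    eq_top_iff.2 fun x _ => mem_FixS.2 fun σ hσ => by rw [Subgroup.mem_bot.1 hσ]; rfl
  exact e ▸ key ⊥ bot_le hne.symm

end Pool.Agent.MP_fcbc9a_lc.H58
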