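import Pool.Agent.MP_fcbc9a_lc.H58.Grp

/-!
Induced definability systems on quotients of definable sets; sections of ranked groups.
-/

open Set
open scoped commutatorElement

namespace Pool.Agent.MP_fcbc9a_lc.H58

universe u

section span

variable {M Q W : Type u} [DS M]

/-- the system on Q is induced from M along a span -/
structure IsSpan [DS Q] (ι : W → M) (π : W → Q) : Prop where
  inj : Function.Injective ι
  surj : Function.Surjective π
  rng : Ds (range ι)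
  iff : ∀ {α : Type} (p : (α → Q) → Prop), Dp p ↔
    ∃ q : (α → M) → Prop, Dp q ∧ ∀ w : α → W, p (fun i => π (w i)) ↔ q fun i => ι (w i)

theorem exists_span {ι : W → M} {π : W → Q} (h1 : Function.Injective ι)
    (h2 : Function.Surjective π) (h3 : Ds (range ι))
    (h4 : Dr2 fun a b => ∃ w w', ι w = a ∧ ι w' = b ∧ π w = π w') :
    ∃ _ : DS Q, IsSpan ι π := by
  let inst : DS Q :=
    { P := fun {α} p => ∃ q : (α → M) → Prop, Dp q ∧
        ∀ w : α → W, p (fun i => π (w i)) ↔ q fun i => ι (w i)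
      top := ⟨_, Dp.top, fun _ => Iff.rfl⟩
      and := fun ⟨_, hq, e⟩ ⟨_, hq', e'⟩ => ⟨_, hq.and hq', fun w => and_congr (e w) (e' w)⟩
      not := fun ⟨_, hq, e⟩ => ⟨_, hq.not, fun w => not_congr (e w)⟩
      comp := fun f _ ⟨_, hq, e⟩ => ⟨_, hq.comp f, fun w => e fun i => w (f i)⟩
      ex := fun {α β} _ p ⟨q, hq, e⟩ => by
        have key : ∀ (w : α → W) (w' : β → W),
            p (Sum.elim (fun i => π (w i)) fun b => π (w' b)) ↔
              q (Sum.elim (fun i => ι (w i)) fun b => ι (w' b)) := fun w w' => by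
          have := e (Sum.elim w w')
          rwa [show (fun i => π (Sum.elim w w' i)) =
              Sum.elim (fun i => π (w i)) fun b => π (w' b) from
                funext fun i => by cases i <;> rfl,
            show (fun i => ι (Sum.elim w w' i)) =
              Sum.elim (fun i => ι (w i)) fun b => ι (w' b) from
                funext fun i => by cases i <;> rfl] at this
        refine ⟨fun v => ∃ u : β → M, (∀ b, u b ∈ range ι) ∧ q (Sum.elim v u),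
          Dp.exs ((Dp.forall_fin fun b => h3.mem (Dm.var (Sum.inr b))).and
            (hq.congr fun v => by rw [show (Sum.elim (fun i => v (Sum.inl i))
              fun j => v (Sum.inr j)) = v from funext fun i => by cases i <;> rfl])),
          fun w => ⟨fun ⟨u, hu⟩ => ?_, fun ⟨u, hu, hu'⟩ => ?_⟩⟩
        · choose w' hw' using fun b => h2 (u b)
          obtain rfl : u = fun b => π (w' b) := funext fun b => (hw' b).symm
          exact ⟨_, fun b => mem_range_self (w' b), (key w w').1 hu⟩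
        · choose w' hw' using hu
          obtain rfl : u = fun b => ι (w' b) := funext fun b => (hw' b).symm
          exact ⟨_, (key w w').2 hu'⟩
      eq := fun i j => ⟨_, h4.comp (Dm.var i) (Dm.var j), fun w =>
        ⟨fun e => ⟨w i, w j, rfl, rfl, e⟩, fun ⟨_, _, e1, e2, e⟩ =>
          (congrArg π (h1 e1)).symm.trans (e.trans (congrArg π (h1 e2)))⟩⟩
      const := fun i a => by
        obtain ⟨b, rfl⟩ := h2 a
        exact ⟨_, h4.comp (Dm.var i) (Dm.const (ι b)), fun w =>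
          ⟨fun e => ⟨w i, b, rfl, rfl, e⟩, fun ⟨_, _, e1, e2, e⟩ =>
            (congrArg π (h1 e1)).symm.trans (e.trans (congrArg π (h1 e2)))⟩⟩ }
  exact ⟨inst, h1, h2, h3, fun _ => Iff.rfl⟩

variable [DS Q] {ι : W → M} {π : W → Q} {n : ℕ}

theorem IsSpan.lift_sec (h : IsSpan ι π) {α : Type} [Finite α] {p : (α → Q) → Prop} (hp : Dp p) :
    Dp fun v : α → M => ∃ w : α → W, (∀ i, ι (w i) = v i) ∧ p fun i => π (w i) := by
  obtain ⟨q, hq, e⟩ := (h.iff p).1 hp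
  refine ((Dp.forall_fin fun i => h.rng.mem (Dm.var i)).and hq).congr fun v =>
    ⟨fun ⟨h1, h2⟩ => ?_, fun ⟨w, h1, h2⟩ => ?_⟩
  · choose w hw using h1
    obtain rfl : v = fun i => ι (w i) := funext fun i => (hw i).symm
    exact ⟨w, fun _ => rfl, (e w).2 h2⟩
  · obtain rfl : v = fun i => ι (w i) := funext fun i => (h1 i).symm
    exact ⟨fun i => mem_range_self _, (e w).1 h2⟩

theorem IsSpan.rel_sec (h : IsSpan ι π) :
    Dr2 fun a b => ∃ w w', ι w = a ∧ ι w' = b ∧ π w = π w' :=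
  (h.lift_sec (Dp.eq (Dm.var (0 : Fin 2)) (Dm.var 1))).congr fun _ =>
    ⟨fun ⟨w, h1, h2⟩ => ⟨w 0, w 1, h1 0, h1 1, h2⟩,
      fun ⟨w, w', h1, h2, h3⟩ => ⟨![w, w'], Fin.forall_fin_two.2 ⟨h1, h2⟩, h3⟩⟩

theorem IsSpan.ds_up (h : IsSpan ι π) {Y : Set Q} (hY : Ds Y) : Ds (ι '' (π ⁻¹' Y)) :=
  (h.lift_sec hY).congr fun _ => ⟨fun ⟨w, h1, h2⟩ => ⟨w 0, h2, h1 0⟩,
    fun ⟨w, h1, h2⟩ => ⟨fun _ => w, Fin.forall_fin_one.2 h2, h1⟩⟩

theorem IsSpan.ds_dn (h : IsSpan ι π) {X : Set M} (hX : Ds X) : Ds (π '' (ι ⁻¹' X)) :=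
  (h.iff _).2 ⟨fun v => ∃ y, y ∈ X ∧ ∃ w w', ι w = y ∧ ι w' = v 0 ∧ π w = π w',
    Dp.ex (r := fun (v : Fin 1 → M) y => y ∈ X ∧ ∃ w w', ι w = y ∧ ι w' = v 0 ∧ π w = π w')
      ((hX.mem (Dm.var _)).and (h.rel_sec.comp (Dm.var _) (Dm.var _))),
    fun w => ⟨fun ⟨x, h1, h2⟩ => ⟨ι x, h1, x, w 0, rfl, rfl, h2⟩,
      fun ⟨_, h1, x, _, e1, e2, e⟩ => ⟨x, mem_preimage.2 (e1 ▸ h1), e.trans (congrArg π (h.inj e2))⟩⟩⟩

theorem IsSpan.rk_up (h : IsSpan ι π) {Y : Set Q} (hY : Rk n Y) : Rk n (ι '' (π ⁻¹' Y)) := by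
  induction n generalizing Y with
  | zero =>
    obtain ⟨y, hy⟩ := hY
    obtain ⟨w, rfl⟩ := h.surj y
    exact ⟨ι w, w, hy, rfl⟩
  | succ n ih =>
    obtain ⟨Z, hZ, hd⟩ := hY
    exact ⟨fun i => ι '' (π ⁻¹' Z i), fun i => ⟨h.ds_up (hZ i).1,
      image_mono (preimage_mono (hZ i).2.1), ih (hZ i).2.2⟩, fun i j hij =>
        disjoint_image_of_injective h.inj ((hd hij).preimage π)⟩

theorem IsSpan.rk_dn (h : IsSpan ι π) (hπ : Function.Injective π) {Y : Set Q}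
    (hY : Rk n (ι '' (π ⁻¹' Y))) : Rk n Y := by
  have key : ∀ (n : ℕ) (X : Set M), X ⊆ range ι → Rk n X → Rk n (π '' (ι ⁻¹' X)) := by
    intro n
    induction n with
    | zero =>
      rintro X hX ⟨x, hx⟩
      obtain ⟨w, rfl⟩ := hX hx
      exact ⟨π w, w, hx, rfl⟩
    | succ n ih =>
      rintro X hX ⟨Z, hZ, hd⟩
      exact ⟨fun i => π '' (ι ⁻¹' Z i), fun i => ⟨h.ds_dn (hZ i).1,
        image_mono (preimage_mono (hZ i).2.1), ih _ ((hZ i).2.1.trans hX) (hZ i).2.2⟩,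
        fun i j hij => disjoint_image_of_injective hπ ((hd hij).preimage ι)⟩
  refine (key n _ (image_subset_range _ _) hY).mono ?_
  rw [preimage_image_eq _ h.inj]
  exact image_preimage_subset _ _

theorem IsSpan.fin (h : IsSpan ι π) (hM : ∃ n, ¬Rk n (univ : Set M)) :
    ∃ n, ¬Rk n (univ : Set Q) :=
  hM.imp fun _ hn h' => hn ((h.rk_up h').mono (subset_univ _))

theorem IsSpan.nop (h : IsSpan ι π) (hM : Nop M) : Nop Q := by
  rintro R hR ⟨a, b, c, e⟩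
  choose s hs using h.surj
  refine hM (fun x y z => ∃ w1 w2 w3, ι w1 = x ∧ ι w2 = y ∧ ι w3 = z ∧ R (π w1) (π w2) (π w3))
    ((h.lift_sec hR).congr fun _ => ⟨fun ⟨w, h1, h2⟩ => ⟨w 0, w 1, w 2, h1 0, h1 1, h1 2, h2⟩,
      fun ⟨w1, w2, w3, h1, h2, h3, h4⟩ => ⟨![w1, w2, w3],
        Fin.forall_fin_succ.2 ⟨h1, Fin.forall_fin_two.2 ⟨h2, h3⟩⟩, h4⟩⟩)
    ⟨fun i => ι (s (a i)), fun j => ι (s (b j)), fun j => ι (s (c j)), fun i j => ?_⟩
  rw [← e i j]
  constructor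
  · rintro ⟨w1, w2, w3, h1, h2, h3, h4⟩
    rwa [h.inj h1, h.inj h2, h.inj h3, hs, hs, hs] at h4
  · exact fun h4 => ⟨_, _, _, rfl, rfl, rfl, by rwa [hs, hs, hs]⟩

theorem IsSpan.deg1 (h : IsSpan ι π) (hπ : Function.Injective π) (hM : Deg1 (range ι)) :
    Deg1 (univ : Set Q) := by
  intro n Y Z hY hZ _ _ rY rZ hn
  obtain ⟨_, ⟨w, h1, rfl⟩, w', h2, e⟩ := hM n _ _ (h.ds_up hY) (h.ds_up hZ)
    (image_subset_range _ _) (image_subset_range _ _) (h.rk_up rY) (h.rk_up rZ) fun h' =>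
      hn (h.rk_dn hπ (by rwa [preimage_univ, image_univ]))
  exact ⟨π w, h1, h.inj e ▸ h2⟩

/-- a map on Q which lifts to a definable map is definable -/
theorem IsSpan.dm (h : IsSpan ι π) {α : Type} {f : (α → Q) → Q} {g : (α → M) → M} (hg : Dm g)
    (hf : ∀ w : α → W, ∃ w', ι w' = g (fun i => ι (w i)) ∧ π w' = f fun i => π (w i)) : Dm f := by
  refine (h.iff _).2 ⟨_, h.rel_sec.comp (Dm.var none) (hg.reindex some), fun w => ?_⟩
  obtain ⟨w', h1, h2⟩ := hf fun i => w (some i)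
  refine ⟨fun e => ⟨w none, w', rfl, h1, e.trans h2.symm⟩, fun ⟨w1, w2, e1, e2, e⟩ => ?_⟩
  rw [h.inj e1, h.inj (e2.trans h1.symm)] at e
  exact e.trans h2

end span

variable {G Q : Type u} [Group G] [DS G] [Group Q] {H : Subgroup G}

/-- image in the section -/
def dn (π : H →* Q) (K : Subgroup G) : Subgroup Q := (K.comap H.subtype).map π

/-- preimage from the section -/
def up (π : H →* Q) (Y : Subgroup Q) : Subgroup G := (Y.comap π).map H.subtype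

/-- Q is the section H / N -/
structure Sec [DS Q] (N : Subgroup G) (π : H →* Q) : Prop where
  span : IsSpan (fun x : H => (x : G)) π
  le : N ≤ H
  ker : ∀ x : H, π x = 1 ↔ (x : G) ∈ N

theorem exists_sec [RG G] {N : Subgroup G} (hH : Df H) (hN : Df N) (h1 : N ≤ H) (h2 : H ≤ Nm N) :
    ∃ (Q : Type u) (_ : Group Q) (_ : DS Q) (_ : RG Q) (π : H →* Q), Sec N π := by
  have := Subgroup.normal_subgroupOf_of_le_normalizer h2
  let π : H →* H ⧸ N.subgroupOf H := QuotientGroup.mk' _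
  have hk : ∀ x : H, π x = 1 ↔ (x : G) ∈ N := fun x => QuotientGroup.eq_one_iff x
  obtain ⟨inst, hs⟩ := exists_span (ι := fun x : H => (x : G)) (π := π) Subtype.val_injective
    (QuotientGroup.mk'_surjective _) (Dp.congr hH fun v => ⟨fun h => ⟨⟨_, h⟩, rfl⟩, fun ⟨w, e⟩ => e ▸ w.2⟩)
    (((hH.mem (Dm.var 0)).and ((hH.mem (Dm.var 1)).and
      (hN.mem ((Dm.var 0).inv.mul (Dm.var 1))))).congr fun v =>
        ⟨fun ⟨h1, h2, h3⟩ => ⟨⟨_, h1⟩, ⟨_, h2⟩, rfl, rfl, QuotientGroup.eq.2 h3⟩,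
          fun ⟨w, w', e1, e2, e⟩ => e1 ▸ e2 ▸ ⟨w.2, w'.2,
            (QuotientGroup.eq (s := N.subgroupOf H) (a := w) (b := w')).1 e⟩⟩)
  refine ⟨_, _, inst, ⟨hs.dm (g := fun v : Fin 2 → G => v 0 * v 1) RG.mul
    fun w => ⟨w 0 * w 1, rfl, map_mul π _ _⟩, hs.fin RG.fin, hs.nop RG.nop, fun x hx => ?_⟩,
    π, hs, h1, hk⟩
  obtain ⟨a, rfl⟩ := hs.surj x
  rw [← map_mul, hk] at hx
  obtain ⟨y, hy, e, hc⟩ := hN.exists_sqrt hx
  have hc' : Commute (a : G) y := hc a ((Commute.refl (a : G)).mul_right (Commute.refl _))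
  have : (a : G) * y⁻¹ = 1 := RG.inv2 _ (by
    rw [hc'.inv_right.symm.mul_mul_mul_comm, ← mul_inv_rev, e]
    exact mul_inv_cancel _)
  rw [hk, mul_inv_eq_one.1 this]
  exact hy

variable {π : H →* Q} {N K L : Subgroup G} {Y : Subgroup Q}

omit [DS G]

theorem mem_dn {y : Q} : y ∈ dn π K ↔ ∃ x : H, (x : G) ∈ K ∧ π x = y := Iff.rfl

theorem mem_dn_of_mem {x : H} (hx : (x : G) ∈ K) : π x ∈ dn π K := mem_dn.2 ⟨x, hx, rfl⟩

theorem mem_up {x : G} : x ∈ up π Y ↔ ∃ h : x ∈ H, π ⟨x, h⟩ ∈ Y :=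
  ⟨fun ⟨w, h1, h2⟩ => h2 ▸ ⟨w.2, h1⟩, fun ⟨h1, h2⟩ => ⟨⟨x, h1⟩, h2, rfl⟩⟩

theorem mem_up' {x : H} : (x : G) ∈ up π Y ↔ π x ∈ Y :=
  mem_up.trans ⟨fun ⟨_, h⟩ => h, fun h => ⟨x.2, h⟩⟩

theorem up_le : up π Y ≤ H := fun _ hx => (mem_up.1 hx).1

theorem dn_mono (h : K ≤ L) : dn π K ≤ dn π L :=
  Subgroup.map_mono (Subgroup.comap_mono h)

theorem up_mono {Y' : Subgroup Q} (h : Y ≤ Y') : up π Y ≤ up π Y' :=
  Subgroup.map_mono (Subgroup.comap_mono h)

theorem dn_le_iff (hK : K ≤ H) : dn π K ≤ Y ↔ K ≤ up π Y :=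
  ⟨fun h _ hx => mem_up.2 ⟨hK hx, h (mem_dn_of_mem hx)⟩,
    fun h _ ⟨_, hx, e⟩ => e ▸ mem_up'.1 (h hx)⟩

theorem map_comap_sec (hK : K ≤ H) : (K.comap H.subtype).map H.subtype = K :=
  Subgroup.map_comap_eq_self (by rwa [Subgroup.range_subtype])

theorem dn_comm (hK : K ≤ H) (hL : L ≤ H) : dn π ⁅K, L⁆ = ⁅dn π K, dn π L⁆ := by
  have : ⁅K, L⁆ = ⁅K.comap H.subtype, L.comap H.subtype⁆.map H.subtype := by
    rw [Subgroup.map_commutator, map_comap_sec hK, map_comap_sec hL]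
  rw [dn, this, Subgroup.comap_map_eq_self_of_injective H.subtype_injective,
    Subgroup.map_commutator]
  rfl

theorem dn_le_Nm (_hK : K ≤ H) (h : L ≤ Nm K) : dn π L ≤ Nm (dn π K) :=
  le_Nm_of_conj (by
    rintro _ ⟨a, ha, rfl⟩ _ ⟨b, hb, rfl⟩
    rw [← map_inv, ← map_mul, ← map_mul]
    exact mem_dn_of_mem (conj_mem (h ha) hb))

theorem le_Nm_up (hL : L ≤ H) (h : dn π L ≤ Nm Y) : L ≤ Nm (up π Y) :=
  le_Nm_of_conj fun g hg x hx => by
    obtain ⟨h1, h2⟩ := mem_up.1 hx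
    have := conj_mem (h (mem_dn_of_mem (x := ⟨g, hL hg⟩) hg)) h2
    rw [← map_inv, ← map_mul, ← map_mul] at this
    exact mem_up'.2 this

theorem dn_der_sec (hK : K ≤ H) (n : ℕ) : dn π (der K n) = der (dn π K) n := by
  induction n with
  | zero => rfl
  | succ n ih => rw [der_succ, der_succ, dn_comm ((der_le n).trans hK) ((der_le n).trans hK), ih]

theorem relIndex_dn_sec (hK : K ≤ H) : Y.relIndex (dn π K) = (up π Y).relIndex K := by
  rw [dn, ← Subgroup.relIndex_comap]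
  conv_rhs => rw [← map_comap_sec hK, ← Subgroup.relIndex_comap, up,
    Subgroup.comap_map_eq_self_of_injective H.subtype_injective]

theorem Sol.dn (h : Sol K) (hK : K ≤ H) : Sol (dn π K) := by
  obtain ⟨n, hn⟩ := h
  refine ⟨n, ?_⟩
  rw [← dn_der_sec hK, hn, eq_bot_iff, dn_le_iff bot_le]
  exact bot_le

variable [DS G] [DS Q]

namespace Sec

variable (h : Sec N π)
include h

theorem dn_up : dn π (up π Y) = Y :=
  le_antisymm ((dn_le_iff up_le).2 le_rfl) fun y hy => by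
    obtain ⟨x, rfl⟩ := h.span.surj y
    exact mem_dn_of_mem (mem_up'.2 hy)

theorem dn_top : dn π H = ⊤ :=
  eq_top_iff.2 fun y _ => by
    obtain ⟨x, rfl⟩ := h.span.surj y
    exact mem_dn_of_mem x.2

theorem up_bot : up π ⊥ = N :=
  Subgroup.ext fun _ => mem_up.trans
    ⟨fun ⟨_, h2⟩ => (h.ker _).1 h2, fun hx => ⟨h.le hx, (h.ker _).2 hx⟩⟩

theorem le_up : N ≤ up π Y := h.up_bot ▸ up_mono bot_le

theorem dn_eq_bot (hK : K ≤ H) : dn π K = ⊥ ↔ K ≤ N := by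
  rw [eq_bot_iff, dn_le_iff hK, h.up_bot]

theorem up_dn (hK : K ≤ H) : up π (dn π K) = K ⊔ N := by
  refine le_antisymm (fun x hx => ?_) (sup_le ((dn_le_iff hK).1 le_rfl) h.le_up)
  obtain ⟨h1, k, hk, e⟩ := mem_up.1 hx
  have : ((k⁻¹ * ⟨x, h1⟩ : H) : G) ∈ N := (h.ker _).1 (by rw [map_mul, map_inv, e, inv_mul_cancel])
  rw [← mul_inv_cancel_left (k : G) x]
  exact Subgroup.mul_mem_sup hk this

theorem dn_le_Cn (hK : K ≤ H) (hL : L ≤ H) : dn π L ≤ Cn (dn π K) ↔ ⁅K, L⁆ ≤ N := by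
  rw [le_Cn_comm, ← Subgroup.commutator_eq_bot_iff_le_centralizer, ← dn_comm hK hL,
    h.dn_eq_bot ((Subgroup.commutator_mono hK hL).trans comm_le_self)]

theorem sol_of_dn (hK : K ≤ H) (hN : Sol N) (hs : Sol (dn π K)) : Sol K := by
  obtain ⟨n, hn⟩ := hs
  rw [← dn_der_sec hK, h.dn_eq_bot ((der_le n).trans hK)] at hn
  exact hN.of_der_le hn

theorem df_up (hY : Df Y) : Df (up π Y) := h.span.ds_up hY

theorem df_dn (hK : Df K) : Df (dn π K) := h.span.ds_dn hK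

theorem conn_dn (hK : Conn K) (hle : K ≤ H) : Conn (dn π K) :=
  ⟨h.df_dn hK.1, fun _ hY hi =>
    (dn_le_iff hle).2 (hK.2 _ (h.df_up hY) (relIndex_dn_sec (π := π) hle ▸ hi))⟩

theorem dn_cc_up [RG G] (hY : Conn Y) : dn π (cc (up π Y)) = Y := by
  have hU := h.df_up hY.1
  refine le_antisymm ((dn_mono hU.cc_le).trans h.dn_up.le)
    (hY.2 _ (h.df_dn hU.cc_conn.1) fun e => hU.cc_relIndex ?_)
  refine Subgroup.relIndex_eq_zero_of_le_left
    ((dn_le_iff (π := π) (hU.cc_le.trans up_le)).1 le_rfl) ?_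
  rw [← relIndex_dn_sec up_le, h.dn_up]
  exact e

/-- an automorphism stabilising H and N induces an automorphism of the section -/
theorem exists_aut {σ : MulAut G} (hσ : Dm1 σ) (h1 : Stb σ H) (h2 : Stb σ N) :
    ∃ τ : MulAut Q, Dm1 τ ∧ ∀ x : H, τ (π x) = π ⟨σ x, h1.mem x.2⟩ := by
  have h0 : ∀ a b : H, π a = π b ↔ (a : G)⁻¹ * b ∈ N := fun a b => by
    rw [← inv_mul_eq_one, ← map_inv, ← map_mul, h.ker]
    rfl
  have h3 : ∀ a b : H, π ⟨σ a, h1.mem a.2⟩ = π ⟨σ b, h1.mem b.2⟩ ↔ π a = π b := fun a b => by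
    rw [h0, h0, ← h2 ((a : G)⁻¹ * b), map_mul, map_inv]
  choose s hs using h.span.surj
  let t : Q → Q := fun y => π ⟨σ (s y), h1.mem (s y).2⟩
  have ht : ∀ x : H, t (π x) = π ⟨σ x, h1.mem x.2⟩ := fun x => (h3 _ _).2 (hs _)
  let T : Q →* Q := MonoidHom.mk' t fun y y' => by
    rw [← hs y, ← hs y', ← map_mul, ht, ht, ht, ← map_mul]
    exact congrArg π (Subtype.ext (map_mul σ _ _))
  have hT : Function.Bijective T := ⟨fun y y' e => by
    rw [← hs y, ← hs y']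
    exact (h3 _ _).1 e, fun y => ⟨π ⟨σ⁻¹ (s y), h1.symm.mem (s y).2⟩, by
      rw [← hs y]
      exact (ht _).trans ((congrArg π (Subtype.ext (by simp))).trans (hs _))⟩⟩
  exact ⟨MulEquiv.ofBijective T hT, h.span.dm (g := fun v : Fin 1 → G => σ (v 0)) hσ
    fun w => ⟨⟨σ (w 0), h1.mem (w 0).2⟩, rfl, (ht _).symm⟩, ht⟩

end Sec

end Pool.Agent.MP_fcbc9a_lc.H58
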