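import Pool.Agent.MP_fcbc9a_lc.H58.Zit

/-!
Types of minimal abelian subgroups.
-/

open Set
open scoped commutatorElement

namespace Pool.Agent.MP_fcbc9a_lc.H58

universe u

variable {G : Type u} [Group G] [DS G]

/-- a minimal abelian subgroup of exponent dividing t.1 ≠ 0, or torsion free of rank t.2 -/
def Ty (t : ℕ × ℕ) (A : Subgroup G) : Prop :=
  MinS A ∧ Ab A ∧ ((t.1 ≠ 0 ∧ ∀ a ∈ A, a ^ t.1 = 1) ∨
    (t.1 = 0 ∧ TF A ∧ Rk t.2 (A : Set G) ∧ ¬Rk (t.2 + 1) (A : Set G)))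

/-- the type is maximal for L -/
def Top (t : ℕ × ℕ) (L : Subgroup G) : Prop :=
  t.1 ≠ 0 ∨ ∀ s A, A ≤ L → Ty s A → s.1 = 0 ∧ s.2 ≤ t.2

/-- the subgroup generated by the subgroups of type t -/
def Om (t : ℕ × ℕ) (L : Subgroup G) : Subgroup G := sSup {A | A ≤ L ∧ Ty t A}

variable [RG G] {σ : MulAut G} {A F K L M Y : Subgroup G} {t : ℕ × ℕ} {g : G} {f : G → G}

theorem Ty.conn (h : Ty t A) : Conn A := h.1.conn

theorem Ty.ne_bot (h : Ty t A) : A ≠ ⊥ := h.1.ne_bot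

omit [RG G] in
theorem Ty.ab (h : Ty t A) : Ab A := h.2.1

omit [RG G] in
theorem Top.mono (h : Top t L) (hK : K ≤ L) : Top t K :=
  h.imp id fun h s A hA hs => h s A (hA.trans hK) hs

theorem exists_ty_of_pow (hY : Df Y) (hi : (Y : Set G).Infinite) (hs : Sol Y) {n : ℕ} (hn : n ≠ 0)
    (h : ∀ y ∈ Y, y ^ n = 1) : ∃ A ≤ Y, Ty (n, 0) A := by
  obtain ⟨A, hAY, hA⟩ := hY.exists_minS hi
  exact ⟨A, hAY, hA, hA.ab (hs.mono hAY), Or.inl ⟨hn, fun a ha => h a (hAY ha)⟩⟩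

theorem ty_of_tf (hA : MinS A) (ha : Ab A) (h : TF A) : ∃ r, Ty (0, r) A := by
  obtain ⟨r, h1, h2⟩ := exists_rk (U := (A : Set G)) ⟨1, A.one_mem⟩
  exact ⟨r, hA, ha, Or.inr ⟨rfl, h, h1, h2⟩⟩

theorem exists_ty_of_tf (hY : Df Y) (hi : (Y : Set G).Infinite) (hs : Sol Y) (h : TF Y) :
    ∃ r, ∃ A ≤ Y, Ty (0, r) A := by
  obtain ⟨A, hAY, hA⟩ := hY.exists_minS hi
  obtain ⟨r, hr⟩ := ty_of_tf hA (hA.ab (hs.mono hAY)) fun a ha => h a (hAY ha)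
  exact ⟨r, A, hAY, hr⟩

theorem exists_top {s : Set (Subgroup G)} (h : ∃ L ∈ s, ∃ t, ∃ A ≤ L, Ty t A) :
    ∃ t, (∃ L ∈ s, ∃ A ≤ L, Ty t A) ∧ ∀ L ∈ s, Top t L := by
  classical
  by_cases h1 : ∃ t : ℕ × ℕ, t.1 ≠ 0 ∧ ∃ L ∈ s, ∃ A ≤ L, Ty t A
  · obtain ⟨t, ht, h2⟩ := h1
    exact ⟨t, h2, fun _ _ => Or.inl ht⟩
  have h0 : ∀ t : ℕ × ℕ, ∀ L ∈ s, ∀ A ≤ L, Ty t A → t.1 = 0 := fun t L hL A hA ht =>
    by_contra fun h' => h1 ⟨t, h', L, hL, A, hA, ht⟩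
  obtain ⟨n, hn⟩ := RG.fin (G := G)
  let P : ℕ → Prop := fun r => ∃ L ∈ s, ∃ A ≤ L, Ty (0, r) A
  have hP : ∀ t : ℕ × ℕ, ∀ L ∈ s, ∀ A ≤ L, Ty t A → P t.2 ∧ t.2 ≤ n := by
    rintro ⟨a, r⟩ L hL A hA ht
    obtain rfl : a = 0 := h0 _ L hL A hA ht
    refine ⟨⟨L, hL, A, hA, ht⟩, by_contra fun hr => hn ?_⟩
    rcases ht.2.2 with h2 | h2
    · exact absurd rfl h2.1
    · exact (h2.2.2.1.of_le (by simp at hr ⊢; omega)).mono (subset_univ _)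
  obtain ⟨L, hL, t, A, hA, ht⟩ := h
  refine ⟨(0, Nat.findGreatest P n),
    Nat.findGreatest_spec (P := P) (hP t L hL A hA ht).2 (hP t L hL A hA ht).1,
    fun L' hL' => Or.inr fun u B hB hu => ⟨h0 u L' hL' B hB hu, ?_⟩⟩
  exact Nat.le_findGreatest (hP u L' hL' B hB hu).2 (hP u L' hL' B hB hu).1

omit [DS G] [RG G] in
theorem TF.eq_one_ty (h : TF A) (hK : K ≤ A) (hf : (K : Set G).Finite) (hg : g ∈ K) : g = 1 := by
  have h1 : IsOfFinOrder g := by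
    rw [← finite_powers]
    refine hf.subset ?_
    rintro _ ⟨n, rfl⟩
    exact K.pow_mem hg n
  obtain ⟨n, hn, h2⟩ := isOfFinOrder_iff_pow_eq_one.1 h1
  exact h g (hK hg) n hn.ne' h2

omit [RG G] in
theorem df_pre_ty (hA : Df A) (hf : Dm1 f) (hM : Df M) (h : ∀ x, x ∈ K ↔ x ∈ A ∧ f x ∈ M) :
    Df K :=
  Df.of_iff (Ds.inter hA (Ds.preimage (X := (M : Set G)) hM hf)) h

theorem Ty.img (h : Ty t A) (hf : Dm1 f) (hh : HomOn f A) (hY : (Y : Set G) = f '' A)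
    (hne : Y ≠ ⊥) : Ty t Y := by
  have hc : Conn Y := h.conn.img hf hh hY
  have hm : ∀ y, y ∈ Y ↔ ∃ a ∈ A, f a = y := fun y => by
    rw [← SetLike.mem_coe, hY]
    rfl
  refine ⟨⟨hc.df, hc.infinite hne, fun W hW hWY hi y hy => ?_⟩, fun y hy z hz => ?_, ?_⟩
  · obtain ⟨K, hK⟩ := hh.exists_pre W
    have hAK : A ≤ K := h.1.2.2 K (df_pre_ty h.1.1 hf hW hK) (fun x hx => ((hK x).1 hx).1)
      (Set.Infinite.of_image f (hi.mono fun w hw => by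
        obtain ⟨a, ha, rfl⟩ := (hm w).1 (hWY hw)
        exact ⟨a, (hK a).2 ⟨ha, hw⟩, rfl⟩))
    obtain ⟨a, ha, rfl⟩ := (hm y).1 hy
    exact ((hK a).1 (hAK ha)).2
  · obtain ⟨a, ha, rfl⟩ := (hm y).1 hy
    obtain ⟨b, hb, rfl⟩ := (hm z).1 hz
    change f a * f b = f b * f a
    rw [← hh a ha b hb, ← hh b hb a ha, (h.ab a ha b hb).eq]
  · rcases h.2.2 with h2 | ⟨h0, htf, h3, h4⟩
    · refine Or.inl ⟨h2.1, fun y hy => ?_⟩
      obtain ⟨a, ha, rfl⟩ := (hm y).1 hy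
      rw [← hh.pow ha, h2.2 a ha, hh.one]
    · obtain ⟨K, hK⟩ := hh.exists_pre ⊥
      have hKA : K ≤ A := fun x hx => ((hK x).1 hx).1
      have hfin : (K : Set G).Finite := by
        by_contra hi
        have hAK : A ≤ K := h.1.2.2 K (df_pre_ty h.1.1 hf df_bot hK) hKA hi
        refine hne (eq_bot_iff.2 fun y hy => ?_)
        obtain ⟨a, ha, rfl⟩ := (hm y).1 hy
        exact ((hK a).1 (hAK ha)).2
      have hk : ∀ x ∈ A, f x = 1 → x = 1 := fun x hx e =>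
        htf.eq_one_ty hKA hfin ((hK x).2 ⟨hx, Subgroup.mem_bot.2 e⟩)
      refine Or.inr ⟨h0, fun y hy n hn e => ?_, ?_, fun h5 => h4 ?_⟩
      · obtain ⟨a, ha, rfl⟩ := (hm y).1 hy
        rw [← hh.pow ha] at e
        rw [htf a ha n hn (hk _ (A.pow_mem ha n) e), hh.one]
      · rw [hY]
        exact h3.image hf (hh.injOn hk)
      · rw [hY] at h5
        exact Rk.of_image hf h.1.1 h5

theorem Ty.map (h : Ty t A) (hσ : Dm1 σ) : Ty t (A.map σ.toMonoidHom) :=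
  h.img hσ (fun a _ b _ => map_mul σ a b) rfl fun e =>
    h.ne_bot ((Subgroup.map_eq_bot_iff_of_injective A (f := σ.toMonoidHom) σ.injective).1 e)

omit [RG G] in
theorem om_le : Om t L ≤ L := sSup_le fun _ h => h.1

omit [RG G] in
theorem le_om (h : Ty t A) (hA : A ≤ L) : A ≤ Om t L := le_sSup ⟨hA, h⟩

omit [RG G] in
theorem om_le_iff : Om t L ≤ M ↔ ∀ A, A ≤ L → Ty t A → A ≤ M :=
  ⟨fun h _ h1 h2 => (le_om h2 h1).trans h, fun h => sSup_le fun A hA => h A hA.1 hA.2⟩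

omit [RG G] in
theorem om_mono (h : K ≤ L) : Om t K ≤ Om t L :=
  om_le_iff.2 fun _ h1 h2 => le_om h2 (h1.trans h)

theorem om_conn : Conn (Om t L) := conn_sSup fun _ h => h.2.conn

omit [RG G] in
theorem exists_ty_of_om (h : Om t L ≠ ⊥) : ∃ A ≤ L, Ty t A :=
  by_contra fun h' => h (eq_bot_iff.2 (om_le_iff.2 fun A h1 h2 => (h' ⟨A, h1, h2⟩).elim))

theorem Stb.om (h : Stb σ L) (hσ : Dm1 σ) : Stb σ (Om t L) := by
  have key : ∀ τ : MulAut G, Stb τ L → Dm1 τ → ∀ H ∈ {A | A ≤ L ∧ Ty t A},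
      H.map τ.toMonoidHom ∈ {A | A ≤ L ∧ Ty t A} := by
    rintro τ h1 h2 H ⟨h3, h4⟩
    refine ⟨?_, h4.map h2⟩
    rintro _ ⟨x, hx, rfl⟩
    exact h1.mem (h3 hx)
  exact stb_sSup (key σ h hσ) (key σ⁻¹ h.symm hσ.symm)

theorem nm_om (h : g ∈ Nm L) : g ∈ Nm (Om t L) :=
  mem_Nm_iff_stb.2 ((mem_Nm_iff_stb.1 h).om (dm1_conj g))

omit [DS G] [RG G] in
theorem comm_mul_ty {a b x : G} (h : Commute a ⁅b, x⁆) : ⁅a * b, x⁆ = ⁅b, x⁆ * ⁅a, x⁆ := by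
  have e : ⁅a * b, x⁆ = a * ⁅b, x⁆ * a⁻¹ * ⁅a, x⁆ := by
    simp only [commutatorElement_def]
    group
  rw [e, h.eq, mul_inv_cancel_right]

omit [DS G] [RG G] in
theorem comm_pow_ty {x : G} (h : Commute ⁅g, x⁆ x) (n : ℕ) : ⁅g, x ^ n⁆ = ⁅g, x⁆ ^ n := by
  have e : g * x * g⁻¹ = ⁅g, x⁆ * x := by
    simp only [commutatorElement_def]
    group
  rw [commutatorElement_def g (x ^ n), ← conj_pow, e, h.mul_pow, mul_inv_cancel_right]

omit [DS G] [RG G] in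
theorem comm_mem_itc_ty {a x : G} {i : ℕ} (ha : a ∈ F) (hx : x ∈ itc F F i) :
    ⁅a, x⁆ ∈ itc F F (i + 1) := by
  rw [itc_succ, Subgroup.commutator_comm]
  exact Subgroup.commutator_mem_commutator ha hx

omit [DS G] [RG G] in
theorem img_ne_bot_ty {x : G} (hY : (Y : Set G) = (fun a : G => ⁅a, x⁆) '' (A : Set G))
    (hx : x ∉ Cn A) : Y ≠ ⊥ := fun e => hx (mem_Cn.2 fun a ha => by
  have h1 : ⁅a, x⁆ ∈ (Y : Set G) := hY ▸ ⟨a, ha, rfl⟩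
  rw [e] at h1
  exact commutatorElement_eq_one_iff_commute.1 h1)

theorem dm1_comm_ty (x : G) : Dm1 fun a : G => ⁅a, x⁆ := (Dm.var _).comm (Dm.const x)

theorem exists_ty_central (hn : Nil F) (h : Ty t A) (hA : A ≤ F) :
    ∃ A' ≤ F ⊓ Cn F, Ty t A' := by
  obtain ⟨n, hn⟩ := hn
  have hFF : F ≤ Nm F := Subgroup.le_normalizer
  have key : ∀ k m, itc F F (m + k) = ⊥ → ∀ B ≤ itc F F m, Ty t B →
      ∃ A' ≤ F ⊓ Cn F, Ty t A' := by
    intro k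
    induction k with
    | zero => exact fun m hm B hB h1 => (h1.ne_bot (eq_bot_iff.2 (hm ▸ hB))).elim
    | succ k ih =>
      intro m hm B hB h1
      have hBF : B ≤ F := hB.trans (itc_le hFF m)
      by_cases hc : B ≤ Cn F
      · exact ⟨B, le_inf hBF hc, h1⟩
      obtain ⟨i, h2, h3⟩ := exists_last (s := itc F F) (K := Cn B)
        (fun h' => hc (le_Cn_comm.1 h')) hn
      obtain ⟨x, hx, hx'⟩ := SetLike.not_le_iff_exists.1 h2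
      have hh : HomOn (fun a => ⁅a, x⁆) B := fun a ha b hb => by
        rw [(h1.ab a ha b hb).eq]
        exact comm_mul_ty (mem_Cn.1 (h3 (comm_mem_itc_ty (hBF ha) hx)) b hb)
      obtain ⟨Y, hY⟩ := hh.exists_img
      refine ih (m + 1) (by rw [← hm]; congr 1; omega) Y (fun y hy => ?_)
        (h1.img (dm1_comm_ty x) hh hY (img_ne_bot_ty hY hx'))
      obtain ⟨a, ha, rfl⟩ := hY.subset hy
      exact Subgroup.commutator_mem_commutator (hB ha) (itc_le hFF i hx)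
  exact key n 0 (by rw [zero_add]; exact hn) A hA h

theorem exists_ty_of_nil (hF : Conn F) (hn : Nil F) (h : ¬Ab F) : ∃ t, ∃ A ≤ F, Ty t A := by
  obtain ⟨n, hn'⟩ := id hn
  have hFF : F ≤ Nm F := Subgroup.le_normalizer
  obtain ⟨i, h2, h3⟩ := exists_last (s := itc F F) (K := Cn F)
    (fun h' => h (ab_iff_le_Cn.2 h')) hn'
  obtain ⟨x₀, hx₀, hx₀'⟩ := SetLike.not_le_iff_exists.1 h2
  obtain ⟨_, ⟨x, ⟨hx, hx'⟩, rfl⟩, hmin⟩ := exists_minimal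
    (s := (fun x => Cn (F ⊓ Subgroup.centralizer {x})) '' {x | x ∈ itc F F i ∧ x ∉ Cn F})
    (by rintro _ ⟨x, -, rfl⟩; exact df_centralizer _) ⟨_, x₀, ⟨hx₀, hx₀'⟩, rfl⟩
  have hxF : x ∈ F := itc_le hFF i hx
  have hz : ∀ a ∈ F, ⁅a, x⁆ ∈ F ∧ ∀ b ∈ F, Commute b ⁅a, x⁆ := fun a ha =>
    ⟨itc_le hFF _ (comm_mem_itc_ty ha hx), mem_Cn.1 (h3 (comm_mem_itc_ty ha hx))⟩
  have hh : HomOn (fun a => ⁅a, x⁆) F := fun a ha b hb =>
    (comm_mul_ty ((hz b hb).2 a ha)).trans ((hz a ha).2 _ (hz b hb).1).eq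
  obtain ⟨Y, hY⟩ := hh.exists_img
  have hc : Conn Y := hF.img (dm1_comm_ty x) hh hY
  have hi : (Y : Set G).Infinite := hc.infinite (img_ne_bot_ty hY hx')
  have hm : ∀ y ∈ Y, ∃ a ∈ F, ⁅a, x⁆ = y := fun y hy => hY.subset hy
  have hYF : Y ≤ F := fun y hy => by
    obtain ⟨a, ha, rfl⟩ := hm y hy
    exact (hz a ha).1
  have hs : Sol Y := hn.sol.mono hYF
  have hp : ∀ a ∈ F, ∀ k : ℕ, ⁅a, x ^ k⁆ = ⁅a, x⁆ ^ k := fun a ha =>
    comm_pow_ty ((hz a ha).2 x hxF).symm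
  by_cases hk : ∃ k : ℕ, k ≠ 0 ∧ x ^ k ∈ Cn F
  · obtain ⟨k, hk, hk'⟩ := hk
    obtain ⟨A, hA, hA'⟩ := exists_ty_of_pow hc.df hi hs hk fun y hy => by
      obtain ⟨a, ha, rfl⟩ := hm y hy
      rw [← hp a ha]
      exact commutatorElement_eq_one_iff_commute.2 (mem_Cn.1 hk' a ha)
    exact ⟨_, A, hA.trans hYF, hA'⟩
  · obtain ⟨r, A, hA, hA'⟩ := exists_ty_of_tf hc.df hi hs fun y hy k hk0 e => by
      obtain ⟨a, ha, rfl⟩ := hm y hy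
      rw [← hp a ha] at e
      have h4 := hmin _ ⟨x ^ k, ⟨(itc F F i).pow_mem hx k, fun h' => hk ⟨k, hk0, h'⟩⟩, rfl⟩
        (cn_anti (inf_le_inf_left F fun b hb => Subgroup.mem_centralizer_singleton_iff.2
          (Commute.pow_right (Subgroup.mem_centralizer_singleton_iff.1 hb) k)))
      have h5 : x ∈ Cn (F ⊓ Subgroup.centralizer {x ^ k}) := by
        rw [show Cn (F ⊓ Subgroup.centralizer {x ^ k}) = _ from h4]
        exact mem_Cn.2 fun b hb => Subgroup.mem_centralizer_singleton_iff.1 hb.2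
      exact commutatorElement_eq_one_iff_commute.2 (mem_Cn.1 h5 a ⟨ha,
        Subgroup.mem_centralizer_singleton_iff.2 (commutatorElement_eq_one_iff_commute.1 e)⟩)
    exact ⟨_, A, hA.trans hYF, hA'⟩

end Pool.Agent.MP_fcbc9a_lc.H58
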