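import Pool.Agent.MP_fcbc9a_lc.H58.Fit
import Pool.Agent.MP_fcbc9a_lc.H58.Ty

/-!
Subgroups of maximal type lie in the Fitting subgroup.
-/

open Set
open scoped commutatorElement

namespace Pool.Agent.MP_fcbc9a_lc.H58

universe u

theorem infinite_of_tf_T45 {Q : Type*} [Group Q] {A C : Subgroup Q} (h : TF A) {a : Q}
    (ha : a ∈ A) (hC : a ∈ C) (hne : a ≠ 1) : (C : Set Q).Infinite := by
  refine infinite_of_injective_forall_mem (f := fun n : ℕ => a ^ n) ?_ fun n => C.pow_mem hC n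
  refine injective_pow_iff_not_isOfFinOrder.2 fun hf => ?_
  obtain ⟨n, hn, e⟩ := isOfFinOrder_iff_pow_eq_one.1 hf
  exact hne (h a ha n hn.ne' e)

variable {G : Type u} [Group G] [DS G] [RG G] {A B F X : Subgroup G} {t : ℕ × ℕ}

theorem dm1_comm_T45 (a : G) : Dm1 fun h : G => ⁅h, a⁆ := Dm.comm (Dm.var _) (Dm.const a)

omit [RG G] in
theorem ZS.ne_bot_T45 {M : Subgroup G} (h : ZS A M B) : A ≠ ⊥ := by
  rintro rfl
  exact h.ne fun x _ => mem_Cn.2 fun y hy => by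
    rw [Subgroup.mem_bot.1 hy]; exact Commute.one_left x

theorem ZS.exists_ty_T45 (h : ZS A X X) :
    (∃ p, p ≠ 0 ∧ ∃ A' ≤ A, Ty (p, 0) A') ∨ ∃ r, Ty (0, r) A := by
  rcases h.dich with ⟨p, hp, h1⟩ | ⟨h1, h2⟩
  · exact Or.inl ⟨p, hp, exists_ty_of_pow h.cA.df (h.cA.infinite h.ne_bot_T45) h.ab.sol hp h1⟩
  · exact Or.inr (ty_of_tf h2 h.ab h1)

section sec

variable {Q : Type u} [Group Q] [DS Q] [RG Q] {H K S : Subgroup G} {π : S →* Q}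

omit [RG Q] in
theorem zs_sec_T45 (hs : Sec K π) (cH : Conn H) (cK : Conn K) (hX : Conn X) (hHS : H ≤ S)
    (hXS : X ≤ S) (hXH : X ≤ Nm H) (hHK : ⁅H, H⁆ ≤ K) (hKH : K ≤ H) (hne : ¬⁅H, X⁆ ≤ K)
    (hXX : ⁅X, X⁆ ≤ Cn H)
    (hmax : ∀ W, Conn W → W ≤ H → W ≠ H → X ≤ Nm W → K ≤ W → W = K) :
    ZS (dn π H) (dn π X) (dn π X) where
  cA := hs.conn_dn cH hHS
  cM := hs.conn_dn hX hXS
  cB := hs.conn_dn hX hXS
  ab := ab_iff_le_Cn.2 ((hs.dn_le_Cn hHS hHS).2 hHK)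
  BA := dn_le_Nm hHS hXH
  BM := fun _ hg => nm_of_mem hg
  MB := le_rfl
  MM := by
    rw [← dn_comm hXS hXS]
    refine (hs.dn_le_Cn hHS (comm_le_self.trans hXS)).2 (Subgroup.commutator_le.2 ?_)
    intro a ha y hy
    rw [commutatorElement_eq_one_iff_commute.2 (mem_Cn.1 (hXX hy) a ha)]
    exact K.one_mem
  ne := fun e => hne ((hs.dn_le_Cn hHS hXS).1 e)
  min := by
    intro Y hY hle hn
    have hD : Df (up π Y) := hs.df_up hY.df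
    have h1 : cc (up π Y) ≤ H := by
      refine hD.cc_le.trans ((up_mono hle).trans ?_)
      rw [hs.up_dn hHS]
      exact sup_le le_rfl hKH
    by_cases e : cc (up π Y) = H
    · right
      rw [← hs.dn_cc_up hY, e]
    · left
      have h2 := hmax _ hD.cc_conn h1 e (fun g hg => nm_cc (le_Nm_up hXS hn hg) hD)
        (cK.le_cc hD hs.le_up)
      rw [← hs.dn_cc_up hY, h2]
      exact (hs.dn_eq_bot hs.le).2 le_rfl

theorem ty_of_not_ab_T45 (hs : Sec K π) (cH : Conn H) (nH : Nil H) (hHS : H ≤ S)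
    (hHK : ⁅H, H⁆ ≤ K) (hKH : K ≤ H) (hC : H ≤ Cn K) (Z : ZS (dn π H) (dn π X) (dn π X))
    (hab : ¬Ab H) : ∃ p, p ≠ 0 ∧ ∃ A ≤ H, Ty (p, 0) A := by
  obtain ⟨b, hb, a, ha, hba⟩ : ∃ b ∈ H, ∃ a ∈ H, ¬Commute b a := by
    by_contra hc
    exact hab fun b hb a ha => by_contra fun e => hc ⟨b, hb, a, ha, e⟩
  have hK : ∀ x ∈ H, ⁅x, a⁆ ∈ K := fun x hx => hHK (Subgroup.commutator_mem_commutator hx ha)
  have hc : ∀ k ∈ K, ∀ x ∈ H, Commute k x := fun k hk x hx => mem_Cn.1 (hC hx) k hk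
  rcases Z.dich with ⟨p, hp, h1⟩ | ⟨h1, h2⟩
  · have hh : HomOn (fun x : G => ⁅x, a⁆) H := by
      intro x hx y hy
      have e1 := (hc _ (hK y hy) x hx).eq
      have e2 := (hc _ (hK y hy) _ (hKH (hK x hx))).eq
      calc ⁅x * y, a⁆ = x * ⁅y, a⁆ * x⁻¹ * ⁅x, a⁆ := by
            simp only [commutatorElement_def]; group
        _ = ⁅x, a⁆ * ⁅y, a⁆ := by rw [← e1, ← e2]; group
    obtain ⟨Y, hY⟩ := hh.exists_img
    have cY : Conn Y := cH.img (dm1_comm_T45 a) hh hY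
    have mY : ∀ y, y ∈ Y ↔ ∃ x ∈ H, ⁅x, a⁆ = y := fun y => by
      rw [← SetLike.mem_coe, hY]; rfl
    have hYH : Y ≤ H := fun y hy => by
      obtain ⟨x, hx, rfl⟩ := (mY y).1 hy
      exact hKH (hK x hx)
    have hYne : Y ≠ ⊥ := fun e => hba (commutatorElement_eq_one_iff_commute.1
      (Subgroup.mem_bot.1 (e ▸ (mY _).2 ⟨b, hb, rfl⟩)))
    obtain ⟨A, hA, hT⟩ := exists_ty_of_pow cY.df (cY.infinite hYne) (nH.mono hYH).sol hp (by
      intro y hy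
      obtain ⟨x, hx, rfl⟩ := (mY y).1 hy
      have e : π (⟨x, hHS hx⟩ ^ p) = 1 := by
        rw [map_pow]; exact h1 _ (mem_dn_of_mem hx)
      rw [← hh.pow hx p]
      exact commutatorElement_eq_one_iff_commute.2 (hc _ ((hs.ker _).1 e) a ha))
    exact ⟨p, hp, A, hA.trans hYH, hT⟩
  · exfalso
    have hD : Df (H ⊓ Subgroup.centralizer {a}) := cH.df.inf (df_centralizer_singleton a)
    have haC : a ∈ H ⊓ Subgroup.centralizer {a} :=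
      ⟨ha, Subgroup.mem_centralizer_singleton_iff.2 rfl⟩
    have hne : π ⟨a, hHS ha⟩ ≠ 1 := fun e => hba (hc _ ((hs.ker _).1 e) b hb).symm
    have hle := h2.2.2 _ (hs.df_dn hD) (dn_mono inf_le_left)
      (infinite_of_tf_T45 h1 (mem_dn_of_mem (x := ⟨a, hHS ha⟩) ha)
        (mem_dn_of_mem (x := ⟨a, hHS ha⟩) haC) hne)
    rw [dn_le_iff hHS, hs.up_dn (inf_le_left.trans hHS)] at hle
    have hKC : K ≤ H ⊓ Subgroup.centralizer {a} := fun k hk =>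
      ⟨hKH hk, Subgroup.mem_centralizer_singleton_iff.2 (hc k hk a ha).eq⟩
    exact hba (Subgroup.mem_centralizer_singleton_iff.1 ((sup_le le_rfl hKC) (hle hb)).2)

theorem eq_bot_of_ab_T45 (hs : Sec K π) (cH : Conn H) (hHS : H ≤ S)
    (hXH : X ≤ Nm H) (hXK : X ≤ Nm K) (hHK : H ≤ Nm K) (hKH : K ≤ H) (hXX : ⁅X, X⁆ ≤ Cn H)
    (Z : ZS (dn π H) (dn π X) (dn π X)) (hab : Ab H) (hU : ¬Unip H X) (hK : Unip K X)
    (hmin : ∀ W, Conn W → W ≤ H → X ≤ Nm W → W ≠ H → Unip W X) : K = ⊥ := by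
  obtain ⟨m, hm, hm'⟩ : ∃ m ∈ dn π X, m ∉ Cn (dn π H) := by
    by_contra hc
    exact Z.ne fun m hm => by_contra fun e => hc ⟨m, hm, e⟩
  have hb := Z.bij hm hm'
  obtain ⟨x, hx, rfl⟩ := mem_dn.1 hm
  have hcj : ∀ y ∈ H, (x : G) * y⁻¹ * (x : G)⁻¹ ∈ H := fun y hy =>
    conj_mem (hXH hx) (H.inv_mem hy)
  have hh : HomOn (fun y : G => ⁅y, (x : G)⁆) H := by
    intro y hy z hz
    have e1 := (hab _ (H.mul_mem hz (hcj z hz)) _ (hcj y hy)).eq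
    calc ⁅y * z, (x : G)⁆ = y * ((z * (x * z⁻¹ * (x : G)⁻¹)) * (x * y⁻¹ * (x : G)⁻¹)) := by
          simp only [commutatorElement_def]; group
      _ = ⁅y, (x : G)⁆ * ⁅z, (x : G)⁆ := by
          rw [e1]; simp only [commutatorElement_def]; group
  obtain ⟨Y, hY⟩ := hh.exists_img
  have cY : Conn Y := cH.img (dm1_comm_T45 _) hh hY
  have mY : ∀ y, y ∈ Y ↔ ∃ z ∈ H, ⁅z, (x : G)⁆ = y := fun y => by
    rw [← SetLike.mem_coe, hY]; rfl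
  have hYH : Y ≤ H := fun y hy => by
    obtain ⟨z, hz, rfl⟩ := (mY y).1 hy
    have := H.mul_mem hz (hcj z hz)
    rwa [show z * (x * z⁻¹ * (x : G)⁻¹) = ⁅z, (x : G)⁆ by
      simp only [commutatorElement_def]; group] at this
  have hXY : X ≤ Nm Y := by
    refine le_Nm_of_conj fun g hg y hy => ?_
    obtain ⟨z, hz, rfl⟩ := (mY y).1 hy
    have hz' : g * z * g⁻¹ ∈ H := conj_mem (hXH hg) hz
    refine (mY _).2 ⟨g * z * g⁻¹, hz', ?_⟩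
    have e := (mem_Cn.1 (hXX (Subgroup.commutator_mem_commutator hg hx)) _ (hcj _ hz')).eq
    calc ⁅g * z * g⁻¹, (x : G)⁆
        = g * z * g⁻¹ * ((x * (g * z * g⁻¹)⁻¹ * (x : G)⁻¹) * ⁅g, (x : G)⁆) * ⁅g, (x : G)⁆⁻¹ := by
          simp only [commutatorElement_def]; group
      _ = g * ⁅z, (x : G)⁆ * g⁻¹ := by
          rw [e]; simp only [commutatorElement_def]; group
  have hπ : ∀ z : S, ⁅π z, π x⁆ = π ⁅z, x⁆ := fun z => (map_commutatorElement π z x).symm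
  have hsup : H ≤ Y ⊔ K := by
    intro h hh'
    obtain ⟨y, hy, e⟩ := hb.surjOn (mem_dn_of_mem (π := π) (x := ⟨h, hHS hh'⟩) hh')
    obtain ⟨z, hz, rfl⟩ := mem_dn.1 hy
    have e' : π (⁅z, x⁆⁻¹ * ⟨h, hHS hh'⟩) = 1 := by
      rw [map_mul, map_inv, ← hπ, ← e]; exact inv_mul_cancel _
    have h1 : ⁅(z : G), (x : G)⁆⁻¹ * h ∈ K := (hs.ker _).1 e'
    have := (Y ⊔ K).mul_mem (Subgroup.mem_sup_left ((mY _).2 ⟨z, hz, rfl⟩))
      (Subgroup.mem_sup_right h1)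
    rwa [mul_inv_cancel_left] at this
  have hYe : Y = H := by_contra fun e =>
    hU ((Unip.sup_left hXY hXK (hYH.trans hHK) (hmin Y cY hYH hXY e) hK).mono hsup le_rfl)
  refine hK.eq_bot le_rfl fun k hk => ?_
  obtain ⟨z, hz, rfl⟩ := (mY k).1 (hYe ▸ hKH hk)
  have e : π ⟨z, hHS hz⟩ = 1 := by
    refine hb.injOn (mem_dn_of_mem (π := π) (x := ⟨z, hHS hz⟩) hz) (Subgroup.one_mem _) ?_
    show ⁅π ⟨z, hHS hz⟩, π x⁆ = ⁅1, π x⁆
    rw [hπ, commutatorElement_one_left]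
    exact (hs.ker _).2 hk
  exact Subgroup.commutator_mem_commutator ((hs.ker _).1 e) hx

end sec

theorem exists_zs (hF : Nil F) (cF : Conn F) (hX : Conn X) (hXF : X ≤ Nm F) (hXX : ⁅X, X⁆ ≤ Cn F)
    (h : ¬Unip F X) : (∀ n, n ≠ 0 → ∃ x ∈ X, x ^ n ≠ 1) ∧
      ((∃ s, ∃ A ≤ F, s.1 ≠ 0 ∧ Ty s A) ∨ ∃ H ≤ F, ZS H X X) := by
  obtain ⟨H, ⟨cH, hHF, hXH, hU⟩, hm⟩ :=
    exists_minimal (s := {H | Conn H ∧ H ≤ F ∧ X ≤ Nm H ∧ ¬Unip H X}) (fun H hH => hH.1.df)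
      ⟨F, cF, le_rfl, hXF, h⟩
  have hmin : ∀ W, Conn W → W ≤ H → X ≤ Nm W → W ≠ H → Unip W X := fun W h1 h2 h3 h4 =>
    by_contra fun e => h4 (hm W ⟨h1, h2.trans hHF, h3, e⟩ h2)
  have hHX : ⁅H, X⁆ = H := by_contra fun e =>
    hU ((hmin _ (cH.comm_left X) (comm_le_left hXH) right_le_Nm_comm e).of_comm_le le_rfl)
  have nH : Nil H := hF.mono hHF
  have hne : H ≠ ⊥ := fun e => hU ⟨0, e⟩
  have hXX' : ⁅X, X⁆ ≤ Cn H := hXX.trans (cn_anti hHF)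
  obtain ⟨K, ⟨cK, hHK, hKH, hKne, hXK⟩, hM⟩ :=
    exists_maximal (s := {K | Conn K ∧ ⁅H, H⁆ ≤ K ∧ K ≤ H ∧ K ≠ H ∧ X ≤ Nm K})
      (fun K hK => hK.1) ⟨⁅H, H⁆, cH.comm_left H, le_rfl, comm_le_self,
        fun e => hne (Unip.eq_bot nH le_rfl e.ge), fun g hg => nm_comm (hXH hg) (hXH hg)⟩
  have hmax : ∀ W, Conn W → W ≤ H → W ≠ H → X ≤ Nm W → K ≤ W → W = K :=
    fun W h1 h2 h3 h4 h5 => hM W ⟨h1, hHK.trans h5, h2, h3, h4⟩ h5
  have uK : Unip K X := hmin K cK hKH hXK hKne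
  have hN : H ≤ Nm K := le_Nm_of_der_le hHK hKH
  have hSN : H ⊔ X ≤ Nm K := sup_le hN hXK
  have hC : H ≤ Cn K := le_Cn_of_unip le_sup_left le_sup_right (hKH.trans le_sup_left) hSN
    (Unip.sup hN hXK hXH (Unip.mono nH hKH le_rfl) uK) hHX.ge
  obtain ⟨Q, _, _, _, π, hs⟩ := exists_sec (cH.sup hX).df cK.df (hKH.trans le_sup_left) hSN
  have Z := zs_sec_T45 hs cH cK hX le_sup_left le_sup_right hXH hHK hKH
    (fun e => hKne (le_antisymm hKH (hHX.ge.trans e))) hXX' hmax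
  refine ⟨fun n hn => ?_, ?_⟩
  · obtain ⟨m, hm, hm'⟩ := Z.pow hn
    obtain ⟨x, hx, rfl⟩ := mem_dn.1 hm
    refine ⟨x, hx, fun e => hm' ?_⟩
    rw [← map_pow, show x ^ n = 1 from Subtype.ext e, map_one]
    exact Subgroup.one_mem _
  · by_cases hab : Ab H
    · have hK := eq_bot_of_ab_T45 hs cH le_sup_left hXH hXK hN hKH hXX' Z hab hU uK
        hmin
      refine Or.inr ⟨H, hHF, cH, hX, hX, hab, hXH, fun _ hg => nm_of_mem hg, le_rfl, hXX',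
        fun e => hU (unip_of_le_Cn e), fun Y h1 h2 h3 => ?_⟩
      by_cases e : Y = H
      · exact Or.inr e
      · exact Or.inl ((hmax Y h1 h2 e h3 (hK ▸ bot_le)).trans hK)
    · obtain ⟨p, hp, A, hA, hT⟩ := ty_of_not_ab_T45 hs cH nH le_sup_left hHK hKH hC Z hab
      exact Or.inl ⟨(p, 0), A, hA.trans hHF, hp, hT⟩

theorem rk_succ_T45 {H : Subgroup G} {r : ℕ} (Z : ZS H A A) (hA : MinS A) (hT : TF A)
    (hr : Rk r (A : Set G)) : Rk (r + 1) (H : Set G) := by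
  by_contra hn
  have h0 : ∀ x ∈ A, x ∈ Cn H → x = 1 := fun x hx hx' => by_contra fun e =>
    Z.ne ((hA.2.2 _ (hA.1.inf Z.cA.df.cn) inf_le_left
      (infinite_of_tf_T45 hT hx ⟨hx, hx'⟩ e)).trans inf_le_right)
  have h1 : ∀ a ∈ H, a ≠ 1 → ∀ x ∈ A, Commute a x → x = 1 := fun a ha hne x hx hc =>
    h0 x hx (by_contra fun e => hne ((Z.bij hx e).injOn ha H.one_mem (by
      show ⁅a, x⁆ = ⁅1, x⁆
      rw [commutatorElement_one_left]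
      exact commutatorElement_eq_one_iff_commute.2 hc)))
  have hd : ∀ a : G, Dm1 fun x : G => x * a * x⁻¹ := fun a =>
    ((Dm.var _).mul (Dm.const a)).mul (Dm.var _).inv
  have h2 : ∀ a ∈ H, a ≠ 1 → Ds ((fun x : G => x * a * x⁻¹) '' A) ∧
      (fun x : G => x * a * x⁻¹) '' A ⊆ H ∧ Rk r ((fun x : G => x * a * x⁻¹) '' A) := by
    intro a ha hne
    refine ⟨Ds.image hA.1 (hd a), ?_, hr.image (hd a) fun x hx y hy e => ?_⟩
    · rintro _ ⟨x, hx, rfl⟩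
      exact conj_mem (Z.BA hx) ha
    · have e' : x * a * x⁻¹ = y * a * y⁻¹ := e
      have := h1 a ha hne (y⁻¹ * x) (A.mul_mem (A.inv_mem hy) hx) (by
        show a * (y⁻¹ * x) = y⁻¹ * x * a
        calc a * (y⁻¹ * x) = y⁻¹ * (y * a * y⁻¹) * x := by group
          _ = y⁻¹ * x * a := by rw [← e']; group)
      exact (inv_mul_eq_one.1 this).symm
  obtain ⟨⟨a, ha⟩, hne⟩ := Subgroup.ne_bot_iff_exists_ne_one.1 Z.ne_bot_T45
  have hne' : a ≠ 1 := fun e => hne (Subtype.ext e)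
  obtain ⟨a1, a2, a3⟩ := h2 a ha hne'
  obtain ⟨b1, b2, b3⟩ := h2 a⁻¹ (H.inv_mem ha) (inv_ne_one.2 hne')
  obtain ⟨_, ⟨x, hx, rfl⟩, y, hy, e⟩ := Z.cA.deg1 r _ _ a1 b1 a2 b2 a3 b3 hn
  have e' : y * a⁻¹ * y⁻¹ = x * a * x⁻¹ := e
  have e1 : y⁻¹ * x * a * (y⁻¹ * x)⁻¹ = a⁻¹ := by
    calc y⁻¹ * x * a * (y⁻¹ * x)⁻¹ = y⁻¹ * (x * a * x⁻¹) * y := by group
      _ = a⁻¹ := by rw [← e']; group
  have hz : y⁻¹ * x ∈ A := A.mul_mem (A.inv_mem hy) hx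
  generalize y⁻¹ * x = z at e1 hz
  have e2 : z * z = 1 := h1 a ha hne' _ (A.mul_mem hz hz) (by
    show a * (z * z) = z * z * a
    have e3 : z * a⁻¹ * z⁻¹ = a := by
      calc z * a⁻¹ * z⁻¹ = (z * a * z⁻¹)⁻¹ := by group
        _ = a := by rw [e1, inv_inv]
    calc a * (z * z) = z * (z * a * z⁻¹) * z⁻¹ * (z * z) := by rw [e1, e3]
      _ = z * z * a * (z⁻¹ * z⁻¹ * (z * z)) := by simp only [mul_assoc]
      _ = z * z * a := by rw [show z⁻¹ * z⁻¹ * (z * z) = 1 by group, mul_one])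
  rw [RG.inv2 z e2] at e1
  exact hne' (RG.inv2 a (mul_eq_one_iff_eq_inv.2 (by simpa using e1)))

theorem Ty.le_fit (hB : Conn B) (hs : Sol B) (ht : Top t B) (h : Ty t A) (hA : A ≤ B) :
    A ≤ Fit B := by
  refine le_fit_of_unip hB hs h.conn hA (by_contra fun hu => ?_)
  obtain ⟨h1, h2⟩ := exists_zs fit_nil fit_conn h.conn (hA.trans le_Nm_fit)
    (by rw [ab_iff_comm.1 h.ab]; exact bot_le) hu
  rcases h.2.2 with ⟨h3, h4⟩ | ⟨h3, h4, h5, -⟩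
  · obtain ⟨x, hx, e⟩ := h1 _ h3
    exact e (h4 x hx)
  · have ht' := ht.resolve_left (not_not.2 h3)
    rcases h2 with ⟨s, A', h6, h7, h8⟩ | ⟨H, hH, Z⟩
    · exact h7 (ht' s A' (h6.trans fit_le) h8).1
    · rcases Z.exists_ty_T45 with ⟨p, hp, A', h6, h7⟩ | ⟨r, h6⟩
      · exact hp (ht' _ A' ((h6.trans hH).trans fit_le) h7).1
      · have h7 : r ≤ t.2 := (ht' _ H (hH.trans fit_le) h6).2
        rcases h6.2.2 with ⟨h8, -⟩ | ⟨-, -, -, h8⟩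
        · exact h8 rfl
        · exact h8 ((rk_succ_T45 Z h.1 h4 h5).of_le (Nat.succ_le_succ h7))

theorem exists_ty_of_not_ab (hB : Conn B) (hs : Sol B) (h : ¬Ab B) : ∃ t, ∃ A ≤ B, Ty t A := by
  by_contra hc
  have hab : Ab (Fit B) := by_contra fun e => by
    obtain ⟨t, A, hA, hT⟩ := exists_ty_of_nil fit_conn fit_nil e
    exact hc ⟨t, A, hA.trans fit_le, hT⟩
  refine h (hab.mono (le_fit_of_unip hB hs hB le_rfl (by_contra fun hu => ?_)))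
  obtain ⟨-, ⟨s, A, h1, -, h2⟩ | ⟨H, hH, Z⟩⟩ := exists_zs fit_nil fit_conn hB le_Nm_fit
    ((comm_le_fit hB hs).trans (ab_iff_le_Cn.1 hab)) hu
  · exact hc ⟨s, A, h1.trans fit_le, h2⟩
  · rcases Z.exists_ty_T45 with ⟨p, -, A, h1, h2⟩ | ⟨r, h1⟩
    · exact hc ⟨_, A, (h1.trans hH).trans fit_le, h2⟩
    · exact hc ⟨_, H, hH.trans fit_le, h1⟩

end Pool.Agent.MP_fcbc9a_lc.H58
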