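import Pool.Agent.MP_fcbc9a_lc.H58.Uniq

/-!
Two uniqueness subgroups.
-/

open Set
open scoped commutatorElement

namespace Pool.Agent.MP_fcbc9a_lc.H58

universe u

variable {G : Type u} [Group G] [DS G] [RG G] {T : Tri G} {a b c : Fin 3}
  {B B₁ F : Subgroup G} {q y : G} {s t : ℕ × ℕ}

theorem MC.theta (h : MC T) (hq : q ∈ T.J b) (hq1 : q ≠ 1) {n : ℕ} (hn : n ≠ 0) (hqn : q ^ n = 1)
    (hD : Dx T ≤ Subgroup.centralizer {q})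
    (hc : ∀ L, Conn L → L ≤ Cx T b → L ≤ Subgroup.centralizer {q} → L ≤ Dx T) : False := by
  have U := u2 G
  obtain ⟨a, hab⟩ := exists_ne b
  obtain ⟨m, hm⟩ := h.sol_Cx (i := b)
  obtain ⟨i, hi1, hi2⟩ := exists_last (s := der (Cx T b)) (K := Dx T)
    (fun hle => hq1 (eq_one_of_J_Dx U hq (hle (J_sub_Cx hq)))) hm
  have hNc : Conn (der (Cx T b) i) := h.vc_Cx.1.der i
  have hNv : VI T (der (Cx T b) i) := vi_Cx.der i
  have hNle : der (Cx T b) i ≤ Cx T b := der_le i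
  have hNn : Cx T b ≤ Nm (der (Cx T b) i) := fun _ hg => nm_der (nm_of_mem hg) i
  rw [der_succ] at hi2
  generalize der (Cx T b) i = N at *
  have hDq : ∀ d ∈ Dx T, Commute d q := fun d hd =>
    Subgroup.mem_centralizer_singleton_iff.1 (hD hd)
  have h1 : ∀ x ∈ N, x ∈ T.J b → ⁅x, q⁆ ∈ Dx T := by
    intro x hx hxJ
    have hu := rt_mem_J U hq
    obtain ⟨d, hd, hd', m, hm, -, e⟩ := exists_theta U (T.sq a) hNc.df.rc (hNv a) h.df_Dx.rc hi2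
      (hu.2 a hab) (hNn (J_sub_Cx hu)) hx (hxJ.2 a hab)
    have hw : d * m ∈ Dx T := (Dx T).mul_mem (mem_Dx_of hab hd' (hNle hd)) hm
    have hcm : Commute (rt q) (d * m) :=
      U.comm_of_sq (by rw [U.rt_sq]; exact (hDq _ hw).symm)
    have e1 : ⁅x, q⁆ = (rt q * (d * m) * (rt q)⁻¹)⁻¹ := by
      rw [← e]
      have e2 := U.rt_sq q
      generalize rt q = u at e2
      rw [← e2, commutatorElement_def]
      simp only [mul_inv_rev, inv_inv, mul_assoc, mul_inv_cancel_left]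
    rw [e1, hcm.eq, mul_inv_cancel_right]
    exact (Dx T).inv_mem hw
  have h2 : ∀ x ∈ N, ∃ y ∈ N, y ∈ T.J b ∧ ⁅x, q⁆ = ⁅y, q⁆ := by
    intro x hx
    obtain ⟨d, hd, y, hy, hd', hy', rfl⟩ := dec_Cx U hNc.df.rc hNv hx (hNle hx)
    refine ⟨d * y * d⁻¹, N.mul_mem (N.mul_mem hd hy) (N.inv_mem hd), conj_mem_J hy' hd', ?_⟩
    have e := (hDq d hd').inv_left.eq
    calc ⁅d * y, q⁆ = d * y * (d⁻¹ * d) * q * y⁻¹ * d⁻¹ * q⁻¹ := by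
          rw [commutatorElement_def]; group
      _ = d * y * d⁻¹ * (d * q) * y⁻¹ * d⁻¹ * q⁻¹ := by group
      _ = _ := by rw [(hDq d hd').eq, commutatorElement_def]; group
  have h3 : ∀ x ∈ N, ⁅x, q⁆ ∈ Dx T := fun x hx => by
    obtain ⟨y, hy, hy', e⟩ := h2 x hx
    exact e ▸ h1 y hy hy'
  have h4 : ∀ x ∈ N, ⁅x, q⁆ ^ n = 1 := fun x hx => by
    have e : x * q * x⁻¹ = ⁅x, q⁆ * q := by rw [commutatorElement_def]; group
    have e1 : (x * q * x⁻¹) ^ n = 1 := by rw [conj_pow, hqn]; group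
    rwa [e, (hDq _ (h3 x hx)).mul_pow, hqn, mul_one] at e1
  have h5 : ∀ y ∈ N, y ∈ T.J b → ∀ x ∈ N, ⁅y * x, q⁆ = ⁅x, q⁆ * ⁅y, q⁆ := by
    intro y hy hy' x hx
    have e : y * ⁅x, q⁆ * y⁻¹ = ⁅y * x, q⁆ * ⁅y, q⁆⁻¹ := by
      simp only [commutatorElement_def]; group
    have hm : y * ⁅x, q⁆ * y⁻¹ ∈ Dx T :=
      e ▸ (Dx T).mul_mem (h3 _ (N.mul_mem hy hx)) ((Dx T).inv_mem (h3 y hy))
    have e1 := mem_Dx.1 hm a
    rw [map_mul, map_mul, map_inv, hy'.2 a hab, mem_Dx.1 (h3 x hx) a, inv_inv] at e1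
    have e2 : Commute y ⁅x, q⁆ := U.comm_of_sq (by
      calc y * y * ⁅x, q⁆ = y * (y * ⁅x, q⁆ * y⁻¹) * y := by group
        _ = ⁅x, q⁆ * (y * y) := by rw [← e1]; group)
    rw [e2.eq, mul_inv_cancel_right] at e
    rw [e, inv_mul_cancel_right]
  let Y : Subgroup G :=
    { carrier := (fun x => ⁅x, q⁆) '' (N : Set G)
      one_mem' := ⟨1, N.one_mem, by simp⟩
      mul_mem' := by
        rintro _ _ ⟨x, hx, rfl⟩ ⟨x', hx', rfl⟩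
        obtain ⟨y, hy, hy', e⟩ := h2 x' hx'
        exact ⟨y * x, N.mul_mem hy hx, by simp only [e, h5 y hy hy' x hx]⟩
      inv_mem' := by
        rintro _ ⟨x, hx, rfl⟩
        obtain ⟨y, hy, hy', e⟩ := h2 x hx
        refine ⟨y⁻¹, N.inv_mem hy, ?_⟩
        have := h5 y hy hy' y⁻¹ (N.inv_mem hy)
        rw [mul_inv_cancel, commutatorElement_one_left] at this
        simp only [e]
        exact eq_inv_of_mul_eq_one_left this.symm }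
  have hY : Df Y := Ds.image hNc.df ((Dm.var _).comm (Dm.const q))
  have hYD : Y ≤ Dx T := by
    rintro _ ⟨x, hx, rfl⟩
    exact h3 x hx
  rcases (Y : Set G).finite_or_infinite with hf | hf
  · refine hi1 (hc N hNc hNle (hNc.2 _ (df_centralizer_singleton q)
      (relIndex_ne_zero_of_color (c := fun x => ⁅x, q⁆) hf (fun x hx => ⟨x, hx, rfl⟩)
        fun x _ x' _ e => Subgroup.mem_centralizer_singleton_iff.2 ?_)))
    calc x⁻¹ * x' * q = x⁻¹ * ⁅x', q⁆ * q * x' := by rw [commutatorElement_def]; group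
      _ = _ := by rw [← show ⁅x, q⁆ = ⁅x', q⁆ from e, commutatorElement_def]; group
  · obtain ⟨A, hA, hA'⟩ := exists_ty_of_pow hY hf (h.sol_Cx.mono (hYD.trans (Dx_le (i := b)))) hn
      (by rintro _ ⟨x, hx, rfl⟩; exact h4 x hx)
    exact h.not_ty_le_Dx hA' hn (hA.trans hYD)

theorem exists_J_Two {N : Subgroup G} (hN : Df N) (hs : VI T N) (hle : N ≤ Cx T b)
    (hne : ¬N ≤ Dx T) : ∃ x ∈ T.J b, x ∈ N ∧ x ≠ 1 := by
  by_contra hc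
  refine hne fun g hg => ?_
  obtain ⟨d, -, x, hx, hd, hx', rfl⟩ := dec_Cx (u2 G) hN.rc hs hg (hle hg)
  have : x = 1 := by_contra fun e => hc ⟨x, hx', hx, e⟩
  rwa [this, mul_one]

theorem FU.lam_a (h : MC T) (f : FU T c s B) (hbc : b ≠ c) (hy : y ∈ T.J b) (hyB : y ∈ B)
    (hy1 : y ≠ 1) : ¬cc (Fit (Cx T b) ⊓ B) ≤ Dx T := by
  intro hle
  have hF : VC T (Fit (Cx T b)) := ⟨fit_conn, h.vi_fit vi_Cx⟩
  have hD : Df (Fit (Cx T b) ⊓ B) := hF.1.df.inf f.vb.1.1.df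
  have e : Fit (Cx T b) ⊓ Fix (T.φ c) ≤ cc (Fit (Cx T b) ⊓ B) :=
    (h.vc_inf_Cx (i := c) hF).1.le_cc hD (inf_le_inf_left _ f.le)
  have hK := (h.vc_inf_Cx (i := b) f.vb.1).1.closure_inv (h.dm c) (T.sq c)
    ((h.vc_inf_Cx (i := b) f.vb.1).2 c)
  have hKle : Subgroup.closure {x | x ∈ B ⊓ Cx T b ∧ T.φ c x = x⁻¹} ≤ B ⊓ Cx T b :=
    (Subgroup.closure_le _).2 fun x hx => hx.1
  have hU := unip_closure (h.dm c) (T.sq c) hF.1 fit_nil (hF.2 c)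
    (U := {x | x ∈ B ⊓ Cx T b ∧ T.φ c x = x⁻¹}) fun u hu => ⟨hu.2, le_Nm_fit hu.1.2,
      cn_anti e (mem_Cn_of_fix (u2 G) (fun a ha => Dx_le (i := c) (hle ha)) hu.2
        (nm_cc (nm_inf (le_Nm_fit hu.1.2) (nm_of_mem hu.1.1)) hD))⟩
  have h1 := le_fit_of_unip h.vc_Cx.1 h.sol_Cx hK (hKle.trans inf_le_right) hU
  exact hy1 (eq_one_of_J_Dx (u2 G) hy (hle (hK.le_cc hD (le_inf h1 (hKle.trans inf_le_left))
    (Subgroup.subset_closure ⟨⟨hyB, hy.1⟩, hy.2 c hbc.symm⟩))))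

theorem comm_eq_one_Two (hF : VC T F) (hFb : F ≤ Cx T b) (hab : Ab (F ⊓ Dx T)) {d r : G}
    (hd : d ∈ F ⊓ Dx T) (hr : r ∈ F) (hz : ⁅d, r⁆ ∈ Dx T) : ⁅d, r⁆ = 1 := by
  obtain ⟨j, hj⟩ := exists_ne b
  obtain ⟨d', hd', w, -, hd'', hw, rfl⟩ := dec_Cx (u2 G) hF.1.df.rc hF.2 hr (hFb hr)
  have c1 : Commute d d' := hab _ hd _ ⟨hd', hd''⟩
  have e1 : ⁅d, d' * w⁆ = d' * (d * (w * d⁻¹ * w⁻¹)) * d'⁻¹ := by
    rw [commutatorElement_def, ← mul_assoc d d', c1.eq]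
    group
  have h1 : w * d⁻¹ * w⁻¹ ∈ Dx T := by
    have := (Dx T).mul_mem ((Dx T).inv_mem hd.2)
      ((Dx T).mul_mem ((Dx T).mul_mem ((Dx T).inv_mem hd'') hz) hd'')
    rw [e1] at this
    convert this using 1
    group
  have h2 := mem_Dx.1 h1 j
  simp only [map_mul, map_inv, hw.2 j hj, mem_Dx.1 hd.2 j, inv_inv] at h2
  have c2 : Commute w d⁻¹ := (u2 G).comm_of_sq (by
    calc w * w * d⁻¹ = w * (w * d⁻¹ * w⁻¹) * w := by group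
      _ = d⁻¹ * (w * w) := by rw [← h2]; group)
  rw [e1, c2.eq]
  group

theorem MC.lam_b (h : MC T) (hF : VC T F) (hFb : F ≤ Cx T b) (hab : Ab (F ⊓ Dx T))
    (hy : y ∈ T.J b) (hyF : y ∈ F) (hc : F ⊓ Dx T ≤ Subgroup.centralizer {y}) {i : ℕ}
    (h1 : itc F F (i + 2) ≤ Dx T) (h2 : itc F F (i + 2) ≤ Cn F) :
    itc F F (i + 1) ≤ Subgroup.centralizer {y} := by
  have _ := h
  have _ := hy
  obtain ⟨j, hj⟩ := exists_ne b
  have hle : ∀ n, itc F F n ≤ F := itc_le Subgroup.le_normalizer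
  have hm : ∀ n, ∀ u ∈ itc F F n, ∀ v ∈ F, ⁅u, v⁆ ∈ itc F F (n + 1) := fun n u hu v hv =>
    Subgroup.commutator_mem_commutator hu hv
  have key : ∀ d ∈ F ⊓ Dx T, ∀ w ∈ F, ⁅d, w⁆ ∈ itc F F (i + 1) →
      ⁅d, w⁆ ∈ Subgroup.centralizer {y} := fun d hd w hw hg => by
    have c1 : d * y = y * d := Subgroup.mem_centralizer_singleton_iff.1 (hc hd)
    have hz := hm _ _ (Subgroup.inv_mem _ hg) y hyF
    have hr : w⁻¹ * y * w * y⁻¹ ∈ F :=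
      F.mul_mem (F.mul_mem (F.mul_mem (F.inv_mem hw) hyF) hw) (F.inv_mem hyF)
    have e1 : ⁅⁅d, w⁆⁻¹, y⁆ = w * ⁅d, w⁻¹ * y * w * y⁻¹⁆ * w⁻¹ := by
      have c2 : y⁻¹ * d⁻¹ = d⁻¹ * y⁻¹ := by rw [← mul_inv_rev, c1, mul_inv_rev]
      simp only [commutatorElement_def]
      calc (d * w * d⁻¹ * w⁻¹)⁻¹ * y * (d * w * d⁻¹ * w⁻¹)⁻¹⁻¹ * y⁻¹
          = w * d * w⁻¹ * d⁻¹ * (y * d) * w * d⁻¹ * w⁻¹ * y⁻¹ := by group
        _ = w * d * w⁻¹ * y * w * (d⁻¹ * y⁻¹) * y * w⁻¹ * y⁻¹ := by rw [← c1]; group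
        _ = _ := by rw [← c2]; group
    have e2 : ⁅d, w⁻¹ * y * w * y⁻¹⁆ = ⁅⁅d, w⁆⁻¹, y⁆ := by
      have := (mem_Cn.1 (h2 hz) w hw).eq
      calc ⁅d, w⁻¹ * y * w * y⁻¹⁆ = w⁻¹ * (⁅⁅d, w⁆⁻¹, y⁆ * w) := by rw [e1]; group
        _ = _ := by rw [← this]; group
    have e3 := comm_eq_one_Two hF hFb hab hd hr (e2 ▸ h1 hz)
    rw [e2, commutatorElement_eq_one_iff_commute] at e3
    exact Subgroup.mem_centralizer_singleton_iff.2 (by simpa using e3.inv_left.eq)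
  have cj : ∀ d ∈ F ⊓ Dx T, ∀ g ∈ Subgroup.centralizer {y},
      d * g * d⁻¹ ∈ Subgroup.centralizer {y} := fun d hd g hg =>
    Subgroup.mul_mem _ (Subgroup.mul_mem _ (hc hd) hg) (Subgroup.inv_mem _ (hc hd))
  refine Subgroup.commutator_le.2 fun u hu v hv => ?_
  obtain ⟨d, hd, x, hx, hd', hx', rfl⟩ := dec_Cx (u2 G) (hF.1.itc F i).df.rc (hF.2.itc hF.2 i) hu
    (hFb (hle i hu))
  have e1 : ⁅d * x, v⁆ = d * ⁅x, v⁆ * d⁻¹ * ⁅d, v⁆ := by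
    simp only [commutatorElement_def]
    group
  rw [e1]
  refine Subgroup.mul_mem _ (cj d ⟨hle i hd, hd'⟩ _ ?_) (key d ⟨hle i hd, hd'⟩ v hv (hm i d hd v hv))
  obtain ⟨d', hd1, w, hw, hd2, hw', rfl⟩ := dec_Cx (u2 G) hF.1.df.rc hF.2 hv (hFb hv)
  have e2 : ⁅x, d' * w⁆ = ⁅d', x⁆⁻¹ * (d' * ⁅x, w⁆ * d'⁻¹) := by
    simp only [commutatorElement_def]
    group
  rw [e2]
  refine Subgroup.mul_mem _ (Subgroup.inv_mem _ (key d' ⟨hd1, hd2⟩ x (hle i hx) ?_))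
    (cj d' ⟨hd1, hd2⟩ _ (hc ⟨hle _ (hm i x hx w hw), ?_⟩))
  · rw [← commutatorElement_inv]
    exact Subgroup.inv_mem _ (hm i x hx d' hd1)
  · have hg := hm i x hx w hw
    have hz := h1 (hm _ _ (Subgroup.inv_mem _ hg) _ (F.inv_mem (F.mul_mem hw (hle i hx))))
    have e3 : ⁅⁅x, w⁆⁻¹, (w * x)⁻¹⁆ = ⁅x, w⁆⁻¹ * T.φ j ⁅x, w⁆ := by
      simp only [commutatorElement_def, map_mul, map_inv, hx'.2 j hj, hw'.2 j hj]
      group
    rw [e3] at hz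
    have e4 := eq_one_of_fix_inv (u2 G) (mem_Dx.1 hz j) (by
      rw [map_mul, map_inv, T.sq, mul_inv_rev, inv_inv])
    exact mem_Dx_of hj (inv_mul_eq_one.1 e4).symm (hFb (hle _ hg))

theorem FU.lam (h : MC T) (f : FU T c s B) (hbc : b ≠ c) (hy : y ∈ T.J b) (hyB : y ∈ B)
    (hy1 : y ≠ 1) :
    ∃ N : Subgroup G, N ≤ B ∧ Cx T b ≤ Nm N ∧ ∃ x ∈ T.J b, x ∈ N ∧ x ≠ 1 := by
  have hna := f.lam_a h hbc hy hyB hy1
  obtain ⟨F, hFe⟩ : ∃ F, F = Fit (Cx T b) := ⟨_, rfl⟩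
  have hF : VC T F := hFe ▸ ⟨fit_conn, h.vi_fit vi_Cx⟩
  have hFb : F ≤ Cx T b := hFe ▸ fit_le
  have hnF : Cx T b ≤ Nm F := hFe ▸ le_Nm_fit
  have hnil : Nil F := hFe ▸ fit_nil
  rw [← hFe] at hna
  have hD : Df (F ⊓ B) := hF.1.df.inf f.vb.1.1.df
  have hF₁ : VC T (cc (F ⊓ B)) := h.vc_cc hD (hF.2.inf f.vb.1.2)
  have l1 : cc (F ⊓ B) ≤ F := hD.cc_le.trans inf_le_left
  have l2 : cc (F ⊓ B) ≤ B := hD.cc_le.trans inf_le_right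
  have hFD : ¬F ≤ Dx T := fun e => hna (l1.trans e)
  rcases f.ab_or_le h hF hnil with hab | hle
  swap
  · exact ⟨F, hle, hnF, exists_J_Two hF.1.df hF.2 hFb hFD⟩
  obtain ⟨y₁, hy₁, hy₂, hy₃⟩ := exists_J_Two hF₁.1.df hF₁.2 (l1.trans hFb) hna
  have hDB : Dx T ≤ B := Dx_le.trans f.le
  have hM := h.vc_inf_Dx hF
  have l3 : F ⊓ Dx T ≤ cc (F ⊓ B) := hM.1.le_cc hD (inf_le_inf_left _ hDB)
  have hC : ∀ L, Conn L → L ≤ Subgroup.centralizer {y₁} → L ≤ B := fun L hL hle =>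
    f.le_of_centralizer h hy₃ (fun l => by
      by_cases el : l = b
      · exact Or.inl (el ▸ hy₁.1)
      · exact Or.inr (hy₁.2 l el)) (f.mem_Cn_of_J h hy₁ (le_Nm_oz (l2 hy₂))) hL hle
  have hJ : ∀ A : Subgroup G, A ≤ Dx T → ∀ x ∈ T.J b, x ∈ Nm A → x ∈ Cn A := fun A hA x hx hn =>
    mem_Cn_of_fix (u2 G) (fun a ha => Dx_le (i := c) (hA ha)) (hx.2 c hbc.symm) hn
  have hcen : ∀ A : Subgroup G, A ≤ F ⊓ Dx T → F ≤ Nm A → A ≤ Cn F := fun A hA hn =>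
    le_Cn_comm.2 fun g hg => by
      obtain ⟨d, hd, x, hx, hd', hx', rfl⟩ := dec_Cx (u2 G) hF.1.df.rc hF.2 hg (hFb hg)
      exact Subgroup.mul_mem _ (H58.mem_Cn.2 fun a ha => hab _ (l3 (hA ha)) _ (l3 ⟨hd, hd'⟩))
        (hJ A (hA.trans inf_le_right) x hx' (hn hx))
  have hle : ∀ n, itc F F n ≤ F := itc_le Subgroup.le_normalizer
  obtain ⟨n, hn⟩ := hnil
  obtain ⟨i, hi, hi'⟩ := exists_last (s := itc F F) (K := Dx T) hFD hn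
  rcases i with _ | i
  swap
  · refine ⟨itc F F (i + 1), hC _ (hF.1.itc F _) (h.lam_b hF hFb (hab.mono l3) hy₁ (l1 hy₂)
      (fun d hd => Subgroup.mem_centralizer_singleton_iff.2 (hab _ (l3 hd) _ hy₂).eq) hi'
      (hcen _ (le_inf (hle _) hi') (le_Nm_itc Subgroup.le_normalizer _))),
      fun g hg => nm_itc (hnF hg) (hnF hg) _,
      exists_J_Two (hF.1.itc F _).df (hF.2.itc hF.2 _) ((hle _).trans hFb) hi⟩
  have hFF : ⁅F, F⁆ ≤ F ⊓ Dx T := le_inf comm_le_self hi'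
  have hMC : F ⊓ Dx T ≤ Cn F := hcen _ le_rfl (le_Nm_of_der_le hFF inf_le_left)
  have hZD : Df (F ⊓ Cn F) := hF.1.df.inf hF.1.df.cn
  have hZ : VC T (cc (F ⊓ Cn F)) := h.vc_cc hZD (hF.2.inf hF.2.cn)
  have hZn : Cx T b ≤ Nm (cc (F ⊓ Cn F)) := fun g hg =>
    nm_cc (nm_inf (hnF hg) (nm_cn (hnF hg))) hZD
  by_cases hZle : cc (F ⊓ Cn F) ≤ Dx T
  swap
  · exact ⟨_, hC _ hZ.1 fun z hz => Subgroup.mem_centralizer_singleton_iff.2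
      (H58.mem_Cn.1 (hZD.cc_le hz).2 y₁ (l1 hy₂)).eq.symm, hZn,
      exists_J_Two hZ.1.df hZ.2 ((hZD.cc_le.trans inf_le_left).trans hFb) hZle⟩
  have eZ : cc (F ⊓ Cn F) = F ⊓ Dx T := le_antisymm
    (le_inf (hZD.cc_le.trans inf_le_left) hZle) (hM.1.le_cc hZD (le_inf inf_le_left hMC))
  rw [eZ] at hZn
  have hJM : ∀ x ∈ T.J b, x ∈ Cn (F ⊓ Dx T) := fun x hx => hJ _ inf_le_right x hx (hZn hx.1)
  refine ⟨cc (F ⊓ B), l2, fun g hg => ?_, y₁, hy₁, hy₂, hy₃⟩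
  obtain ⟨d, -, x, -, hd, hx, rfl⟩ := dec_Cx (u2 G) df_top.rc vi_top (Subgroup.mem_top g) hg
  refine Subgroup.mul_mem _ (nm_cc (nm_inf (hnF (Dx_le hd)) (nm_of_mem (hDB hd))) hD)
    (hF₁.1.df.nm_of_conj fun g hg => ?_)
  obtain ⟨d', hd1, w, hw, hd2, hw', rfl⟩ := dec_Cx (u2 G) hF₁.1.df.rc hF₁.2 hg (hFb (l1 hg))
  have hu := rt_mem_J (u2 G) hx
  obtain ⟨e, he, he', m, hm, -, em⟩ := exists_theta (u2 G) (T.sq c) hF.1.df.rc (hF.2 c)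
    hM.1.df.rc hFF (hu.2 c hbc.symm) (hnF hu.1) (l1 hw) (hw'.2 c hbc.symm)
  have hem : e * m ∈ F ⊓ Dx T := Subgroup.mul_mem _ ⟨he, mem_Dx_of hbc (hFb he) he'⟩ hm
  have c1 := (H58.mem_Cn.1 (hJM _ hu) _ hem).eq
  have c2 := (H58.mem_Cn.1 (hJM _ hx) d' ⟨l1 hd1, hd2⟩).eq
  have e1 : x * (d' * w) * x⁻¹ = d' * (e * m * w) := by
    calc x * (d' * w) * x⁻¹ = x * d' * w * x⁻¹ := by group
      _ = d' * (rt x * rt x * w * (rt x * rt x)⁻¹) := by rw [← c2, (u2 G).rt_sq]; group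
      _ = d' * (rt x * (rt x * w * (rt x)⁻¹ * ((rt x)⁻¹ * w * rt x)⁻¹) * (rt x)⁻¹ * w) := by group
      _ = d' * (e * m * w) := by rw [em, ← c1]; group
  rw [e1]
  exact Subgroup.mul_mem _ hd1 (Subgroup.mul_mem _ (l3 hem) hw)

/-- the inverted part of an element -/
noncomputable def ip_two (σ : MulAut G) (g : G) : G := rt ((σ g)⁻¹ * g)

omit [DS G] [RG G] in
theorem ip_inv_two {σ : MulAut G} (U : U2 G) (hσ : ∀ x, σ (σ x) = x) (g : G) :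
    σ (ip_two σ g) = (ip_two σ g)⁻¹ := by
  rw [ip_two, U.map_rt, ← U.rt_inv]
  simp [hσ]

omit [DS G] [RG G] in
theorem ip_dec_two {σ : MulAut G} (U : U2 G) (hσ : ∀ x, σ (σ x) = x) (g : G) :
    ∃ d, σ d = d ∧ g = d * ip_two σ g := by
  refine ⟨g * (ip_two σ g)⁻¹, ?_, by group⟩
  rw [map_mul, map_inv, ip_inv_two U hσ, inv_inv, eq_mul_inv_iff_mul_eq, mul_assoc, ip_two,
    U.rt_sq]
  group

omit [DS G] [RG G] in
theorem ip_mul_two {σ : MulAut G} {d : G} (hd : σ d = d) (g : G) :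
    ip_two σ (d * g) = ip_two σ g := by
  rw [ip_two, ip_two, map_mul, hd]
  congr 1
  group

theorem act_two (h : MC T) : Act ⊤ (T.Sg c) fun g x => ip_two (T.φ c) (x * g⁻¹) where
  dm := (((h.dm c).comp ((Dm.var _).mul (Dm.var _).inv)).inv.mul
    ((Dm.var _).mul (Dm.var _).inv)).rt
  maps := fun _ _ _ _ => ip_inv_two (u2 G) (T.sq c) _
  one := fun x hx => by
    rw [inv_one, mul_one, ip_two, show T.φ c x = x⁻¹ from hx, inv_inv]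
    exact (u2 G).rt_eq rfl
  mul := fun s _ t _ x _ => by
    obtain ⟨d, hd, e⟩ := ip_dec_two (u2 G) (T.sq c) (x * t⁻¹)
    rw [mul_inv_rev, ← mul_assoc, ← ip_mul_two hd (ip_two (T.φ c) (x * t⁻¹) * s⁻¹), ← mul_assoc,
      ← e]

theorem MC.two_gen (h : MC T) (hab : a ≠ b) (hbc : b ≠ c) (hac : a ≠ c) (hB : VB T B)
    (hc : Cx T c ≤ B) (ha : ∀ x ∈ B, x ∈ T.J a → x = 1) (e1 : EE T a b) (e2 : EE T c b)
    {N : Subgroup G} (hN : N ≤ B) (hn : Cx T b ≤ Nm N) {x : G} (hx : x ∈ T.J b) (hxN : x ∈ N)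
    (hx1 : x ≠ 1) : False := by
  have U := u2 G
  have h1 : ∀ w ∈ N, w ∈ T.J b → ∀ z ∈ T.J c, Commute w z := fun w hw hw' z hz =>
    commute_of_J U hab hbc hac hB.1.1.df.rc hB.1.2 ha (hN hw) hw' (hc (J_sub_Cx hz)) hz
  have h2 : ∀ w ∈ N, w ∈ T.J b → ∀ g, T.φ c g = g → g⁻¹ * w * g ∈ N ∧ g⁻¹ * w * g ∈ T.J b := by
    intro w hw hw' g hg
    obtain ⟨d, -, z, -, hd, hz, e⟩ := dec_Cx U df_top.rc (vi_top (T := T))
      (Subgroup.mem_top g⁻¹) ((Cx T c).inv_mem hg)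
    have e1 : g⁻¹ * w * g = d * w * d⁻¹ := by
      calc g⁻¹ * w * g = d * (z * w) * z⁻¹ * d⁻¹ := by rw [← inv_inv g, e]; group
        _ = _ := by rw [← (h1 w hw hw' z hz).eq]; group
    rw [e1]
    exact ⟨conj_mem (hn (Dx_le hd)) hw, conj_mem_J hw' hd⟩
  obtain ⟨S, hS, hSd, hSr, hSi⟩ := h.exists_gen' hbc.symm hab.symm hac.symm e2
  obtain ⟨x₀, -, hx₀⟩ := (act_two (c := c) h).gen h.conn hB.1.1.df
    (F := fun v => {z | ∃ w ∈ N, w ∈ T.J b ∧ z = v⁻¹ * w * v}) (W := mx (T.φ c) '' S)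
    (by
      rintro g - v - _ ⟨w, hw, hw', rfl⟩
      obtain ⟨d, hd, e⟩ := ip_dec_two U (T.sq c) (v * g⁻¹)
      refine ⟨_, (h2 w hw hw' d hd).1, (h2 w hw hw' d hd).2, ?_⟩
      calc g * (v⁻¹ * w * v) * g⁻¹ = (v * g⁻¹)⁻¹ * w * (v * g⁻¹) := by group
        _ = (d * ip_two (T.φ c) (v * g⁻¹))⁻¹ * w * (d * ip_two (T.φ c) (v * g⁻¹)) := by rw [← e]
        _ = _ := by group)
    (hSd.image (dm1_mx (h.dm c)))
    (by
      rintro _ ⟨v, hv, rfl⟩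
      exact mx_mem hbc.symm hab.symm hac.symm (hS hv))
    ⟨1, Tri.J_sub hac Tri.one_mem_J⟩
    (fun n hr => (hSr n (h.rk_Sg_le hab hbc hac e1 hr)).image (dm1_mx (h.dm c)) hSi)
    (by
      rintro _ ⟨v, hv, rfl⟩ _ ⟨w, hw, hw', rfl⟩
      have hp := Tri.pp_mem_J U hac.symm (hS hv)
      have hy := Tri.qq_mem_J U hbc.symm hab.symm hac.symm (hS hv)
      rw [mx]
      generalize pp (T.φ c) v = p, qq (T.φ c) v = y at hp hy
      have e : (p⁻¹ * y * p)⁻¹ * w * (p⁻¹ * y * p) = p⁻¹ * (y⁻¹ * w * y) * p := by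
        calc _ = p⁻¹ * y⁻¹ * (p * w) * p⁻¹ * y * p := by group
          _ = _ := by rw [← (h1 w hw hw' p hp).eq]; group
      rw [e]
      have hpB := hc (J_sub_Cx hp)
      exact B.mul_mem (B.mul_mem (B.inv_mem hpB) (hN (conj_mem' (hn (J_sub_Cx hy)) hw))) hpB)
  have hm : x₀⁻¹ * x * x₀ ∈ core ⊤ B := hx₀ ⟨x, hxN, hx, rfl⟩
  rcases h.simple _ (df_top.core hB.1.1.df) (vi_top.core hB.1.2) le_Nm_core with e | e
  · rw [e, Subgroup.mem_bot] at hm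
    refine hx1 ?_
    calc x = x₀ * (x₀⁻¹ * x * x₀) * x₀⁻¹ := by group
      _ = 1 := by rw [hm]; group
  · exact hB.2.1 (top_le_iff.1 (e ▸ core_le))

theorem MC.not_two (h : MC T) (hac : a ≠ c) (f₁ : FU T a t B₁) (f : FU T c s B) : False := by
  have U := u2 G
  obtain ⟨b, hcb, hab⟩ := Tri.third hac
  have hbc := hcb.symm
  have ha : ∀ x ∈ B, x ∈ T.J a → x = 1 := by
    intro x hxB hx
    by_contra hx1
    have h1 : x ∈ Cn (Oz s B) := f.mem_Cn_of_J h hx (le_Nm_oz hxB)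
    have h2 : Oz s B ≤ B₁ := f₁.le_of_centralizer h hx1 (fun l => Tri.φ_J l hx)
      (f₁.J_sub_Cn h hx) oz_conn fun p hp =>
        Subgroup.mem_centralizer_singleton_iff.2 (mem_Cn.1 h1 p hp)
    exact h.not_J_J f.vb hac (f.uniq B₁ f₁.vb h2 ▸ f₁.le) f.le
  by_cases hb : ∀ x ∈ T.J b, x ∈ Cn (Oz s B) → x = 1
  · refine h.par1 hab hbc hac (f₁.ee h hab) (f₁.ee h hac) ⟨Dx T, h.df_Dx, le_rfl, fun hle => ?_,
      fun y hy hyD x hx hc => hb x hx ?_⟩ (f.ee h hcb)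
    · obtain ⟨x, hx, hx1⟩ := h.exists_J_ne c
      exact hx1 (eq_one_of_J_Dx U hx (hle (J_sub_Cx hx)))
    · exact f.mem_Cn_of_commute h (q := y) (fun e => hyD (by rw [e]; exact (Dx T).one_mem))
        (fun l => Tri.φ_J l hy) (f.J_sub_Cn h hy) hc.symm hx
  push Not at hb
  obtain ⟨q, hq, hqP, hq1⟩ := hb
  by_cases hb : ∀ x ∈ B, x ∈ T.J b → x = 1
  swap
  · push Not at hb
    obtain ⟨y, hyB, hy, hy1⟩ := hb
    obtain ⟨N, hN, hn, x, hx, hxN, hx1⟩ := f.lam h hbc hy hyB hy1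
    exact h.two_gen hab hbc hac f.vb f.le ha (f₁.ee h hab) (f.ee h hcb) hN hn hx hxN hx1
  have hBd := f.vb.1.1.df
  have hBC : B ≤ Cx T c := le_of_components U hBd.rc f.vb.1.2 (inf_le_right.trans Dx_le)
    fun l x hxB hx => by
      rcases Tri.cover hab hbc hac l with rfl | rfl | rfl
      · exact ha x hxB hx ▸ Subgroup.one_mem _
      · exact hb x hxB hx ▸ Subgroup.one_mem _
      · exact J_sub_Cx hx
  obtain ⟨⟨p, hp⟩, hp1⟩ := Subgroup.ne_bot_iff_exists_ne_one.1 f.ne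
  have hp1' : p ≠ 1 := fun e => hp1 (Subtype.ext e)
  have hqN : q ∈ Nm B := f.mem_Nm h hp1' (fun l => Tri.φ_J l (f.sub hp))
    (f.J_sub_Cn h (f.sub hp)) (mem_Cn.1 hqP p hp)
  have hqC : q ∈ Cn B := mem_Cn_of_fix U (σ := T.φ c) (fun x hx => hBC hx) (hq.2 c hcb) hqN
  obtain ⟨n, hn, hqn⟩ := hBd.nm.exists_pow_mem_cc hqN
  have hle : cc (Nm B) ≤ B := h.le_vb_of_nm f.vb hBd f.vb.1.2
    (fun e => f.ne (le_bot_iff.1 (e ▸ oz_le))) le_rfl Subgroup.le_normalizer hBd.nm.cc_conn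
    hBd.nm.cc_le
  refine h.theta hq hq1 hn (hb _ (hle hqn) (pow_mem_J hq n))
    (fun d hd => Subgroup.mem_centralizer_singleton_iff.2 (mem_Cn.1 hqC d (f.le (Dx_le hd))))
    fun L hL hLb hLq x hx => mem_Dx_of hbc (hLb hx) (hBC ?_)
  exact f.le_of_centralizer h hq1 (fun l => Tri.φ_J l hq) hqP hL hLq hx

end Pool.Agent.MP_fcbc9a_lc.H58
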