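import Pool.Agent.MP_fcbc9a_lc.H58.Par

/-!
Uniqueness subgroups.
-/

open Set
open scoped commutatorElement

namespace Pool.Agent.MP_fcbc9a_lc.H58

universe u

variable {G : Type u} [Group G] [DS G]

/-- hypotheses of the uniqueness theorem, with a family Ex of exceptional Borel subgroups -/
structure UH (T : Tri G) (Ex : Subgroup G → Prop) (t : ℕ × ℕ) : Prop where
  top : ∀ B, VB T B → ¬Ex B → Top t B
  ab : ∀ E B, VB T E → Ex E → VB T B → ¬Ex B → Ab (cc (Fit B ⊓ E))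

/-- a uniqueness subgroup attached to the i-th involution -/
structure FU (T : Tri G) (i : Fin 3) (t : ℕ × ℕ) (B : Subgroup G) : Prop where
  vb : VB T B
  top : Top t B
  le : Cx T i ≤ B
  ne : Oz t B ≠ ⊥
  sub : (Oz t B : Set G) ⊆ T.J i
  uniq : ∀ L, VB T L → Oz t B ≤ L → L = B

variable [RG G] {T : Tri G} {i j k l : Fin 3} {A B B' F L Y : Subgroup G} {q x y : G}
  {t : ℕ × ℕ} {Ex : Subgroup G → Prop}

namespace MC

variable (h : MC T)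
include h

theorem cc_le_fit (hB : VB T B) (hne : Oz t B ≠ ⊥) (hL : Conn L) (hs : Sol L)
    (hle : Oz t B ≤ Fit L) : cc (Fit B ⊓ L) ≤ Fit L := by
  have hd : Df (Fit B ⊓ L) := fit_conn.1.inf hL.1
  have h1 : cc (Fit B ⊓ L) ≤ Fit B := hd.cc_le.trans inf_le_left
  exact le_fit_of_cn hL hs hd.cc_conn (hd.cc_le.trans inf_le_right) oz_conn hle
    (h1.trans fit_le_Cn_oz) fun H hH hHW hHX => (unip_of_le_fit h1
      (h.le_vb_of_nm hB oz_conn.1 (h.vi_oz hB.1.2) hne oz_le le_Nm_oz hH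
        (hHW.trans cn_le_nm))).eq_bot le_rfl hHX

theorem le_of_cn_oz_uq {H : Subgroup G} (hB : VB T B) (hne : Oz t B ≠ ⊥) (hH : Conn H)
    (hle : H ≤ Cn (Oz t B)) : H ≤ B :=
  h.le_vb_of_nm hB oz_conn.1 (h.vi_oz hB.1.2) hne oz_le le_Nm_oz hH (hle.trans cn_le_nm)

theorem oz_le_fit_uq (hL : VB T L) (ht : Top t L) (hle : Oz t B ≤ L) : Oz t B ≤ Fit L :=
  om_le_iff.2 fun _ hA hty => hty.le_fit hL.1.1 (h.sol_vb hL) ht ((le_om hty hA).trans hle)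

theorem swap_uq (hB : VB T B) (hL : VB T L) (ht : Top t L) (hne : Oz t B ≠ ⊥)
    (hle : Oz t B ≤ L) : Oz t L ≠ ⊥ ∧ Oz t L ≤ B := by
  have h1 := h.oz_le_fit_uq hL ht hle
  obtain ⟨A, hA, hty⟩ := exists_ty_of_om hne
  exact ⟨oz_ne_bot hty ((le_om hty hA).trans h1),
    h.le_of_cn_oz_uq hB hne oz_conn (le_Cn_comm.1 (h1.trans fit_le_Cn_oz))⟩

theorem le_cc_fit_uq {H : Subgroup G} (hB : VB T B) (hL : VB T L) (ht : Top t L)
    (hne : Oz t B ≠ ⊥) (hle : Oz t B ≤ L) (hH : Conn H) (h1 : H ≤ Fit B) (h2 : H ≤ L) :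
    H ≤ cc (Fit B ⊓ Fit L) :=
  hH.le_cc (fit_conn.1.inf fit_conn.1) (le_inf h1
    ((hH.le_cc (fit_conn.1.inf hL.1.1.1) (le_inf h1 h2)).trans
      (h.cc_le_fit hB hne hL.1.1 (h.sol_vb hL) (h.oz_le_fit_uq hL ht hle))))

theorem fit_le_uq (hU : UH T Ex t) (hB : VB T B) (hL : VB T L) (h1 : ¬Ex B) (h2 : ¬Ex L)
    (hne : Oz t B ≠ ⊥) (hle : Oz t B ≤ L) (hLB : L ≠ B)
    (hmax : ∀ E, VB T E → ¬Ex E → Oz t B ≤ E → E ≠ B → cc (Fit B ⊓ Fit L) ≤ cc (Fit B ⊓ Fit E) →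
      cc (Fit B ⊓ Fit E) = cc (Fit B ⊓ Fit L)) : Fit B ≤ cc (Fit B ⊓ Fit L) := by
  obtain ⟨hne', hle'⟩ := h.swap_uq hB hL (hU.top L hL h2) hne hle
  have inX : ∀ H, Conn H → H ≤ Fit B → H ≤ L → H ≤ cc (Fit B ⊓ Fit L) := fun H =>
    h.le_cc_fit_uq hB hL (hU.top L hL h2) hne hle
  have inX' : ∀ H, Conn H → H ≤ Fit L → H ≤ B → H ≤ cc (Fit B ⊓ Fit L) := fun H a b c =>
    inf_comm (Fit L) (Fit B) ▸ h.le_cc_fit_uq hL hB (hU.top B hB h1) hne' hle' a b c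
  have hd : Df (Fit B ⊓ Fit L) := fit_conn.1.inf fit_conn.1
  have hXc := h.vc_cc hd ((h.vi_fit hB.1.2).inf (h.vi_fit hL.1.2))
  have hXB := hd.cc_le.trans inf_le_left
  have hXL := hd.cc_le.trans inf_le_right
  generalize cc (Fit B ⊓ Fit L) = X at *
  have hPX : Oz t B ≤ X := inX _ oz_conn oz_le_fit hle
  have hQX : Oz t L ≤ X := inX' _ oz_conn oz_le_fit hle'
  have dN : Df (Nm X) := hXc.1.1.nm
  obtain ⟨E, hE, hNE⟩ := h.exists_vb (h.vc_cc dN hXc.2.nm) (h.cc_ne_top dN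
    (h.nm_ne_top hXc.1.1 hXc.2 (fun e => hne (le_bot_iff.1 (e ▸ hPX)))
      fun e => hB.2.1 (top_le_iff.1 (e ▸ hXB.trans fit_le))))
  have inE : ∀ H, Conn H → H ≤ Nm X → H ≤ E := fun H a b => (a.le_cc dN b).trans hNE
  have hXE : X ≤ E := inE X hXc.1 Subgroup.le_normalizer
  have dB : Df (Fit B ⊓ Nm X) := fit_conn.1.inf dN
  refine le_of_cc_nm_le fit_conn fit_nil hXc.1.1 hXB ?_
  have c1 := dB.cc_conn
  have c2 := dB.cc_le.trans inf_le_left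
  have c3 := inE _ c1 (dB.cc_le.trans inf_le_right)
  generalize cc (Fit B ⊓ Nm X) = Z at *
  by_cases ex : Ex E
  · have hab := hU.ab E B hE ex hB h1
    have dE : Df (Fit B ⊓ E) := fit_conn.1.inf hE.1.1.1
    exact inX Z c1 c2 (h.le_of_cn_oz_uq hL hne' c1 fun z hz => mem_Cn.2 fun a ha =>
      hab a (hXc.1.le_cc dE (le_inf hXB hXE) (hQX ha)) z (c1.le_cc dE (le_inf c2 c3) hz))
  rcases eq_or_ne E B with rfl | hEB
  · have dL : Df (Fit L ⊓ Nm X) := fit_conn.1.inf dN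
    have e : X = Fit L := le_antisymm hXL (le_of_cc_nm_le fit_conn fit_nil hXc.1.1 hXL
      (inX' _ dL.cc_conn (dL.cc_le.trans inf_le_left)
        (inE _ dL.cc_conn (dL.cc_le.trans inf_le_right))))
    exact absurd (h.vb_eq hL hE (inE L hL.1.1 (e ▸ le_Nm_fit))).symm hLB
  · have inY := fun H => h.le_cc_fit_uq (H := H) hB hE (hU.top E hE ex) hne (hPX.trans hXE)
    exact hmax E hE ex (hPX.trans hXE) hEB (inY X hXc.1 hXB hXE) ▸ inY Z c1 c2 c3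

theorem uniq (hU : UH T Ex t) (hB : VB T B) (hL : VB T L) (h1 : ¬Ex B) (h2 : ¬Ex L)
    (hne : Oz t B ≠ ⊥) (hle : Oz t B ≤ L) : L = B := by
  by_contra hLB
  obtain ⟨_, ⟨B, L, ⟨hB, hL, h1, h2, hne, hle, hLB⟩, rfl⟩, hmax⟩ := exists_maximal
    (s := {X | ∃ B L, (VB T B ∧ VB T L ∧ ¬Ex B ∧ ¬Ex L ∧ Oz t B ≠ ⊥ ∧ Oz t B ≤ L ∧ L ≠ B) ∧
      X = cc (Fit B ⊓ Fit L)})
    (by rintro _ ⟨B, L, -, rfl⟩; exact (fit_conn.1.inf fit_conn.1).cc_conn)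
    ⟨_, B, L, ⟨hB, hL, h1, h2, hne, hle, hLB⟩, rfl⟩
  obtain ⟨hne', hle'⟩ := h.swap_uq hB hL (hU.top L hL h2) hne hle
  have hd : ∀ B L : Subgroup G, cc (Fit B ⊓ Fit L) ≤ Fit L := fun B L =>
    (fit_conn.1.inf fit_conn.1).cc_le.trans inf_le_right
  have a1 := h.fit_le_uq hU hB hL h1 h2 hne hle hLB fun E hE ex hE' hEB =>
    hmax _ ⟨B, E, ⟨hB, hE, h1, ex, hne, hE', hEB⟩, rfl⟩
  have a2 := h.fit_le_uq hU hL hB h2 h1 hne' hle' (Ne.symm hLB) fun E hE ex hE' hEB => by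
    rw [inf_comm (Fit L) (Fit B)]
    exact hmax _ ⟨L, E, ⟨hL, hE, h2, ex, hne', hE', hEB⟩, rfl⟩
  have e : Fit L = Fit B := le_antisymm (a2.trans (hd _ _)) (a1.trans (hd _ _))
  exact hLB (h.vb_eq hL hB (h.le_vb_of_nm hB fit_conn.1 (h.vi_fit hB.1.2)
    (fun e' => hne (le_bot_iff.1 (e' ▸ oz_le_fit))) fit_le le_Nm_fit hL.1.1
    (e ▸ le_Nm_fit))).symm

theorem eq_of_ty (hU : UH T Ex t) (hB : VB T B) (hB' : VB T B') (h1 : ¬Ex B) (h2 : ¬Ex B')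
    (hA : Ty t A) (hs : VI T A) (h3 : A ≤ B) (h4 : A ≤ B')
    (h5 : ∀ E, VB T E → cc (Cn A) ≤ E → ¬Ex E) : B' = B := by
  have dA : Df (Cn A) := hA.conn.1.cn
  obtain ⟨E, hE, hle⟩ := h.exists_vb (h.vc_cc dA hs.cn) (h.cc_ne_top dA (h.cn_ne_top hA.ne_bot))
  have key : ∀ B, VB T B → ¬Ex B → A ≤ B → E = B := fun B hB h1 h3 => by
    have h6 := hA.le_fit hB.1.1 (h.sol_vb hB) (hU.top B hB h1) h3
    exact h.uniq hU hB hE h1 (h5 E hE hle) (oz_ne_bot hA h6)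
      ((oz_conn.le_cc dA (le_Cn_comm.1 (h6.trans fit_le_Cn_oz))).trans hle)
  rw [← key B hB h1 h3, key B' hB' h2 h4]

theorem fu_of (hU : UH T Ex t) (hB : VB T B) (h1 : ¬Ex B) (hne : Oz t B ≠ ⊥)
    (hE : ∀ E, VB T E → Oz t B ≤ E → ¬Ex E)
    (hA : ∀ l A, Ty t A → A ≤ Oz t B → (A : Set G) ⊆ T.J l →
      ∃ B', VB T B' ∧ ¬Ex B' ∧ Cx T l ≤ B')
    (hD : ∃ j k B₁ B₂, j ≠ k ∧ VB T B₁ ∧ ¬Ex B₁ ∧ Cx T j ≤ B₁ ∧ VB T B₂ ∧ ¬Ex B₂ ∧ Cx T k ≤ B₂) :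
    ∃ i, FU T i t B := by
  have key : ∀ A B', Ty t A → A ≤ Oz t B → VI T A → VB T B' → ¬Ex B' → A ≤ B' → B' = B :=
    fun A B' hty hle hs hB' h2 h4 => h.eq_of_ty hU hB hB' h1 h2 hty hs (hle.trans oz_le) h4
      fun E hE' hle' => hE E hE' ((oz_conn.le_cc hty.conn.1.cn fun x hx =>
        mem_Cn.2 fun a ha => oz_ab a (hle ha) x hx).trans hle')
  have noD : ∀ A, Ty t A → A ≤ Oz t B → ¬A ≤ Dx T := fun A hty hle hAD => by
    obtain ⟨j, k, B₁, B₂, hjk, a1, a2, a3, b1, b2, b3⟩ := hD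
    exact h.not_J_J hB hjk
      (key A B₁ hty hle (vi_of_le_Dx hAD) a1 a2 ((hAD.trans Dx_le).trans a3) ▸ a3)
      (key A B₂ hty hle (vi_of_le_Dx hAD) b1 b2 ((hAD.trans Dx_le).trans b3) ▸ b3)
  have inJ : ∀ l A, Ty t A → A ≤ Oz t B → (A : Set G) ⊆ T.J l → Cx T l ≤ B :=
    fun l A hty hle hJ => by
      obtain ⟨B', a1, a2, a3⟩ := hA l A hty hle hJ
      exact key A B' hty hle (vi_of_sub_J hJ) a1 a2 (fun x hx => a3 (J_sub_Cx (hJ hx))) ▸ a3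
  obtain ⟨i, hi⟩ : ∃ i, Cx T i ≤ B := by
    by_contra hc
    exact hne (le_bot_iff.1 (h.oz_le_of_components hB.1.2 df_bot.rc fun A hty hle hor =>
      hor.elim (fun e => (noD A hty hle e).elim) fun ⟨l, e⟩ => (hc ⟨l, inJ l A hty hle e⟩).elim))
  obtain ⟨j, hji⟩ := exists_ne i
  obtain ⟨M, hM⟩ := (oz_ab (t := t) (B := B)).exists_inv (T.φ j)
  have dM : Df M := Df.of_iff (Ds.inter oz_conn.1 (h.ds_Sg (i := j))) hM
  have hle : Oz t B ≤ M ⊓ Cx T i := h.oz_le_of_components hB.1.2 (dM.inf h.df_Cx).rc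
    fun A hty hle hor => hor.elim (fun e => (noD A hty hle e).elim) fun ⟨l, e⟩ x hx => by
      obtain rfl : l = i := by_contra fun hl => h.not_J_J hB hl (inJ l A hty hle e) hi
      exact ⟨(hM x).2 ⟨hle hx, (e hx).2 j hji⟩, (e hx).1⟩
  exact ⟨i, hB, hU.top B hB h1, hi, hne,
    fun x hx => Tri.mem_J hji.symm (hle hx).2 ((hM x).1 (hle hx).1).2,
    fun L hL hBL => h.uniq hU hB hL h1 (hE L hL hBL) hne hBL⟩

theorem exists_fu (hB : VB T B) (hab : ¬Ab B) : ∃ i t B', FU T i t B' := by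
  obtain ⟨t, ⟨L, hL, A, hAL, hty⟩, htop⟩ := exists_top (s := {L | VB T L})
    ⟨B, hB, exists_ty_of_not_ab hB.1.1 (h.sol_vb hB) hab⟩
  have ex : ∀ l, ∃ B', VB T B' ∧ ¬False ∧ Cx T l ≤ B' := fun l =>
    (h.exists_vb h.vc_Cx h.Cx_ne_top).imp fun _ e => ⟨e.1, not_false, e.2⟩
  obtain ⟨B₁, h1⟩ := ex 0
  obtain ⟨B₂, h2⟩ := ex 1
  obtain ⟨i, hi⟩ := h.fu_of (Ex := fun _ => False)
    ⟨fun B hB _ => htop B hB, fun _ _ _ e => e.elim⟩ hL not_false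
    (oz_ne_bot hty (hty.le_fit hL.1.1 (h.sol_vb hL) (htop L hL) hAL)) (fun _ _ _ => not_false)
    (fun l _ _ _ _ => ex l) ⟨0, 1, B₁, B₂, by decide, h1.1, not_false, h1.2.2, h2⟩
  exact ⟨i, t, L, hi⟩

theorem not_ty_le_Dx (hA : Ty t A) (ht : t.1 ≠ 0) : ¬A ≤ Dx T := fun hle => by
  obtain ⟨B₁, h1, h1'⟩ := h.exists_vb (h.vc_Cx (i := 0)) h.Cx_ne_top
  obtain ⟨B₂, h2, h2'⟩ := h.exists_vb (h.vc_Cx (i := 1)) h.Cx_ne_top
  have e := h.eq_of_ty (Ex := fun _ => False) ⟨fun _ _ _ => Or.inl ht, fun _ _ _ e => e.elim⟩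
    h1 h2 not_false not_false hA (vi_of_le_Dx hle) ((hle.trans Dx_le).trans h1')
    ((hle.trans Dx_le).trans h2') fun _ _ _ => not_false
  exact h.not_J_J h1 (by decide : (0 : Fin 3) ≠ 1) h1' (e ▸ h2')

end MC

namespace FU

variable (h : MC T) (f : FU T i t B)
include h f

theorem mem_Cn (hy : y ∈ T.Sg l) (hn : y ∈ Nm (Oz t B)) : y ∈ Cn (Oz t B) := by
  have _ := h
  rcases eq_or_ne l i with rfl | hl
  · exact mem_Cn_of_fix (u2 G) (fun a ha => (f.sub ha).1) hy hn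
  · exact mem_Cn_of_inv (u2 G) (fun a ha => (f.sub ha).2 l hl) hy hn

theorem mem_Cn_of_J (hy : y ∈ T.J l) (hn : y ∈ Nm (Oz t B)) : y ∈ Cn (Oz t B) := by
  obtain ⟨m, hm⟩ := exists_ne l
  exact f.mem_Cn h (Tri.J_sub hm.symm hy) hn

theorem J_sub_Cn : T.J i ⊆ Cn (Oz t B) := fun _ hy =>
  f.mem_Cn_of_J h hy (le_Nm_oz (f.le (J_sub_Cx hy)))

theorem comm_le_Cn : ⁅B, B⁆ ≤ Cn (Oz t B) :=
  (comm_le_fit f.vb.1.1 (h.sol_vb f.vb)).trans fit_le_Cn_oz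

theorem le_of_oz_le (hL : VC T L) (hne : L ≠ ⊤) (hle : Oz t B ≤ L) : L ≤ B := by
  obtain ⟨E, hE, hLE⟩ := h.exists_vb hL hne
  exact hLE.trans (f.uniq E hE (hle.trans hLE)).le

/-- connected subgroups of a proper invariant definable group containing P lie in B -/
theorem le_of_le {K : Subgroup G} (hK : Df K) (hs : VI T K) (hne : K ≠ ⊤) (hP : Oz t B ≤ K)
    (hL : Conn L) (hLK : L ≤ K) : L ≤ B :=
  (hL.le_cc hK hLK).trans
    (f.le_of_oz_le h (h.vc_cc hK hs) (h.cc_ne_top hK hne) (oz_conn.le_cc hK hP))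

theorem le_of_nm (hY : Df Y) (hs : VI T Y) (h1 : Y ≠ ⊥) (h2 : Y ≤ Cn (Oz t B)) (hL : Conn L)
    (hLY : L ≤ Nm Y) : L ≤ B :=
  f.le_of_le h hY.nm hs.nm
    (h.nm_ne_top hY hs h1 fun e => h.cn_ne_top f.ne (top_le_iff.1 (e ▸ h2)))
    ((le_Cn_comm.1 h2).trans cn_le_nm) hL hLY

omit h f [DS G] [RG G] in
theorem le_centralizer_Uniq (h2 : q ∈ Cn A) : A ≤ Subgroup.centralizer {q} := fun p hp =>
  Subgroup.mem_centralizer_singleton_iff.2 (H58.mem_Cn.1 h2 p hp)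

theorem le_of_centralizer (hq : q ≠ 1) (hs : ∀ l, T.φ l q = q ∨ T.φ l q = q⁻¹)
    (h2 : q ∈ Cn (Oz t B)) (hL : Conn L) (hLq : L ≤ Subgroup.centralizer {q}) : L ≤ B :=
  f.le_of_le h (df_centralizer_singleton q) (vi_centralizer hs) (h.centralizer_ne_top hq)
    (le_centralizer_Uniq h2) hL hLq

theorem ab_or_le (hF : VC T F) (hn : Nil F) : Ab (cc (F ⊓ B)) ∨ F ≤ B := by
  have hD : Df (F ⊓ B) := hF.1.df.inf f.vb.1.1.df
  have xB : cc (F ⊓ B) ≤ B := hD.cc_le.trans inf_le_right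
  have vX : VI T (cc (F ⊓ B)) := h.vi_cc hD (hF.2.inf f.vb.1.2)
  by_cases e : ⁅cc (F ⊓ B), cc (F ⊓ B)⁆ = ⊥
  · exact Or.inl (ab_iff_comm.2 e)
  refine Or.inr (le_trans ?_ xB)
  have hE : Df (F ⊓ Nm (cc (F ⊓ B))) := hF.1.df.inf hD.cc_conn.df.nm
  refine le_of_cc_nm_le hF.1 hn hD.cc_conn.df (hD.cc_le.trans inf_le_left)
    (hE.cc_conn.le_cc hD (le_inf (hE.cc_le.trans inf_le_left) ?_))
  exact f.le_of_nm h (hD.cc_conn.comm_left _).df (vX.comm vX) e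
    ((Subgroup.commutator_mono xB xB).trans (f.comm_le_Cn h)) hE.cc_conn
    fun _ hx => nm_comm (hE.cc_le hx).2 (hE.cc_le hx).2

theorem ab_fit_inf (hB' : VB T B') (hne : B' ≠ B) : Ab (cc (Fit B' ⊓ B)) := by
  have vF : VI T (Fit B') := h.vi_fit hB'.1.2
  refine (f.ab_or_le h ⟨fit_conn, vF⟩ fit_nil).elim id fun hle => ?_
  refine Ab.mono (ab_iff_comm.2 ?_) ((fit_conn.df.inf f.vb.1.1.df).cc_le.trans inf_le_left)
  by_contra e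
  exact hne (h.vb_eq hB' f.vb (f.le_of_nm h (fit_conn.comm_left _).df (vF.comm vF) e
    ((Subgroup.commutator_mono hle hle).trans (f.comm_le_Cn h)) hB'.1.1
    fun _ hx => nm_comm (le_Nm_fit hx) (le_Nm_fit hx))).symm

theorem mem_Nm (hq : q ≠ 1) (hs : ∀ l, T.φ l q = q ∨ T.φ l q = q⁻¹) (h2 : q ∈ Cn (Oz t B))
    (hc : Commute q y) : y ∈ Nm B := by
  have dq := df_centralizer_singleton q
  obtain ⟨L, ⟨l1, l2, l3, l4⟩, hm⟩ :=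
    exists_maximal (s := {L : Subgroup G | VC T L ∧ L ≠ ⊤ ∧ Oz t B ≤ L ∧ y ∈ Nm L})
      (fun _ h => h.1.1) ⟨cc (Subgroup.centralizer {q}), h.vc_cc dq (vi_centralizer hs),
        h.cc_ne_top dq (h.centralizer_ne_top hq), oz_conn.le_cc dq (le_centralizer_Uniq h2),
        nm_cc (nm_centralizer_singleton hc) dq⟩
  have lB : L ≤ B := f.le_of_oz_le h l1 l2 l3
  have tF : ∀ A, A ≤ B → Ty t A → A ≤ Fit B := fun A hA hT =>
    hT.le_fit f.vb.1.1 (h.sol_vb f.vb) f.top hA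
  have yb : Om t L ≠ ⊥ := by
    obtain ⟨A, hA, hT⟩ := exists_ty_of_om f.ne
    exact fun e => hT.ne_bot (le_bot_iff.1 (e ▸ le_om hT ((le_om hT hA).trans l3)))
  have dY : Df (Nm (Om t L)) := om_conn.df.nm
  have vY : VI T (Om t L) := h.vi_om l1.2
  have lY : L ≤ cc (Nm (Om t L)) := l1.1.le_cc dY fun _ hx => nm_om (nm_of_mem hx)
  have e : cc (Nm (Om t L)) = L := hm _ ⟨h.vc_cc dY vY.nm, h.cc_ne_top dY
    (h.nm_ne_top om_conn.df vY yb fun e => l2 (top_le_iff.1 (e ▸ om_le))), l3.trans lY,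
    nm_cc (nm_nm (nm_om l4)) dY⟩ lY
  have hD : Df (Fit B ⊓ L) := fit_conn.df.inf l1.1.df
  have e1 : Om t (cc (Fit B ⊓ L)) = Om t L :=
    le_antisymm (om_mono (hD.cc_le.trans inf_le_right)) (om_le_iff.2 fun A hA hT =>
      le_om hT (hT.conn.le_cc hD (le_inf (tF A (hA.trans lB) hT) hA)))
  have hE : Df (Fit B ⊓ Nm (cc (Fit B ⊓ L))) := fit_conn.df.inf hD.cc_conn.df.nm
  have fL : Fit B ≤ L := by
    refine le_trans (le_of_cc_nm_le fit_conn fit_nil hD.cc_conn.df (hD.cc_le.trans inf_le_left)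
      (hE.cc_conn.le_cc hD (le_inf (hE.cc_le.trans inf_le_left) ?_)))
      (hD.cc_le.trans inf_le_right)
    refine le_trans (hE.cc_conn.le_cc dY fun x hx => ?_) e.le
    rw [← e1]
    exact nm_om (hE.cc_le hx).2
  have e2 : Om t L = Om t B :=
    le_antisymm (om_mono lB) (om_le_iff.2 fun A hA hT => le_om hT ((tF A hA hT).trans fL))
  have bL : B ≤ L := by
    refine le_trans (f.vb.1.1.le_cc dY fun x hx => ?_) e.le
    rw [e2]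
    exact nm_om (nm_of_mem hx)
  rwa [le_antisymm bL lB]

theorem mem_Cn_of_commute (hq : q ≠ 1) (hs : ∀ l, T.φ l q = q ∨ T.φ l q = q⁻¹)
    (h2 : q ∈ Cn (Oz t B)) (hc : Commute q y) (hy : y ∈ T.J l) : y ∈ Cn (Oz t B) :=
  f.mem_Cn_of_J h hy (nm_oz (f.mem_Nm h hq hs h2 hc))

theorem not_J_sub (hij : i ≠ j) : ¬T.J j ⊆ Nm (Oz t B) := fun hJ =>
  h.cn_ne_top f.ne (h.eq_top_of_J hij oz_conn.df.cn (h.vi_oz f.vb.1.2).cn (f.J_sub_Cn h)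
    fun _ hy => f.mem_Cn_of_J h hy (hJ hy))

theorem ne_of_le (hij : i ≠ j) (hB' : Cx T j ≤ B') : B' ≠ B := fun e =>
  h.not_J_J f.vb hij f.le (e ▸ hB')

theorem ee (hij : i ≠ j) : EE T i j := by
  refine ⟨Nm (Oz t B), oz_conn.df.nm, Dx_le.trans (f.le.trans le_Nm_oz),
    fun hle => f.not_J_sub h hij fun _ hy => hle (J_sub_Cx hy), fun y _ hy x hx hc => ?_⟩
  by_contra hx1
  exact hy (nm_oz (f.mem_Nm h hx1 (fun l => Tri.φ_J l hx) (f.J_sub_Cn h hx) hc))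

theorem uh {s : ℕ × ℕ} (hs : ∀ B', VB T B' → B' ≠ B → Top s B') : UH T (fun E => E = B) s :=
  ⟨hs, fun _ _ _ hE hB' hne => hE ▸ f.ab_fit_inf h hB' hne⟩

theorem exists_second {s : ℕ × ℕ} (hs : ∀ B', VB T B' → B' ≠ B → Top s B') (hB' : VB T B')
    (hne : B' ≠ B) (hle : ¬Oz s B' ≤ B) : ∃ k, i ≠ k ∧ FU T k s B' := by
  have key : ∀ A : Subgroup G, Df A → A ≠ ⊥ → A ≤ Oz s B' → ¬(A : Set G) ⊆ T.J i :=
    fun A h1 h2 h3 h4 => hle (f.le_of_nm h h1 (vi_of_sub_J h4) h2 (fun _ ha => f.J_sub_Cn h (h4 ha))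
      oz_conn (((ab_iff_le_Cn.1 oz_ab).trans (cn_anti h3)).trans cn_le_nm))
  have ex : ∀ l, i ≠ l → ∃ E, VB T E ∧ ¬E = B ∧ Cx T l ≤ E := fun l hl => by
    obtain ⟨E, hE, h1⟩ := h.exists_vb (h.vc_Cx (i := l)) h.Cx_ne_top
    exact ⟨E, hE, f.ne_of_le h hl h1, h1⟩
  obtain ⟨j, hj⟩ := exists_ne i
  obtain ⟨k, hjk, hik⟩ := Tri.third hj.symm
  obtain ⟨E₁, a1, a2, a3⟩ := ex j hj.symm
  obtain ⟨E₂, b1, b2, b3⟩ := ex k hik
  obtain ⟨m, fm⟩ := h.fu_of (f.uh h hs) hB' hne (fun e => hle (e ▸ bot_le))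
    (fun E _ h1 e => hle (e ▸ h1))
    (fun l A hA h1 h2 => ex l fun e => key A hA.conn.df hA.ne_bot h1 (e ▸ h2))
    ⟨j, k, E₁, E₂, hjk, a1, a2, a3, b1, b2, b3⟩
  exact ⟨m, fun e => key _ oz_conn.df fm.ne le_rfl (e ▸ fm.sub), fm⟩

end FU

end Pool.Agent.MP_fcbc9a_lc.H58
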