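import Pool.Agent.MP_fcbc9a_lc.H58.T45

/-!
Four-groups of automorphisms: basic lemmas and the minimal configuration.
-/

open Set
open scoped commutatorElement

namespace Pool.Agent.MP_fcbc9a_lc.H58

universe u

section pure

variable {G : Type u} [Group G]

/-- fixed points of one involution -/
def Cx (T : Tri G) (i : Fin 3) : Subgroup G := Fix (T.φ i)

/-- fixed points of the four-group -/
def Dx (T : Tri G) : Subgroup G := ⨅ i, Fix (T.φ i)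

/-- invariant under the four-group -/
def VI (T : Tri G) (H : Subgroup G) : Prop := ∀ i, Stb (T.φ i) H

variable {T : Tri G} {i j k l : Fin 3} {σ : MulAut G} {A H K M N : Subgroup G} {g x y : G}

theorem mem_Cx : x ∈ Cx T i ↔ T.φ i x = x := Iff.rfl

theorem mem_Dx : x ∈ Dx T ↔ ∀ i, T.φ i x = x := Subgroup.mem_iInf

theorem mem_Dx_of (hij : i ≠ j) (h1 : T.φ i x = x) (h2 : T.φ j x = x) : x ∈ Dx T := by
  obtain ⟨k, hjk, hik⟩ := Tri.third hij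
  refine mem_Dx.2 fun l => ?_
  rcases Tri.cover hij hjk hik l with rfl | rfl | rfl
  · exact h1
  · exact h2
  · rw [← T.mul i j l hij hjk hik, h2, h1]

theorem Dx_le : Dx T ≤ Cx T i := fun _ hx => mem_Dx.1 hx i

theorem J_sub_Cx : T.J i ⊆ Cx T i := fun _ hx => hx.1

theorem vi_top : VI T ⊤ := fun _ => stb_top

theorem vi_bot : VI T ⊥ := fun _ => stb_bot

theorem vi_Cx : VI T (Cx T i) := fun l => stb_fix (Tri.comm l i)

theorem vi_Dx : VI T (Dx T) := fun l => stb_of_pm fun _ hx => Or.inl (mem_Dx.1 hx l)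

theorem VI.inf (h : VI T H) (h' : VI T K) : VI T (H ⊓ K) := fun i => (h i).inf (h' i)

theorem VI.sup (h : VI T H) (h' : VI T K) : VI T (H ⊔ K) := fun i => (h i).sup (h' i)

theorem VI.comm (h : VI T H) (h' : VI T K) : VI T ⁅H, K⁆ := fun i => (h i).comm (h' i)

theorem VI.itc (h : VI T H) (h' : VI T K) (n : ℕ) : VI T (itc H K n) := fun i => (h i).itc (h' i) n

theorem VI.der (h : VI T H) (n : ℕ) : VI T (der H n) := fun i => (h i).der n

theorem VI.nm (h : VI T H) : VI T (Nm H) := fun i => (h i).nm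

theorem VI.cn (h : VI T H) : VI T (Cn H) := fun i => (h i).cn

theorem VI.core (h : VI T H) (h' : VI T K) : VI T (core H K) := fun i => (h i).core (h' i)

theorem vi_of_le_Dx (h : A ≤ Dx T) : VI T A := fun l =>
  stb_of_pm fun _ hx => Or.inl (mem_Dx.1 (h hx) l)

theorem vi_of_sub_J (h : (A : Set G) ⊆ T.J i) : VI T A := fun l =>
  stb_of_pm fun _ hx => Tri.φ_J l (h hx)

theorem vi_centralizer (h : ∀ l, T.φ l x = x ∨ T.φ l x = x⁻¹) :
    VI T (Subgroup.centralizer {x}) := fun l => stb_centralizer_singleton (h l)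

theorem ab_of_sub_J (h : (A : Set G) ⊆ T.J i) : Ab A := by
  obtain ⟨j, hj⟩ := exists_ne i
  exact ab_of_inv (σ := T.φ j) fun _ hx => (h hx).2 j hj

theorem conj_mem_J (hx : x ∈ T.J i) (hg : g ∈ Dx T) : g * x * g⁻¹ ∈ T.J i :=
  ⟨by rw [map_mul, map_mul, map_inv, hx.1, mem_Dx.1 hg], fun j hj => by
    rw [map_mul, map_mul, map_inv, hx.2 j hj, mem_Dx.1 hg]; group⟩

theorem pow_mem_J (hx : x ∈ T.J i) (n : ℕ) : x ^ n ∈ T.J i :=
  ⟨by rw [map_pow, hx.1], fun j hj => by rw [map_pow, hx.2 j hj, inv_pow]⟩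

/-- in an abelian invariant group the inverted elements form a subgroup -/
theorem Ab.exists_inv (h : Ab A) (σ : MulAut G) :
    ∃ B : Subgroup G, ∀ x, x ∈ B ↔ x ∈ A ∧ σ x = x⁻¹ :=
  ⟨{ carrier := {x | x ∈ A ∧ σ x = x⁻¹}
     one_mem' := ⟨A.one_mem, by simp⟩
     mul_mem' := fun {a b} ha hb => ⟨A.mul_mem ha.1 hb.1, by
       rw [map_mul, ha.2, hb.2, ← mul_inv_rev, (h a ha.1 b hb.1).eq]⟩
     inv_mem' := fun {a} ha => ⟨A.inv_mem ha.1, by rw [map_inv, ha.2]⟩ }, fun _ => Iff.rfl⟩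

variable (h : U2 G)
include h

theorem eq_one_of_fix_inv (h1 : σ x = x) (h2 : σ x = x⁻¹) : x = 1 :=
  h.eq_one_of_eq_inv (h1.symm.trans h2)

theorem eq_one_of_J_Cx (hij : i ≠ j) (h1 : x ∈ T.J i) (h2 : x ∈ Cx T j) : x = 1 :=
  eq_one_of_fix_inv h h2 (h1.2 j hij.symm)

theorem eq_one_of_J_Dx (h1 : x ∈ T.J i) (h2 : x ∈ Dx T) : x = 1 := by
  obtain ⟨j, hj⟩ := exists_ne i
  exact eq_one_of_J_Cx h hj.symm h1 (Dx_le h2)

theorem rt_mem_J (hx : x ∈ T.J i) : rt x ∈ T.J i :=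
  ⟨by rw [h.map_rt, hx.1], fun j hj => by rw [h.map_rt, hx.2 j hj, h.rt_inv]⟩

theorem dec_in (h2 : ∀ x, σ (σ x) = x) (hH : RC H) (hs : Stb σ H) (hg : g ∈ H) :
    ∃ c ∈ H, ∃ s ∈ H, σ c = c ∧ σ s = s⁻¹ ∧ g = c * s := by
  obtain ⟨c, s, hc, hs', e⟩ := h.dec1 h2 g
  have h1 : s ∈ H := hH s (by
    have := H.mul_mem (H.inv_mem (hs.mem hg)) hg
    rw [e, map_mul, hc, hs'] at this
    convert this using 1
    group)
  refine ⟨c, ?_, s, h1, hc, hs', e⟩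
  rw [eq_mul_inv_of_mul_eq e.symm]
  exact H.mul_mem hg (H.inv_mem h1)

theorem dec_Cx (hH : RC H) (hs : VI T H) (hg : g ∈ H) (hg' : g ∈ Cx T i) :
    ∃ d ∈ H, ∃ x ∈ H, d ∈ Dx T ∧ x ∈ T.J i ∧ g = d * x := by
  obtain ⟨j, hj⟩ := exists_ne i
  obtain ⟨d, hd, x, hx, h1, h2, e⟩ := dec_in h (T.sq j) hH (hs j) hg
  have e1 : T.φ i d * T.φ i x = d * x := by rw [← map_mul, ← e]; exact hg'
  have e2 : T.φ i x = x := h.dec1_unique (α := T.φ j) (by rw [Tri.comm, h1]) h1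
    (by rw [Tri.comm, h2, map_inv]) h2 e1
  rw [e2] at e1
  exact ⟨d, hd, x, hx, mem_Dx_of hj.symm (mul_right_cancel e1) h1, Tri.mem_J hj.symm e2 h2, e⟩

theorem dec_Sg (hij : i ≠ j) (hjk : j ≠ k) (hik : i ≠ k) (hH : RC H) (hs : VI T H) (hg : g ∈ H)
    (hg' : g ∈ T.Sg k) : ∃ x ∈ H, ∃ y ∈ H, x ∈ T.J i ∧ y ∈ T.J j ∧ g = x * y * x :=
  ⟨_, h.pp_mem hH hg ((hs i).mem hg), _, h.qq_mem hH hg ((hs i).mem hg), Tri.pp_mem_J h hik hg',
    Tri.qq_mem_J h hij hjk hik hg', (pp_qq _ g).symm⟩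

/-- an invariant subgroup lies in any subgroup containing its components -/
theorem le_of_components (hH : RC H) (hs : VI T H) (hD : H ⊓ Dx T ≤ K)
    (hJ : ∀ l, ∀ x ∈ H, x ∈ T.J l → x ∈ K) : H ≤ K := by
  intro g hg
  obtain ⟨c, hc, s, hs', h1, h2, rfl⟩ := dec_in h (T.sq 0) hH (hs 0) hg
  obtain ⟨d, hd, x, hx, h3, h4, rfl⟩ := dec_Cx h (i := 0) hH hs hc h1
  obtain ⟨y, hy, z, hz, h5, h6, rfl⟩ := dec_Sg h (i := 1) (j := 2) (k := 0) (by decide)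
    (by decide) (by decide) hH hs hs' h2
  exact K.mul_mem (K.mul_mem (hD ⟨hd, h3⟩) (hJ _ x hx h4))
    (K.mul_mem (K.mul_mem (hJ _ y hy h5) (hJ _ z hz h6)) (hJ _ y hy h5))

/-- an inverted element normalising a group of fixed points centralises it -/
theorem mem_Cn_of_fix (hA : ∀ a ∈ A, σ a = a) (hy : σ y = y⁻¹) (hn : y ∈ Nm A) : y ∈ Cn A := by
  refine mem_Cn.2 fun a ha => (h.comm_of_sq (x := y) ?_).symm
  have e := hA _ (conj_mem hn ha)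
  rw [map_mul, map_mul, map_inv, hy, hA a ha] at e
  calc y * y * a = y * (y * a * y⁻¹) * y := by group
    _ = a * (y * y) := by rw [← e]; group

/-- an inverted element normalising a group of inverted points centralises it -/
theorem mem_Cn_of_inv (hA : ∀ a ∈ A, σ a = a⁻¹) (hy : σ y = y⁻¹) (hn : y ∈ Nm A) : y ∈ Cn A := by
  refine mem_Cn.2 fun a ha => (h.comm_of_sq (x := y) ?_).symm
  have e := hA _ (conj_mem hn ha)
  rw [map_mul, map_mul, map_inv, hy, hA a ha] at e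
  calc y * y * a = y * (y * a * y⁻¹)⁻¹⁻¹ * y := by group
    _ = a * (y * y) := by rw [← e]; group

theorem commute_of_J (hij : i ≠ j) (hjk : j ≠ k) (hik : i ≠ k) (hM : RC M) (hs : VI T M)
    (hi : ∀ x ∈ M, x ∈ T.J i → x = 1) {y z : G} (hy : y ∈ M) (hy' : y ∈ T.J j) (hz : z ∈ M)
    (hz' : z ∈ T.J k) : Commute y z := by
  obtain ⟨x, hx, w, -, h1, h2, e⟩ := dec_Sg h hik hjk.symm hij hM hs
    (M.mul_mem (M.mul_mem (M.inv_mem hy) hz) hy) (Tri.conj_mem_Sg (Tri.J_sub hjk.symm hz') hy'.1)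
  rw [hi x hx h1, one_mul, mul_one] at e
  have e1 := h2.1
  rw [← e, map_mul, map_mul, map_inv, hy'.2 k hjk.symm, hz'.1] at e1
  refine h.comm_of_sq ?_
  calc y * y * z = y * (y⁻¹⁻¹ * z * y⁻¹) * y := by group
    _ = z * (y * y) := by rw [e1]; group

theorem exists_theta (h2 : ∀ x, σ (σ x) = x) (hN : RC N) (hs : Stb σ N) (hM : RC M)
    (hNM : ⁅N, N⁆ ≤ M) {u s : G} (hu : σ u = u⁻¹) (huN : u ∈ Nm N) (hsN : s ∈ N)
    (hs' : σ s = s⁻¹) : ∃ d ∈ N, σ d = d ∧ ∃ m ∈ M, m ∈ N ∧ u * s * u⁻¹ * (u⁻¹ * s * u)⁻¹ = d * m := by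
  have ha := conj_mem huN hsN
  have hb := conj_mem' huN hsN
  obtain ⟨d, hd, m, hm, h3, h4, e⟩ := dec_in h h2 hN hs (N.mul_mem ha (N.inv_mem hb))
  refine ⟨d, hd, h3, m, (M.inv_mem_iff).1 (hM _ ?_), hm, e⟩
  have e1 := congrArg σ e
  simp only [map_mul, map_inv, hu, hs', h3, h4] at e1
  have h5 := hNM (Subgroup.commutator_mem_commutator hb (N.inv_mem ha))
  convert h5 using 1
  calc m⁻¹ * m⁻¹ = (d * m)⁻¹ * (d * m⁻¹) := by group
    _ = _ := by rw [← e, ← e1, commutatorElement_def]; simp [mul_assoc]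

end pure

variable {G : Type u} [Group G] [DS G]

/-- connected and invariant -/
def VC (T : Tri G) (H : Subgroup G) : Prop := Conn H ∧ VI T H

/-- maximal proper connected invariant subgroup -/
def VB (T : Tri G) (B : Subgroup G) : Prop :=
  VC T B ∧ B ≠ ⊤ ∧ ∀ L, VC T L → L ≠ ⊤ → B ≤ L → L ≤ B

/-- the minimal configuration -/
structure MC (T : Tri G) : Prop where
  dm : ∀ i, Dm1 (T.φ i)
  conn : Conn (⊤ : Subgroup G)
  nsol : ¬Sol (⊤ : Subgroup G)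
  simple : ∀ N, Df N → VI T N → ⊤ ≤ Nm N → N = ⊥ ∨ N = ⊤
  sol : ∀ H, VC T H → H ≠ ⊤ → Sol H

/-- the characteristic subgroup of type t of the centre of the Fitting subgroup -/
def Oz (t : ℕ × ℕ) (B : Subgroup G) : Subgroup G := Om t (Fit B ⊓ Cn (Fit B))

variable [RG G] {T : Tri G} {i j k l : Fin 3} {σ : MulAut G} {A B F H K L M N Y Z : Subgroup G}
  {g x y : G} {t : ℕ × ℕ}

theorem unip_closure (hσ : Dm1 σ) (h2 : ∀ x, σ (σ x) = x) (hF : Conn F) (hn : Nil F) (hs : Stb σ F)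
    {U : Set G} (hU : ∀ y ∈ U, σ y = y⁻¹ ∧ y ∈ Nm F ∧ y ∈ Cn (F ⊓ Fix σ)) :
    Unip F (Subgroup.closure U) := by
  have h := u2 G
  have hd : ∀ n, Df (itc F F n) := fun n => (hF.itc F n).df
  have hle : ∀ n, itc F F n ≤ F := itc_le Subgroup.le_normalizer
  have hc : ∀ n, ∀ y ∈ U, ∀ a ∈ itc F F n ⊓ Fix σ, Commute a y := fun n y hy a ha =>
    mem_Cn.1 (hU y hy).2.2 a ⟨hle n ha.1, ha.2⟩
  have hnm : ∀ n, ∀ y ∈ U, y ∈ Nm (itc F F n) := fun n y hy => nm_itc (hU y hy).2.1 (hU y hy).2.1 n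
  have hA : ∀ n, Subgroup.closure U ≤ CM (itc F F n) (itc F F (n + 1) ⊔ itc F F n ⊓ Fix σ) := by
    intro n
    refine (Subgroup.closure_le _).2 fun y hy => ?_
    have hu : ∀ m, rt y ∈ Nm (itc F F m) := fun m => h.rt_mem (hd m).nm.rc (hnm m y hy)
    have hW : rt y ∈ Nm (itc F F (n + 1) ⊔ itc F F n ⊓ Fix σ) :=
      nm_sup (hu _) (cn_le_nm (h.rt_mem (h.rc_centralizer _) (mem_Cn.2 (hc n y hy))))
    refine ⟨nm_sup (hnm _ y hy) (cn_le_nm (mem_Cn.2 (hc n y hy))), fun w hw => ?_⟩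
    obtain ⟨c, hc1, s, hs1, e1, e2, rfl⟩ := dec_in h h2 (hd n).rc (hs.itc hs n) hw
    obtain ⟨d, hd1, e3, m, hm, -, e⟩ := exists_theta h h2 (hd n).rc (hs.itc hs n) (hd (n + 1)).rc
      (Subgroup.commutator_mono le_rfl (hle n)) (u := rt y)
      (by rw [h.map_rt, (hU y hy).1, h.rt_inv]) (hu n) hs1 e2
    have h3 : d * m ∈ itc F F (n + 1) ⊔ itc F F n ⊓ Fix σ :=
      Subgroup.mul_mem _ (Subgroup.mem_sup_right ⟨hd1, e3⟩) (Subgroup.mem_sup_left hm)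
    have h4 : c ∈ itc F F (n + 1) ⊔ itc F F n ⊓ Fix σ := Subgroup.mem_sup_right ⟨hc1, e1⟩
    have h5 := conj_mem (nm_of_mem h4) (conj_mem hW (Subgroup.inv_mem _ h3))
    have h6 := (hc n y hy c ⟨hc1, e1⟩).eq
    rw [← e] at h5
    convert h5 using 1
    calc ⁅c * s, y⁆ = c * s * y * s⁻¹ * (y * c)⁻¹ := by rw [commutatorElement_def]; group
      _ = c * s * (rt y * rt y) * s⁻¹ * (c * (rt y * rt y))⁻¹ := by rw [h.rt_sq, h6]
      _ = _ := by simp [mul_assoc]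
  have hB : ∀ n, Subgroup.closure U ≤
      CM (itc F F (n + 1) ⊔ itc F F n ⊓ Fix σ) (itc F F (n + 1)) := by
    intro n
    refine (Subgroup.closure_le _).2 fun y hy => ⟨hnm _ y hy, fun w hw => ?_⟩
    obtain ⟨b, hb, a, ha, rfl⟩ := (mem_sup_iff ((inf_le_left.trans (hle n)).trans
      (le_Nm_itc Subgroup.le_normalizer (n + 1)))).1 hw
    have h3 := Subgroup.mul_mem _ hb (conj_mem (hnm _ y hy) (Subgroup.inv_mem _ hb))
    convert h3 using 1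
    calc ⁅b * a, y⁆ = b * (a * y) * a⁻¹ * b⁻¹ * y⁻¹ := by rw [commutatorElement_def]; group
      _ = _ := by rw [(hc n y hy a ha).eq]; group
  have hC : ∀ n, itc F (Subgroup.closure U) (2 * n) ≤ itc F F n := by
    intro n
    induction n with
    | zero => exact le_rfl
    | succ n ih =>
      exact (Subgroup.commutator_mono ((Subgroup.commutator_mono ih le_rfl).trans
        (le_CM_iff.1 (hA n)).2) le_rfl).trans (le_CM_iff.1 (hB n)).2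
  obtain ⟨n, e⟩ := hn
  exact ⟨2 * n, le_bot_iff.1 (e ▸ hC n)⟩

theorem oz_le_fit : Oz t B ≤ Fit B := om_le.trans inf_le_left

theorem oz_le : Oz t B ≤ B := oz_le_fit.trans fit_le

theorem fit_le_Cn_oz : Fit B ≤ Cn (Oz t B) := le_Cn_comm.2 (om_le.trans inf_le_right)

theorem oz_ab : Ab (Oz t B) := ab_inf_Cn.mono om_le

theorem oz_conn : Conn (Oz t B) := om_conn

theorem nm_oz (h : g ∈ Nm B) : g ∈ Nm (Oz t B) := nm_om (nm_inf (nm_fit h) (nm_cn (nm_fit h)))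

theorem le_Nm_oz : B ≤ Nm (Oz t B) := fun _ hg => nm_oz (nm_of_mem hg)

theorem oz_ne_bot (h : Ty t A) (hA : A ≤ Fit B) : Oz t B ≠ ⊥ := by
  obtain ⟨A', h1, h2⟩ := exists_ty_central fit_nil h hA
  intro e
  exact h2.ne_bot (le_bot_iff.1 (e ▸ le_om h2 h1))

omit [RG G] in
theorem VB.vc (h : VB T B) : VC T B := h.1

theorem Ty.img_mem_Vb {f : G → G} (h : Ty t A) (hf : Dm1 f) (hh : HomOn f A)
    (hc : ∀ Y : Subgroup G, Ty t Y → (∀ y ∈ Y, ∃ a ∈ A, f a = y) → Y ≤ M) {a : G} (ha : a ∈ A) :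
    f a ∈ M := by
  obtain ⟨Y, hY⟩ := hh.exists_img
  have h1 : f a ∈ Y := by
    rw [← SetLike.mem_coe, hY]
    exact ⟨a, ha, rfl⟩
  by_cases e : Y = ⊥
  · rw [e, Subgroup.mem_bot] at h1
    rw [h1]
    exact M.one_mem
  · refine hc Y (h.img hf hh hY e) (fun y hy => ?_) h1
    rw [← SetLike.mem_coe, hY] at hy
    exact hy

theorem ty_split_Vb (hZ : Ab Z) (hs : Stb σ Z) (hσ : Dm1 σ) (h2 : ∀ x, σ (σ x) = x) (hM : RC M)
    (h1 : ∀ A, Ty t A → A ≤ Z → (∀ a ∈ A, σ a = a) → A ≤ M)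
    (h1' : ∀ A, Ty t A → A ≤ Z → (∀ a ∈ A, σ a = a⁻¹) → A ≤ M) (h : Ty t A) (hA : A ≤ Z) :
    A ≤ M := by
  intro a ha
  have c : ∀ a ∈ A, ∀ b ∈ A, Commute a (σ b) := fun a ha b hb =>
    hZ _ (hA ha) _ (hs.mem (hA hb))
  have e1 : a * σ a ∈ M := by
    refine h.img_mem_Vb (f := fun a => a * σ a) ((Dm.var _).mul (hσ.comp (Dm.var _)))
      (fun a ha b hb => ?_) (fun Y hY hy => h1 Y hY (fun y hy' => ?_) fun y hy' => ?_) ha
    · simp only [map_mul]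
      calc a * b * (σ a * σ b) = a * (b * σ a) * σ b := by group
        _ = a * σ a * (b * σ b) := by rw [(c b hb a ha).eq]; group
    · obtain ⟨b, hb, rfl⟩ := hy y hy'
      exact Z.mul_mem (hA hb) (hs.mem (hA hb))
    · obtain ⟨b, hb, rfl⟩ := hy y hy'
      simp only [map_mul, h2]
      exact (c b hb b hb).eq.symm
  have e2 : a * (σ a)⁻¹ ∈ M := by
    refine h.img_mem_Vb (f := fun a => a * (σ a)⁻¹) ((Dm.var _).mul (hσ.comp (Dm.var _)).inv)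
      (fun a ha b hb => ?_) (fun Y hY hy => h1' Y hY (fun y hy' => ?_) fun y hy' => ?_) ha
    · have c1 : Commute (b * (σ b)⁻¹) (σ a)⁻¹ :=
        hZ _ (Z.mul_mem (hA hb) (Z.inv_mem (hs.mem (hA hb)))) _ (Z.inv_mem (hs.mem (hA ha)))
      simp only [map_mul, mul_inv_rev]
      calc a * b * ((σ b)⁻¹ * (σ a)⁻¹) = a * (b * (σ b)⁻¹ * (σ a)⁻¹) := by group
        _ = a * (σ a)⁻¹ * (b * (σ b)⁻¹) := by rw [c1.eq]; group
    · obtain ⟨b, hb, rfl⟩ := hy y hy'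
      exact Z.mul_mem (hA hb) (Z.inv_mem (hs.mem (hA hb)))
    · obtain ⟨b, hb, rfl⟩ := hy y hy'
      simp only [map_mul, map_inv, h2, mul_inv_rev, inv_inv]
  refine hM a ?_
  convert M.mul_mem e1 e2 using 1
  calc a * a = a * (a * σ a) * (σ a)⁻¹ := by group
    _ = a * (σ a * a) * (σ a)⁻¹ := by rw [(c a ha a ha).eq]
    _ = a * σ a * (a * (σ a)⁻¹) := by group

namespace MC

variable (h : MC T)
include h

omit [RG G] in
theorem df_Cx : Df (Cx T i) := df_fix (h.dm i)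

theorem df_Dx : Df (Dx T) :=
  df_of_inter (s := univ) (F := fun i => Cx T i) (fun _ _ => h.df_Cx)
    fun _ => mem_Dx.trans ⟨fun hx i _ => hx i, fun hx i => hx i (mem_univ i)⟩

theorem ds_J : Ds (T.J i) :=
  Dp.and (Dp.eq ((h.dm i).comp (Dm.var _)) (Dm.var _)) (Dp.forall_fin fun j =>
    (Dp.prop (j ≠ i)).imp (Dp.eq ((h.dm j).comp (Dm.var _)) (Dm.var _).inv))

theorem ds_Sg : Ds (T.Sg i) := Dp.eq ((h.dm i).comp (Dm.var _)) (Dm.var _).inv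

theorem vi_cc (hH : Df H) (hs : VI T H) : VI T (cc H) := fun i => (hs i).cc (h.dm i) hH

theorem vc_cc (hH : Df H) (hs : VI T H) : VC T (cc H) := ⟨hH.cc_conn, h.vi_cc hH hs⟩

theorem vi_fit (hs : VI T H) : VI T (Fit H) := fun i => (hs i).fit (h.dm i)

theorem vi_om (hs : VI T H) : VI T (Om t H) := fun i => (hs i).om (h.dm i)

theorem vi_oz (hs : VI T H) : VI T (Oz t H) := h.vi_om ((h.vi_fit hs).inf (h.vi_fit hs).cn)

theorem vc_inf_Cx (hH : VC T H) : VC T (H ⊓ Cx T i) :=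
  ⟨hH.1.fix (h.dm i) (T.sq i) (hH.2 i), hH.2.inf vi_Cx⟩

theorem vc_inf_Dx (hH : VC T H) : VC T (H ⊓ Dx T) := by
  have e : H ⊓ Dx T = H ⊓ Cx T 0 ⊓ Cx T 1 := le_antisymm
    (fun _ hx => ⟨⟨hx.1, Dx_le hx.2⟩, Dx_le hx.2⟩)
    fun _ hx => ⟨hx.1.1, mem_Dx_of (i := 0) (j := 1) (by decide) hx.1.2 hx.2⟩
  rw [e]
  exact h.vc_inf_Cx (h.vc_inf_Cx hH)

theorem vc_Cx : VC T (Cx T i) := by
  simpa using h.vc_inf_Cx (i := i) ⟨h.conn, vi_top⟩

theorem vc_Dx : VC T (Dx T) := by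
  simpa using h.vc_inf_Dx ⟨h.conn, vi_top⟩

omit [RG G] h [DS G] in
theorem Cx_ne_top' : Cx T i ≠ ⊤ := by
  intro e
  obtain ⟨x, hx⟩ := T.ne i
  exact hx (mem_Cx.1 (e ▸ Subgroup.mem_top x))

omit [RG G] in
theorem Cx_ne_top : Cx T i ≠ ⊤ := (fun _ => Cx_ne_top') h

theorem sol_Cx : Sol (Cx T i) := h.sol _ h.vc_Cx h.Cx_ne_top

theorem eq_one_of_central (hx : ∀ g, Commute g x) : x = 1 := by
  rcases h.simple (Cn ⊤) df_top.cn vi_top.cn
    (fun g _ => nm_cn (nm_of_mem (Subgroup.mem_top g))) with e | e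
  · exact Subgroup.mem_bot.1 (e ▸ mem_Cn.2 fun g _ => hx g)
  · exact absurd (ab_iff_le_Cn.2 e.ge).sol h.nsol

theorem eq_top_of_J (hij : i ≠ j) (hK : Df K) (hs : VI T K) (h1 : T.J i ⊆ K) (h2 : T.J j ⊆ K) :
    K = ⊤ := by
  obtain ⟨k, hjk, hik⟩ := Tri.third hij
  have hS : ∀ s, T.φ k s = s⁻¹ → s ∈ K := fun s hs' => by
    obtain ⟨x, -, y, -, hx, hy, rfl⟩ := dec_Sg (u2 G) hij hjk hik df_top.rc vi_top
      (Subgroup.mem_top s) hs'
    exact K.mul_mem (K.mul_mem (h1 hx) (h2 hy)) (h1 hx)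
  rcases h.simple (core ⊤ K) (df_top.core hK) (vi_top.core hs) le_Nm_core with e | e
  · exfalso
    obtain ⟨x, hx⟩ := T.ne k
    obtain ⟨c, s, hc, hs', rfl⟩ := (u2 G).dec1 (T.sq k) x
    have : s ∈ core ⊤ K := mem_core.2 fun g _ => by
      obtain ⟨c', s', hc', hs'', e'⟩ := (u2 G).dec1 (T.sq k) g⁻¹
      have e1 : c'⁻¹ * s * c' ∈ K := hS _ (by
        simp only [map_mul, map_inv, hc', hs', mul_inv_rev, inv_inv, mul_assoc])
      rw [← inv_inv g, e']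
      convert K.mul_mem (K.mul_mem (K.inv_mem (hS s' hs'')) e1) (hS s' hs'') using 1
      group
    rw [e, Subgroup.mem_bot] at this
    rw [this, mul_one] at hx
    exact hx hc
  · exact top_le_iff.1 (e ▸ core_le)

theorem centralizer_ne_top (hx : x ≠ 1) : Subgroup.centralizer {x} ≠ ⊤ := fun e =>
  hx (h.eq_one_of_central fun g =>
    Subgroup.mem_centralizer_singleton_iff.1 (e ▸ Subgroup.mem_top g))

theorem exists_J_ne (i : Fin 3) : ∃ x ∈ T.J i, x ≠ 1 := by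
  by_contra hc
  have h0 : ∀ x ∈ T.J i, x = 1 := fun x hx => by_contra fun e => hc ⟨x, hx, e⟩
  obtain ⟨j, hij⟩ := exists_ne i
  obtain ⟨k, hjk, hik⟩ := Tri.third hij.symm
  have h1 : ∀ K : Subgroup G, T.J i ⊆ K := fun K x hx => (h0 x hx).symm ▸ K.one_mem
  have h2 : ∀ y ∈ T.J j, y = 1 := fun y hy => by_contra fun e =>
    h.centralizer_ne_top e (h.eq_top_of_J hik (df_centralizer_singleton y)
      (vi_centralizer fun l => by
        by_cases el : l = j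
        · exact Or.inl (el ▸ hy.1)
        · exact Or.inr (hy.2 l el)) (h1 _) fun z hz =>
      Subgroup.mem_centralizer_singleton_iff.2 (commute_of_J (u2 G) hij.symm hjk hik df_top.rc
        vi_top (fun x _ hx => h0 x hx) (Subgroup.mem_top y) hy (Subgroup.mem_top z) hz).eq.symm)
  have e := h.eq_top_of_J hij.symm df_bot vi_bot (h1 _) fun y hy => h2 y hy
  exact h.nsol ⟨0, e.symm⟩

omit [RG G] in
theorem nm_ne_top (hY : Df Y) (hs : VI T Y) (h1 : Y ≠ ⊥) (h2 : Y ≠ ⊤) : Nm Y ≠ ⊤ := fun e =>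
  (h.simple Y hY hs e.ge).elim h1 h2

theorem cn_ne_top (h1 : Y ≠ ⊥) : Cn Y ≠ ⊤ := fun e => h1 (le_bot_iff.1 fun y hy =>
  h.eq_one_of_central fun g => (mem_Cn.1 (e ▸ Subgroup.mem_top g) y hy).symm)

omit h in
theorem cc_ne_top' (hH : Df H) (h1 : H ≠ ⊤) : cc H ≠ ⊤ := fun e =>
  h1 (top_le_iff.1 (e ▸ hH.cc_le))

theorem cc_ne_top (hH : Df H) (h1 : H ≠ ⊤) : cc H ≠ ⊤ := (fun _ => cc_ne_top' hH h1) h

theorem exists_vb (hL : VC T L) (h1 : L ≠ ⊤) : ∃ B, VB T B ∧ L ≤ B := by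
  have _ := h
  obtain ⟨B, hB, hm⟩ := exists_maximal (s := {B | VC T B ∧ B ≠ ⊤ ∧ L ≤ B})
    (fun _ hB => hB.1.1) ⟨L, hL, h1, le_rfl⟩
  exact ⟨B, ⟨hB.1, hB.2.1, fun K k1 k2 k3 => (hm K ⟨k1, k2, hB.2.2.trans k3⟩ k3).le⟩, hB.2.2⟩

omit [RG G] in
theorem sol_vb (hB : VB T B) : Sol B := h.sol _ hB.1 hB.2.1

omit [RG G] in
theorem vb_eq (hB : VB T B) (hL : VB T L) (hle : B ≤ L) : L = B :=
  (fun _ => le_antisymm (hB.2.2 L hL.1 hL.2.1 hle) hle) h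

/-- a connected group inside a proper invariant definable overgroup of B lies in B -/
theorem le_vb (hB : VB T B) (hK : Df K) (hs : VI T K) (hne : K ≠ ⊤) (hBK : B ≤ K) (hL : Conn L)
    (hLK : L ≤ K) : L ≤ B :=
  (hL.le_cc hK hLK).trans
    (hB.2.2 _ (h.vc_cc hK hs) (h.cc_ne_top hK hne) (hB.1.1.le_cc hK hBK))

theorem le_vb_of_nm (hB : VB T B) (hY : Df Y) (hs : VI T Y) (h1 : Y ≠ ⊥) (h2 : Y ≤ B)
    (h3 : B ≤ Nm Y) (hL : Conn L) (hLY : L ≤ Nm Y) : L ≤ B :=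
  h.le_vb hB hY.nm hs.nm
    (h.nm_ne_top hY hs h1 fun e => hB.2.1 (top_le_iff.1 (e ▸ h2))) h3 hL hLY

theorem not_J_J (hB : VB T B) (hij : i ≠ j) (h1 : Cx T i ≤ B) (h2 : Cx T j ≤ B) : False :=
  hB.2.1 (h.eq_top_of_J hij hB.1.1.df hB.1.2 (fun _ hx => h1 (J_sub_Cx hx))
    fun _ hx => h2 (J_sub_Cx hx))

theorem om_le_of_components (hZ : Ab Z) (hs : VI T Z) (hM : RC M)
    (hc : ∀ A, Ty t A → A ≤ Z → (A ≤ Dx T ∨ ∃ l, (A : Set G) ⊆ T.J l) → A ≤ M) : Om t Z ≤ M := by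
  have n01 : (0 : Fin 3) ≠ 1 := by decide
  refine om_le_iff.2 fun A hA ht => ty_split_Vb hZ (hs 0) (h.dm 0) (T.sq 0) hM
    (fun A ht hA h0 => ?_) (fun A ht hA h0 => ?_) ht hA
  · refine ty_split_Vb (Z := Z ⊓ Cx T 0) (hZ.mono inf_le_left) ((hs.inf vi_Cx) 1) (h.dm 1)
      (T.sq 1) hM (fun B hB hle h1 => ?_) (fun B hB hle h1 => ?_) ht
      fun a ha => ⟨hA ha, h0 a ha⟩
    · exact hc B hB (hle.trans inf_le_left)
        (Or.inl fun b hb => mem_Dx_of n01 (hle hb).2 (h1 b hb))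
    · exact hc B hB (hle.trans inf_le_left)
        (Or.inr ⟨0, fun b hb => Tri.mem_J n01 (hle hb).2 (h1 b hb)⟩)
  · obtain ⟨W, hW⟩ := hZ.exists_inv (T.φ 0)
    have hWZ : W ≤ Z := fun x hx => ((hW x).1 hx).1
    refine ty_split_Vb (Z := W) (hZ.mono hWZ) (stb_of_sq (T.sq 1) fun x hx => (hW _).2
      ⟨(hs 1).mem (hWZ hx), by rw [Tri.comm, ((hW x).1 hx).2, map_inv]⟩) (h.dm 1)
      (T.sq 1) hM (fun B hB hle h1 => ?_) (fun B hB hle h1 => ?_) ht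
      fun a ha => (hW a).2 ⟨hA ha, h0 a ha⟩
    · exact hc B hB (hle.trans hWZ)
        (Or.inr ⟨1, fun b hb => Tri.mem_J n01.symm (h1 b hb) ((hW b).1 (hle hb)).2⟩)
    · exact hc B hB (hle.trans hWZ) (Or.inr ⟨2, fun b hb =>
        Tri.mem_J' n01 (by decide) (by decide) ((hW b).1 (hle hb)).2 (h1 b hb)⟩)

theorem oz_le_of_components (hs : VI T B) (hM : RC M)
    (hc : ∀ A, Ty t A → A ≤ Oz t B → (A ≤ Dx T ∨ ∃ l, (A : Set G) ⊆ T.J l) → A ≤ M) :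
    Oz t B ≤ M :=
  h.om_le_of_components ab_inf_Cn ((h.vi_fit hs).inf (h.vi_fit hs).cn) hM
    fun A ht hA => hc A ht (le_om ht hA)

end MC

end Pool.Agent.MP_fcbc9a_lc.H58
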