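import Pool.Agent.MP_fcbc9a_lc.H58.Zit

/-!
The field theorem, first half: construction of the field.
-/

open Set
open scoped commutatorElement Pointwise

namespace Pool.Agent.MP_fcbc9a_lc.H58

universe u

variable {G : Type u} [Group G] [DS G]

/-- B acts minimally on the abelian group A, and M is a normal subgroup of B acting
through a nontrivial abelian group -/
structure ZS (A M B : Subgroup G) : Prop where
  cA : Conn A
  cM : Conn M
  cB : Conn B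
  ab : Ab A
  BA : B ≤ Nm A
  BM : B ≤ Nm M
  MB : M ≤ B
  MM : ⁅M, M⁆ ≤ Cn A
  ne : ¬M ≤ Cn A
  min : ∀ Y, Conn Y → Y ≤ A → B ≤ Nm Y → Y = ⊥ ∨ Y = A

/-- the field K acts on A through ev, and M acts by the scalars sc -/
structure FA (A M B : Subgroup G) (K : Type u) [Field K] (ev : K → G → G) (sc : G → K)
    (a₁ : G) (A₁ : Subgroup G) : Prop where
  mem : ∀ r, ∀ a ∈ A, ev r a ∈ A
  hom : ∀ r, HomOn (ev r) A
  one : ∀ a ∈ A, ev 1 a = a
  add : ∀ r s, ∀ a ∈ A, ev (r + s) a = ev r a * ev s a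
  mul : ∀ r s, ∀ a ∈ A, ev (r * s) a = ev r (ev s a)
  sc : ∀ m ∈ M, ∀ a ∈ A, ev (sc m) a = m * a * m⁻¹
  conj : ∀ b ∈ B, ∀ r, ∃ s, ∀ a ∈ A, ev s a = b * ev r (b⁻¹ * a * b) * b⁻¹
  mem₁ : a₁ ∈ A
  ne₁ : a₁ ≠ 1
  conn₁ : Conn A₁
  nm₁ : M ≤ Nm A₁
  rng : (A₁ : Set G) = range fun r => ev r a₁
  span : ∃ s : Finset G, (s : Set G) ⊆ A ∧
    ∀ Y : Subgroup G, (∀ r, ∀ a ∈ s, ev r a ∈ Y) → A ≤ Y
  df : Dr3 fun x y z => ∃ r, x = ev r a₁ ∧ y ∈ A ∧ z = ev r y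

/-- the ring E of all endomorphisms of A, acting through ev -/
structure RAz (A : Subgroup G) (E : Type u) [Ring E] (ev : E → G → G) : Prop where
  mem : ∀ r, ∀ a ∈ A, ev r a ∈ A
  hom : ∀ r, HomOn (ev r) A
  one : ∀ a ∈ A, ev 1 a = a
  add : ∀ r s, ∀ a ∈ A, ev (r + s) a = ev r a * ev s a
  mul : ∀ r s, ∀ a ∈ A, ev (r * s) a = ev r (ev s a)
  ext : ∀ r s, (∀ a ∈ A, ev r a = ev s a) → r = s
  full : ∀ f : G → G, HomOn f A → (∀ a ∈ A, f a ∈ A) → ∃ r, ∀ a ∈ A, ev r a = f a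

/-- the commutative ring generated by the action of M -/
structure CAz (A M B : Subgroup G) (R : Type u) [CommRing R] (ev : R → G → G) (sc : G → R) :
    Prop where
  mem : ∀ r, ∀ a ∈ A, ev r a ∈ A
  hom : ∀ r, HomOn (ev r) A
  one : ∀ a ∈ A, ev 1 a = a
  add : ∀ r s, ∀ a ∈ A, ev (r + s) a = ev r a * ev s a
  mul : ∀ r s, ∀ a ∈ A, ev (r * s) a = ev r (ev s a)
  ext : ∀ r s, (∀ a ∈ A, ev r a = ev s a) → r = s
  sc : ∀ m ∈ M, ∀ a ∈ A, ev (sc m) a = m * a * m⁻¹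
  conj : ∀ b ∈ B, ∀ r, ∃ s, ∀ a ∈ A, ev s a = b * ev r (b⁻¹ * a * b) * b⁻¹
  dm : ∀ r, ∃ f, Dm1 f ∧ ∀ a ∈ A, ev r a = f a
  inv : ∀ Y : Subgroup G, Y ≤ A → M ≤ Nm Y → ∀ r, ∀ a ∈ Y, ev r a ∈ Y

/-- additive copy of an abelian subgroup -/
def VVz (A : Subgroup G) (_ : Ab A) : Type u := Additive A

instance (A : Subgroup G) (h : Ab A) : AddCommGroup (VVz A h) :=
  { (inferInstance : AddGroup (Additive A)) with
    add_comm := fun a b => Subtype.ext (h _ (Additive.toMul a).2 _ (Additive.toMul b).2) }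

omit [DS G] in
theorem exists_raz {A : Subgroup G} (h : Ab A) :
    ∃ (E : Type u) (_ : Ring E) (ev : E → G → G), RAz A E ev := by
  classical
  let i : ∀ a ∈ A, VVz A h := fun a ha => Additive.ofMul (⟨a, ha⟩ : A)
  let o : VVz A h → G := fun v => (Additive.toMul (v : Additive A) : A)
  have om : ∀ v, o v ∈ A := fun v => (Additive.toMul (v : Additive A) : A).2
  have io : ∀ v, i (o v) (om v) = v := fun _ => rfl
  have oadd : ∀ v w, o (v + w) = o v * o w := fun _ _ => rfl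
  have oinj : ∀ v w, o v = o w → v = w := fun _ _ e => Subtype.ext e
  let ev : AddMonoid.End (VVz A h) → G → G := fun r a => if ha : a ∈ A then o (r (i a ha)) else 1
  have hev : ∀ r a (ha : a ∈ A), ev r a = o (r (i a ha)) := fun r a ha => dif_pos ha
  refine ⟨AddMonoid.End (VVz A h), inferInstance, ev, fun r a ha => hev r a ha ▸ om _,
    fun r a ha b hb => ?_, fun a ha => hev _ a ha, fun r s a ha => ?_, fun r s a ha => ?_,
    fun r s hrs => ?_, fun f hf hm => ?_⟩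
  · rw [hev r a ha, hev r b hb, hev r _ (A.mul_mem ha hb), ← oadd, ← map_add]
    rfl
  · rw [hev r a ha, hev s a ha, hev _ a ha, ← oadd]
    rfl
  · rw [hev s a ha, hev r _ (om _), hev _ a ha, io]
    rfl
  · refine AddMonoidHom.ext fun v => oinj _ _ ?_
    have := hrs _ (om v)
    rwa [hev r _ (om v), hev s _ (om v), io] at this
  · refine ⟨AddMonoidHom.mk' (fun v => i (f (o v)) (hm _ (om v))) fun v w => oinj _ _ ?_,
      fun a ha => hev _ a ha⟩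
    exact hf _ (om v) _ (om w)

omit [DS G] in
theorem ev_zero_z {A : Subgroup G} {E : Type u} [Ring E] {ev : E → G → G}
    (add : ∀ r s, ∀ a ∈ A, ev (r + s) a = ev r a * ev s a) {a : G} (ha : a ∈ A) : ev 0 a = 1 := by
  have := add 0 0 a ha
  rw [add_zero] at this
  exact left_eq_mul.1 this

omit [DS G] in
theorem ev_neg_z {A : Subgroup G} {E : Type u} [Ring E] {ev : E → G → G}
    (add : ∀ r s, ∀ a ∈ A, ev (r + s) a = ev r a * ev s a) (r : E) {a : G} (ha : a ∈ A) :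
    ev (-r) a = (ev r a)⁻¹ := by
  have := add (-r) r a ha
  rw [neg_add_cancel, ev_zero_z add ha] at this
  exact eq_inv_of_mul_eq_one_left this.symm

variable [RG G] {A M B : Subgroup G}

theorem ZS.exists_caz (h : ZS A M B) :
    ∃ (R : Type u) (_ : CommRing R) (ev : R → G → G) (sc : G → R), CAz A M B R ev sc := by
  classical
  obtain ⟨E, _, ev, H⟩ := exists_raz h.ab
  have hact : ∀ m : G, ∃ r, m ∈ M → ∀ a ∈ A, ev r a = m * a * m⁻¹ := by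
    intro m
    by_cases hm : m ∈ M
    · obtain ⟨r, hr⟩ := H.full (fun a => m * a * m⁻¹) (fun x _ y _ => by group)
        fun a ha => conj_mem (h.BA (h.MB hm)) ha
      exact ⟨r, fun _ => hr⟩
    · exact ⟨0, fun hm' => absurd hm' hm⟩
  choose act hact using hact
  let S : Set E := {r | ∃ m ∈ M, ∀ a ∈ A, ev r a = m * a * m⁻¹}
  have hcomm : ∀ x ∈ S, ∀ y ∈ S, x * y = y * x := by
    rintro x ⟨m, hm, hx⟩ y ⟨n, hn, hy⟩
    refine H.ext _ _ fun a ha => ?_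
    rw [H.mul _ _ a ha, H.mul _ _ a ha, hy a ha, hx a ha, hx _ (conj_mem (h.BA (h.MB hn)) ha),
      hy _ (conj_mem (h.BA (h.MB hm)) ha)]
    have h1 : ⁅n⁻¹, m⁻¹⁆ ∈ Cn A :=
      h.MM (Subgroup.commutator_mem_commutator (M.inv_mem hn) (M.inv_mem hm))
    have h2 := (mem_Cn.1 h1 a ha).eq
    rw [commutatorElement_def] at h2
    calc m * (n * a * n⁻¹) * m⁻¹
        = m * n * (a * (n⁻¹ * m⁻¹ * n⁻¹⁻¹ * m⁻¹⁻¹)) * m⁻¹ * n⁻¹ := by group
      _ = n * (m * a * m⁻¹) * n⁻¹ := by rw [h2]; group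
  have hc := Subring.isMulCommutative_closure hcomm
  let inst : CommRing (Subring.closure S) :=
    { (inferInstance : Ring (Subring.closure S)) with mul_comm := hc.is_comm.comm }
  refine ⟨Subring.closure S, inst, fun r => ev r.1,
    fun m => if hm : m ∈ M then ⟨act m, Subring.subset_closure ⟨m, hm, hact m hm⟩⟩ else 0,
    fun r => H.mem r.1, fun r => H.hom r.1, H.one, fun r s => H.add r.1 s.1,
    fun r s => H.mul r.1 s.1, fun r s e => Subtype.ext (H.ext _ _ e), fun m hm a ha => ?_,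
    fun b hb r => ?_, fun r => ?_, fun Y hY hM r => ?_⟩
  · simp only [dif_pos hm]
    exact hact m hm a ha
  · obtain ⟨r, hr⟩ := r
    have hb' : ∀ a ∈ A, b⁻¹ * a * b ∈ A := fun a ha => conj_mem' (h.BA hb) ha
    suffices ∃ s ∈ Subring.closure S, ∀ a ∈ A, ev s a = b * ev r (b⁻¹ * a * b) * b⁻¹ by
      obtain ⟨s, hs, hs'⟩ := this
      exact ⟨⟨s, hs⟩, hs'⟩
    induction hr using Subring.closure_induction with
    | mem x hx =>
      obtain ⟨m, hm, hx⟩ := hx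
      have hm' := conj_mem (h.BM hb) hm
      refine ⟨act (b * m * b⁻¹), Subring.subset_closure ⟨_, hm', hact _ hm'⟩, fun a ha => ?_⟩
      rw [hact _ hm' a ha, hx _ (hb' a ha)]
      group
    | zero =>
      refine ⟨0, Subring.zero_mem _, fun a ha => ?_⟩
      rw [ev_zero_z H.add ha, ev_zero_z H.add (hb' a ha)]
      group
    | one =>
      refine ⟨1, Subring.one_mem _, fun a ha => ?_⟩
      rw [H.one a ha, H.one _ (hb' a ha)]
      group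
    | add x y _ _ ihx ihy =>
      obtain ⟨s, hs, hs'⟩ := ihx
      obtain ⟨t, ht, ht'⟩ := ihy
      refine ⟨s + t, Subring.add_mem _ hs ht, fun a ha => ?_⟩
      rw [H.add _ _ a ha, H.add _ _ _ (hb' a ha), hs' a ha, ht' a ha]
      group
    | neg x _ ihx =>
      obtain ⟨s, hs, hs'⟩ := ihx
      refine ⟨-s, Subring.neg_mem _ hs, fun a ha => ?_⟩
      rw [ev_neg_z H.add _ ha, ev_neg_z H.add _ (hb' a ha), hs' a ha]
      group
    | mul x y _ _ ihx ihy =>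
      obtain ⟨s, hs, hs'⟩ := ihx
      obtain ⟨t, ht, ht'⟩ := ihy
      refine ⟨s * t, Subring.mul_mem _ hs ht, fun a ha => ?_⟩
      rw [H.mul _ _ a ha, H.mul _ _ _ (hb' a ha), hs' _ (H.mem _ a ha), ht' a ha]
      congr 3
      group
  · obtain ⟨r, hr⟩ := r
    change ∃ f, Dm1 f ∧ ∀ a ∈ A, ev r a = f a
    induction hr using Subring.closure_induction with
    | mem x hx =>
      obtain ⟨m, -, hx⟩ := hx
      exact ⟨_, dm1_conj m, hx⟩
    | zero => exact ⟨fun _ => 1, Dm.const 1, fun a ha => ev_zero_z H.add ha⟩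
    | one => exact ⟨fun x => x, Dm1.id, H.one⟩
    | add x y _ _ ihx ihy =>
      obtain ⟨f, hf, hf'⟩ := ihx
      obtain ⟨g, hg, hg'⟩ := ihy
      exact ⟨fun a => f a * g a, Dm.mul hf hg, fun a ha => by
        rw [H.add _ _ a ha, hf' a ha, hg' a ha]⟩
    | neg x _ ihx =>
      obtain ⟨f, hf, hf'⟩ := ihx
      exact ⟨fun a => (f a)⁻¹, Dm.inv hf, fun a ha => by rw [ev_neg_z H.add _ ha, hf' a ha]⟩
    | mul x y _ _ ihx ihy =>
      obtain ⟨f, hf, hf'⟩ := ihx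
      obtain ⟨g, hg, hg'⟩ := ihy
      exact ⟨fun a => f (g a), hf.trans hg, fun a ha => by
        rw [H.mul _ _ a ha, hf' _ (H.mem _ a ha), hg' a ha]⟩
  · obtain ⟨r, hr⟩ := r
    change ∀ a ∈ Y, ev r a ∈ Y
    induction hr using Subring.closure_induction with
    | mem x hx =>
      obtain ⟨m, hm, hx⟩ := hx
      exact fun a ha => hx a (hY ha) ▸ conj_mem (hM hm) ha
    | zero => exact fun a ha => ev_zero_z H.add (hY ha) ▸ Y.one_mem
    | one => exact fun a ha => (H.one a (hY ha)).symm ▸ ha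
    | add x y _ _ ihx ihy =>
      exact fun a ha => H.add x y a (hY ha) ▸ Y.mul_mem (ihx a ha) (ihy a ha)
    | neg x _ ihx => exact fun a ha => ev_neg_z H.add x (hY ha) ▸ Y.inv_mem (ihx a ha)
    | mul x y _ _ ihx ihy => exact fun a ha => H.mul x y a (hY ha) ▸ ihx _ (ihy a ha)

/-- A is generated by finitely many conjugates of any nontrivial connected subgroup -/
theorem ZS.fin_conj (h : ZS A M B) {A₁ : Subgroup G} (h1 : Conn A₁) (h2 : A₁ ≠ ⊥) (h3 : A₁ ≤ A) :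
    ∃ s : Finset G, (s : Set G) ⊆ B ∧
      ∀ Y : Subgroup G, (∀ b ∈ s, ∀ a ∈ A₁, b * a * b⁻¹ ∈ Y) → A ≤ Y := by
  classical
  let F : Finset G → Subgroup G := fun s =>
    sSup ((fun b => A₁.map (MulAut.conj b).toMonoidHom) '' (s : Set G))
  have hle : ∀ (s : Finset G) (Y : Subgroup G),
      F s ≤ Y ↔ ∀ b ∈ s, ∀ a ∈ A₁, b * a * b⁻¹ ∈ Y := by
    intro s Y
    simp only [F, sSup_le_iff, forall_mem_image, Subgroup.map_le_iff_le_comap]
    exact Iff.rfl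
  obtain ⟨_, ⟨s, hs, rfl⟩, hmax⟩ := exists_maximal (s := F '' {s | (s : Set G) ⊆ B})
    (by
      rintro _ ⟨s, -, rfl⟩
      refine conn_sSup ?_
      rintro _ ⟨b, -, rfl⟩
      exact h1.map (dm1_conj b))
    ⟨F ∅, ∅, by simp, rfl⟩
  have hall : ∀ b ∈ B, ∀ a ∈ A₁, b * a * b⁻¹ ∈ F s := by
    intro b hb
    have e : F (insert b s) = F s := hmax _ ⟨insert b s, by
      rw [mem_ofPred_eq, Finset.coe_insert]
      exact insert_subset hb hs, rfl⟩ ((hle _ _).2 fun c hc =>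
        (hle _ _).1 le_rfl c (Finset.mem_insert_of_mem hc))
    exact (hle _ _).1 e.le b (Finset.mem_insert_self _ _)
  have hconn : Conn (F s) := conn_sSup (by
    rintro _ ⟨b, -, rfl⟩
    exact h1.map (dm1_conj b))
  have hnm : B ≤ Nm (F s) := le_Nm_of_conj fun g hg x hx => by
    have : F s ≤ (F s).comap (MulAut.conj g).toMonoidHom := (hle _ _).2 fun b hb a ha => by
      have := hall _ (B.mul_mem hg (hs hb)) a ha
      change g * (b * a * b⁻¹) * g⁻¹ ∈ F s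
      convert this using 1
      group
    exact this hx
  refine ⟨s, hs, fun Y hY => ?_⟩
  rcases h.min _ hconn ((hle _ _).2 fun b hb a ha => conj_mem (h.BA (hs hb)) (h3 ha)) hnm
    with e | e
  · refine absurd (eq_bot_iff.2 fun a ha => ?_) h2
    have := hall 1 B.one_mem a ha
    rw [e] at this
    simpa using this
  · exact e ▸ (hle _ _).2 hY

section caz

variable {R : Type u} [CommRing R] {ev : R → G → G} {sc : G → R} {A₁ : Subgroup G}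

omit [RG G] in
theorem CAz.ev_one (H : CAz A M B R ev sc) (r : R) : ev r 1 = 1 := (H.hom r).one

omit [RG G] in
theorem CAz.sub (H : CAz A M B R ev sc) (r s : R) {a : G} (ha : a ∈ A) :
    ev (r - s) a = ev r a * (ev s a)⁻¹ := by
  rw [sub_eq_add_neg, H.add _ _ a ha, ev_neg_z H.add _ ha]

theorem CAz.dich (H : CAz A M B R ev sc) (h1 : Conn A₁) (h3 : A₁ ≤ A)
    (h4 : M ≤ Nm A₁) (h5 : ∀ W, Conn W → W ≤ A₁ → M ≤ Nm W → W = ⊥ ∨ W = A₁) (r : R) :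
    (∀ a ∈ A₁, ev r a = 1) ∨ ∀ a ∈ A₁, ∃ a' ∈ A₁, ev r a' = a := by
  obtain ⟨Y, hY⟩ := ((H.hom r).mono h3).exists_img
  obtain ⟨f, hf, hf'⟩ := H.dm r
  have hm : ∀ y, y ∈ Y ↔ ∃ a ∈ A₁, ev r a = y := fun y => by
    rw [← SetLike.mem_coe, hY]
    exact Iff.rfl
  have hc : Conn Y := h1.img hf
    (fun a ha b hb => by
      rw [← hf' a (h3 ha), ← hf' b (h3 hb), ← hf' _ (h3 (A₁.mul_mem ha hb)),
        H.hom r a (h3 ha) b (h3 hb)])
    (hY.trans (image_congr fun a ha => hf' a (h3 ha)))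
  rcases h5 Y hc (fun y hy => by
      obtain ⟨a, ha, rfl⟩ := (hm y).1 hy
      exact H.inv A₁ h3 h4 r a ha)
    (le_Nm_of_conj fun m hm' y hy => by
      obtain ⟨a, ha, rfl⟩ := (hm y).1 hy
      refine (hm _).2 ⟨m * a * m⁻¹, conj_mem (h4 hm') ha, ?_⟩
      rw [← H.sc m hm' a (h3 ha), ← H.sc m hm' _ (H.mem r a (h3 ha)), ← H.mul _ _ a (h3 ha),
        ← H.mul _ _ a (h3 ha), mul_comm]) with e | e
  · exact Or.inl fun a ha => Subgroup.mem_bot.1 (e ▸ (hm _).2 ⟨a, ha, rfl⟩)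
  · exact Or.inr fun a ha => (hm a).1 (e ▸ ha)

theorem CAz.dich' (H : CAz A M B R ev sc) (h1 : Conn A₁) (h3 : A₁ ≤ A)
    (h4 : M ≤ Nm A₁) (h5 : ∀ W, Conn W → W ≤ A₁ → M ≤ Nm W → W = ⊥ ∨ W = A₁) (r : R)
    {g : G} (hg : g ∈ B) : (∀ a ∈ A₁, ev r (g * a * g⁻¹) = 1) ∨
      ∀ a ∈ A₁, ∃ a' ∈ A₁, ev r (g * a' * g⁻¹) = g * a * g⁻¹ := by
  obtain ⟨s, hs⟩ := H.conj g⁻¹ (B.inv_mem hg) r
  simp only [inv_inv] at hs
  rcases H.dich h1 h3 h4 h5 s with e | e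
  · refine Or.inl fun a ha => ?_
    have := e a ha
    rw [hs a (h3 ha)] at this
    calc _ = g * (g⁻¹ * ev r (g * a * g⁻¹) * g) * g⁻¹ := by group
      _ = 1 := by rw [this]; group
  · refine Or.inr fun a ha => ?_
    obtain ⟨a', ha', e'⟩ := e a ha
    refine ⟨a', ha', ?_⟩
    rw [← e', hs a' (h3 ha')]
    group

theorem CAz.prime (H : CAz A M B R ev sc) (h : ZS A M B) (h1 : Conn A₁) (h2 : A₁ ≠ ⊥)
    (h3 : A₁ ≤ A) (h4 : M ≤ Nm A₁) (h5 : ∀ W, Conn W → W ≤ A₁ → M ≤ Nm W → W = ⊥ ∨ W = A₁)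
    {s : Finset G} (hs : (s : Set G) ⊆ B)
    (hs' : ∀ Y : Subgroup G, (∀ b ∈ s, ∀ a ∈ A₁, b * a * b⁻¹ ∈ Y) → A ≤ Y) {g : G} (hg : g ∈ B) :
    ∃ b ∈ s, ∀ r, (∀ a ∈ A₁, ev r (b * a * b⁻¹) = 1) → ∀ a ∈ A₁, ev r (g * a * g⁻¹) = 1 := by
  classical
  by_contra hc
  have hc' : ∀ b ∈ s, ∃ r, (∀ a ∈ A₁, ev r (b * a * b⁻¹) = 1) ∧
      ∀ a ∈ A₁, ∃ a' ∈ A₁, ev r (g * a' * g⁻¹) = g * a * g⁻¹ := by
    intro b hb
    by_contra hn
    refine hc ⟨b, hb, fun r hr => (H.dich' h1 h3 h4 h5 r hg).resolve_right fun e => ?_⟩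
    exact hn ⟨r, hr, e⟩
  have hA : ∀ b ∈ B, ∀ a ∈ A₁, b * a * b⁻¹ ∈ A := fun b hb a ha => conj_mem (h.BA hb) (h3 ha)
  have key : ∀ t : Finset G, t ⊆ s → ∃ r, (∀ b ∈ t, ∀ a ∈ A₁, ev r (b * a * b⁻¹) = 1) ∧
      ∀ a ∈ A₁, ∃ a' ∈ A₁, ev r (g * a' * g⁻¹) = g * a * g⁻¹ := by
    intro t
    induction t using Finset.induction_on with
    | empty => exact fun _ => ⟨1, by simp, fun a ha => ⟨a, ha, H.one _ (hA g hg a ha)⟩⟩
    | insert b t _ ih =>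
      intro ht
      obtain ⟨r, hr, hr'⟩ := ih ((Finset.subset_insert b t).trans ht)
      have hb := ht (Finset.mem_insert_self b t)
      obtain ⟨q, hq, hq'⟩ := hc' b hb
      refine ⟨r * q, fun c hc a ha => ?_, fun a ha => ?_⟩
      · rcases Finset.mem_insert.1 hc with rfl | hc'
        · rw [H.mul _ _ _ (hA c (hs hb) a ha), hq a ha, H.ev_one]
        · rw [mul_comm r q, H.mul _ _ _ (hA c (hs (ht hc)) a ha), hr c hc' a ha, H.ev_one]
      · obtain ⟨a', ha', e'⟩ := hr' a ha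
        obtain ⟨a'', ha'', e''⟩ := hq' a' ha'
        exact ⟨a'', ha'', by rw [H.mul _ _ _ (hA g hg a'' ha''), e'', e']⟩
  obtain ⟨r, hr, hr'⟩ := key s Finset.Subset.rfl
  obtain ⟨K, hK⟩ := (H.hom r).exists_pre ⊥
  have hAK := hs' K fun b hb a ha =>
    (hK _).2 ⟨hA b (hs hb) a ha, Subgroup.mem_bot.2 (hr b hb a ha)⟩
  refine h2 (eq_bot_iff.2 fun a ha => ?_)
  obtain ⟨a', ha', e⟩ := hr' a ha
  have := Subgroup.mem_bot.1 ((hK _).1 (hAK (hA g hg a' ha'))).2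
  rw [e] at this
  refine Subgroup.mem_bot.2 ?_
  calc a = g⁻¹ * (g * a * g⁻¹) * g := by group
    _ = 1 := by rw [this]; group

theorem CAz.faith (H : CAz A M B R ev sc) (h : ZS A M B) (h1 : Conn A₁) (h2 : A₁ ≠ ⊥)
    (h3 : A₁ ≤ A) (h4 : M ≤ Nm A₁) (h5 : ∀ W, Conn W → W ≤ A₁ → M ≤ Nm W → W = ⊥ ∨ W = A₁)
    {r : R} (hr : ∀ a ∈ A₁, ev r a = 1) : r = 0 := by
  obtain ⟨s, hs, hs'⟩ := h.fin_conj h1 h2 h3
  choose K hK using fun r => (H.hom r).exists_pre ⊥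
  simp only [Subgroup.mem_bot] at hK
  let Z : Subgroup G := ⨅ r ∈ {r | ∀ a ∈ A₁, ev r a = 1}, K r
  have hZ : ∀ x, x ∈ Z ↔ ∀ r ∈ {r | ∀ a ∈ A₁, ev r a = 1}, x ∈ K r := fun x => by
    simp only [Z, Subgroup.mem_iInf]
  have hZA : Z ≤ A := fun x hx =>
    ((hK 0 x).1 ((hZ x).1 hx 0 fun a ha => ev_zero_z H.add (h3 ha))).1
  have hdf : Df Z := df_of_inter (fun r _ => by
    obtain ⟨f, hf, hf'⟩ := H.dm r
    refine Df.of_iff (Ds.inter h.cA.df (Ds.preimage (Ds.singleton 1) hf)) fun x => ?_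
    rw [hK]
    exact and_congr_right fun hx => by rw [hf' x hx]; exact Iff.rfl) hZ
  have hnm : B ≤ Nm Z := h.cB.2 _ hdf.nm (relIndex_ne_zero_of_cover s.finite_toSet fun g hg => by
    obtain ⟨b, hb, hb'⟩ := H.prime h h1 h2 h3 h4 h5 hs hs' hg
    have hbB : b ∈ B := hs hb
    refine ⟨b, hb, hdf.nm_of_conj fun x hx => (hZ _).2 fun r hr => (hK _ _).2
      ⟨conj_mem (h.BA (B.mul_mem (B.inv_mem hbB) hg)) (hZA hx), ?_⟩⟩
    obtain ⟨r₁, e₁⟩ := H.conj b hbB r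
    obtain ⟨r₂, e₂⟩ := H.conj g⁻¹ (B.inv_mem hg) r₁
    simp only [inv_inv] at e₂
    have k₁ := hb' r₁ fun a ha => by
      rw [e₁ _ (conj_mem (h.BA hbB) (h3 ha)), show b⁻¹ * (b * a * b⁻¹) * b = a by group, hr a ha]
      group
    have k₂ := ((hK r₂ x).1 ((hZ x).1 hx r₂ fun a ha => by
      rw [e₂ a (h3 ha), k₁ a ha]
      group)).2
    rw [e₂ x (hZA hx), e₁ _ (conj_mem (h.BA hg) (hZA hx))] at k₂
    calc _ = b⁻¹ * g * (g⁻¹ * (b * ev r (b⁻¹ * (g * x * g⁻¹) * b) * b⁻¹) * g) * g⁻¹ * b := by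
          rw [show b⁻¹ * g * x * (b⁻¹ * g)⁻¹ = b⁻¹ * (g * x * g⁻¹) * b by group]
          group
      _ = 1 := by rw [k₂]; group)
  have h1Z : A₁ ≤ cc Z := h1.le_cc hdf fun a ha =>
    (hZ a).2 fun r hr => (hK _ _).2 ⟨h3 ha, hr a ha⟩
  rcases h.min _ hdf.cc_conn (hdf.cc_le.trans hZA) (fun b hb => nm_cc (hnm hb) hdf) with e | e
  · exact absurd (eq_bot_iff.2 (e ▸ h1Z)) h2
  · refine H.ext _ _ fun a ha => ?_
    rw [ev_zero_z H.add ha]
    exact ((hK r a).1 ((hZ a).1 (hdf.cc_le (e ▸ ha)) r hr)).2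

/-- the graph of the scalar multiplication, coded through the orbit of a₁ -/
def Grz (A : Subgroup G) (ev : R → G → G) (a₁ : G) (X : Set G) (x y z : G) : Prop :=
  ∃ r, x = ev r a₁ ∧ x ∈ X ∧ y ∈ A ∧ z = ev r y

theorem CAz.gr_mul (H : CAz A M B R ev sc) {a₁ : G} (ha : a₁ ∈ A)
    (hu : ∀ r s, ev r a₁ = ev s a₁ → r = s) {X X' : Set G} (hX : ∀ x ∈ X, ∃ r, ev r a₁ = x)
    (hX' : ∀ x ∈ X', ∃ r, ev r a₁ = x) (d : Dr3 (Grz A ev a₁ X)) (d' : Dr3 (Grz A ev a₁ X')) :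
    Dr3 (Grz A ev a₁ (X * X')) := by
  refine Dp.congr (p := fun v : Fin 3 → G => ∃ x z, Grz A ev a₁ X x (v 1) z ∧
    Grz A ev a₁ X' (x⁻¹ * v 0) (v 1) (z⁻¹ * v 2)) ?_ fun v => ⟨?_, ?_⟩
  · refine Dp.ex (Dp.ex ?_)
    exact (d.comp (Dm.var _) (Dm.var _) (Dm.var _)).and
      (d'.comp ((Dm.var _).inv.mul (Dm.var _)) (Dm.var _) ((Dm.var _).inv.mul (Dm.var _)))
  · rintro ⟨x, z, ⟨r, e1, e2, e3, e4⟩, s, f1, f2, -, f4⟩
    refine ⟨r + s, ?_, ⟨x, e2, _, f2, mul_inv_cancel_left _ _⟩, e3, ?_⟩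
    · rw [H.add _ _ _ ha, ← e1, ← f1, mul_inv_cancel_left]
    · rw [H.add _ _ _ e3, ← e4, ← f4, mul_inv_cancel_left]
  · rintro ⟨t, e1, ⟨x, hx, x', hx', e2⟩, e3, e4⟩
    obtain ⟨r, rfl⟩ := hX x hx
    obtain ⟨s, rfl⟩ := hX' x' hx'
    have e5 : ev r a₁ * ev s a₁ = v 0 := e2
    obtain rfl : t = r + s := hu _ _ (by rw [H.add _ _ _ ha, e5, e1])
    refine ⟨_, _, ⟨r, rfl, hx, e3, rfl⟩, s, ?_, ?_, e3, ?_⟩
    · rw [← e5, inv_mul_cancel_left]
    · rwa [← e5, inv_mul_cancel_left]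
    · rw [e4, H.add _ _ _ e3, inv_mul_cancel_left]

theorem CAz.gr_inv (H : CAz A M B R ev sc) {a₁ : G} (ha : a₁ ∈ A) {X : Set G}
    (d : Dr3 (Grz A ev a₁ X)) : Dr3 (Grz A ev a₁ X⁻¹) := by
  refine Dp.congr (d.comp (Dm.var 0).inv (Dm.var 1) (Dm.var 2).inv) fun v => ⟨?_, ?_⟩
  · rintro ⟨r, e1, e2, e3, e4⟩
    exact ⟨-r, by rw [ev_neg_z H.add _ ha, ← e1, inv_inv], e2, e3,
      by rw [ev_neg_z H.add _ e3, ← e4, inv_inv]⟩
  · rintro ⟨r, e1, e2, e3, e4⟩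
    exact ⟨-r, by rw [ev_neg_z H.add _ ha, ← e1], e2, e3, by rw [ev_neg_z H.add _ e3, ← e4]⟩

end caz

theorem ZS.exists_fa (h : ZS A M B) : ∃ (K : Type u) (_ : Field K) (ev : K → G → G) (sc : G → K)
    (a₁ : G) (A₁ : Subgroup G), FA A M B K ev sc a₁ A₁ := by
  classical
  obtain ⟨R, _, ev, sc, H⟩ := h.exists_caz
  have hA : A ≠ ⊥ := fun e => h.ne (le_Cn_comm.1 (e ▸ bot_le))
  obtain ⟨A₁, h1, h3, h2, h4, h5⟩ := exists_min_inv h.cA hA (h.MB.trans h.BA)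
  have hf : ∀ r, (∀ a ∈ A₁, ev r a = 1) → r = 0 := fun r => H.faith h h1 h2 h3 h4 h5
  have hex : ∃ a₁ ∈ A₁, ∃ m ∈ M, (a₁ * m * a₁⁻¹)⁻¹ * m ≠ 1 := by
    by_contra hc
    push Not at hc
    refine h.ne fun m hm => mem_Cn.2 fun a ha => ?_
    have e : sc m - 1 = 0 := hf _ fun a ha => by
      rw [H.sub _ _ (h3 ha), H.sc m hm a (h3 ha), H.one a (h3 ha)]
      calc _ = ((a * m⁻¹ * a⁻¹)⁻¹ * m⁻¹)⁻¹ := by group
        _ = 1 := by rw [hc a ha _ (M.inv_mem hm), inv_one]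
    have e' := H.sc m hm a ha
    rw [sub_eq_zero.1 e, H.one a ha] at e'
    exact mul_inv_eq_iff_eq_mul.1 e'.symm |>.symm
  obtain ⟨a₁, ha₁, m₀, hm₀, hne⟩ := hex
  have ha := h3 ha₁
  let U : Set G := (fun m => (a₁ * m * a₁⁻¹)⁻¹ * m) '' M
  have hU : Indec U := indec_orbit h.cM (dm1_conj a₁) fun x _ y _ => map_mul (MulAut.conj a₁) x y
  have hUe : ∀ m ∈ M, ∀ a ∈ A, ev (1 - sc m⁻¹) a = (a * m * a⁻¹)⁻¹ * m := fun m hm a ha => by
    rw [H.sub _ _ ha, H.one a ha, H.sc _ (M.inv_mem hm) a ha]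
    group
  obtain ⟨hc, k, hk⟩ := zit_one hU
  have hR : ∀ x ∈ Subgroup.closure U, ∃ r, ev r a₁ = x := fun x hx => by
    induction hx using Subgroup.closure_induction with
    | mem x hx =>
      obtain ⟨m, hm, rfl⟩ := hx
      exact ⟨_, hUe m hm a₁ ha⟩
    | one => exact ⟨0, ev_zero_z H.add ha⟩
    | mul x y _ _ ihx ihy =>
      obtain ⟨r, rfl⟩ := ihx
      obtain ⟨s, rfl⟩ := ihy
      exact ⟨r + s, H.add _ _ _ ha⟩
    | inv x _ ihx =>
      obtain ⟨r, rfl⟩ := ihx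
      exact ⟨-r, ev_neg_z H.add _ ha⟩
  have hin : ∀ r, ev r a₁ ∈ A₁ := fun r => H.inv A₁ h3 h4 r a₁ ha₁
  have hcl : Subgroup.closure U = A₁ := by
    refine (h5 _ hc (fun x hx => ?_) (le_Nm_of_conj fun m hm x hx => ?_)).resolve_left fun e => ?_
    · obtain ⟨r, rfl⟩ := hR x hx
      exact hin r
    · have : Subgroup.closure U ≤ (Subgroup.closure U).comap (MulAut.conj m).toMonoidHom := by
        rw [Subgroup.closure_le]
        rintro _ ⟨n, hn, rfl⟩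
        have := mul_mem (inv_mem (Subgroup.subset_closure (k := U) ⟨_, M.inv_mem hm, rfl⟩))
          (Subgroup.subset_closure (k := U) ⟨_, M.mul_mem hn (M.inv_mem hm), rfl⟩)
        change m * ((a₁ * n * a₁⁻¹)⁻¹ * n) * m⁻¹ ∈ Subgroup.closure U
        convert this using 1
        group
      exact this hx
    · exact hne (Subgroup.mem_bot.1 (e ▸ Subgroup.subset_closure (k := U) ⟨m₀, hm₀, rfl⟩))
  rw [hcl] at hR hk
  have hu : ∀ r s, ev r a₁ = ev s a₁ → r = s := fun r s e => sub_eq_zero.1 (hf _ fun a ha' => by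
    obtain ⟨t, rfl⟩ := hR a ha'
    rw [← H.mul _ _ _ ha, mul_comm, H.mul _ _ _ ha, H.sub _ _ ha, e, mul_inv_cancel, H.ev_one])
  have hne1 : a₁ ≠ 1 := fun e => hne (by rw [e]; group)
  have hK : IsField R := by
    refine ⟨⟨0, 1, fun e => hne1 ?_⟩, mul_comm, fun {r} hr => ?_⟩
    · rw [← H.one a₁ ha, ← e, ev_zero_z H.add ha]
    · obtain ⟨a', ha', e⟩ := ((H.dich h1 h3 h4 h5 r).resolve_left fun e => hr (hf r e)) a₁ ha₁
      obtain ⟨s, rfl⟩ := hR a' ha'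
      exact ⟨s, hu _ _ (by rw [H.mul _ _ _ ha, e, H.one _ ha])⟩
  have hpow : ∀ n : ℕ, U ^ n ⊆ A₁ := fun n => by
    induction n with
    | zero => exact fun x hx => (show x = 1 from hx) ▸ A₁.one_mem
    | succ n ih =>
      rw [pow_succ]
      rintro _ ⟨x, hx, y, hy, rfl⟩
      exact A₁.mul_mem (ih hx) (hcl ▸ Subgroup.subset_closure hy)
  have dU : Dr3 (Grz A ev a₁ U) := by
    refine Dp.congr (p := fun v : Fin 3 → G => ∃ m, m ∈ M ∧ v 0 = (a₁ * m * a₁⁻¹)⁻¹ * m ∧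
      v 1 ∈ A ∧ v 2 = (v 1 * m * (v 1)⁻¹)⁻¹ * m) ?_ fun v => ⟨?_, ?_⟩
    · refine Dp.ex ?_
      exact (h.cM.df.mem (Dm.var _)).and ((Dp.eq (Dm.var _)
        ((((Dm.const _).mul (Dm.var _)).mul (Dm.const _)).inv.mul (Dm.var _))).and
        ((h.cA.df.mem (Dm.var _)).and (Dp.eq (Dm.var _)
          ((((Dm.var _).mul (Dm.var _)).mul (Dm.var _).inv).inv.mul (Dm.var _)))))
    · rintro ⟨m, hm, e1, e2, e3⟩
      exact ⟨1 - sc m⁻¹, by rw [hUe m hm _ ha, e1], ⟨m, hm, e1.symm⟩, e2,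
        by rw [hUe m hm _ e2, e3]⟩
    · rintro ⟨r, e1, ⟨m, hm, e2⟩, e3, e4⟩
      obtain rfl : r = 1 - sc m⁻¹ := hu _ _ (by rw [hUe m hm _ ha, ← e1]; exact e2.symm)
      exact ⟨m, hm, e2.symm, e3, by rw [e4, hUe m hm _ e3]⟩
  have dP : ∀ n : ℕ, Dr3 (Grz A ev a₁ (U ^ n)) := fun n => by
    induction n with
    | zero =>
      refine Dp.congr (p := fun v : Fin 3 → G => v 0 = 1 ∧ v 1 ∈ A ∧ v 2 = 1)
        ((Dp.eq (Dm.var _) (Dm.const _)).and ((h.cA.df.mem (Dm.var _)).and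
          (Dp.eq (Dm.var _) (Dm.const _)))) fun v => ⟨?_, ?_⟩
      · rintro ⟨e1, e2, e3⟩
        exact ⟨0, by rw [ev_zero_z H.add ha, e1], e1, e2, by rw [ev_zero_z H.add e2, e3]⟩
      · rintro ⟨r, e1, e2, e3, e4⟩
        obtain rfl : r = 0 := hu _ _ (by rw [ev_zero_z H.add ha, ← e1]; exact e2)
        exact ⟨e2, e3, by rw [e4, ev_zero_z H.add e3]⟩
    | succ n ih =>
      rw [pow_succ]
      exact H.gr_mul ha hu (fun x hx => hR x (hpow n hx))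
        (fun x hx => hR x (hcl ▸ Subgroup.subset_closure hx)) ih dU
  have dA := H.gr_mul ha hu (fun x hx => hR x (hpow k hx))
    (fun x hx => hR x (A₁.inv_mem_iff.1 (hpow k hx))) (dP k) (H.gr_inv ha (dP k))
  refine ⟨R, hK.toField, ev, sc, a₁, A₁, @FA.mk G _ _ A M B R hK.toField ev sc a₁ A₁ H.mem H.hom
    H.one H.add H.mul H.sc H.conj ha hne1 h1 h4 ?_ ?_
    (Dp.congr dA fun v => exists_congr fun r => and_congr_right fun e => and_iff_right ?_)⟩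
  · ext x
    exact ⟨hR x, by rintro ⟨r, rfl⟩; exact hin r⟩
  · obtain ⟨s, hs, hs'⟩ := h.fin_conj h1 h2 h3
    refine ⟨s.image fun b => b * a₁ * b⁻¹, fun x hx => ?_, fun Y hY => hs' Y fun b hb a ha' => ?_⟩
    · obtain ⟨b, hb, rfl⟩ := Finset.mem_image.1 hx
      exact conj_mem (h.BA (hs hb)) ha
    · obtain ⟨r, rfl⟩ := hR a ha'
      obtain ⟨t, ht⟩ := H.conj b (hs hb) r
      have := hY t _ (Finset.mem_image_of_mem _ hb)
      rwa [ht _ (conj_mem (h.BA (hs hb)) ha), show b⁻¹ * (b * a₁ * b⁻¹) * b = a₁ by group] at this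
  · obtain ⟨a, ha', b, hb, e'⟩ := hk _ (e ▸ hin r)
    exact ⟨a, ha', b⁻¹, inv_mem_inv.2 hb, e'.symm⟩

end Pool.Agent.MP_fcbc9a_lc.H58
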