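import Pool.Agent.MP_fcbc9a_lc.H58.ZilA
import Pool.Agent.MP_fcbc9a_lc.H58.Sec
import Pool.Agent.MP_fcbc9a_lc.H58.Fld

/-!
The field theorem, second half: consequences.
-/

open Set
open scoped commutatorElement

namespace Pool.Agent.MP_fcbc9a_lc.H58

universe u

variable {G : Type u} [Group G] [DS G] [RG G] {A M B : Subgroup G}

section basic

variable {K : Type u} [Field K] {ev : K → G → G} {sc : G → K} {a₁ : G} {A₁ : Subgroup G}
  (h : FA A M B K ev sc a₁ A₁) {a m m' : G} {r s : K}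
include h
omit [RG G]

theorem FA.zero_zb (ha : a ∈ A) : ev 0 a = 1 := by
  have := h.add 0 0 a ha
  rw [add_zero] at this
  exact left_eq_mul.1 this

theorem FA.neg_zb (r : K) (ha : a ∈ A) : ev (-r) a = (ev r a)⁻¹ := by
  have := h.add (-r) r a ha
  rw [neg_add_cancel, h.zero_zb ha] at this
  exact eq_inv_of_mul_eq_one_left this.symm

theorem FA.sub_zb (r s : K) (ha : a ∈ A) : ev (r - s) a = ev r a * (ev s a)⁻¹ := by
  rw [sub_eq_add_neg, h.add _ _ a ha, h.neg_zb s ha]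

theorem FA.inv_ev_zb (hr : r ≠ 0) (ha : a ∈ A) : ev r⁻¹ (ev r a) = a := by
  rw [← h.mul _ _ a ha, inv_mul_cancel₀ hr, h.one a ha]

theorem FA.ev_inv_zb (hr : r ≠ 0) (ha : a ∈ A) : ev r (ev r⁻¹ a) = a := by
  rw [← h.mul _ _ a ha, mul_inv_cancel₀ hr, h.one a ha]

theorem FA.eq_one_zb (hr : r ≠ 0) (ha : a ∈ A) (e : ev r a = 1) : a = 1 := by
  rw [← h.inv_ev_zb hr ha, e, (h.hom _).one]

theorem FA.inj_zb (e : ev r a₁ = ev s a₁) : r = s := by
  by_contra hne
  apply h.ne₁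
  apply h.eq_one_zb (sub_ne_zero.2 hne) h.mem₁
  rw [h.sub_zb r s h.mem₁, e, mul_inv_cancel]

theorem FA.bij_zb (hr : r ≠ 0) : BijOn (ev r) A A :=
  ⟨fun a ha => h.mem r a ha, (h.hom r).injOn fun _ hx e => h.eq_one_zb hr hx e,
    fun a ha => ⟨_, h.mem r⁻¹ a ha, h.ev_inv_zb hr ha⟩⟩

theorem FA.nat_zb (n : ℕ) (ha : a ∈ A) : ev (n : K) a = a ^ n := by
  induction n with
  | zero => rw [Nat.cast_zero, h.zero_zb ha, pow_zero]
  | succ n ih => rw [Nat.cast_succ, h.add _ _ a ha, ih, h.one a ha, pow_succ]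

theorem FA.sc_mul_zb (hm : m ∈ M) (hm' : m' ∈ M) : sc (m * m') = sc m * sc m' := by
  apply h.inj_zb
  rw [h.mul _ _ _ h.mem₁, h.sc m hm _ (h.mem _ _ h.mem₁), h.sc m' hm' _ h.mem₁,
    h.sc _ (M.mul_mem hm hm') _ h.mem₁]
  group

theorem FA.sc_eq_one_zb (hm : m ∈ M) : sc m = 1 ↔ m ∈ Cn A := by
  rw [mem_Cn]
  constructor
  · intro e a ha
    have := h.sc m hm a ha
    rw [e, h.one a ha] at this
    exact eq_mul_inv_iff_mul_eq.1 this
  · intro e
    apply h.inj_zb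
    rw [h.sc m hm _ h.mem₁, h.one _ h.mem₁, ← (e _ h.mem₁).eq, mul_inv_cancel_right]

theorem FA.sc_pow_zb (hm : m ∈ M) (n : ℕ) : sc (m ^ n) = sc m ^ n := by
  induction n with
  | zero => rw [pow_zero, pow_zero]; exact (h.sc_eq_one_zb M.one_mem).2 (Subgroup.one_mem _)
  | succ n ih => rw [pow_succ, h.sc_mul_zb (M.pow_mem hm n) hm, ih, pow_succ]

theorem FA.mem_zb : a₁ ∈ A₁ := by
  have : a₁ ∈ (A₁ : Set G) := h.rng ▸ ⟨1, h.one _ h.mem₁⟩
  exact this

theorem FA.ne_bot_zb : A₁ ≠ ⊥ := fun e => h.ne₁ (Subgroup.mem_bot.1 (e ▸ h.mem_zb))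

theorem FA.tern_zb {y z : G} :
    (∃ t, ev r a₁ = ev t a₁ ∧ y ∈ A ∧ z = ev t y) ↔ y ∈ A ∧ z = ev r y :=
  ⟨fun ⟨_, h1, h2, h3⟩ => ⟨h2, h.inj_zb h1 ▸ h3⟩, fun h1 => ⟨r, rfl, h1.1, h1.2⟩⟩

/-- a scalar acts as the restriction of a definable map -/
theorem FA.exists_dm_zb (hA : Df A) (r : K) : ∃ f : G → G, Dm1 f ∧ ∀ a ∈ A, f a = ev r a := by
  classical
  refine ⟨fun x => if x ∈ A then ev r x else x, ?_, fun a ha => if_pos ha⟩
  refine Dm1.of_graph (r := fun x y =>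
    (∃ t, ev r a₁ = ev t a₁ ∧ x ∈ A ∧ y = ev t x) ∨ (¬x ∈ (A : Set G) ∧ x = y)) ?_ ?_
  · intro x y
    rw [h.tern_zb]
    by_cases hx : x ∈ A <;> simp [hx, eq_comm]
  · exact (h.df.comp (Dm.const _) (Dm.var 0) (Dm.var 1)).or
      ((Ds.mem hA (Dm.var 0)).not.and (Dp.eq (Dm.var 0) (Dm.var 1)))

end basic

theorem ZS.bij (h : ZS A M B) {m : G} (hm : m ∈ M) (hm' : m ∉ Cn A) :
    BijOn (fun a : G => ⁅a, m⁆) A A := by
  obtain ⟨K, _, ev, sc, a₁, A₁, hf⟩ := h.exists_fa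
  have h1 : 1 - sc m ≠ 0 := fun e => hm' ((hf.sc_eq_one_zb hm).1 (sub_eq_zero.1 e).symm)
  refine (hf.bij_zb h1).congr fun a ha => ?_
  rw [hf.sub_zb _ _ ha, hf.one a ha, hf.sc m hm a ha, commutatorElement_def]
  group

theorem ZS.pow (h : ZS A M B) {n : ℕ} (hn : n ≠ 0) : ∃ m ∈ M, m ^ n ∉ Cn A := by
  classical
  obtain ⟨K, _, ev, sc, a₁, A₁, hf⟩ := h.exists_fa
  by_contra hcon
  push Not at hcon
  refine h.ne (h.cM.2 _ h.cA.df.cn (relIndex_ne_zero_of_color (c := sc)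
    (s := ((Polynomial.nthRoots n (1 : K)).toFinset : Set K)) (Finset.finite_toSet _) ?_ ?_))
  · intro m hm
    rw [Finset.mem_coe, Multiset.mem_toFinset, Polynomial.mem_nthRoots (Nat.pos_of_ne_zero hn),
      ← hf.sc_pow_zb hm]
    exact (hf.sc_eq_one_zb (M.pow_mem hm n)).2 (hcon m hm)
  · intro m hm m' hm' e
    rw [← hf.sc_eq_one_zb (M.mul_mem (M.inv_mem hm) hm'), hf.sc_mul_zb (M.inv_mem hm) hm', ← e,
      ← hf.sc_mul_zb (M.inv_mem hm) hm, inv_mul_cancel]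
    exact (hf.sc_eq_one_zb M.one_mem).2 (Subgroup.one_mem _)

theorem FA.exists_dfld {K : Type u} [Field K] {ev : K → G → G} {sc : G → K} {a₁ : G}
    {A₁ : Subgroup G} (h : FA A M B K ev sc a₁ A₁) :
    ∃ _ : DS K, IsSpan (fun r => ev r a₁) (fun r : K => r) ∧ DFld K ∧ Infinite K := by
  have hr : Ds (range fun r => ev r a₁) := h.rng ▸ h.conn₁.df
  obtain ⟨inst, hs⟩ := exists_span (ι := fun r => ev r a₁) (π := fun r : K => r)
    (fun _ _ e => h.inj_zb e) (fun r => ⟨r, rfl⟩) hr (by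
      refine ((hr.mem (Dm.var (0 : Fin 2))).and (Dp.eq (Dm.var 0) (Dm.var 1))).congr fun v => ?_
      constructor
      · rintro ⟨⟨w, hw⟩, e⟩
        exact ⟨w, w, hw, hw.trans e, rfl⟩
      · rintro ⟨w, w', h1, h2, rfl⟩
        exact ⟨⟨w, h1⟩, h1.symm.trans h2⟩)
  refine ⟨inst, hs, ⟨?_, ?_, hs.fin RG.fin, hs.deg1 (fun _ _ e => e) (h.rng ▸ h.conn₁.deg1)⟩, ?_⟩
  · exact hs.dm (g := fun v : Fin 2 → G => v 0 * v 1) ((Dm.var 0).mul (Dm.var 1))
      fun w => ⟨w 0 + w 1, h.add _ _ _ h.mem₁, rfl⟩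
  · refine (hs.iff _).2 ⟨_, h.df.comp (Dm.var (some (0 : Fin 2))) (Dm.var (some 1)) (Dm.var none),
      fun w => ?_⟩
    rw [h.tern_zb, ← h.mul _ _ _ h.mem₁]
    exact ⟨fun e => ⟨h.mem _ _ h.mem₁, congrArg (fun r => ev r a₁) e⟩, fun e => h.inj_zb e.2⟩
  · have h1 := h.conn₁.infinite h.ne_bot_zb
    rw [h.rng] at h1
    by_contra hn
    have := not_infinite_iff_finite.1 hn
    exact h1 (finite_range _)

/-- conjugation by B is linear -/
theorem FA.lin_zb {K : Type u} [Field K] {ev : K → G → G} {sc : G → K} {a₁ : G}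
    {A₁ : Subgroup G} (h : FA A M B K ev sc a₁ A₁) (hA : Df A) (hB : Conn B) (hBA : B ≤ Nm A)
    (r : K) : ∀ b ∈ B, ∀ a ∈ A, ev r (b * a * b⁻¹) = b * ev r a * b⁻¹ := by
  obtain ⟨_, hs, hK, _⟩ := h.exists_dfld
  let K₀ : Subfield K :=
    { carrier := {r | ∀ b ∈ B, ∀ a ∈ A, ev r (b * a * b⁻¹) = b * ev r a * b⁻¹}
      mul_mem' := fun {r s} hr hs b hb a ha => by
        rw [h.mul _ _ _ (conj_mem (hBA hb) ha), hs b hb a ha, hr b hb _ (h.mem _ _ ha),
          h.mul _ _ _ ha]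
      one_mem' := fun b hb a ha => by rw [h.one _ (conj_mem (hBA hb) ha), h.one _ ha]
      add_mem' := fun {r s} hr hs b hb a ha => by
        rw [h.add _ _ _ (conj_mem (hBA hb) ha), hs b hb a ha, hr b hb a ha, h.add _ _ _ ha]
        group
      zero_mem' := fun b hb a ha => by
        rw [h.zero_zb (conj_mem (hBA hb) ha), h.zero_zb ha]
        group
      neg_mem' := fun {r} hr b hb a ha => by
        rw [h.neg_zb _ (conj_mem (hBA hb) ha), hr b hb a ha, h.neg_zb _ ha]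
        group
      inv_mem' := fun r hr b hb a ha => by
        by_cases h0 : r = 0
        · rw [h0, inv_zero, h.zero_zb (conj_mem (hBA hb) ha), h.zero_zb ha]
          group
        · have := hr b hb _ (h.mem r⁻¹ a ha)
          rw [h.ev_inv_zb h0 ha] at this
          rw [← this, h.inv_ev_zb h0 (conj_mem (hBA hb) (h.mem _ _ ha))] }
  have hmem : ∀ r, r ∈ K₀ ↔ ∀ b ∈ B, ∀ a ∈ A, ev r (b * a * b⁻¹) = b * ev r a * b⁻¹ :=
    fun _ => Iff.rfl
  have hD : Ds (K₀ : Set K) := by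
    refine (hs.iff _).2 ⟨fun u : Fin 1 → G => ∀ b, b ∈ B → ∀ a z,
      (∃ t, u 0 = ev t a₁ ∧ a ∈ A ∧ z = ev t a) →
        ∃ t, u 0 = ev t a₁ ∧ b * a * b⁻¹ ∈ A ∧ b * z * b⁻¹ = ev t (b * a * b⁻¹), ?_, fun w => ?_⟩
    · refine Dp.all ((hB.df.mem (Dm.var _)).imp (Dp.all (Dp.all ?_)))
      exact (h.df.comp (Dm.var _) (Dm.var _) (Dm.var _)).imp (h.df.comp (Dm.var _)
        (((Dm.var _).mul (Dm.var _)).mul (Dm.var _).inv)
        (((Dm.var _).mul (Dm.var _)).mul (Dm.var _).inv))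
    · simp only [h.tern_zb]
      constructor
      · rintro e b hb a z ⟨ha, rfl⟩
        exact ⟨conj_mem (hBA hb) ha, (e b hb a ha).symm⟩
      · exact fun e b hb a ha => (e b hb a _ ⟨ha, rfl⟩).2.symm
  have hsq : ∀ s, s * s ∈ K₀ → s ∈ K₀ := by
    intro s hss
    let S : Subgroup G :=
      { carrier := {b | b ∈ B ∧ ∀ a ∈ A, ev s (b * a * b⁻¹) = b * ev s a * b⁻¹}
        one_mem' := ⟨B.one_mem, fun a _ => by simp⟩
        mul_mem' := fun {b c} hb hc => ⟨B.mul_mem hb.1 hc.1, fun a ha => by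
          have := hb.2 _ (conj_mem (hBA hc.1) ha)
          rw [hc.2 a ha] at this
          rw [show b * c * a * (b * c)⁻¹ = b * (c * a * c⁻¹) * b⁻¹ by group, this]
          group⟩
        inv_mem' := fun {b} hb => ⟨B.inv_mem hb.1, fun a ha => by
          have := hb.2 _ (conj_mem' (hBA hb.1) ha)
          rw [show b * (b⁻¹ * a * b) * b⁻¹ = a by group] at this
          rw [this, inv_inv]
          group⟩ }
    have hS : Df S := by
      obtain ⟨f, hf, e⟩ := h.exists_dm_zb hA s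
      have h1 : Dp fun v : Fin 1 → G => v 0 ∈ B ∧ ∀ a, a ∈ A →
          f (v 0 * a * (v 0)⁻¹) = v 0 * f a * (v 0)⁻¹ :=
        (hB.df.mem (Dm.var _)).and (Dp.all ((hA.mem (Dm.var _)).imp (Dp.eq
          (hf.comp (((Dm.var _).mul (Dm.var _)).mul (Dm.var _).inv))
          (((Dm.var _).mul (hf.comp (Dm.var _))).mul (Dm.var _).inv))))
      refine h1.congr fun v => and_congr_right fun hv => forall₂_congr fun a ha => ?_
      rw [e _ (conj_mem (hBA hv) ha), e a ha]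
    have hc := fun b hb => h.conj b hb s
    choose! c hc using hc
    have hle := hB.2 S hS (relIndex_ne_zero_of_color (c := c) (s := {s, -s}) (toFinite _) (by
      intro b hb
      have h1 : c b * c b = s * s := by
        apply h.inj_zb
        have h2 := conj_mem' (hBA hb) h.mem₁
        have h3 := hss b hb _ h2
        rw [show b * (b⁻¹ * a₁ * b) * b⁻¹ = a₁ by group] at h3
        rw [h.mul _ _ _ h.mem₁, hc b hb _ (h.mem _ _ h.mem₁), hc b hb _ h.mem₁, h3,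
          h.mul _ _ _ h2]
        congr 3
        group
      exact mul_self_eq_mul_self_iff.1 h1) (by
      intro b hb b' hb' e
      refine ⟨B.mul_mem (B.inv_mem hb) hb', fun a ha => ?_⟩
      have h1 := hc b hb _ (conj_mem (hBA hb') ha)
      rw [e, hc b' hb' _ (conj_mem (hBA hb') ha),
        show b'⁻¹ * (b' * a * b'⁻¹) * b' = a by group] at h1
      rw [show b⁻¹ * b' * a * (b⁻¹ * b')⁻¹ = b⁻¹ * (b' * a * b'⁻¹) * b by group,
        show b⁻¹ * b' * ev s a * (b⁻¹ * b')⁻¹ = b⁻¹ * (b' * ev s a * b'⁻¹) * b by group, h1]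
      group))
    exact fun b hb => (hle hb).2
  have hinf : (K₀ : Set K).Infinite := by
    intro hfin
    have : Finite K₀ := hfin
    have h1 : Function.Surjective fun x : K₀ => x * x := by
      intro x
      obtain ⟨y, hy⟩ := hK.sq (x : K)
      exact ⟨⟨y, hsq y (hy ▸ x.2)⟩, Subtype.ext hy⟩
    have h2 : (-1 : K₀) = 1 := Finite.injective_iff_surjective.2 h1 (by simp)
    have h3 : (-1 : K) = 1 := by simpa using congrArg Subtype.val h2
    have h4 := h.neg_zb 1 h.mem₁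
    rw [h3, h.one _ h.mem₁] at h4
    exact h.ne₁ (RG.inv2 _ (mul_eq_one_iff_eq_inv.2 h4))
  exact (hmem r).1 (hK.subfield K₀ hD hinf ▸ Subfield.mem_top r)

theorem ZS.not_le (h : ZS A M B) : ¬M ≤ ⁅B, B⁆ := by
  intro hle
  obtain ⟨K, _, ev, sc, a₁, A₁, hf⟩ := h.exists_fa
  have lin := hf.lin_zb h.cA.df h.cB h.BA
  let _ : CommGroup A := { (inferInstance : Group A) with
    mul_comm := fun a b => Subtype.ext (h.ab _ a.2 _ b.2) }
  let _ : SMul K (Additive A) := ⟨fun r a => Additive.ofMul ⟨ev r a.toMul, hf.mem r _ a.toMul.2⟩⟩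
  have sm : ∀ (r : K) (a : Additive A), ((r • a).toMul : G) = ev r a.toMul := fun _ _ => rfl
  have ext : ∀ a b : Additive A, (a.toMul : G) = b.toMul → a = b :=
    fun a b e => Additive.toMul.injective (Subtype.ext e)
  let _ : Module K (Additive A) :=
    { one_smul := fun a => ext _ _ (hf.one _ a.toMul.2)
      mul_smul := fun r s a => ext _ _ (hf.mul r s _ a.toMul.2)
      smul_zero := fun r => ext _ _ (hf.hom r).one
      smul_add := fun r a b => ext _ _ (hf.hom r _ a.toMul.2 _ b.toMul.2)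
      add_smul := fun r s a => ext _ _ (hf.add r s _ a.toMul.2)
      zero_smul := fun a => ext _ _ (hf.zero_zb a.toMul.2) }
  have hfin : Module.Finite K (Additive A) := by
    obtain ⟨s, hs, hsp⟩ := hf.span
    have h1 : {a : Additive A | (a.toMul : G) ∈ s}.Finite :=
      s.finite_toSet.preimage (f := fun a : Additive A => (a.toMul : G)) fun a _ b _ e => ext a b e
    refine ⟨Submodule.fg_def.2 ⟨_, h1, ?_⟩⟩
    let W := Submodule.span K {a : Additive A | (a.toMul : G) ∈ s}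
    let Y : Subgroup G :=
      { carrier := {x | ∃ a ∈ W, ((Additive.toMul a : A) : G) = x}
        one_mem' := ⟨0, W.zero_mem, rfl⟩
        mul_mem' := by
          rintro _ _ ⟨a, ha, rfl⟩ ⟨b, hb, rfl⟩
          exact ⟨a + b, W.add_mem ha hb, rfl⟩
        inv_mem' := by
          rintro _ ⟨a, ha, rfl⟩
          exact ⟨-a, W.neg_mem ha, rfl⟩ }
    have h2 := hsp Y fun r a ha => ⟨r • Additive.ofMul ⟨a, hs ha⟩,
      W.smul_mem r (Submodule.subset_span ha), rfl⟩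
    refine eq_top_iff.2 fun a _ => ?_
    obtain ⟨b, hb, e⟩ := h2 a.toMul.2
    exact ext _ _ e ▸ hb
  have : Nontrivial (Additive A) :=
    ⟨⟨Additive.ofMul ⟨a₁, hf.mem₁⟩, 0, fun e => hf.ne₁ (congrArg (fun a => (a.toMul : G)) e)⟩⟩
  let ρ : B →* Module.End K (Additive A) :=
    { toFun := fun b =>
        { toFun := fun a => Additive.ofMul ⟨b * a.toMul * (b : G)⁻¹, conj_mem (h.BA b.2) a.toMul.2⟩
          map_add' := fun a a' => ext _ _ (by
            change (b : G) * ((a.toMul : G) * a'.toMul) * (b : G)⁻¹ =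
              b * a.toMul * (b : G)⁻¹ * (b * a'.toMul * (b : G)⁻¹)
            group)
          map_smul' := fun r a => ext _ _ (lin r b b.2 _ a.toMul.2).symm }
      map_one' := LinearMap.ext fun a => ext _ _ (by
        change (1 : G) * a.toMul * 1⁻¹ = a.toMul
        group)
      map_mul' := fun b c => LinearMap.ext fun a => ext _ _ (by
        change ((b : G) * c) * a.toMul * ((b : G) * c)⁻¹ =
          b * (c * a.toMul * (c : G)⁻¹) * (b : G)⁻¹
        group) }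
  let φ : B →* Kˣ := (LinearMap.det.comp ρ).toHomUnits
  have hk : ⁅B, B⁆ ≤ φ.ker.map B.subtype := by
    refine Subgroup.commutator_le.2 fun b hb c hc => ⟨⁅(⟨b, hb⟩ : B), ⟨c, hc⟩⁆, ?_, rfl⟩
    rw [SetLike.mem_coe, MonoidHom.mem_ker, map_commutatorElement,
      commutatorElement_eq_one_iff_commute]
    exact Commute.all _ _
  obtain ⟨m, hm, hm'⟩ := h.pow (Module.finrank_pos (R := K) (M := Additive A)).ne'
  obtain ⟨b, hb, rfl⟩ := hk (hle hm)
  apply hm'
  rw [← hf.sc_eq_one_zb (M.pow_mem hm _), hf.sc_pow_zb hm]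
  have h1 : LinearMap.det (ρ b) = 1 := congrArg Units.val (MonoidHom.mem_ker.1 hb)
  have h2 : ρ b = sc (B.subtype b) • LinearMap.id :=
    LinearMap.ext fun a => ext _ _ (hf.sc _ hm _ a.toMul.2).symm
  rwa [h2, LinearMap.det_smul, LinearMap.det_id, mul_one] at h1

theorem ZS.dich (h : ZS A M M) : (∃ p, p ≠ 0 ∧ ∀ a ∈ A, a ^ p = 1) ∨ (TF A ∧ MinS A) := by
  obtain ⟨K, _, ev, sc, a₁, A₁, hf⟩ := h.exists_fa
  have hle : A₁ ≤ A := by
    intro x hx
    obtain ⟨r, rfl⟩ : x ∈ range fun r => ev r a₁ := hf.rng ▸ hx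
    exact hf.mem r _ hf.mem₁
  obtain rfl : A₁ = A := (h.min A₁ hf.conn₁ hle hf.nm₁).resolve_left hf.ne_bot_zb
  obtain ⟨p, hp⟩ := CharP.exists K
  by_cases hp0 : p = 0
  swap
  · exact Or.inl ⟨p, hp0, fun a ha => by rw [← hf.nat_zb p ha, CharP.cast_eq_zero, hf.zero_zb ha]⟩
  subst hp0
  have : CharZero K := CharP.charP_to_charZero K
  refine Or.inr ⟨fun a ha n hn e => hf.eq_one_zb (Nat.cast_ne_zero.2 hn) ha
    ((hf.nat_zb n ha).trans e), h.cA.df, h.cA.infinite hf.ne_bot_zb, fun Y hY hYA hi => ?_⟩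
  obtain ⟨_, hs, hK, _⟩ := hf.exists_dfld
  let K₁ : Subfield K :=
    { carrier := {r | ∀ y ∈ Y, ev r y ∈ Y}
      mul_mem' := fun {r s} hr hs y hy => by
        rw [hf.mul _ _ _ (hYA hy)]
        exact hr _ (hs y hy)
      one_mem' := fun y hy => by rwa [hf.one _ (hYA hy)]
      add_mem' := fun {r s} hr hs y hy => by
        rw [hf.add _ _ _ (hYA hy)]
        exact Y.mul_mem (hr y hy) (hs y hy)
      zero_mem' := fun y hy => by
        rw [hf.zero_zb (hYA hy)]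
        exact Y.one_mem
      neg_mem' := fun {r} hr y hy => by
        rw [hf.neg_zb _ (hYA hy)]
        exact Y.inv_mem (hr y hy)
      inv_mem' := fun r hr y hy => by
        by_cases h0 : r = 0
        · rw [h0, inv_zero, hf.zero_zb (hYA hy)]
          exact Y.one_mem
        · obtain ⟨f, hf1, e⟩ := hf.exists_dm_zb h.cA.df r
          obtain ⟨x, hx, rfl⟩ := surj_of_inj hY hf1
            (fun a ha b hb => by
              rw [e _ (hYA (Y.mul_mem ha hb)), e _ (hYA ha), e _ (hYA hb),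
                hf.hom r _ (hYA ha) _ (hYA hb)])
            (fun a ha => by rw [e _ (hYA ha)]; exact hr a ha)
            (fun a ha b hb e' => (hf.bij_zb h0).injOn (hYA ha) (hYA hb)
              (by rwa [e _ (hYA ha), e _ (hYA hb)] at e')) hy
          rw [e _ (hYA hx), hf.inv_ev_zb h0 (hYA hx)]
          exact hx }
  have hD : Ds (K₁ : Set K) := by
    refine (hs.iff _).2 ⟨fun u : Fin 1 → G => ∀ y, y ∈ Y → ∀ z,
      (∃ t, u 0 = ev t a₁ ∧ y ∈ A₁ ∧ z = ev t y) → z ∈ Y, ?_, fun w => ?_⟩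
    · exact Dp.all ((hY.mem (Dm.var _)).imp (Dp.all
        ((hf.df.comp (Dm.var _) (Dm.var _) (Dm.var _)).imp (hY.mem (Dm.var _)))))
    · simp only [hf.tern_zb]
      constructor
      · rintro e y hy z ⟨-, rfl⟩
        exact e y hy
      · exact fun e y hy => e y hy _ ⟨hYA hy, rfl⟩
  have htop := hK.subfield K₁ hD (infinite_of_injective_forall_mem (f := fun n : ℕ => (n : K))
    Nat.cast_injective fun n => natCast_mem K₁ n)
  obtain ⟨y, hy, hy1⟩ := hi.exists_notMem_finite (finite_singleton 1)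
  obtain ⟨r, rfl⟩ : y ∈ range fun r => ev r a₁ := hf.rng ▸ hYA hy
  have h0 : r ≠ 0 := fun e => hy1 (e ▸ hf.zero_zb hf.mem₁)
  intro a ha
  obtain ⟨s, rfl⟩ : a ∈ range fun r => ev r a₁ := hf.rng ▸ ha
  have h1 : s * r⁻¹ ∈ K₁ := htop ▸ Subfield.mem_top _
  have h2 := h1 _ hy
  rwa [← hf.mul _ _ _ hf.mem₁, inv_mul_cancel_right₀ h0] at h2

theorem comm_le_Cn_of_min (hB : Conn B) (hs : Sol B) (hA : Conn A) (ha : Ab A) (hBA : B ≤ Nm A)
    (hmin : ∀ Y, Conn Y → Y ≤ A → B ≤ Nm Y → Y = ⊥ ∨ Y = A) : ⁅B, B⁆ ≤ Cn A := by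
  by_contra hcon
  obtain ⟨n, hn⟩ := hs
  obtain ⟨i, h1, h2⟩ := exists_last (s := fun i => der B (i + 1)) (K := Cn A) (n := n) hcon
    (by rw [der_succ, hn, Subgroup.commutator_bot_left])
  exact ZS.not_le ⟨hA, hB.der _, hB, ha, hBA, fun b hb => nm_der (nm_of_mem hb) _, der_le _, h2,
    h1, hmin⟩ (der_succ_le i)

end Pool.Agent.MP_fcbc9a_lc.H58
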