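import Pool.Agent.MP_fcbc9a_lc.H58.Grp

/-!
The indecomposability theorem and its consequences.
-/

open Set
open scoped commutatorElement Pointwise

namespace Pool.Agent.MP_fcbc9a_lc.H58

universe u

variable {G : Type u} [Group G] [DS G]

/-- indecomposable set containing the identity -/
def Indec (U : Set G) : Prop :=
  Ds U ∧ (1 : G) ∈ U ∧ ∀ K : Subgroup G, Df K → ∀ F : Set G, F.Finite →
    (∀ x ∈ U, ∃ t ∈ F, t⁻¹ * x ∈ K) → U ⊆ K

variable [RG G] {σ : MulAut G} {A B F H K L N S T X Y : Subgroup G} {g x : G} {n : ℕ}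

theorem Ds.mul {U V : Set G} (hU : Ds U) (hV : Ds V) : Ds (U * V) :=
  (Dp.ex (r := fun (v : Fin 1 → G) y => y ∈ U ∧ y⁻¹ * v 0 ∈ V)
    ((hU.mem (Dm.var _)).and (hV.mem ((Dm.var _).inv.mul (Dm.var _))))).congr fun v =>
    ⟨fun ⟨y, h1, h2⟩ => ⟨y, h1, _, h2, by simp⟩, fun ⟨y, h1, z, h2, e⟩ =>
      ⟨y, h1, by rw [← e]; simpa using h2⟩⟩

theorem zit {ι : Type*} {U : ι → Set G} (hU : ∀ i, Indec (U i)) :
    Conn (Subgroup.closure (⋃ i, U i)) ∧ ∃ l : List ι, ∀ x ∈ Subgroup.closure (⋃ i, U i),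
      ∃ a ∈ (l.map U).prod, ∃ b ∈ (l.map U).prod, x = a * b⁻¹ := by
  classical
  have hD : ∀ l : List ι, Ds (l.map U).prod := fun l => by
    induction l with
    | nil => exact Ds.singleton 1
    | cons i l ih => rw [List.map_cons, List.prod_cons]; exact (hU i).1.mul ih
  have hC : ∀ l : List ι, (l.map U).prod ⊆ Subgroup.closure (⋃ i, U i) := fun l => by
    induction l with
    | nil => exact fun x hx => (show x = 1 from hx) ▸ Subgroup.one_mem _
    | cons i l ih =>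
      rw [List.map_cons, List.prod_cons]
      rintro _ ⟨a, ha, b, hb, rfl⟩
      exact Subgroup.mul_mem _ (Subgroup.subset_closure (mem_iUnion.2 ⟨i, ha⟩)) (ih hb)
  obtain ⟨m, hm⟩ := RG.fin (G := G)
  have hex : ∃ k, ∀ l : List ι, ¬Rk k (l.map U).prod := ⟨m, fun l h => hm (h.mono (subset_univ _))⟩
  have h0 : Nat.find hex ≠ 0 := fun e => by
    have := Nat.find_spec hex
    rw [e] at this
    exact this [] ⟨1, rfl⟩
  obtain ⟨r, hr⟩ := Nat.exists_eq_succ_of_ne_zero h0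
  have hmax : ∀ l : List ι, ¬Rk (r + 1) (l.map U).prod := by
    have := Nat.find_spec hex
    rwa [hr] at this
  obtain ⟨l, hl⟩ := not_forall.1 (Nat.find_min hex (show r < Nat.find hex by omega))
  obtain ⟨W, hWl, hW⟩ := exists_ir (hD l) (not_not.1 hl) (hmax l)
  obtain ⟨S, hS, hS'⟩ := hW.exists_stab
  have h1 : ∀ i, U i ⊆ S := fun i => by
    by_contra hc
    obtain ⟨f, hf, hf'⟩ := exists_seq_of_forall_finset_exists (fun x => x ∈ U i)
      (fun t x => t⁻¹ * x ∉ S) fun s _ => by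
        by_contra h
        push Not at h
        exact hc ((hU i).2.2 S hS s s.finite_toSet h)
    refine hmax (i :: l) (rk_succ_of_almost_disjoint (Z := fun k => tr (f k) W)
      (fun k => ⟨hW.1.tr _, fun x hx => ?_, hW.2.1.tr _⟩) fun k j hj h => hf' j k hj ?_)
    · rw [List.map_cons, List.prod_cons]
      exact ⟨f k, hf k, _, hWl hx, by simp⟩
    · exact (hS' _).2 ((h.tr (f j)⁻¹).mono fun x hx => by
        simpa [tr, mul_assoc, and_comm] using hx)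
  have h2 : Subgroup.closure (⋃ i, U i) ≤ S := (Subgroup.closure_le _).2 (iUnion_subset h1)
  have h3 : ∀ x ∈ S, ∃ a ∈ (l.map U).prod, ∃ b ∈ (l.map U).prod, x = a * b⁻¹ := fun x hx => by
    obtain ⟨a, ha, hb⟩ := ((hS' x).1 hx).nonempty
    exact ⟨a, hWl ha, _, hWl hb, by simp⟩
  have h4 : S ≤ Subgroup.closure (⋃ i, U i) := fun x hx => by
    obtain ⟨a, ha, b, hb, rfl⟩ := h3 x hx
    exact Subgroup.mul_mem _ (hC l ha) (Subgroup.inv_mem _ (hC l hb))
  refine ⟨⟨le_antisymm h4 h2 ▸ hS, fun K hK hi => ?_⟩, l, fun x hx => h3 x (h2 hx)⟩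
  obtain ⟨F, hF, -, hc⟩ := cover_of_relIndex hi
  exact (Subgroup.closure_le _).2 (iUnion_subset fun i => (hU i).2.2 K hK F hF fun x hx =>
    hc x (Subgroup.subset_closure (mem_iUnion.2 ⟨i, hx⟩)))

theorem zit_one {U : Set G} (hU : Indec U) : Conn (Subgroup.closure U) ∧
    ∃ k : ℕ, ∀ x ∈ Subgroup.closure U, ∃ a ∈ U ^ k, ∃ b ∈ U ^ k, x = a * b⁻¹ := by
  obtain ⟨h, l, hl⟩ := zit (ι := Unit) (U := fun _ => U) fun _ => hU
  rw [iUnion_const] at h hl
  rw [List.map_const', List.prod_replicate] at hl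
  exact ⟨h, _, hl⟩

theorem indec_orbit (hT : Conn T) {α : G → G} (hα : Dm1 α) (hh : HomOn α T) :
    Indec ((fun h => (α h)⁻¹ * h) '' T) := by
  have hc : Dm1 fun h => (α h)⁻¹ * h := (Dm.inv hα).mul (Dm.var _)
  refine ⟨Ds.image hT.1 hc, ⟨1, T.one_mem, by simp [hh.one]⟩, fun K hK F hF hcov => ?_⟩
  have hN : ∀ h ∈ T, h ∈ Nm (core T K) := fun h hh => le_Nm_core hh
  let T₀ : Subgroup G :=
    { carrier := {h | h ∈ T ∧ (α h)⁻¹ * h ∈ core T K}
      one_mem' := ⟨T.one_mem, by rw [hh.one]; simp⟩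
      mul_mem' := fun {a b} ha hb => ⟨T.mul_mem ha.1 hb.1, by
        convert Subgroup.mul_mem _ hb.2 (conj_mem' (hN b hb.1) ha.2) using 1
        rw [hh a ha.1 b hb.1]; group⟩
      inv_mem' := fun {a} ha => ⟨T.inv_mem ha.1, by
        convert Subgroup.inv_mem _ (conj_mem (hN a ha.1) ha.2) using 1
        rw [hh.inv ha.1]; group⟩ }
  have hT₀ : Df T₀ := Ds.inter hT.1 (Ds.preimage (hT.1.core hK) hc)
  obtain ⟨t, ht, htT, hti⟩ := exists_finite_inter (s := (T : Set G))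
    (F := fun a => K.comap (MulAut.conj a).toMonoidHom) fun a _ => hK.comap (dm1_conj a)
  choose! φ hφ hφ' using hcov
  have := ht.to_subtype
  have hi : T₀.relIndex T ≠ 0 := by
    refine relIndex_ne_zero_of_color (s := {f : t → G | ∀ i, f i ∈ F}) (Finite.pi' fun _ => hF)
      (c := fun h (a : t) => φ ((α (h⁻¹ * (a : G)⁻¹))⁻¹ * (h⁻¹ * (a : G)⁻¹)))
      (fun h hh a => hφ _ ⟨_, T.mul_mem (T.inv_mem hh) (T.inv_mem (htT a.2)), rfl⟩)
      fun h h1 h' h2 e => ⟨T.mul_mem (T.inv_mem h1) h2, ?_⟩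
    have key : h' * (α h')⁻¹ * α h * h⁻¹ ∈ core T K := by
      refine fun a ha => hti _ (fun b hb => ?_) a ha
      have hb' : b ∈ T := htT hb
      have e1 := hφ' _ ⟨_, T.mul_mem (T.inv_mem h1) (T.inv_mem hb'), rfl⟩
      have e2 := hφ' _ ⟨_, T.mul_mem (T.inv_mem h2) (T.inv_mem hb'), rfl⟩
      rw [show φ _ = φ _ from congrFun e ⟨b, hb⟩] at e1
      have e3 := K.mul_mem (K.inv_mem e2) e1
      change b * _ * b⁻¹ ∈ K
      convert e3 using 1
      dsimp only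
      generalize φ _ = z
      rw [hh _ (T.inv_mem h1) _ (T.inv_mem hb'), hh _ (T.inv_mem h2) _ (T.inv_mem hb'),
        hh.inv h1, hh.inv h2]
      group
    convert conj_mem' (hN h' h2) key using 1
    rw [hh _ (T.inv_mem h1) _ h2, hh.inv h1]; group
  rintro _ ⟨h, hh, rfl⟩
  exact core_le (hT.2 T₀ hT₀ hi hh).2

omit [RG G] in
theorem Conn.indec (h : Conn H) : Indec (H : Set G) :=
  ⟨h.1, H.one_mem, fun K hK _ hF hc => h.2 K hK (relIndex_ne_zero_of_cover hF hc)⟩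

theorem Conn.comm_right (h : Conn H) (K : Subgroup G) : Conn ⁅K, H⁆ := by
  have := (zit (ι := K) fun k => indec_orbit h (dm1_conj (k : G)) fun a _ b _ => map_mul _ a b).1
  convert this using 1
  rw [Subgroup.commutator_def]
  congr 1
  ext x
  simp only [mem_ofPred_eq, mem_iUnion, mem_image, SetLike.mem_coe, MulAut.conj_apply]
  constructor
  · rintro ⟨k, hk, a, ha, rfl⟩
    exact ⟨⟨k, hk⟩, a⁻¹, H.inv_mem ha, by rw [commutatorElement_def]; group⟩
  · rintro ⟨k, a, ha, rfl⟩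
    exact ⟨k, k.2, a⁻¹, H.inv_mem ha, by rw [commutatorElement_def]; group⟩

theorem Conn.comm_left (h : Conn H) (K : Subgroup G) : Conn ⁅H, K⁆ :=
  Subgroup.commutator_comm K H ▸ h.comm_right K

theorem conn_sSup {s : Set (Subgroup G)} (h : ∀ H ∈ s, Conn H) : Conn (sSup s) := by
  have := (zit (ι := s) (U := fun H => (H.1 : Set G)) fun H => (h H H.2).indec).1
  simpa only [Subgroup.closure_iUnion, Subgroup.closure_eq, ← sSup_eq_iSup'] using this

theorem Conn.sup (h : Conn H) (h' : Conn K) : Conn (H ⊔ K) := by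
  rw [← sSup_pair]
  refine conn_sSup ?_
  rintro _ (rfl | rfl) <;> assumption

theorem Conn.itc (h : Conn K) (X : Subgroup G) (n : ℕ) : Conn (itc K X n) := by
  induction n with
  | zero => exact h
  | succ n ih => exact ih.comm_left X

theorem Conn.der (h : Conn H) (n : ℕ) : Conn (der H n) := by
  induction n with
  | zero => exact h
  | succ n ih => exact ih.comm_left _

/-- the subgroup generated by the inverted elements of a connected group -/
theorem Conn.closure_inv (h : Conn H) (hσ : Dm1 σ) (h2 : ∀ x, σ (σ x) = x) (hs : Stb σ H) :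
    Conn (Subgroup.closure {x | x ∈ H ∧ σ x = x⁻¹}) := by
  have := (zit_one (indec_orbit h hσ fun a _ b _ => map_mul σ a b)).1
  convert this using 2
  ext x
  constructor
  · rintro ⟨hx, e⟩
    refine ⟨rt x, (u2 G).rt_mem h.1.rc hx, ?_⟩
    simp only
    rw [(u2 G).map_rt, e, (u2 G).rt_inv, inv_inv, (u2 G).rt_sq]
  · rintro ⟨y, hy, rfl⟩
    exact ⟨H.mul_mem (H.inv_mem (hs.mem hy)) hy, by simp [h2]⟩

theorem Conn.fix (h : Conn H) (hσ : Dm1 σ) (h2 : ∀ x, σ (σ x) = x) (hs : Stb σ H) :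
    Conn (H ⊓ Fix σ) := by
  have hC := h.1.inf (df_fix hσ)
  refine ⟨hC, fun K hK hi c hc => ?_⟩
  obtain ⟨F, hF, hFC, hcov⟩ := cover_of_relIndex hi
  set M := (H ⊓ Fix σ) ⊓ K with hM
  set W : Set G := {g | ∃ s, s ∈ H ∧ σ s = s⁻¹ ∧ g * s⁻¹ ∈ M} with hWd
  have hW : Ds W := Dp.ex (r := fun (v : Fin 1 → G) s => s ∈ H ∧ σ s = s⁻¹ ∧ v 0 * s⁻¹ ∈ M)
    ((h.1.mem (Dm.var _)).and ((Dp.eq (hσ.comp (Dm.var _)) (Dm.var _).inv).and
      ((hC.inf hK).mem ((Dm.var _).mul (Dm.var _).inv))))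
  have hWH : W ⊆ H := by
    rintro g ⟨s, h1, -, h3⟩
    simpa using H.mul_mem h3.1.1 h1
  obtain ⟨r, hr, hr'⟩ := exists_rk (U := (H : Set G)) ⟨1, H.one_mem⟩
  have hrW : Rk r W := by
    obtain ⟨t, -, ht⟩ := Rk.biUnion hF (fun t _ => hW.tr t) (hr.mono fun g hg => by
      obtain ⟨d, s, e1, e2, rfl⟩ := (u2 G).dec1 h2 g
      have hsH : s ∈ H := h.1.rc s (by
        convert H.mul_mem (H.inv_mem (hs.mem hg)) hg using 1
        rw [map_mul, e1, e2]; group)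
      have hd : d ∈ H ⊓ Fix σ := ⟨by simpa using H.mul_mem hg (H.inv_mem hsH), e1⟩
      obtain ⟨t, ht, h3⟩ := hcov d hd
      refine mem_iUnion₂.2 ⟨t, ht, s, hsH, e2, ?_⟩
      rw [show t⁻¹ * (d * s) * s⁻¹ = t⁻¹ * d by group]
      exact ⟨Subgroup.mul_mem _ (Subgroup.inv_mem _ (hFC ht)) hd, h3⟩)
    exact ht.of_tr
  obtain ⟨x, ⟨s, -, e, hx⟩, s', -, e', hx'⟩ := h.deg1 r W (tr c⁻¹ W) hW (hW.tr _) hWH
    (fun x hx => by simpa using H.mul_mem (H.inv_mem hc.1) (hWH hx)) hrW (hrW.tr _) hr'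
  rw [inv_inv] at hx'
  have e2 : s = s' := (u2 G).dec1_unique (c := c * (x * s⁻¹)) (c' := c * x * s'⁻¹)
    (by rw [map_mul, show σ c = c from hc.2, mem_Fix.1 hx.1.2]) hx'.1.2 e e' (by group)
  subst e2
  simpa [mul_assoc] using K.mul_mem hx'.2 (K.inv_mem hx.2)

/-- normaliser condition (use the last term of the lower central series not inside X) -/
theorem le_of_cc_nm_le (hF : Conn F) (hn : Nil F) (hX : Df X) (hXF : X ≤ F)
    (h : cc (F ⊓ Nm X) ≤ X) : F ≤ X := by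
  by_contra hc
  obtain ⟨n, hn⟩ := hn
  obtain ⟨i, h1, h2⟩ := exists_last (s := itc F F) hc hn
  refine h1 (((hF.itc F i).le_cc (hF.1.inf hX.nm)
    (le_inf (itc_le Subgroup.le_normalizer i) (le_Nm_of_comm_le ?_))).trans h)
  rw [Subgroup.commutator_comm]
  exact (Subgroup.commutator_mono le_rfl hXF).trans h2

/-- the stable term of a non-unipotent action -/
theorem exists_stable (hK : Conn K) (hX : X ≤ Nm K) (h : ¬Unip K X) :
    ∃ n, itc K X n ≠ ⊥ ∧ ⁅itc K X n, X⁆ = itc K X n := by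
  obtain ⟨_, ⟨n, rfl⟩, hm⟩ := exists_minimal (s := range (itc K X))
    (by rintro _ ⟨n, rfl⟩; exact (hK.itc X n).1) (range_nonempty _)
  exact ⟨n, fun e => h ⟨n, e⟩, hm _ ⟨n + 1, rfl⟩ (itc_succ_le hX n)⟩

theorem MinS.ab (h : MinS A) (hs : Sol A) : Ab A := by
  refine ab_iff_comm.2 (by_contra fun hne => h.ne_bot (hs.eq_bot ?_))
  have hc := h.conn.comm_left A
  exact h.2.2 _ hc.1 comm_le_self (hc.infinite hne)

/-- existence of minimal invariant connected subgroups -/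
theorem exists_min_inv (hA : Conn A) (hne : A ≠ ⊥) (hX : X ≤ Nm A) :
    ∃ Y, Conn Y ∧ Y ≤ A ∧ Y ≠ ⊥ ∧ X ≤ Nm Y ∧
      ∀ W, Conn W → W ≤ Y → X ≤ Nm W → W = ⊥ ∨ W = Y := by
  obtain ⟨Y, hY, hm⟩ := exists_minimal (s := {Y | Conn Y ∧ Y ≤ A ∧ Y ≠ ⊥ ∧ X ≤ Nm Y})
    (fun _ h => h.1.1) ⟨A, hA, le_rfl, hne, hX⟩
  exact ⟨Y, hY.1, hY.2.1, hY.2.2.1, hY.2.2.2, fun W h1 h2 h3 =>
    or_iff_not_imp_left.2 fun h4 => hm W ⟨h1, h2.trans hY.2.1, h4, h3⟩ h2⟩

end Pool.Agent.MP_fcbc9a_lc.H58
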